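import Pool.Agent.Helper9.RS.Defs
import Pool.Agent.Helper9.PF.ProdBound

/-!
PROJECT RS, module RS-06. Mertens type estimates.

`recip`: let `A k = ∑_{p ≤ 2^k} log p / p ≤ (k + 2) log 2` (`Pool.Agent.Helper9.Omg.mertens_upper`). For `K = 2^s`, `K ≥ 4`: `∑_{p ≤ 2^K} 1/p = 1/2 + ∑_{k=1}^{K-1} ∑_{2^k < p ≤ 2^(k+1)} 1/p ≤ 1/2 + ∑_{k=1}^{K-1} (A (k+1) - A k) / (k log 2)`, by Abel summation
`≤ 1/2 + A K / ((K-1) log 2) + ∑_{k=2}^{K-1} A k / log 2 (1/(k-1) - 1/k) ≤ 1/2 + (K+2)/(K-1) + ∑_{k=2}^{K-1} (k+2)/(k(k-1)) ≤ 1/2 + 2 + (1 + log K) + 2`, `log K = s log 2`. `K = 1, 2`: `1/2`, `1/2 + 1/3`.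
`VV_lower`: `∏_{l ∈ PP y z} (1 - 1/l) ≥ ∏_{l ∈ PP 1 z} (1 - 1/l)` (all factors in `(0, 1]`), `1 - t ≥ exp (-t - t^2)` for `0 ≤ t ≤ 1/2`, `∑ 1/l^2 ≤ 1/2` over primes (`≤ ∑_{n ≥ 2} 1/n^2 ≤ 1`, then use `exp(-7)`: `exp 7 ≤ 1100`; better `∑_{l} 1/l^2 ≤ 1/4 + ∑_{n ≥ 3} 1/n^2
≤ 1/4 + 1/2 = 3/4` and `exp(-6.75) ≥ 1/1000`).
`VV_upper`: if `2 ^ t ≤ y` then `PP` is empty and `2 y / t ≥ 1` (`t ≤ 2^t`); else `Pool.Agent.Helper9.PF.prod_bound` gives `≤ y / (t log 2)`.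
`eps_small`: `exp n ≥ n^n / n!` (one term of the exponential series), `n = 16 (s + 6)`: `(n/16)^n / n! ≤ (e/16)^n ≤ (1/2)^n`. `sq_sum`: `∑_{l > y} 1/l^2 ≤ 1/y` (telescoping over all integers).
-/

set_option autoImplicit false

namespace Pool.Agent.Helper9.RS

open Finset

private theorem mem_PP_rc {y z l : ℕ} : l ∈ PP y z ↔ (y < l ∧ l ≤ z) ∧ l.Prime := by
  unfold PP
  rw [Finset.mem_filter, Finset.mem_Ioc]

private theorem two_le_rc {y z l : ℕ} (h : l ∈ PP y z) : (2 : ℝ) ≤ l := by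
  exact_mod_cast (mem_PP_rc.1 h).2.two_le

private theorem fac_nonneg_rc {y z l : ℕ} (h : l ∈ PP y z) : 0 < 1 - 1 / (l : ℝ) := by
  have h2 := two_le_rc h
  have h1 : 1 / (l : ℝ) ≤ 1 / 2 := one_div_le_one_div_of_le (by norm_num) h2
  linarith

private theorem fac_le_rc {y z l : ℕ} (h : l ∈ PP y z) : 1 - 1 / (l : ℝ) ≤ 1 := by
  have h2 := two_le_rc h
  have h1 : 0 ≤ 1 / (l : ℝ) := by positivity
  linarith

/-- Mertens upper bound -/
private theorem mert_rc (n : ℕ) (hn : 1 ≤ n) :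
    ∑ p ∈ PP 0 n, Real.log p / (p : ℝ) ≤ Real.log n + Real.log 4 := by
  classical
  have hnR : (0 : ℝ) < n := by exact_mod_cast hn
  set S := PP 0 n with hS
  have hmem : ∀ p, p ∈ S ↔ p ≤ n ∧ p.Prime := by
    intro p
    rw [hS, mem_PP_rc]
    constructor
    · rintro ⟨⟨_, h⟩, h2⟩
      exact ⟨h, h2⟩
    · rintro ⟨h, h2⟩
      exact ⟨⟨h2.pos, h⟩, h2⟩
  have h1 : ∑ p ∈ S, Real.log p * ((n / p : ℕ) : ℝ) ≤ n * Real.log n := by
    have e1 : ∑ p ∈ S, Real.log p * ((n / p : ℕ) : ℝ) =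
        ∑ m ∈ Ioc 0 n, ∑ p ∈ S.filter (fun p => p ∣ m), Real.log p := by
      have e2 : ∀ p ∈ S, Real.log p * ((n / p : ℕ) : ℝ) =
          ∑ m ∈ Ioc 0 n, if p ∣ m then Real.log p else 0 := by
        intro p _
        rw [← Finset.sum_filter, Finset.sum_const, Nat.Ioc_filter_dvd_card_eq_div, nsmul_eq_mul]
        ring
      rw [Finset.sum_congr rfl e2, Finset.sum_comm]
      apply Finset.sum_congr rfl
      intro m _
      exact (Finset.sum_filter _ _).symm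
    rw [e1]
    have e3 : ∀ m ∈ Ioc 0 n, ∑ p ∈ S.filter (fun p => p ∣ m), Real.log p ≤ Real.log n := by
      intro m hm
      rw [Finset.mem_Ioc] at hm
      have h2 : ∑ p ∈ S.filter (fun p => p ∣ m), Real.log p ≤
          ∑ d ∈ m.divisors, ArithmeticFunction.vonMangoldt d := by
        have h3 : ∀ p ∈ S.filter (fun p => p ∣ m), Real.log p = ArithmeticFunction.vonMangoldt p := by
          intro p hp
          rw [Finset.mem_filter, hmem] at hp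
          rw [ArithmeticFunction.vonMangoldt_apply_prime hp.1.2]
        rw [Finset.sum_congr rfl h3]
        apply Finset.sum_le_sum_of_subset_of_nonneg
        · intro p hp
          rw [Finset.mem_filter] at hp
          rw [Nat.mem_divisors]
          exact ⟨hp.2, by omega⟩
        · intro _ _ _
          exact ArithmeticFunction.vonMangoldt_nonneg
      rw [ArithmeticFunction.vonMangoldt_sum] at h2
      refine h2.trans ?_
      apply Real.log_le_log (by exact_mod_cast hm.1)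
      exact_mod_cast hm.2
    refine (Finset.sum_le_sum e3).trans ?_
    rw [Finset.sum_const, Nat.card_Ioc, nsmul_eq_mul, Nat.sub_zero]
  have h2 : ∑ p ∈ S, Real.log p ≤ Real.log 4 * n := by
    have := Chebyshev.theta_le_log4_mul_x (x := (n : ℝ)) hnR.le
    rw [Chebyshev.theta_eq_sum_Icc] at this
    refine le_trans ?_ this
    rw [Nat.floor_natCast]
    apply Finset.sum_le_sum_of_subset_of_nonneg
    · intro p hp
      rw [hmem] at hp
      rw [Finset.mem_filter, Finset.mem_Icc]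
      exact ⟨⟨by omega, hp.1⟩, hp.2⟩
    · intro p _ _
      exact Real.log_natCast_nonneg p
  have h3 : n * ∑ p ∈ S, Real.log p / p ≤ n * (Real.log n + Real.log 4) := by
    have e1 : n * ∑ p ∈ S, Real.log p / p ≤
        ∑ p ∈ S, (Real.log p * ((n / p : ℕ) : ℝ) + Real.log p) := by
      rw [Finset.mul_sum]
      apply Finset.sum_le_sum
      intro p hp
      rw [hmem] at hp
      have hlog : 0 ≤ Real.log p := Real.log_natCast_nonneg p
      have hp0 : (0 : ℝ) < p := by exact_mod_cast hp.2.pos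
      have hfl : (n : ℝ) / p ≤ ((n / p : ℕ) : ℝ) + 1 := by
        rw [div_le_iff₀ hp0]
        have : n < (n / p + 1) * p := by
          have := Nat.lt_div_mul_add (a := n) hp.2.pos
          linarith
        exact_mod_cast this.le
      calc (n : ℝ) * (Real.log p / p) = Real.log p * (n / p) := by ring
        _ ≤ Real.log p * (((n / p : ℕ) : ℝ) + 1) := mul_le_mul_of_nonneg_left hfl hlog
        _ = Real.log p * ((n / p : ℕ) : ℝ) + Real.log p := by ring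
    rw [Finset.sum_add_distrib] at e1
    linarith
  exact le_of_mul_le_mul_left h3 hnR

private theorem log4_rc : Real.log 4 = 2 * Real.log 2 := by
  rw [show (4 : ℝ) = 2 ^ 2 by norm_num, Real.log_pow]
  norm_num

private theorem mert2_rc (k : ℕ) :
    ∑ p ∈ PP 0 (2 ^ k), Real.log p / (p : ℝ) ≤ (k + 2) * Real.log 2 := by
  have h := mert_rc (2 ^ k) Nat.one_le_two_pow
  rw [log4_rc] at h
  push_cast at h
  rw [Real.log_pow] at h
  linarith

private theorem split_rc (k : ℕ) (f : ℕ → ℝ) :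
    ∑ p ∈ PP 0 (2 ^ (k + 1)), f p = ∑ p ∈ PP 0 (2 ^ k), f p + ∑ p ∈ PP (2 ^ k) (2 ^ (k + 1)), f p := by
  have h1 : PP 0 (2 ^ (k + 1)) = PP 0 (2 ^ k) ∪ PP (2 ^ k) (2 ^ (k + 1)) := by
    ext p
    rw [Finset.mem_union, mem_PP_rc, mem_PP_rc, mem_PP_rc]
    have : 2 ^ k ≤ 2 ^ (k + 1) := Nat.pow_le_pow_right (by norm_num) (by omega)
    constructor
    · rintro ⟨⟨h1, h2⟩, h3⟩
      by_cases h4 : p ≤ 2 ^ k
      · exact Or.inl ⟨⟨h1, h4⟩, h3⟩
      · exact Or.inr ⟨⟨by omega, h2⟩, h3⟩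
    · rintro (⟨⟨h1, h2⟩, h3⟩ | ⟨⟨h1, h2⟩, h3⟩)
      · exact ⟨⟨h1, by omega⟩, h3⟩
      · exact ⟨⟨by omega, h2⟩, h3⟩
  rw [h1, Finset.sum_union]
  rw [Finset.disjoint_left]
  intro p h2 h3
  rw [mem_PP_rc] at h2 h3
  omega

private theorem block_rc (k : ℕ) (hk : 1 ≤ k) :
    ∑ p ∈ PP (2 ^ k) (2 ^ (k + 1)), 1 / (p : ℝ) ≤
      (∑ p ∈ PP (2 ^ k) (2 ^ (k + 1)), Real.log p / (p : ℝ)) / (k * Real.log 2) := by
  have hk0 : (0 : ℝ) < k := by exact_mod_cast hk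
  have hl : 0 < Real.log 2 := Real.log_pos (by norm_num)
  rw [Finset.sum_div]
  apply Finset.sum_le_sum
  intro p hp
  have hp0 : (0 : ℝ) < p := lt_of_lt_of_le (by norm_num) (two_le_rc hp)
  rw [mem_PP_rc] at hp
  have h1 : (k : ℝ) * Real.log 2 ≤ Real.log p := by
    rw [← Real.log_pow]
    apply Real.log_le_log (by positivity)
    exact_mod_cast hp.1.1.le
  rw [le_div_iff₀ (by positivity)]
  calc 1 / (p : ℝ) * (k * Real.log 2) ≤ 1 / (p : ℝ) * Real.log p :=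
        mul_le_mul_of_nonneg_left h1 (by positivity)
    _ = Real.log p / p := by ring

private theorem PPtwo_rc : PP 0 (2 ^ 1) = {2} := by
  ext p
  rw [mem_PP_rc, Finset.mem_singleton]
  constructor
  · rintro ⟨⟨h1, h2⟩, h3⟩
    have := h3.two_le
    omega
  · rintro rfl
    exact ⟨⟨by norm_num, by norm_num⟩, Nat.prime_two⟩

private theorem main_rc (K : ℕ) (hK : 1 ≤ K) :
    ∑ p ∈ PP 0 (2 ^ K), 1 / (p : ℝ) -
      (∑ p ∈ PP 0 (2 ^ K), Real.log p / (p : ℝ)) / (K * Real.log 2) ≤ Real.log K + 3 - 3 / K := by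
  have hl : 0 < Real.log 2 := Real.log_pos (by norm_num)
  induction K, hK using Nat.le_induction with
  | base =>
    rw [PPtwo_rc, Finset.sum_singleton, Finset.sum_singleton]
    push_cast
    rw [Real.log_one]
    have : Real.log 2 / 2 / (1 * Real.log 2) = 1 / 2 := by field_simp
    rw [this]
    norm_num
  | succ k hk ih =>
    have hk0 : (0 : ℝ) < k := by exact_mod_cast hk
    have hb := block_rc k hk
    have hA := mert2_rc (k + 1)
    rw [split_rc k (fun p => 1 / (p : ℝ))]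
    rw [split_rc k (fun p => Real.log p / (p : ℝ))] at hA ⊢
    set B := ∑ p ∈ PP 0 (2 ^ k), 1 / (p : ℝ)
    set A := ∑ p ∈ PP 0 (2 ^ k), Real.log p / (p : ℝ)
    set b := ∑ p ∈ PP (2 ^ k) (2 ^ (k + 1)), 1 / (p : ℝ)
    set a := ∑ p ∈ PP (2 ^ k) (2 ^ (k + 1)), Real.log p / (p : ℝ)
    push_cast at hA ⊢
    have hlog : 1 / ((k : ℝ) + 1) ≤ Real.log ((k : ℝ) + 1) - Real.log k := by
      rw [← Real.log_div (by positivity) (by positivity)]
      have h := Real.one_sub_inv_le_log_of_pos (x := ((k : ℝ) + 1) / k) (by positivity)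
      have h2 : 1 - (((k : ℝ) + 1) / k)⁻¹ = 1 / ((k : ℝ) + 1) := by
        rw [inv_div]
        field_simp
        ring
      rw [h2] at h
      exact h
    have e1 : a / (k * Real.log 2) + A / (k * Real.log 2) - (A + a) / (((k : ℝ) + 1) * Real.log 2) =
        (A + a) / Real.log 2 * (1 / ((k : ℝ) * (k + 1))) := by
      field_simp
      ring
    have e2 : (A + a) / Real.log 2 ≤ k + 3 := by
      rw [div_le_iff₀ hl]
      linarith
    have e3 : (A + a) / Real.log 2 * (1 / ((k : ℝ) * (k + 1))) ≤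
        (k + 3) * (1 / ((k : ℝ) * (k + 1))) := mul_le_mul_of_nonneg_right e2 (by positivity)
    have e4 : ((k : ℝ) + 3) * (1 / ((k : ℝ) * (k + 1))) = 1 / ((k : ℝ) + 1) + (3 / k - 3 / (k + 1)) := by
      field_simp
      ring
    linarith

private theorem recipK_rc (K : ℕ) (hK : 1 ≤ K) :
    ∑ p ∈ PP 0 (2 ^ K), 1 / (p : ℝ) ≤ Real.log K + 4 := by
  have hl : 0 < Real.log 2 := Real.log_pos (by norm_num)
  have hK0 : (0 : ℝ) < K := by exact_mod_cast hK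
  have h1 := main_rc K hK
  have h2 : (∑ p ∈ PP 0 (2 ^ K), Real.log p / (p : ℝ)) / (K * Real.log 2) ≤ 1 + 2 / K := by
    rw [div_le_iff₀ (by positivity)]
    refine (mert2_rc K).trans (le_of_eq ?_)
    field_simp
  have h3 : 2 / (K : ℝ) ≤ 3 / K := by
    apply div_le_div_of_nonneg_right (by norm_num) hK0.le
  linarith

private theorem recip4_rc (s : ℕ) : ∑ l ∈ PP 0 (2 ^ 2 ^ s), 1 / (l : ℝ) ≤ s * Real.log 2 + 4 := by
  have h := recipK_rc (2 ^ s) Nat.one_le_two_pow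
  push_cast at h
  rw [Real.log_pow] at h
  exact h

private theorem sub_rc (y z : ℕ) : PP y z ⊆ PP 0 z := by
  intro p hp
  rw [mem_PP_rc] at hp ⊢
  exact ⟨⟨by omega, hp.1.2⟩, hp.2⟩

theorem recip (s : ℕ) : ∑ l ∈ PP 0 (2 ^ 2 ^ s), 1 / (l : ℝ) ≤ s * Real.log 2 + 6 := by
  have := recip4_rc s
  linarith

theorem recip' (y s : ℕ) : ∑ l ∈ PP y (2 ^ 2 ^ s), 1 / (l : ℝ) ≤ s + 6 := by
  have h1 : ∑ l ∈ PP y (2 ^ 2 ^ s), 1 / (l : ℝ) ≤ ∑ l ∈ PP 0 (2 ^ 2 ^ s), 1 / (l : ℝ) :=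
    Finset.sum_le_sum_of_subset_of_nonneg (sub_rc _ _) fun _ _ _ => by positivity
  have h2 := recip s
  have h3 : (s : ℝ) * Real.log 2 ≤ s * 1 :=
    mul_le_mul_of_nonneg_left (by have := Real.log_two_lt_d9; linarith) (by positivity)
  linarith

theorem sq_sum (y z : ℕ) (hy : 1 ≤ y) : ∑ l ∈ PP y z, (1 : ℝ) / (l : ℝ) ^ 2 ≤ (1 : ℝ) / y := by
  by_cases hyz : y ≤ z
  · have h1 : ∑ l ∈ PP y z, (1 : ℝ) / (l : ℝ) ^ 2 ≤ ∑ l ∈ Ioc y z, (1 : ℝ) / (l : ℝ) ^ 2 :=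
      Finset.sum_le_sum_of_subset_of_nonneg (Finset.filter_subset _ _) fun _ _ _ => by positivity
    have h2 := sum_Ioc_inv_sq_le_sub (α := ℝ) (k := y) (n := z) (by omega) hyz
    have h3 : ∑ l ∈ Ioc y z, (1 : ℝ) / (l : ℝ) ^ 2 = ∑ i ∈ Ioc y z, ((i : ℝ) ^ 2)⁻¹ :=
      Finset.sum_congr rfl fun _ _ => one_div _
    have h4 : (0 : ℝ) ≤ (z : ℝ)⁻¹ := by positivity
    rw [one_div (y : ℝ)]
    linarith
  · have : PP y z = ∅ := by
      ext p
      rw [mem_PP_rc]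
      simp only [Finset.notMem_empty, iff_false]
      omega
    rw [this, Finset.sum_empty]
    positivity

private theorem one_sub_rc (t : ℝ) (_h0 : 0 ≤ t) (h1 : t ≤ 1 / 2) :
    Real.exp (-t - 2 * t ^ 2) ≤ 1 - t := by
  have hp : 0 < 1 - t := by linarith
  have h := Real.one_sub_inv_le_log_of_pos hp
  rw [← Real.le_log_iff_exp_le hp]
  refine le_trans ?_ h
  have h2 : (1 - t)⁻¹ ≤ 1 + t + 2 * t ^ 2 := by
    rw [inv_le_iff_one_le_mul₀ hp]
    nlinarith [mul_nonneg (sq_nonneg t) (by linarith : (0 : ℝ) ≤ 1 - 2 * t)]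
  linarith

theorem VV_lower (y s : ℕ) (hy : 1 ≤ y) : 1 / (1000 * 2 ^ s : ℝ) ≤ VV y (2 ^ 2 ^ s) := by
  have h1 : ∏ l ∈ PP 0 (2 ^ 2 ^ s), (1 - 1 / (l : ℝ)) ≤ ∏ l ∈ PP y (2 ^ 2 ^ s), (1 - 1 / (l : ℝ)) :=
    Finset.prod_le_prod_of_subset_of_le_one (sub_rc _ _) (fun l hl => (fac_nonneg_rc hl).le)
      (fun l hl _ => fac_le_rc hl)
  have h2 : Real.exp (-(∑ l ∈ PP 0 (2 ^ 2 ^ s), 1 / (l : ℝ)) -
      2 * ∑ l ∈ PP 0 (2 ^ 2 ^ s), (1 : ℝ) / (l : ℝ) ^ 2) ≤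
      ∏ l ∈ PP 0 (2 ^ 2 ^ s), (1 - 1 / (l : ℝ)) := by
    have e1 : -(∑ l ∈ PP 0 (2 ^ 2 ^ s), 1 / (l : ℝ)) -
      2 * ∑ l ∈ PP 0 (2 ^ 2 ^ s), (1 : ℝ) / (l : ℝ) ^ 2 =
      ∑ l ∈ PP 0 (2 ^ 2 ^ s), (-(1 / (l : ℝ)) - 2 * (1 / (l : ℝ)) ^ 2) := by
      rw [Finset.sum_sub_distrib, Finset.sum_neg_distrib, ← Finset.mul_sum]
      congr 2
      exact Finset.sum_congr rfl fun l _ => by rw [div_pow, one_pow]
    rw [e1, Real.exp_sum]
    apply Finset.prod_le_prod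
    · intro l _
      exact (Real.exp_pos _).le
    · intro l hl
      have h3 := two_le_rc hl
      exact one_sub_rc _ (by positivity) (one_div_le_one_div_of_le (by norm_num) h3)
  have h3 := recip4_rc s
  have h4 : ∑ l ∈ PP 0 (2 ^ 2 ^ s), (1 : ℝ) / (l : ℝ) ^ 2 ≤ 1 := by
    have e : PP 0 (2 ^ 2 ^ s) = PP 1 (2 ^ 2 ^ s) := by
      ext p
      rw [mem_PP_rc, mem_PP_rc]
      constructor
      · rintro ⟨⟨_, h⟩, h2⟩
        exact ⟨⟨h2.one_lt, h⟩, h2⟩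
      · rintro ⟨⟨_, h⟩, h2⟩
        exact ⟨⟨h2.pos, h⟩, h2⟩
    rw [e]
    have := sq_sum 1 (2 ^ 2 ^ s) le_rfl
    simpa using this
  have h5 : Real.exp (-(s * Real.log 2) - 6) ≤ Real.exp (-(∑ l ∈ PP 0 (2 ^ 2 ^ s), 1 / (l : ℝ)) -
      2 * ∑ l ∈ PP 0 (2 ^ 2 ^ s), (1 : ℝ) / (l : ℝ) ^ 2) := by
    apply Real.exp_le_exp.2
    linarith
  have h6 : Real.exp (-(s * Real.log 2) - 6) = 1 / (Real.exp 6 * 2 ^ s) := by
    rw [Real.exp_sub, Real.exp_neg, ← Real.log_pow, Real.exp_log (by positivity)]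
    field_simp
  have h7 : Real.exp 6 ≤ 1000 := by
    have e1 : Real.exp 6 = Real.exp 1 ^ 6 := by
      rw [← Real.exp_nat_mul]
      norm_num
    rw [e1]
    have e2 : Real.exp 1 ≤ 2.7182818286 := Real.exp_one_lt_d9.le
    calc Real.exp 1 ^ 6 ≤ 2.7182818286 ^ 6 := pow_le_pow_left₀ (Real.exp_pos 1).le e2 6
      _ ≤ 1000 := by norm_num
  have h8 : 1 / (1000 * 2 ^ s : ℝ) ≤ 1 / (Real.exp 6 * 2 ^ s) := by
    apply one_div_le_one_div_of_le (by positivity)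
    exact mul_le_mul_of_nonneg_right h7 (by positivity)
  unfold VV
  linarith

theorem VV_le_one (y z : ℕ) : VV y z ≤ 1 := by
  unfold VV
  exact Finset.prod_le_one (fun l hl => (fac_nonneg_rc hl).le) fun l hl => fac_le_rc hl

theorem VV_upper (y t : ℕ) (hy : 2 ≤ y) (ht : 1 ≤ t) : VV y (2 ^ t) ≤ 2 * (y : ℝ) / t := by
  have ht0 : (0 : ℝ) < t := by exact_mod_cast ht
  by_cases h : 2 ^ t ≤ y
  · refine (VV_le_one _ _).trans ?_
    rw [le_div_iff₀ ht0]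
    have h1 : t < 2 ^ t := Nat.lt_two_pow_self
    have h2 : (t : ℝ) ≤ y := by exact_mod_cast (by omega : t ≤ y)
    have h3 : (0 : ℝ) ≤ y := by positivity
    linarith
  · have h1 := Pool.Agent.Helper9.PF.prod_bound y (2 ^ t) hy (by omega)
    unfold VV PP
    refine h1.trans ?_
    push_cast
    rw [Real.log_pow]
    have hl : 1 / 2 ≤ Real.log 2 := by have := Real.log_two_gt_d9; linarith
    rw [div_le_div_iff₀ (by positivity) ht0]
    have : (y : ℝ) * t * 1 ≤ y * t * (2 * Real.log 2) :=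
      mul_le_mul_of_nonneg_left (by linarith) (by positivity)
    linarith

theorem one_le_hh (y z n : ℕ) : 1 ≤ hh y z n := by
  unfold hh
  refine Finset.one_le_prod ?_
  intro l hl
  have hl' : l ∈ PP y z := (Finset.mem_filter.1 hl).1
  rw [one_le_inv₀ (fac_nonneg_rc hl')]
  exact fac_le_rc hl'

theorem eps_small (s : ℕ) :
    ((s : ℝ) + 6) ^ (16 * (s + 6)) / ((Nat.factorial (16 * (s + 6)) : ℕ) : ℝ) ≤
      1 / (2 : ℝ) ^ (16 * (s + 6)) := by
  set n := 16 * (s + 6) with hn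
  have h1 := Real.pow_div_factorial_le_exp (n : ℝ) (by positivity) n
  have h2 : (n : ℝ) = 16 * ((s : ℝ) + 6) := by
    rw [hn]
    push_cast
    ring
  have h3 : ((s : ℝ) + 6) ^ n = (n : ℝ) ^ n / 16 ^ n := by
    rw [← div_pow, h2]
    congr 1
    ring
  rw [h3]
  have h4 : Real.exp n ≤ 8 ^ n := by
    have e1 : Real.exp n = Real.exp 1 ^ n := by
      rw [← Real.exp_nat_mul, mul_one]
    rw [e1]
    exact pow_le_pow_left₀ (Real.exp_pos 1).le (by have := Real.exp_one_lt_d9; linarith) n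
  have h5 : (n : ℝ) ^ n / 16 ^ n / (n.factorial : ℝ) = ((n : ℝ) ^ n / (n.factorial : ℝ)) / 16 ^ n := by
    rw [div_right_comm]
  rw [h5, div_le_div_iff₀ (by positivity) (by positivity)]
  have h6 : (8 : ℝ) ^ n * 2 ^ n = 1 * 16 ^ n := by
    rw [← mul_pow, one_mul]
    norm_num
  rw [← h6]
  exact mul_le_mul_of_nonneg_right (h1.trans h4) (by positivity)

theorem log_sum (y s : ℕ) :
    ∑ l ∈ PP y (2 ^ 2 ^ s), Real.log l / l ≤ (2 ^ s + 2) * Real.log 2 := by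
  have h1 : ∑ l ∈ PP y (2 ^ 2 ^ s), Real.log l / l ≤ ∑ l ∈ PP 0 (2 ^ 2 ^ s), Real.log l / (l : ℝ) :=
    Finset.sum_le_sum_of_subset_of_nonneg (sub_rc _ _) fun l _ _ =>
      div_nonneg (Real.log_natCast_nonneg l) (by positivity)
  have h2 := mert2_rc (2 ^ s)
  push_cast at h2
  linarith

end Pool.Agent.Helper9.RS
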