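import Pool.Agent.Helper9.RS.Defs

/-!
PROJECT RS, module RS-25. The coefficients near the two places agree.

Fix `i ∈ IH H`, `k₁ = N₁ + i`, `k₀ = N₀ + i` (positive). (a) If all prime factors of `n > 0` are `≤ z` then `n ∣ k₁ ↔ n ∣ k₀`: it is enough to treat the prime powers `l^e ∣ n` (`Nat.dvd_iff_prime_pow_dvd_dvd` or factorization): `l ≤ y`: `hC.near`; `l ∈ PP y z`: `e = 1`: `l ∣ k₁ ↔ (l, i) ∈ theta N₁ ↔ (l, i) ∈ theta N₀ ↔ l ∣ k₀`; `e ≥ 2`: both sides are false by `sq1`, `sq0`.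
(b) `k₁ ≡ k₀` modulo `4` (`hC.c4`, `hC.four`, `N_b ≡ c_b [MOD Q]`). (c) An `n ∈ A` dividing `k₁` or `k₀` is `≤ z` (`b1`, `b0`). So `Fib.c n k₁ = Fib.c n k₀` for all `n ∈ A`: `n ∣ k`, `Odd (k/n) ↔ ¬ 2 n ∣ k` ((a) for `2n`, `z ≥ 2`), and `(-1)^((k - n)/2)` depends on `k` modulo `4` only (`k - n` is even and nonnegative). Both `Fib.a` are sums over the `n ∈ A`, `n ≤ k`, of `Fib.c n k`,
and the terms with `n > z` vanish, `z` may be compared with `k` or not: sum over `Icc 1 (max ..)` (terms with `k < n` vanish, `Fib.c_of_lt`).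
-/

set_option autoImplicit false

namespace Pool.Agent.Helper9.RS

open Finset

private lemma agree_dvd_imp {y z H N₁ N₀ : ℕ} {i : ℤ} (hi : i ∈ IH H) (k₁ k₀ : ℕ)
    (e1 : (k₁ : ℤ) = (N₁ : ℤ) + i) (e0 : (k₀ : ℤ) = (N₀ : ℤ) + i)
    (hnear : ∀ l : ℕ, l.Prime → l ≤ y →
      ∀ e : ℕ, ((l : ℤ) ^ e ∣ (N₁ : ℤ) + i ↔ (l : ℤ) ^ e ∣ (N₀ : ℤ) + i))
    (hth : theta y z H N₁ = theta y z H N₀)
    (sq1 : ∀ x ∈ theta y z H N₁, ¬ ((x.1 : ℤ) ^ 2 ∣ (N₁ : ℤ) + x.2))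
    (n : ℕ) (hn : ∀ l : ℕ, l.Prime → l ∣ n → l ≤ z) (h : n ∣ k₁) : n ∣ k₀ := by
  rw [Nat.dvd_iff_prime_pow_dvd_dvd]
  intro l e hl hle
  rcases Nat.eq_zero_or_pos e with he | he
  · subst he; simp
  have h1 : l ^ e ∣ k₁ := hle.trans h
  have hln : l ∣ n := (dvd_pow_self l he.ne').trans hle
  have h1' : (l : ℤ) ^ e ∣ (N₁ : ℤ) + i := by
    rw [← e1]; exact_mod_cast h1
  have hgoal : (l : ℤ) ^ e ∣ (N₀ : ℤ) + i → l ^ e ∣ k₀ := by
    intro h2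
    rw [← e0] at h2
    exact_mod_cast h2
  apply hgoal
  by_cases hly : l ≤ y
  · exact (hnear l hl hly e).1 h1'
  · have hP : l ∈ PP y z := by
      unfold PP
      rw [Finset.mem_filter, Finset.mem_Ioc]
      exact ⟨⟨by omega, hn l hl hln⟩, hl⟩
    have hl1 : (l : ℤ) ∣ (N₁ : ℤ) + i := (dvd_pow_self (l : ℤ) he.ne').trans h1'
    have hmem : (l, i) ∈ theta y z H N₁ := by
      unfold theta
      rw [Finset.mem_filter, Finset.mem_product]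
      exact ⟨⟨hP, hi⟩, hl1⟩
    rcases Nat.lt_or_ge e 2 with h2 | h2
    · have h3 : e = 1 := by omega
      subst h3
      rw [hth] at hmem
      unfold theta at hmem
      rw [Finset.mem_filter] at hmem
      rw [pow_one]
      exact hmem.2
    · exact absurd ((pow_dvd_pow (l : ℤ) h2).trans h1') (sq1 _ hmem)

private lemma agree_odd {n k : ℕ} (hn : 0 < n) (h : n ∣ k) : Odd (k / n) ↔ ¬ 2 * n ∣ k := by
  obtain ⟨d, rfl⟩ := h
  rw [Nat.mul_div_cancel_left _ hn, ← Nat.not_even_iff_odd, not_iff_not, even_iff_two_dvd, mul_comm 2 n]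
  exact (Nat.mul_dvd_mul_iff_left hn).symm

private lemma agree_pow {a b : ℕ} (h : a % 2 = b % 2) : (-1 : ℤ) ^ a = (-1) ^ b := by
  rw [neg_one_pow_eq_pow_mod_two, neg_one_pow_eq_pow_mod_two (n := b), h]

private lemma agree_sum {A : Set ℕ} {k K : ℕ} (hkK : k ≤ K) :
    Fib.a A k = ∑ n ∈ Icc 1 K, (by classical exact if n ∈ A then Fib.c n k else 0) := by
  classical
  unfold Fib.a
  apply Finset.sum_subset_zero_on_sdiff
  · exact Finset.Icc_subset_Icc le_rfl hkK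
  · intro n hn
    rw [Finset.mem_sdiff, Finset.mem_Icc, Finset.mem_Icc] at hn
    rw [Fib.c_of_lt (by omega)]
    simp
  · intro n _
    rfl

theorem agree {A : Set ℕ} {q p H y Q c₁ c₀ G R : ℕ} (hC : Cls A q p H y Q c₁ c₀ G R) (z : ℕ)
    (hz : 2 ≤ z) (hyz : y ≤ z) (h0 : 0 ∉ A) (N₁ N₀ : ℕ) (h1 : Thin Q c₁ y z N₁)
    (h2 : Thin Q c₀ y z N₀) (hH1 : H < N₁) (hH0 : H < N₀)
    (hth : theta y z H N₁ = theta y z H N₀)
    (sq1 : ∀ x ∈ theta y z H N₁, ¬ ((x.1 : ℤ) ^ 2 ∣ (N₁ : ℤ) + x.2))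
    (sq0 : ∀ x ∈ theta y z H N₀, ¬ ((x.1 : ℤ) ^ 2 ∣ (N₀ : ℤ) + x.2))
    (b1 : ¬ B1 A z H N₁) (b0 : ¬ B1 A z H N₀) (i : ℤ) (hi : i ∈ IH H) :
    Fib.a A ((N₁ : ℤ) + i).toNat = Fib.a A ((N₀ : ℤ) + i).toNat := by
  have hiH : |i| ≤ H := by
    unfold IH at hi
    rw [Finset.mem_erase, Finset.mem_Icc] at hi
    exact abs_le.2 hi.2
  have habs := abs_le.1 hiH
  obtain ⟨k₁, hk1⟩ : ∃ k : ℕ, k = ((N₁ : ℤ) + i).toNat := ⟨_, rfl⟩
  obtain ⟨k₀, hk0⟩ : ∃ k : ℕ, k = ((N₀ : ℤ) + i).toNat := ⟨_, rfl⟩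
  have e1 : (k₁ : ℤ) = (N₁ : ℤ) + i := by omega
  have e0 : (k₀ : ℤ) = (N₀ : ℤ) + i := by omega
  rw [← hk1, ← hk0]
  have hk1p : 0 < k₁ := by omega
  have hk0p : 0 < k₀ := by omega
  have hnear : ∀ l : ℕ, l.Prime → l ≤ y →
      ∀ e : ℕ, ((l : ℤ) ^ e ∣ (N₁ : ℤ) + i ↔ (l : ℤ) ^ e ∣ (N₀ : ℤ) + i) :=
    hC.near N₁ N₀ h1.1 h2.1 i hi
  have hdvd : ∀ n : ℕ, (∀ l : ℕ, l.Prime → l ∣ n → l ≤ z) → (n ∣ k₁ ↔ n ∣ k₀) := by
    intro n hn
    constructor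
    · exact agree_dvd_imp hi k₁ k₀ e1 e0 hnear hth sq1 n hn
    · exact agree_dvd_imp hi k₀ k₁ e0 e1 (fun l hl hly e => (hnear l hl hly e).symm) hth.symm sq0 n hn
  have h4 : k₁ % 4 = k₀ % 4 := by
    have m1 : N₁ ≡ c₁ [MOD 4] := h1.1.of_dvd hC.four
    have m0 : N₀ ≡ c₀ [MOD 4] := h2.1.of_dvd hC.four
    have m2 : N₁ % 4 = N₀ % 4 := (m1.trans hC.c4).trans m0.symm
    omega
  have hc : ∀ n ∈ A, Fib.c n k₁ = Fib.c n k₀ := by
    intro n hn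
    have hn0 : 0 < n := Nat.pos_of_ne_zero (fun h => h0 (h ▸ hn))
    by_cases hnz : n ≤ z
    · have d1 : n ∣ k₁ ↔ n ∣ k₀ := hdvd n (fun l _ hl => (Nat.le_of_dvd hn0 hl).trans hnz)
      have d2 : 2 * n ∣ k₁ ↔ 2 * n ∣ k₀ := by
        apply hdvd
        intro l hl hln
        rcases (Nat.Prime.dvd_mul hl).1 hln with h | h
        · exact (Nat.le_of_dvd (by norm_num) h).trans hz
        · exact (Nat.le_of_dvd hn0 h).trans hnz
      by_cases hd : n ∣ k₁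
      · have hd0 : n ∣ k₀ := d1.1 hd
        have o1 := agree_odd hn0 hd
        have o0 := agree_odd hn0 hd0
        have l1 := Nat.le_of_dvd hk1p hd
        have l0 := Nat.le_of_dvd hk0p hd0
        unfold Fib.c
        by_cases ho : 2 * n ∣ k₁
        · rw [if_neg (fun h => (o1.1 h.2) ho), if_neg (fun h => (o0.1 h.2) (d2.1 ho))]
        · rw [if_pos ⟨hd, o1.2 ho⟩, if_pos ⟨hd0, o0.2 (fun h => ho (d2.2 h))⟩]
          apply agree_pow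
          omega
      · have hd0 : ¬ n ∣ k₀ := fun h => hd (d1.2 h)
        unfold Fib.c
        rw [if_neg (fun h => hd h.1), if_neg (fun h => hd0 h.1)]
    · have hd1 : ¬ n ∣ k₁ := by
        intro h
        apply b1
        refine ⟨i, hiH, n, hn, by omega, ?_⟩
        rw [← e1]; exact_mod_cast h
      have hd0 : ¬ n ∣ k₀ := by
        intro h
        apply b0
        refine ⟨i, hiH, n, hn, by omega, ?_⟩
        rw [← e0]; exact_mod_cast h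
      unfold Fib.c
      rw [if_neg (fun h => hd1 h.1), if_neg (fun h => hd0 h.1)]
  rw [agree_sum (A := A) (le_max_left k₁ k₀), agree_sum (A := A) (le_max_right k₁ k₀)]
  apply Finset.sum_congr rfl
  intro n _
  by_cases hn : n ∈ A
  · simp only [hn, if_true]
    exact hc n hn
  · simp only [hn, if_false]

end Pool.Agent.Helper9.RS
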