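import Pool.Agent.Helper9.RS.Defs

/-!
PROJECT RS, module RS-19. The near and the far part of the tail.

`x = Fib.x`, `x^4 ≤ 1/4`, `1/(1-x) = φ^2 ≤ 2.62` (`x^2 = 1 - x`). `T = 4 J₁ < 2^J₀ ≤ N`. For `|i| ≤ T`: `0 < N + i ≤ 2^J₁ + 2^J₀ ≤ 2^(J₁+1)`, so `ff A (N+i) = #{n ∈ AX A (2^(J₁+1)) : n ∣ N + i}`, and the finite sum is `∑_{H < |i| ≤ T} ff A (N+i) x^|i|`. Far part: `ff A m ≤ m`, so it is
`≤ ∑_{k > T} (N + k) x^k + ∑_{k > T} N x^k ≤ 2 N x^(T+1)/(1-x) + ∑_{k>T} k x^k`, `∑_{k > T} k x^k = x^(T+1) ((T+1)/(1-x) + x/(1-x)^2)`; with `N < 2^J₁`, `x^T ≤ 4^(-J₁)` this is `≤ 100/2^J₁` (`J₁ ≥ 1` since `2^J₀ ≤ N < 2^J₁`). Summability: `ff A m ≤ m` and `∑ m x^m < ∞` (`summable_pow_mul_geometric_of_norm_lt_one`).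
-/

set_option autoImplicit false

namespace Pool.Agent.Helper9.RS

open Finset

private lemma ts_sq : Fib.x ^ 2 = 1 - Fib.x := by
  have h := Real.goldenConj_sq
  have h2 := Fib.x_eq
  rw [h2]
  nlinarith

private lemma ts_up : Fib.x ≤ 0.62 := by
  have h1 := ts_sq
  have h2 := Fib.x_pos
  by_contra h
  push Not at h
  nlinarith

private lemma ts_lo : 0.6 ≤ Fib.x := by
  have h1 := ts_sq
  have h2 := Fib.x_pos
  by_contra h
  push Not at h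
  nlinarith

private lemma ts_four : Fib.x ^ 4 ≤ 1 / 4 := by
  have h1 := ts_sq
  have h2 := ts_lo
  have h3 : Fib.x ^ 4 = (Fib.x ^ 2) ^ 2 := by ring
  rw [h3, h1]
  nlinarith

private lemma ts_inv : (1 - Fib.x)⁻¹ ≤ 2.64 := by
  have h1 := ts_up
  rw [inv_le_comm₀ (by linarith) (by norm_num)]
  norm_num at *
  linarith

private lemma ts_inv_pos : 0 < (1 - Fib.x)⁻¹ := by
  have h1 := Fib.x_lt_one
  exact inv_pos.2 (by linarith)

private lemma ts_ff_le (A : Set ℕ) (m : ℕ) : (ff A m : ℝ) ≤ m := by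
  have h : ff A m ≤ m := by
    classical
    unfold ff
    exact (card_filter_le _ _).trans (Nat.card_divisors_le_self m)
  exact_mod_cast h

private lemma ts_cnt (A : Set ℕ) (X N m : ℕ) (i : ℤ) (hm : 0 < m) (hX : m ≤ X)
    (hi : (N : ℤ) + i = m) [DecidablePred fun n : ℕ => (n : ℤ) ∣ (N : ℤ) + i] :
    ((AX A X).filter (fun n : ℕ => (n : ℤ) ∣ (N : ℤ) + i)).card = ff A m := by
  unfold ff AX
  congr 1
  ext n
  simp only [mem_filter, mem_Ioc, Nat.mem_divisors]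
  rw [hi, Int.natCast_dvd_natCast]
  constructor
  · rintro ⟨⟨_, h2⟩, h3⟩
    exact ⟨⟨h3, hm.ne'⟩, h2⟩
  · rintro ⟨⟨h1, _⟩, h3⟩
    exact ⟨⟨⟨Nat.pos_of_dvd_of_pos h1 hm, (Nat.le_of_dvd hm h1).trans hX⟩, h3⟩, h1⟩

private lemma ts_IT (H T : ℕ) (F : ℤ → ℝ) (hF : ∀ i, 0 ≤ F i) :
    ∑ k ∈ Ico (H + 1) (T + 1), F (k : ℤ) + ∑ k ∈ Ico (H + 1) (T + 1), F (-(k : ℤ)) ≤
      ∑ i ∈ IT H T, F i := by
  have h1 : ∑ k ∈ Ico (H + 1) (T + 1), F (k : ℤ) =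
      ∑ i ∈ (Ico (H + 1) (T + 1)).image (fun k : ℕ => (k : ℤ)), F i := by
    rw [sum_image]
    intro a _ b _ hab
    have h3 : (a : ℤ) = (b : ℤ) := hab
    omega
  have h2 : ∑ k ∈ Ico (H + 1) (T + 1), F (-(k : ℤ)) =
      ∑ i ∈ (Ico (H + 1) (T + 1)).image (fun k : ℕ => -(k : ℤ)), F i := by
    rw [sum_image]
    intro a _ b _ hab
    have h3 : -(a : ℤ) = -(b : ℤ) := hab
    omega
  have hd : Disjoint ((Ico (H + 1) (T + 1)).image (fun k : ℕ => (k : ℤ)))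
      ((Ico (H + 1) (T + 1)).image (fun k : ℕ => -(k : ℤ))) := by
    rw [disjoint_left]
    intro i hi hi'
    rw [mem_image] at hi hi'
    obtain ⟨k, hk, rfl⟩ := hi
    obtain ⟨l, hl, hl'⟩ := hi'
    rw [mem_Ico] at hk hl
    omega
  rw [h1, h2, ← sum_union hd]
  refine sum_le_sum_of_subset_of_nonneg ?_ (fun i _ _ => hF i)
  intro i hi
  rw [mem_union, mem_image, mem_image] at hi
  unfold IT
  rw [mem_filter, mem_Icc]
  rcases hi with ⟨k, hk, rfl⟩ | ⟨k, hk, rfl⟩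
  · rw [mem_Ico] at hk
    refine ⟨⟨by omega, by omega⟩, ?_⟩
    rw [Nat.abs_cast]
    omega
  · rw [mem_Ico] at hk
    refine ⟨⟨by omega, by omega⟩, ?_⟩
    rw [abs_neg, Nat.abs_cast]
    omega

private lemma ts_sum1 : Summable (fun k : ℕ => (k : ℝ) * Fib.x ^ k) := by
  have h1 : Summable (fun k : ℕ => (k : ℝ) ^ 1 * Fib.x ^ k) :=
    summable_pow_mul_geometric_of_norm_lt_one 1
      (by rw [Real.norm_eq_abs, abs_of_pos Fib.x_pos]; exact Fib.x_lt_one)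
  simpa using h1

private lemma ts_geo : Summable (fun k : ℕ => Fib.x ^ k) :=
  summable_geometric_of_lt_one Fib.x_pos.le Fib.x_lt_one

private lemma ts_summ (A : Set ℕ) (N : ℕ) : Summable (fun k : ℕ => (ff A (N + k) : ℝ) * Fib.x ^ k) := by
  have hx := Fib.x_pos
  refine Summable.of_nonneg_of_le (fun k => by positivity) (fun k => ?_)
    ((ts_geo.mul_left (N : ℝ)).add ts_sum1)
  have h := ts_ff_le A (N + k)
  push_cast at h
  have h2 : 0 ≤ Fib.x ^ k := by positivity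
  nlinarith

/-- The far part to the right. -/
private lemma ts_far (A : Set ℕ) (N T : ℕ) :
    ∑' h : ℕ, (ff A (N + (T + 1 + h)) : ℝ) * Fib.x ^ (T + 1 + h) ≤
      Fib.x ^ T * (((N : ℝ) + T + 1) * 2.64 + 7) := by
  have hx := Fib.x_pos
  have hx1 := Fib.x_lt_one
  have hn : ‖Fib.x‖ < 1 := by rw [Real.norm_eq_abs, abs_of_pos hx]; exact hx1
  have e1 : HasSum (fun h : ℕ => Fib.x ^ h) (1 - Fib.x)⁻¹ := hasSum_geometric_of_lt_one hx.le hx1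
  have e2 : HasSum (fun h : ℕ => (h : ℝ) * Fib.x ^ h) (Fib.x / (1 - Fib.x) ^ 2) :=
    hasSum_coe_mul_geometric_of_norm_lt_one hn
  have e3 := ((e1.mul_left ((N : ℝ) + T + 1)).add e2).mul_left (Fib.x ^ (T + 1))
  have hs : Summable (fun h : ℕ => (ff A (N + (T + 1 + h)) : ℝ) * Fib.x ^ (T + 1 + h)) := by
    have := (summable_nat_add_iff (T + 1)).2 (ts_summ A N)
    refine this.congr (fun h => ?_)
    rw [add_comm h (T + 1)]
  have hle := hs.tsum_le_tsum (g := fun h : ℕ => Fib.x ^ (T + 1) *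
      (((N : ℝ) + T + 1) * Fib.x ^ h + (h : ℝ) * Fib.x ^ h)) (fun h => by
    have h1 := ts_ff_le A (N + (T + 1 + h))
    push_cast at h1
    have h2 : (0 : ℝ) ≤ Fib.x ^ (T + 1 + h) := by positivity
    calc (ff A (N + (T + 1 + h)) : ℝ) * Fib.x ^ (T + 1 + h)
        ≤ ((N : ℝ) + (T + 1 + h)) * Fib.x ^ (T + 1 + h) := mul_le_mul_of_nonneg_right h1 h2
      _ = Fib.x ^ (T + 1) * (((N : ℝ) + T + 1) * Fib.x ^ h + (h : ℝ) * Fib.x ^ h) := by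
        rw [pow_add]
        ring) e3.summable
  rw [e3.tsum_eq] at hle
  refine hle.trans ?_
  have h3 := ts_inv
  have h3p := ts_inv_pos
  have h4 : Fib.x / (1 - Fib.x) ^ 2 ≤ 7 := by
    rw [div_eq_mul_inv, ← inv_pow]
    have h5 : ((1 - Fib.x)⁻¹) ^ 2 ≤ 2.64 ^ 2 := pow_le_pow_left₀ h3p.le h3 2
    have h6 : (0 : ℝ) ≤ ((1 - Fib.x)⁻¹) ^ 2 := by positivity
    nlinarith
  have h7 : Fib.x ^ (T + 1) ≤ Fib.x ^ T := pow_le_pow_of_le_one hx.le hx1.le (by omega)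
  refine mul_le_mul h7 ?_ (by positivity) (by positivity)
  have h8 : ((N : ℝ) + T + 1) * (1 - Fib.x)⁻¹ ≤ ((N : ℝ) + T + 1) * 2.64 :=
    mul_le_mul_of_nonneg_left h3 (by positivity)
  linarith

/-- The far part to the left. -/
private lemma ts_far' (A : Set ℕ) (N T : ℕ) :
    ∑ j ∈ Ico (T + 1) N, (ff A (N - j) : ℝ) * Fib.x ^ j ≤ Fib.x ^ T * ((N : ℝ) * 2.64) := by
  have hx := Fib.x_pos
  have hx1 := Fib.x_lt_one
  have h1 : ∑ j ∈ Ico (T + 1) N, (ff A (N - j) : ℝ) * Fib.x ^ j ≤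
      ∑ j ∈ Ico (T + 1) N, (N : ℝ) * Fib.x ^ j := by
    refine sum_le_sum fun j _ => ?_
    refine mul_le_mul_of_nonneg_right ?_ (by positivity)
    refine (ts_ff_le A (N - j)).trans ?_
    exact_mod_cast Nat.sub_le N j
  refine h1.trans ?_
  rw [← mul_sum, sum_Ico_eq_sum_range]
  have h2 : ∑ k ∈ range (N - (T + 1)), Fib.x ^ (T + 1 + k) =
      Fib.x ^ (T + 1) * ∑ k ∈ range (N - (T + 1)), Fib.x ^ k := by
    rw [mul_sum]
    refine sum_congr rfl fun k _ => ?_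
    rw [pow_add]
  have h3 : ∑ k ∈ range (N - (T + 1)), Fib.x ^ k ≤ 2.64 := by
    have e1 : HasSum (fun h : ℕ => Fib.x ^ h) (1 - Fib.x)⁻¹ := hasSum_geometric_of_lt_one hx.le hx1
    have e2 := sum_le_hasSum (range (N - (T + 1))) (fun i _ => by positivity) e1
    exact e2.trans ts_inv
  have h7 : Fib.x ^ (T + 1) ≤ Fib.x ^ T := pow_le_pow_of_le_one hx.le hx1.le (by omega)
  rw [h2]
  have h4 : Fib.x ^ (T + 1) * ∑ k ∈ range (N - (T + 1)), Fib.x ^ k ≤ Fib.x ^ T * 2.64 :=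
    mul_le_mul h7 h3 (sum_nonneg fun i _ => by positivity) (by positivity)
  calc (N : ℝ) * (Fib.x ^ (T + 1) * ∑ k ∈ range (N - (T + 1)), Fib.x ^ k)
      ≤ (N : ℝ) * (Fib.x ^ T * 2.64) := mul_le_mul_of_nonneg_left h4 (by positivity)
    _ = Fib.x ^ T * ((N : ℝ) * 2.64) := by ring

open Classical in
theorem tail_split (A : Set ℕ) (H J₀ J₁ N : ℕ) (hN0 : 2 ^ J₀ ≤ N) (hN1 : N < 2 ^ J₁)
    (hJ : 4 * J₁ < 2 ^ J₀) (hJJ : J₀ ≤ J₁) (hH : H ≤ 4 * J₁) :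
    tl A Fib.x H N ≤
      (∑ p ∈ AX A (2 ^ (J₁ + 1)) ×ˢ IT H (4 * J₁) with (p.1 : ℤ) ∣ (N : ℤ) + p.2,
        Fib.x ^ p.2.natAbs) + 100 / 2 ^ J₁ := by
  have hx := Fib.x_pos
  have hx1 := Fib.x_lt_one
  obtain ⟨T, hT⟩ : ∃ T, T = 4 * J₁ := ⟨_, rfl⟩
  rw [← hT] at hH ⊢
  have hTN : T + 1 ≤ N := by omega
  have hpow : 2 ^ (J₁ + 1) = 2 * 2 ^ J₁ := by rw [pow_succ]; ring
  -- the finite sum
  have hfin : ∑ p ∈ AX A (2 ^ (J₁ + 1)) ×ˢ IT H T with (p.1 : ℤ) ∣ (N : ℤ) + p.2,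
        Fib.x ^ p.2.natAbs = ∑ i ∈ IT H T,
          (((AX A (2 ^ (J₁ + 1))).filter (fun n : ℕ => (n : ℤ) ∣ (N : ℤ) + i)).card : ℝ) *
            Fib.x ^ i.natAbs := by
    rw [sum_filter, sum_product_right]
    refine sum_congr rfl fun i _ => ?_
    rw [← sum_filter]
    simp only [sum_const, nsmul_eq_mul]
  have hnear := ts_IT H T (fun i => (((AX A (2 ^ (J₁ + 1))).filter
    (fun n : ℕ => (n : ℤ) ∣ (N : ℤ) + i)).card : ℝ) * Fib.x ^ i.natAbs) (fun i => by positivity)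
  rw [← hfin] at hnear
  have hp1 : ∑ k ∈ Ico (H + 1) (T + 1), (((AX A (2 ^ (J₁ + 1))).filter
      (fun n : ℕ => (n : ℤ) ∣ (N : ℤ) + (k : ℤ))).card : ℝ) * Fib.x ^ (k : ℤ).natAbs =
      ∑ k ∈ Ico (H + 1) (T + 1), (ff A (N + k) : ℝ) * Fib.x ^ k := by
    refine sum_congr rfl fun k hk => ?_
    rw [mem_Ico] at hk
    rw [ts_cnt A (2 ^ (J₁ + 1)) N (N + k) k (by omega) (by omega) (by push_cast; ring),
      Int.natAbs_natCast]
  have hp2 : ∑ k ∈ Ico (H + 1) (T + 1), (((AX A (2 ^ (J₁ + 1))).filter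
      (fun n : ℕ => (n : ℤ) ∣ (N : ℤ) + (-(k : ℤ)))).card : ℝ) * Fib.x ^ (-(k : ℤ)).natAbs =
      ∑ k ∈ Ico (H + 1) (T + 1), (ff A (N - k) : ℝ) * Fib.x ^ k := by
    refine sum_congr rfl fun k hk => ?_
    rw [mem_Ico] at hk
    rw [ts_cnt A (2 ^ (J₁ + 1)) N (N - k) (-(k : ℤ)) (by omega) (by omega)
      (by rw [Nat.cast_sub (by omega)]; ring), Int.natAbs_neg, Int.natAbs_natCast]
  have hnear' : ∑ k ∈ Ico (H + 1) (T + 1), (ff A (N + k) : ℝ) * Fib.x ^ k +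
      ∑ k ∈ Ico (H + 1) (T + 1), (ff A (N - k) : ℝ) * Fib.x ^ k ≤
      ∑ p ∈ AX A (2 ^ (J₁ + 1)) ×ˢ IT H T with (p.1 : ℤ) ∣ (N : ℤ) + p.2,
        Fib.x ^ p.2.natAbs := by
    rw [← hp1, ← hp2]
    exact hnear
  -- splitting
  have hsplit1 : ∑' h : ℕ, (ff A (N + (H + 1 + h)) : ℝ) * Fib.x ^ (H + 1 + h) =
      ∑ k ∈ Ico (H + 1) (T + 1), (ff A (N + k) : ℝ) * Fib.x ^ k +
        ∑' h : ℕ, (ff A (N + (T + 1 + h)) : ℝ) * Fib.x ^ (T + 1 + h) := by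
    have hs : Summable (fun h : ℕ => (ff A (N + (H + 1 + h)) : ℝ) * Fib.x ^ (H + 1 + h)) := by
      have := (summable_nat_add_iff (H + 1)).2 (ts_summ A N)
      refine this.congr (fun h => ?_)
      rw [add_comm h (H + 1)]
    rw [← hs.sum_add_tsum_nat_add (T - H), sum_Ico_eq_sum_range]
    have e1 : T + 1 - (H + 1) = T - H := by omega
    rw [e1]
    congr 1
    refine tsum_congr fun h => ?_
    have e2 : H + 1 + (h + (T - H)) = T + 1 + h := by omega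
    rw [e2]
  have hsplit2 : ∑ j ∈ Ico (H + 1) N, (ff A (N - j) : ℝ) * Fib.x ^ j =
      ∑ k ∈ Ico (H + 1) (T + 1), (ff A (N - k) : ℝ) * Fib.x ^ k +
        ∑ j ∈ Ico (T + 1) N, (ff A (N - j) : ℝ) * Fib.x ^ j :=
    (sum_Ico_consecutive _ (by omega) hTN).symm
  unfold tl
  rw [hsplit1, hsplit2]
  have hf1 := ts_far A N T
  have hf2 := ts_far' A N T
  have hxT : Fib.x ^ T ≤ (1 / 4) ^ J₁ := by
    rw [hT, pow_mul]
    exact pow_le_pow_left₀ (by positivity) ts_four J₁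
  have hNr : (N : ℝ) ≤ 2 ^ J₁ := by exact_mod_cast hN1.le
  have hTr : (T : ℝ) + 1 ≤ N := by exact_mod_cast hTN
  have h2J : (1 : ℝ) ≤ 2 ^ J₁ := one_le_pow₀ (by norm_num)
  have hq : ((1 : ℝ) / 4) ^ J₁ * 2 ^ J₁ = 1 / 2 ^ J₁ := by
    rw [← mul_pow, show (1 : ℝ) / 4 * 2 = 1 / 2 by norm_num, one_div_pow]
  have hfar : Fib.x ^ T * (((N : ℝ) + T + 1) * 2.64 + 7) + Fib.x ^ T * ((N : ℝ) * 2.64) ≤
      100 / 2 ^ J₁ := by
    have e1 : Fib.x ^ T * (((N : ℝ) + T + 1) * 2.64 + 7) + Fib.x ^ T * ((N : ℝ) * 2.64) =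
        Fib.x ^ T * ((2 * (N : ℝ) + T + 1) * 2.64 + 7) := by ring
    rw [e1]
    calc Fib.x ^ T * ((2 * (N : ℝ) + T + 1) * 2.64 + 7)
        ≤ (1 / 4) ^ J₁ * (100 * 2 ^ J₁) := by
          refine mul_le_mul hxT ?_ (by positivity) (by positivity)
          linarith
      _ = 100 / 2 ^ J₁ := by
          rw [mul_left_comm, hq]
          ring
  linarith

end Pool.Agent.Helper9.RS
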