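import Pool.Agent.Helper9.RS.SumDvd
import Pool.Agent.Helper9.RS.TailSplit

/-!
PROJECT RS, module RS-20. The fourth bad event: a large tail.

By `tail_split` and `hδJ` the event is contained in `Thin ∧ δ ≤ ∑_{(n,i) ∈ S, n ∣ N + i} x^|i|`, `S = AX A (2^(J₁+1)) ×ˢ IT H (4 J₁)`. `mu_markov` (`c (n,i) = x^|i|`, `t = δ`): `≤ (∑_{H < |i| ≤ 4 J₁} x^|i| ∑_{n ∈ AX} mu (Thin ∧ n ∣ N + i)) / δ`. `sum_dvd` with `X = 0` (`AX A X = {n ∈ Ioc 0 X : n ∈ A}`), the constant `G` for `|i| ≤ R` (`hG`) and `Q` for `|i| > R`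
(`g ∣ Q`, `0 < Q`). `∑_{|i| > H} x^|i| ≤ 2 x^(H+1)/(1-x) = 2 x^(H-1) = 2 φ x^H ≤ 4 x^H` (`x^2 = 1 - x`), the same for `R`. `4 J₁ < 2^J₀` gives `|i| < 2^J₀`. `h.hJ1` gives `J₀ ≤ J₁`.
-/

set_option autoImplicit false

namespace Pool.Agent.Helper9.RS

open Finset

private theorem bf_sq : Fib.x ^ 2 = 1 - Fib.x := by
  rw [Fib.x_eq]
  have h := Real.goldenConj_sq
  rw [neg_sq, h]
  ring

private theorem bf_half : 1 / 2 ≤ Fib.x := by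
  have h1 := bf_sq
  have h2 := Fib.x_pos
  nlinarith

private theorem bf_step (H T : ℕ) (hT : H < T + 1) :
    ∑ i ∈ IT H (T + 1), Fib.x ^ i.natAbs ≤ ∑ i ∈ IT H T, Fib.x ^ i.natAbs + 2 * Fib.x ^ (T + 1) := by
  have hsub : IT H (T + 1) ⊆ insert ((T : ℤ) + 1) (insert (-((T : ℤ) + 1)) (IT H T)) := by
    intro i hi
    simp only [IT, mem_filter, mem_Icc, mem_insert] at hi ⊢
    obtain ⟨⟨h1, h2⟩, h3⟩ := hi
    push_cast at h1 h2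
    by_cases h4 : i = (T : ℤ) + 1
    · exact Or.inl h4
    · by_cases h5 : i = -((T : ℤ) + 1)
      · exact Or.inr (Or.inl h5)
      · exact Or.inr (Or.inr ⟨⟨by omega, by omega⟩, h3⟩)
  have hx := Fib.x_pos
  have h0 : ∀ i : ℤ, 0 ≤ Fib.x ^ i.natAbs := fun i => (pow_pos hx _).le
  have hnot1 : -((T : ℤ) + 1) ∉ IT H T := by
    simp only [IT, mem_filter, mem_Icc]
    rintro ⟨⟨h1, -⟩, -⟩
    omega
  have hnot2 : ((T : ℤ) + 1) ∉ insert (-((T : ℤ) + 1)) (IT H T) := by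
    simp only [IT, mem_filter, mem_Icc, mem_insert]
    rintro (h1 | ⟨⟨-, h1⟩, -⟩)
    · omega
    · omega
  calc ∑ i ∈ IT H (T + 1), Fib.x ^ i.natAbs
      ≤ ∑ i ∈ insert ((T : ℤ) + 1) (insert (-((T : ℤ) + 1)) (IT H T)), Fib.x ^ i.natAbs :=
        sum_le_sum_of_subset_of_nonneg hsub fun i _ _ => h0 i
    _ = ∑ i ∈ IT H T, Fib.x ^ i.natAbs + 2 * Fib.x ^ (T + 1) := by
        rw [sum_insert hnot2, sum_insert hnot1]
        have h1 : ((T : ℤ) + 1).natAbs = T + 1 := by omega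
        have h2 : (-((T : ℤ) + 1)).natAbs = T + 1 := by omega
        rw [h1, h2]
        ring

private theorem bf_empty (H T : ℕ) (hT : T ≤ H) : IT H T = ∅ := by
  rw [eq_empty_iff_forall_notMem]
  intro i hi
  simp only [IT, mem_filter, mem_Icc] at hi
  obtain ⟨⟨h1, h2⟩, h3⟩ := hi
  have h4 : |i| ≤ (T : ℤ) := abs_le.2 ⟨h1, h2⟩
  omega

private theorem bf_geo (H k : ℕ) :
    Fib.x * ∑ i ∈ IT H (H + k), Fib.x ^ i.natAbs ≤ 2 * (Fib.x ^ H - Fib.x ^ (H + k)) := by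
  induction k with
  | zero =>
    rw [add_zero, bf_empty H H le_rfl]
    simp
  | succ k ih =>
    have h1 := bf_step H (H + k) (by omega)
    have h2 := bf_sq
    have hx := Fib.x_pos
    have h3 : Fib.x * ∑ i ∈ IT H (H + (k + 1)), Fib.x ^ i.natAbs ≤
        Fib.x * (∑ i ∈ IT H (H + k), Fib.x ^ i.natAbs + 2 * Fib.x ^ (H + k + 1)) :=
      mul_le_mul_of_nonneg_left h1 hx.le
    have h4 : Fib.x ^ (H + k + 1) = Fib.x ^ (H + k) * Fib.x := pow_succ _ _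
    have h5 : Fib.x ^ (H + (k + 1)) = Fib.x ^ (H + k) * Fib.x := pow_succ _ _
    rw [h4] at h3
    rw [h5]
    have h6 : Fib.x ^ (H + k) * Fib.x ^ 2 = Fib.x ^ (H + k) * (1 - Fib.x) := by rw [h2]
    nlinarith

private theorem bf_sum (H T : ℕ) : ∑ i ∈ IT H T, Fib.x ^ i.natAbs ≤ 4 * Fib.x ^ H := by
  have hx := Fib.x_pos
  have hh := bf_half
  have hp : 0 < Fib.x ^ H := pow_pos hx H
  rcases le_total T H with h | h
  · rw [bf_empty H T h]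
    simp only [sum_empty]
    positivity
  · obtain ⟨k, rfl⟩ := Nat.exists_eq_add_of_le h
    have h1 := bf_geo H k
    have h2 : 0 < Fib.x ^ (H + k) := pow_pos hx _
    have h3 : 0 ≤ ∑ i ∈ IT H (H + k), Fib.x ^ i.natAbs :=
      sum_nonneg fun i _ => (pow_pos hx _).le
    nlinarith

private theorem bf_abs {H T : ℕ} {i : ℤ} (hi : i ∈ IT H T) : (H : ℤ) < |i| ∧ |i| ≤ T := by
  simp only [IT, mem_filter, mem_Icc] at hi
  exact ⟨hi.2, abs_le.2 hi.1⟩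

theorem bad_four {y s Q lq J₀ J₁ : ℕ} (h : SP y s Q lq J₀ J₁) (A : Set ℕ) (c H R w G : ℕ)
    (hb δ : ℝ) (hδ : 0 < δ) (hδJ : 100 / 2 ^ J₁ ≤ δ) (hJ : 4 * J₁ < 2 ^ J₀) (hHR : H ≤ R)
    (hR : R ≤ 4 * J₁)
    (hG : ∀ g : ℕ, g ∣ Q → ∀ i : ℤ, |i| ≤ R → (g : ℤ) ∣ (c : ℤ) + i → g ≤ G)
    (hhb : ∀ n : ℕ, 0 < n → n.primeFactors.card ≤ w → hh y (2 ^ 2 ^ s) n ≤ hb) :
    mu J₀ J₁ (fun N => Thin Q c y (2 ^ 2 ^ s) N ∧ 2 * δ < tl A Fib.x H N) ≤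
      (4 * Fib.x ^ H * (13 * mu0 y s Q J₁ * hb * G * SS A 0 (2 ^ (J₁ + 1)) + tau J₁ w) +
        4 * Fib.x ^ R * (13 * mu0 y s Q J₁ * hb * Q * SS A 0 (2 ^ (J₁ + 1)) + tau J₁ w)) / δ := by
  classical
  have hx := Fib.x_pos
  have hx0 : ∀ i : ℤ, 0 ≤ Fib.x ^ i.natAbs := fun i => (pow_pos hx _).le
  have hJJ : J₀ ≤ J₁ := by
    have h1 := h.hJ1
    omega
  -- the event
  have h1 : mu J₀ J₁ (fun N => Thin Q c y (2 ^ 2 ^ s) N ∧ 2 * δ < tl A Fib.x H N) ≤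
      mu J₀ J₁ (fun N => Thin Q c y (2 ^ 2 ^ s) N ∧
        δ ≤ ∑ p ∈ AX A (2 ^ (J₁ + 1)) ×ˢ IT H (4 * J₁) with (p.1 : ℤ) ∣ (N : ℤ) + p.2,
          Fib.x ^ p.2.natAbs) := by
    refine mu_mono _ _ _ _ ?_
    rintro N hN0 hN1 ⟨hT, hN⟩
    refine ⟨hT, ?_⟩
    have h2 := tail_split A H J₀ J₁ N hN0 hN1 hJ hJJ (hHR.trans hR)
    linarith
  have h2 := mu_markov J₀ J₁ (AX A (2 ^ (J₁ + 1)) ×ˢ IT H (4 * J₁))
    (fun p => Fib.x ^ p.2.natAbs) (fun p _ => hx0 p.2)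
    (fun p N => (p.1 : ℤ) ∣ (N : ℤ) + p.2) (fun N => Thin Q c y (2 ^ 2 ^ s) N) δ hδ
  have h3 : mu J₀ J₁ (fun N => Thin Q c y (2 ^ 2 ^ s) N ∧
        δ ≤ ∑ p ∈ AX A (2 ^ (J₁ + 1)) ×ˢ IT H (4 * J₁) with (p.1 : ℤ) ∣ (N : ℤ) + p.2,
          Fib.x ^ p.2.natAbs) ≤
      (∑ p ∈ AX A (2 ^ (J₁ + 1)) ×ˢ IT H (4 * J₁), Fib.x ^ p.2.natAbs *
        mu J₀ J₁ (fun N => Thin Q c y (2 ^ 2 ^ s) N ∧ (p.1 : ℤ) ∣ (N : ℤ) + p.2)) / δ := by
    refine le_trans (le_of_eq ?_) h2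
    congr 1
    funext N
    have h4 : (filter (fun p : ℕ × ℤ => (p.1 : ℤ) ∣ (N : ℤ) + p.2)
        (AX A (2 ^ (J₁ + 1)) ×ˢ IT H (4 * J₁))) = @filter _
          (fun p : ℕ × ℤ => (p.1 : ℤ) ∣ (N : ℤ) + p.2) (fun a => Classical.propDecidable _)
          (AX A (2 ^ (J₁ + 1)) ×ˢ IT H (4 * J₁)) := by
      ext p
      simp only [mem_filter]
    rw [h4]
  refine h1.trans (h3.trans ?_)
  refine div_le_div_of_nonneg_right ?_ hδ.le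
  -- the sum
  obtain ⟨B, hB⟩ : ∃ B, B = 13 * mu0 y s Q J₁ * hb * G * SS A 0 (2 ^ (J₁ + 1)) + tau J₁ w :=
    ⟨_, rfl⟩
  obtain ⟨B', hB'⟩ : ∃ B', B' = 13 * mu0 y s Q J₁ * hb * Q * SS A 0 (2 ^ (J₁ + 1)) + tau J₁ w :=
    ⟨_, rfl⟩
  have hmu0 : 0 ≤ mu0 y s Q J₁ := by
    have h5 := mu0_ge h
    have h6 : (0 : ℝ) ≤ 1000 * (y : ℝ) * ((s : ℝ) + 6) ^ 2 := by positivity
    exact h6.trans h5
  have hhb0 : 0 ≤ hb := by
    have h5 := hhb 1 (by norm_num) (by simp)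
    have h6 := one_le_hh y (2 ^ 2 ^ s) 1
    linarith
  have hSS : 0 ≤ SS A 0 (2 ^ (J₁ + 1)) := by
    unfold SS
    exact sum_nonneg fun n _ => by positivity
  have htau : 0 ≤ tau J₁ w := by
    unfold tau
    positivity
  have hB0 : 0 ≤ B := by
    rw [hB]
    positivity
  have hB0' : 0 ≤ B' := by
    rw [hB']
    positivity
  rw [← hB, ← hB']
  have hAX : ∀ i : ℤ, ∑ n ∈ AX A (2 ^ (J₁ + 1)),
      mu J₀ J₁ (fun N => Thin Q c y (2 ^ 2 ^ s) N ∧ (n : ℤ) ∣ (N : ℤ) + i) =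
      ∑ n ∈ Ioc 0 (2 ^ (J₁ + 1)) with n ∈ A,
      mu J₀ J₁ (fun N => Thin Q c y (2 ^ 2 ^ s) N ∧ (n : ℤ) ∣ (N : ℤ) + i) := by
    intro i
    unfold AX
    refine sum_congr ?_ fun _ _ => rfl
    ext n
    simp only [mem_filter]
  have hlt : ∀ i ∈ IT H (4 * J₁), |i| < 2 ^ J₀ := by
    intro i hi
    have h5 := (bf_abs hi).2
    have h6 : ((4 * J₁ : ℕ) : ℤ) < ((2 ^ J₀ : ℕ) : ℤ) := by exact_mod_cast hJ
    push_cast at h5 h6
    omega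
  have hnear : ∀ i ∈ IT H (4 * J₁), |i| ≤ R → ∑ n ∈ AX A (2 ^ (J₁ + 1)),
      mu J₀ J₁ (fun N => Thin Q c y (2 ^ 2 ^ s) N ∧ (n : ℤ) ∣ (N : ℤ) + i) ≤ B := by
    intro i hi hiR
    rw [hAX, hB]
    have h5 := sum_dvd h A c 0 w G hb i (hlt i hi) (fun g hg hd => hG g hg i hiR hd) hhb
    refine le_trans (le_of_eq ?_) h5
    refine sum_congr ?_ fun _ _ => rfl
    ext n
    simp only [mem_filter]
  have hfar : ∀ i ∈ IT H (4 * J₁), ∑ n ∈ AX A (2 ^ (J₁ + 1)),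
      mu J₀ J₁ (fun N => Thin Q c y (2 ^ 2 ^ s) N ∧ (n : ℤ) ∣ (N : ℤ) + i) ≤ B' := by
    intro i hi
    rw [hAX, hB']
    have h5 := sum_dvd h A c 0 w Q hb i (hlt i hi) (fun g hg _ => Nat.le_of_dvd h.hQ0 hg) hhb
    refine le_trans (le_of_eq ?_) h5
    refine sum_congr ?_ fun _ _ => rfl
    ext n
    simp only [mem_filter]
  have hRsub : IT R (4 * J₁) ⊆ IT H (4 * J₁) := by
    intro i hi
    simp only [IT, mem_filter] at hi ⊢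
    refine ⟨hi.1, lt_of_le_of_lt ?_ hi.2⟩
    exact_mod_cast hHR
  calc ∑ p ∈ AX A (2 ^ (J₁ + 1)) ×ˢ IT H (4 * J₁), Fib.x ^ p.2.natAbs *
        mu J₀ J₁ (fun N => Thin Q c y (2 ^ 2 ^ s) N ∧ (p.1 : ℤ) ∣ (N : ℤ) + p.2)
      = ∑ i ∈ IT H (4 * J₁), Fib.x ^ i.natAbs * ∑ n ∈ AX A (2 ^ (J₁ + 1)),
          mu J₀ J₁ (fun N => Thin Q c y (2 ^ 2 ^ s) N ∧ (n : ℤ) ∣ (N : ℤ) + i) := by
        rw [sum_product_right]
        refine sum_congr rfl fun i _ => ?_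
        rw [mul_sum]
    _ ≤ ∑ i ∈ IT H (4 * J₁), (Fib.x ^ i.natAbs * B +
          if i ∈ IT R (4 * J₁) then Fib.x ^ i.natAbs * B' else 0) := by
        refine sum_le_sum fun i hi => ?_
        by_cases hiR : i ∈ IT R (4 * J₁)
        · rw [if_pos hiR]
          have h5 := mul_le_mul_of_nonneg_left (hfar i hi) (hx0 i)
          have h6 := mul_nonneg (hx0 i) hB0
          linarith
        · rw [if_neg hiR, add_zero]
          refine mul_le_mul_of_nonneg_left (hnear i hi ?_) (hx0 i)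
          by_contra hc
          push Not at hc
          apply hiR
          simp only [IT, mem_filter] at hi ⊢
          exact ⟨hi.1, hc⟩
    _ = (∑ i ∈ IT H (4 * J₁), Fib.x ^ i.natAbs) * B +
          (∑ i ∈ IT R (4 * J₁), Fib.x ^ i.natAbs) * B' := by
        rw [sum_add_distrib, sum_mul, sum_mul]
        congr 1
        rw [← sum_filter]
        refine sum_congr ?_ fun _ _ => rfl
        ext i
        simp only [mem_filter]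
        exact ⟨fun h => h.2, fun h => ⟨hRsub h, h⟩⟩
    _ ≤ 4 * Fib.x ^ H * B + 4 * Fib.x ^ R * B' :=
        add_le_add (mul_le_mul_of_nonneg_right (bf_sum H _) hB0)
          (mul_le_mul_of_nonneg_right (bf_sum R _) hB0')

end Pool.Agent.Helper9.RS
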