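import Pool.Agent.Helper9.RS.SumDvd

/-!
PROJECT RS, module RS-16. The first bad event: large elements of `A` near `N`.

If `2^J₀ ≤ N < 2^J₁`, `|i| ≤ H < 2^J₀`, `n ∣ N + i` then `0 < N + i < 2^(J₁+1)`, so `n ≤ 2^(J₁+1)`. So the event is contained in `∃ (n, i) ∈ ({n ∈ Ioc z (2^(J₁+1)) : n ∈ A}) × Icc (-H) H, n ∣ N + i`; `mu_mono`, `mu_union`, `Finset.sum_product`, and `sum_dvd` (`X = z`) for each of the `2H+1` values of `i`.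
-/

set_option autoImplicit false

namespace Pool.Agent.Helper9.RS

open Finset

theorem bad_one {y s Q lq J₀ J₁ : ℕ} (h : SP y s Q lq J₀ J₁) (A : Set ℕ) (c H w G : ℕ) (hb : ℝ)
    (hH : H < 2 ^ J₀)
    (hG : ∀ g : ℕ, g ∣ Q → ∀ i : ℤ, |i| ≤ H → (g : ℤ) ∣ (c : ℤ) + i → g ≤ G)
    (hhb : ∀ n : ℕ, 0 < n → n.primeFactors.card ≤ w → hh y (2 ^ 2 ^ s) n ≤ hb) :
    mu J₀ J₁ (fun N => Thin Q c y (2 ^ 2 ^ s) N ∧ B1 A (2 ^ 2 ^ s) H N) ≤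
      (2 * (H : ℝ) + 1) *
        (13 * mu0 y s Q J₁ * hb * G * SS A (2 ^ 2 ^ s) (2 ^ (J₁ + 1)) + tau J₁ w) := by
  classical
  obtain ⟨S, hS⟩ : ∃ S : Finset ℕ, S = (Ioc (2 ^ 2 ^ s) (2 ^ (J₁ + 1))).filter (fun n => n ∈ A) :=
    ⟨_, rfl⟩
  have hJ : J₀ ≤ J₁ := by
    have := h.hJ1
    omega
  have hpow : 2 ^ J₀ ≤ 2 ^ J₁ := Nat.pow_le_pow_right (by norm_num) hJ
  have h1 : mu J₀ J₁ (fun N => Thin Q c y (2 ^ 2 ^ s) N ∧ B1 A (2 ^ 2 ^ s) H N) ≤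
      mu J₀ J₁ (fun N => Thin Q c y (2 ^ 2 ^ s) N ∧
        ∃ i ∈ Icc (-(H : ℤ)) H, ∃ n ∈ S, (n : ℤ) ∣ (N : ℤ) + i) := by
    refine mu_mono J₀ J₁ _ _ ?_
    rintro N hN0 hN1 ⟨hT, i, hi, n, hnA, hzn, hd⟩
    refine ⟨hT, i, ?_, n, ?_, hd⟩
    · rw [Finset.mem_Icc]
      exact abs_le.1 hi
    · rw [hS, Finset.mem_filter, Finset.mem_Ioc]
      refine ⟨⟨hzn, ?_⟩, hnA⟩
      have hi' := abs_le.1 hi
      have hpos : (0 : ℤ) < (N : ℤ) + i := by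
        have : (H : ℤ) < N := by exact_mod_cast hH.trans_le hN0
        linarith [hi'.1]
      have hle := Int.le_of_dvd hpos hd
      have h3 : (N : ℤ) < 2 ^ J₁ := by exact_mod_cast hN1
      have h4 : (H : ℤ) < 2 ^ J₁ := by exact_mod_cast hH.trans_le hpow
      have h5 : (n : ℤ) ≤ 2 ^ (J₁ + 1) := by
        rw [pow_succ]
        linarith [hi'.2]
      exact_mod_cast h5
  have h2 : mu J₀ J₁ (fun N => Thin Q c y (2 ^ 2 ^ s) N ∧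
        ∃ i ∈ Icc (-(H : ℤ)) H, ∃ n ∈ S, (n : ℤ) ∣ (N : ℤ) + i) ≤
      ∑ i ∈ Icc (-(H : ℤ)) H, mu J₀ J₁ (fun N => Thin Q c y (2 ^ 2 ^ s) N ∧
        ∃ n ∈ S, (n : ℤ) ∣ (N : ℤ) + i) :=
    mu_union J₀ J₁ (Icc (-(H : ℤ)) H) (fun i N => ∃ n ∈ S, (n : ℤ) ∣ (N : ℤ) + i)
      (fun N => Thin Q c y (2 ^ 2 ^ s) N)
  have h3 : ∀ i ∈ Icc (-(H : ℤ)) H, mu J₀ J₁ (fun N => Thin Q c y (2 ^ 2 ^ s) N ∧
        ∃ n ∈ S, (n : ℤ) ∣ (N : ℤ) + i) ≤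
      13 * mu0 y s Q J₁ * hb * G * SS A (2 ^ 2 ^ s) (2 ^ (J₁ + 1)) + tau J₁ w := by
    intro i hi
    rw [Finset.mem_Icc] at hi
    have hi1 : |i| ≤ H := abs_le.2 hi
    have hi2 : |i| < 2 ^ J₀ := lt_of_le_of_lt hi1 (by exact_mod_cast hH)
    refine (mu_union J₀ J₁ S (fun n N => (n : ℤ) ∣ (N : ℤ) + i)
      (fun N => Thin Q c y (2 ^ 2 ^ s) N)).trans ?_
    have h4 := sum_dvd h A c (2 ^ 2 ^ s) w G hb i hi2 (fun g hg hd => hG g hg i hi1 hd) hhb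
    rw [hS]
    exact h4
  refine h1.trans (h2.trans ((Finset.sum_le_sum h3).trans (le_of_eq ?_)))
  rw [Finset.sum_const, nsmul_eq_mul, Int.card_Icc]
  congr 1
  have h6 : ((H : ℤ) + 1 - -(H : ℤ)).toNat = 2 * H + 1 := by omega
  rw [h6]
  push_cast
  ring

end Pool.Agent.Helper9.RS
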