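import Mathlib

/-!
PROJECT RS, module RS-28. Integers all of whose odd prime power components are small.

Let `n ∈ [2^j, 2^(j+1))` be such an integer, `Y = (j+1)^2 ≥ (log n)^2`; `n = 2^f ∏_{t ∈ S} t`, `f = v_2(n)`, `S` = the set of the odd prime power components `p^(v_p n) < Y`; `n ↦ (f, S)` is injective. `1/n = n^(-3/4) n^(-1/4) ≤ 2^(-j/4) n^(-3/4)`, so the sum over the block is
`≤ 2^(-j/4) ∑_f 2^(-3f/4) ∑_{S ⊆ [1, Y]} ∏_{t ∈ S} t^(-3/4) ≤ 2^(-j/4) 3 ∏_{t ≤ Y} (1 + t^(-3/4)) ≤ 3 2^(-j/4) exp (∑_{t ≤ Y} t^(-3/4)) ≤ 3 2^(-j/4) exp (4 Y^(1/4)) = 3 2^(-j/4) exp (4 (j+1)^(1/2))`, which is summable in `j`. (Partial sums: every finite set of `n` is contained in finitely many blocks; `summable_of_sum_le`.)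
-/

set_option autoImplicit false

namespace Pool.Agent.Helper9.RS

open Finset

/-- The weight. -/
private noncomputable def wt (t : ℕ) : ℝ := (t : ℝ) ^ (-(3 : ℝ) / 4)

private theorem wt_nonneg (t : ℕ) : 0 ≤ wt t := Real.rpow_nonneg (Nat.cast_nonneg t) _

private theorem wt_mul (a b : ℕ) : wt (a * b) = wt a * wt b := by
  unfold wt
  rw [Nat.cast_mul, Real.mul_rpow (Nat.cast_nonneg a) (Nat.cast_nonneg b)]

private theorem wt_prod (S : Finset ℕ) : wt (∏ t ∈ S, t) = ∏ t ∈ S, wt t := by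
  classical
  induction S using Finset.induction_on with
  | empty => simp [wt]
  | insert a S ha ih => rw [Finset.prod_insert ha, Finset.prod_insert ha, wt_mul, ih]

private theorem wt_le_one (t : ℕ) (ht : 1 ≤ t) : wt t ≤ 1 := by
  unfold wt
  apply Real.rpow_le_one_of_one_le_of_nonpos
  · exact_mod_cast ht
  · norm_num

private theorem wt_sum (Y : ℕ) : ∑ t ∈ Icc 1 Y, wt t ≤ 4 * (Y : ℝ) ^ ((1 : ℝ) / 4) := by
  induction Y with
  | zero => simp
  | succ Y ih =>
    rw [Finset.sum_Icc_succ_top (by omega)]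
    have hu : (0 : ℝ) < ((Y + 1 : ℕ) : ℝ) := by positivity
    obtain ⟨u, hu'⟩ : ∃ u : ℝ, u = ((Y + 1 : ℕ) : ℝ) ^ ((1 : ℝ) / 4) := ⟨_, rfl⟩
    obtain ⟨v, hv'⟩ : ∃ v : ℝ, v = ((Y : ℕ) : ℝ) ^ ((1 : ℝ) / 4) := ⟨_, rfl⟩
    have hu0 : 0 < u := by rw [hu']; positivity
    have hv0 : 0 ≤ v := by rw [hv']; positivity
    have hu4 : u ^ 4 = (Y : ℝ) + 1 := by
      rw [hu', ← Real.rpow_natCast, ← Real.rpow_mul hu.le]
      norm_num
    have hv4 : v ^ 4 = (Y : ℝ) := by
      rw [hv', ← Real.rpow_natCast, ← Real.rpow_mul (Nat.cast_nonneg Y)]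
      norm_num
    have hw : wt (Y + 1) = 1 / u ^ 3 := by
      unfold wt
      rw [hu', ← Real.rpow_natCast, ← Real.rpow_mul hu.le, one_div, ← Real.rpow_neg hu.le]
      norm_num
    have hvu : v ≤ u := by
      rw [hu', hv']
      apply Real.rpow_le_rpow (Nat.cast_nonneg Y) _ (by norm_num)
      push_cast
      linarith
    rw [← hu', hw]
    rw [← hv'] at ih
    have h1 : (u - v) * (4 * u ^ 3) ≥ 1 := by
      have h2 : (u - v) * (u ^ 3 + u ^ 2 * v + u * v ^ 2 + v ^ 3) = 1 := by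
        have : (u - v) * (u ^ 3 + u ^ 2 * v + u * v ^ 2 + v ^ 3) = u ^ 4 - v ^ 4 := by ring
        rw [this, hu4, hv4]
        ring
      have h3 : u ^ 3 + u ^ 2 * v + u * v ^ 2 + v ^ 3 ≤ 4 * u ^ 3 := by
        have a1 : u ^ 2 * v ≤ u ^ 2 * u := mul_le_mul_of_nonneg_left hvu (by positivity)
        have a2 : u * v ^ 2 ≤ u * u ^ 2 :=
          mul_le_mul_of_nonneg_left (pow_le_pow_left₀ hv0 hvu 2) hu0.le
        have a3 : v ^ 3 ≤ u ^ 3 := pow_le_pow_left₀ hv0 hvu 3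
        nlinarith
      have h4 : 0 ≤ u - v := by linarith
      nlinarith [mul_le_mul_of_nonneg_left h3 h4]
    have h5 : 1 / u ^ 3 ≤ 4 * (u - v) := by
      rw [div_le_iff₀ (by positivity)]
      linarith
    linarith

/-- The odd prime power components of `n`. -/
private noncomputable def cmp (n : ℕ) : Finset ℕ :=
  (n.primeFactors.erase 2).image (fun p => p ^ n.factorization p)

private theorem cmp_prod (n : ℕ) (hn : n ≠ 0) : n = 2 ^ n.factorization 2 * ∏ t ∈ cmp n, t := by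
  classical
  have h1 : ∏ t ∈ cmp n, t = ∏ p ∈ n.primeFactors.erase 2, p ^ n.factorization p := by
    unfold cmp
    rw [Finset.prod_image]
    intro p hp q hq hpq
    have hp' := Nat.prime_of_mem_primeFactors (Finset.mem_of_mem_erase (Finset.mem_coe.1 hp))
    have hq' := Nat.prime_of_mem_primeFactors (Finset.mem_of_mem_erase (Finset.mem_coe.1 hq))
    have hpd := Nat.dvd_of_mem_primeFactors (Finset.mem_of_mem_erase (Finset.mem_coe.1 hp))
    have hpos : n.factorization p ≠ 0 := (hp'.factorization_pos_of_dvd hn hpd).ne'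
    have h2 : p ∣ q ^ n.factorization q := by
      have : p ∣ p ^ n.factorization p := dvd_pow_self p hpos
      simp only at hpq
      rwa [hpq] at this
    exact (Nat.prime_dvd_prime_iff_eq hp' hq').1 (hp'.dvd_of_dvd_pow h2)
  rw [h1]
  have h3 := Nat.prod_factorization_pow_eq_self hn
  rw [Finsupp.prod, Nat.support_factorization] at h3
  by_cases h2 : 2 ∈ n.primeFactors
  · rw [Finset.mul_prod_erase _ (fun p => p ^ n.factorization p) h2]
    exact h3.symm
  · have h4 : n.factorization 2 = 0 := by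
      rw [← Finsupp.notMem_support_iff, Nat.support_factorization]
      exact h2
    rw [Finset.erase_eq_of_notMem h2, h4, pow_zero, one_mul]
    exact h3.symm

private theorem block (j : ℕ) (B : Finset ℕ) (hB : ∀ n ∈ B, 2 ^ j ≤ n ∧ n < 2 ^ (j + 1) ∧
    (∀ p : ℕ, p.Prime → p ≠ 2 → p ∣ n → ((p : ℝ) ^ n.factorization p) < (Real.log n) ^ 2)) :
    ∑ n ∈ B, 1 / (n : ℝ) ≤
      (2 : ℝ) ^ (-(j : ℝ) / 4) * (((j : ℝ) + 1) * Real.exp (4 * ((j : ℝ) + 1) ^ ((1 : ℝ) / 2))) := by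
  classical
  obtain ⟨Y, hY⟩ : ∃ Y, Y = (j + 1) ^ 2 := ⟨_, rfl⟩
  have hS : ∀ n ∈ B, cmp n ⊆ Icc 1 Y := by
    intro n hn t ht
    obtain ⟨h1, h2, h3⟩ := hB n hn
    have hn0 : 0 < n := lt_of_lt_of_le (by positivity) h1
    unfold cmp at ht
    rw [Finset.mem_image] at ht
    obtain ⟨p, hp, rfl⟩ := ht
    rw [Finset.mem_erase] at hp
    have hpp := Nat.prime_of_mem_primeFactors hp.2
    have hpd := Nat.dvd_of_mem_primeFactors hp.2
    have h4 := h3 p hpp hp.1 hpd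
    rw [mem_Icc]
    refine ⟨Nat.one_le_iff_ne_zero.2 (pow_ne_zero _ hpp.ne_zero), ?_⟩
    have h5 : Real.log n ≤ (j : ℝ) + 1 := by
      have : Real.log n ≤ Real.log (2 ^ (j + 1)) := by
        apply Real.log_le_log (by exact_mod_cast hn0)
        exact_mod_cast h2.le
      rw [Real.log_pow] at this
      have hl2 : Real.log 2 ≤ 1 := by
        have := Real.log_two_lt_d9
        linarith
      have h6 : ((j + 1 : ℕ) : ℝ) * Real.log 2 ≤ ((j + 1 : ℕ) : ℝ) * 1 :=
        mul_le_mul_of_nonneg_left hl2 (Nat.cast_nonneg _)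
      push_cast at h6 this
      linarith
    have h7 : 0 ≤ Real.log n := Real.log_natCast_nonneg n
    have h8 : ((p : ℝ) ^ n.factorization p) ≤ (Y : ℝ) := by
      refine h4.le.trans ?_
      rw [hY]
      push_cast
      exact pow_le_pow_left₀ h7 h5 2
    exact_mod_cast h8
  have hf : ∀ n ∈ B, n.factorization 2 ∈ range (j + 1) := by
    intro n hn
    obtain ⟨h1, h2, _⟩ := hB n hn
    have hn0 : n ≠ 0 := by
      have : 0 < 2 ^ j := by positivity
      omega
    rw [mem_range]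
    have h3 : 2 ^ n.factorization 2 ≤ n := Nat.le_of_dvd (Nat.pos_of_ne_zero hn0) (Nat.ordProj_dvd n 2)
    have h4 : 2 ^ n.factorization 2 < 2 ^ (j + 1) := lt_of_le_of_lt h3 h2
    exact (Nat.pow_lt_pow_iff_right (by norm_num)).1 h4
  have h1 : ∀ n ∈ B, 1 / (n : ℝ) ≤ (2 : ℝ) ^ (-(j : ℝ) / 4) * (∏ t ∈ cmp n, wt t) := by
    intro n hn
    obtain ⟨a1, a2, _⟩ := hB n hn
    have hn0 : 0 < n := lt_of_lt_of_le (by positivity) a1
    have hnR : (0 : ℝ) < n := by exact_mod_cast hn0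
    have b1 : 1 / (n : ℝ) = (n : ℝ) ^ (-(1 : ℝ) / 4) * wt n := by
      unfold wt
      rw [← Real.rpow_add hnR]
      norm_num
      rw [Real.rpow_neg_one]
    have b2 : (n : ℝ) ^ (-(1 : ℝ) / 4) ≤ (2 : ℝ) ^ (-(j : ℝ) / 4) := by
      have : ((2 : ℝ) ^ j) ^ (-(1 : ℝ) / 4) = (2 : ℝ) ^ (-(j : ℝ) / 4) := by
        rw [← Real.rpow_natCast, ← Real.rpow_mul (by norm_num)]
        congr 1
        ring
      rw [← this]
      apply Real.rpow_le_rpow_of_nonpos (by positivity) _ (by norm_num)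
      exact_mod_cast a1
    have b3 : wt n ≤ ∏ t ∈ cmp n, wt t := by
      conv_lhs => rw [cmp_prod n hn0.ne', wt_mul, wt_prod]
      have : wt (2 ^ n.factorization 2) ≤ 1 := wt_le_one _ (Nat.one_le_two_pow)
      exact mul_le_of_le_one_left (Finset.prod_nonneg (fun t _ => wt_nonneg t)) this
    rw [b1]
    exact mul_le_mul b2 b3 (wt_nonneg n) (by positivity)
  refine (Finset.sum_le_sum h1).trans ?_
  rw [← Finset.mul_sum]
  apply mul_le_mul_of_nonneg_left _ (by positivity)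
  have h2 : ∑ n ∈ B, ∏ t ∈ cmp n, wt t ≤
      ∑ x ∈ (range (j + 1)) ×ˢ ((Icc 1 Y).powerset), ∏ t ∈ x.2, wt t := by
    have hinj : Set.InjOn (fun n => (n.factorization 2, cmp n)) (B : Set ℕ) := by
      intro a ha b hb hab
      simp only [Prod.mk.injEq] at hab
      have ha0 : a ≠ 0 := by
        have := (hB a (Finset.mem_coe.1 ha)).1
        have h0 : 0 < 2 ^ j := by positivity
        omega
      have hb0 : b ≠ 0 := by
        have := (hB b (Finset.mem_coe.1 hb)).1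
        have h0 : 0 < 2 ^ j := by positivity
        omega
      rw [cmp_prod a ha0, cmp_prod b hb0, hab.1, hab.2]
    have h3 : ∑ n ∈ B, ∏ t ∈ cmp n, wt t =
        ∑ x ∈ B.image (fun n => (n.factorization 2, cmp n)), ∏ t ∈ x.2, wt t := by
      rw [Finset.sum_image hinj]
    rw [h3]
    apply Finset.sum_le_sum_of_subset_of_nonneg
    · intro x hx
      rw [Finset.mem_image] at hx
      obtain ⟨n, hn, rfl⟩ := hx
      rw [mem_product, Finset.mem_powerset]
      exact ⟨hf n hn, hS n hn⟩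
    · intro x _ _
      exact Finset.prod_nonneg (fun t _ => wt_nonneg t)
  refine h2.trans ?_
  rw [Finset.sum_product]
  simp only
  rw [Finset.sum_const, card_range, nsmul_eq_mul]
  push_cast
  apply mul_le_mul_of_nonneg_left _ (by positivity)
  have h4 : ∑ S ∈ (Icc 1 Y).powerset, ∏ t ∈ S, wt t = ∏ t ∈ Icc 1 Y, (1 + wt t) := by
    rw [Finset.prod_one_add]
  rw [h4]
  have h5 : ∏ t ∈ Icc 1 Y, (1 + wt t) ≤ ∏ t ∈ Icc 1 Y, Real.exp (wt t) := by
    apply Finset.prod_le_prod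
    · intro t _
      have := wt_nonneg t
      linarith
    · intro t _
      have := Real.add_one_le_exp (wt t)
      linarith
  refine h5.trans ?_
  rw [← Real.exp_sum]
  apply Real.exp_le_exp.2
  refine (wt_sum Y).trans ?_
  apply mul_le_mul_of_nonneg_left _ (by norm_num)
  rw [hY]
  push_cast
  rw [← Real.rpow_natCast, ← Real.rpow_mul (by positivity)]
  norm_num

private theorem maj_summable : Summable (fun j : ℕ =>
    (2 : ℝ) ^ (-(j : ℝ) / 4) * (((j : ℝ) + 1) * Real.exp (4 * ((j : ℝ) + 1) ^ ((1 : ℝ) / 2)))) := by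
  have h1 : ∀ j : ℕ, (2 : ℝ) ^ (-(j : ℝ) / 4) * (((j : ℝ) + 1) *
      Real.exp (4 * ((j : ℝ) + 1) ^ ((1 : ℝ) / 2))) ≤
      Real.exp 65 * (((j : ℝ) + 1) * (Real.exp (-(1 / 16))) ^ j) := by
    intro j
    have h2 : 4 * ((j : ℝ) + 1) ^ ((1 : ℝ) / 2) ≤ ((j : ℝ) + 1) / 16 + 64 := by
      rw [← Real.sqrt_eq_rpow]
      have h3 : Real.sqrt ((j : ℝ) + 1) ^ 2 = (j : ℝ) + 1 := Real.sq_sqrt (by positivity)
      nlinarith [sq_nonneg (Real.sqrt ((j : ℝ) + 1) - 32)]
    have h4 : (2 : ℝ) ^ (-(j : ℝ) / 4) ≤ Real.exp (-(j : ℝ) / 8) := by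
      rw [Real.rpow_def_of_pos (by norm_num)]
      apply Real.exp_le_exp.2
      have := Real.log_two_gt_d9
      have hj : (0 : ℝ) ≤ j := Nat.cast_nonneg j
      nlinarith
    have h5 : Real.exp (4 * ((j : ℝ) + 1) ^ ((1 : ℝ) / 2)) ≤ Real.exp (((j : ℝ) + 1) / 16 + 64) :=
      Real.exp_le_exp.2 h2
    have h6 : (2 : ℝ) ^ (-(j : ℝ) / 4) * (((j : ℝ) + 1) *
        Real.exp (4 * ((j : ℝ) + 1) ^ ((1 : ℝ) / 2))) ≤ Real.exp (-(j : ℝ) / 8) * (((j : ℝ) + 1) *
        Real.exp (((j : ℝ) + 1) / 16 + 64)) := by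
      apply mul_le_mul h4 _ (by positivity) (by positivity)
      exact mul_le_mul_of_nonneg_left h5 (by positivity)
    refine h6.trans ?_
    have h7 : Real.exp (-(j : ℝ) / 8) * (((j : ℝ) + 1) * Real.exp (((j : ℝ) + 1) / 16 + 64)) =
        ((j : ℝ) + 1) * Real.exp (-(j : ℝ) / 8 + (((j : ℝ) + 1) / 16 + 64)) := by
      rw [Real.exp_add (-(j : ℝ) / 8) (((j : ℝ) + 1) / 16 + 64)]
      ring
    have h8 : Real.exp 65 * (((j : ℝ) + 1) * (Real.exp (-(1 / 16))) ^ j) =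
        ((j : ℝ) + 1) * Real.exp (65 + (j : ℝ) * (-(1 / 16))) := by
      rw [Real.exp_add 65, ← Real.exp_nat_mul]
      ring
    rw [h7, h8]
    apply mul_le_mul_of_nonneg_left _ (by positivity)
    apply Real.exp_le_exp.2
    linarith
  refine Summable.of_nonneg_of_le (fun j => by positivity) h1 ?_
  apply Summable.mul_left
  have h9 : ‖Real.exp (-(1 / 16))‖ < 1 := by
    rw [Real.norm_eq_abs, abs_of_pos (Real.exp_pos _)]
    rw [← Real.exp_zero]
    apply Real.exp_lt_exp.2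
    norm_num
  have h10 := summable_pow_mul_geometric_of_norm_lt_one 1 h9
  have h11 := summable_geometric_of_norm_lt_one h9
  refine (h10.add h11).congr (fun j => ?_)
  ring

open Classical in
theorem bad_summable :
    Summable (fun n : ℕ => if (∀ p : ℕ, p.Prime → p ≠ 2 → p ∣ n →
      ((p : ℝ) ^ n.factorization p) < (Real.log n) ^ 2) then 1 / (n : ℝ) else 0) := by
  have hM := maj_summable
  obtain ⟨g, hg⟩ : ∃ g : ℕ → ℝ, g = (fun j : ℕ =>
    (2 : ℝ) ^ (-(j : ℝ) / 4) * (((j : ℝ) + 1) * Real.exp (4 * ((j : ℝ) + 1) ^ ((1 : ℝ) / 2)))) :=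
    ⟨_, rfl⟩
  rw [← hg] at hM
  have hg0 : ∀ j, 0 ≤ g j := by
    intro j
    rw [hg]
    positivity
  obtain ⟨f, hf⟩ : ∃ f : ℕ → ℝ, f = (fun n : ℕ => if (∀ p : ℕ, p.Prime → p ≠ 2 → p ∣ n →
      ((p : ℝ) ^ n.factorization p) < (Real.log n) ^ 2) then 1 / (n : ℝ) else 0) := ⟨_, rfl⟩
  rw [← hf]
  have hf0 : ∀ n, 0 ≤ f n := by
    intro n
    rw [hf]
    simp only
    split_ifs
    · positivity
    · exact le_rfl
  have hb : ∀ j : ℕ, ∑ n ∈ Ico (2 ^ j) (2 ^ (j + 1)), f n ≤ g j := by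
    intro j
    rw [hf, ← Finset.sum_filter]
    have := block j ((Ico (2 ^ j) (2 ^ (j + 1))).filter (fun n : ℕ => ∀ p : ℕ, p.Prime → p ≠ 2 →
      p ∣ n → ((p : ℝ) ^ n.factorization p) < (Real.log n) ^ 2)) (by
        intro n hn
        rw [mem_filter, mem_Ico] at hn
        exact ⟨hn.1.1, hn.1.2, hn.2⟩)
    rw [hg]
    exact this
  have hpart : ∀ J : ℕ, ∑ n ∈ range (2 ^ J), f n ≤ ∑ j ∈ range J, g j := by
    intro J
    induction J with
    | zero =>
      rw [pow_zero, Finset.sum_range_one, Finset.sum_range_zero, hf]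
      simp
    | succ J ih =>
      rw [Finset.sum_range_succ]
      have : ∑ n ∈ range (2 ^ (J + 1)), f n =
          ∑ n ∈ range (2 ^ J), f n + ∑ n ∈ Ico (2 ^ J) (2 ^ (J + 1)), f n :=
        (Finset.sum_range_add_sum_Ico f (Nat.pow_le_pow_right (by norm_num) (Nat.le_succ J))).symm
      rw [this]
      exact add_le_add ih (hb J)
  refine summable_of_sum_le hf0 (c := ∑' j, g j) ?_
  intro u
  obtain ⟨J, hJ⟩ : ∃ J, u ⊆ range (2 ^ J) := by
    refine ⟨u.sup id + 1, ?_⟩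
    intro n hn
    rw [mem_range]
    have h1 : n ≤ u.sup id := Finset.le_sup (f := id) hn
    have h2 : u.sup id + 1 < 2 ^ (u.sup id + 1) := Nat.lt_two_pow_self
    omega
  calc ∑ n ∈ u, f n ≤ ∑ n ∈ range (2 ^ J), f n :=
        Finset.sum_le_sum_of_subset_of_nonneg hJ (fun n _ _ => hf0 n)
    _ ≤ ∑ j ∈ range J, g j := hpart J
    _ ≤ ∑' j, g j := hM.sum_le_tsum _ (fun j _ => hg0 j)

end Pool.Agent.Helper9.RS
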