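import Pool.Agent.Helper9.RS.Recip

/-!
PROJECT RS, module RS-13. Bounds for `hh`.

`(1 - 1/l)⁻¹ ≤ exp (2/l)` for `l ≥ 2`, so `hh ≤ exp (2 ∑_{l ∈ PP y z, l ∣ n} 1/l)`. Split the primes `l ∣ n`, `l > y`, at `Y = 2^(2^b)`: `∑_{l ≤ Y} 1/l ≤ b log 2 + 6` (`recip`), and the `l > Y`: at most `w` of them, each with `1/l ≤ 1/Y`, so `≤ w/Y ≤ 1`.
`hh_prime_pow`: only `l` itself occurs: `hh ≤ (1 - 1/l)⁻¹ ≤ 2` (or `hh = 1`).
-/

set_option autoImplicit false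

namespace Pool.Agent.Helper9.RS

open Finset

private theorem fac_le {l : ℕ} (hl : 2 ≤ l) :
    0 < (1 - 1 / (l : ℝ))⁻¹ ∧ (1 - 1 / (l : ℝ))⁻¹ ≤ 1 + 2 * (1 / (l : ℝ)) ∧ 1 / (l : ℝ) ≤ 1 / 2 := by
  have h2 : (2 : ℝ) ≤ l := by exact_mod_cast hl
  obtain ⟨t, ht⟩ : ∃ t : ℝ, t = 1 / (l : ℝ) := ⟨_, rfl⟩
  have ht0 : 0 < t := by rw [ht]; positivity
  have ht1 : t ≤ 1 / 2 := by
    rw [ht]
    exact one_div_le_one_div_of_le (by norm_num) h2
  rw [← ht]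
  have hp : 0 < 1 - t := by linarith
  refine ⟨inv_pos.mpr hp, ?_, ht1⟩
  rw [inv_le_iff_one_le_mul₀ hp]
  nlinarith

theorem hh_le (y z n w b : ℕ) (hn : 0 < n) (hw : n.primeFactors.card ≤ w) (hb : w ≤ 2 ^ 2 ^ b) :
    hh y z n ≤ Real.exp (2 * ((b : ℝ) * Real.log 2 + 6) + 2) := by
  obtain ⟨A, hA⟩ : ∃ A : Finset ℕ, A = (PP y z).filter (fun l => l ∣ n) := ⟨_, rfl⟩
  have hpr : ∀ l ∈ A, l.Prime ∧ l ∣ n := by
    intro l hl
    rw [hA, mem_filter, PP, mem_filter] at hl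
    exact ⟨hl.1.2, hl.2⟩
  have h1 : hh y z n ≤ ∏ l ∈ A, Real.exp (2 * (1 / (l : ℝ))) := by
    unfold hh
    rw [← hA]
    refine Finset.prod_le_prod (fun l hl => (fac_le (hpr l hl).1.two_le).1.le) (fun l hl => ?_)
    refine le_trans (fac_le (hpr l hl).1.two_le).2.1 ?_
    have := Real.add_one_le_exp (2 * (1 / (l : ℝ)))
    linarith
  refine le_trans h1 ?_
  rw [← Real.exp_sum]
  refine Real.exp_le_exp.mpr ?_
  rw [← Finset.mul_sum]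
  obtain ⟨Y, hY⟩ : ∃ Y : ℕ, Y = 2 ^ 2 ^ b := ⟨_, rfl⟩
  have hY0 : 0 < Y := by rw [hY]; positivity
  have hYR : (0 : ℝ) < Y := by exact_mod_cast hY0
  rw [← Finset.sum_filter_add_sum_filter_not A (fun l => l ≤ Y)]
  have e1 : ∑ l ∈ A with l ≤ Y, 1 / (l : ℝ) ≤ (b : ℝ) * Real.log 2 + 6 := by
    refine le_trans (Finset.sum_le_sum_of_subset_of_nonneg ?_ (fun l _ _ => by positivity)) (recip b)
    intro l hl
    rw [mem_filter] at hl
    rw [PP, mem_filter, mem_Ioc, ← hY]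
    exact ⟨⟨(hpr l hl.1).1.pos, hl.2⟩, (hpr l hl.1).1⟩
  have e2 : ∑ l ∈ A with ¬ l ≤ Y, 1 / (l : ℝ) ≤ 1 := by
    have e3 : ∑ l ∈ A with ¬ l ≤ Y, 1 / (l : ℝ) ≤ ∑ _l ∈ A with ¬ _l ≤ Y, 1 / (Y : ℝ) := by
      refine Finset.sum_le_sum fun l hl => ?_
      rw [mem_filter] at hl
      refine one_div_le_one_div_of_le hYR ?_
      exact_mod_cast (not_le.mp hl.2).le
    refine le_trans e3 ?_
    rw [Finset.sum_const, nsmul_eq_mul, mul_one_div, div_le_one hYR]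
    have hc : (A.filter (fun l => ¬ l ≤ Y)).card ≤ Y := by
      refine le_trans (Finset.card_le_card ?_) (le_trans hw (by rw [hY]; exact hb))
      intro l hl
      rw [mem_filter] at hl
      exact Nat.mem_primeFactors.mpr ⟨(hpr l hl.1).1, (hpr l hl.1).2, hn.ne'⟩
    exact_mod_cast hc
  linarith

theorem hh_prime_pow (y z l e : ℕ) (hl : l.Prime) : hh y z (l ^ e) ≤ 2 := by
  obtain ⟨A, hA⟩ : ∃ A : Finset ℕ, A = (PP y z).filter (fun q => q ∣ l ^ e) := ⟨_, rfl⟩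
  have hsub : A ⊆ {l} := by
    intro q hq
    rw [hA, mem_filter, PP, mem_filter] at hq
    rw [mem_singleton]
    exact (Nat.prime_dvd_prime_iff_eq hq.1.2 hl).mp (hq.1.2.dvd_of_dvd_pow hq.2)
  unfold hh
  rw [← hA]
  rcases Finset.subset_singleton_iff.mp hsub with h | h
  · rw [h, Finset.prod_empty]
    norm_num
  · rw [h, Finset.prod_singleton]
    have := fac_le hl.two_le
    linarith [this.2.1, this.2.2]

end Pool.Agent.Helper9.RS
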