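import Pool.Agent.Helper9.RS.MuDvd
import Pool.Agent.Helper9.RS.HhBound

/-!
PROJECT RS, module RS-18. The third bad event: the product of the primes of the type is large.

`TT θ > z^K` (`z = 2^(2^s)`) gives `∑_{(l,i) ∈ theta N} log l ≥ K 2^s log 2 =: t`. `mu_markov` with `S = PP y z ×ˢ IH H`, `c (l, i) = log l`, `D (l, i) N = (l ∣ N + i)`: the measure is `≤ (∑_{(l,i)} log l mu(Thin ∧ l ∣ N + i)) / t`; `mu_dvd` with `n = l`: `hh l ≤ 2` (`hh_prime_pow` with `e = 1`), `gcd l Q = 1`, so the sum is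
`≤ 2H 26 mu0 ∑ log l / l ≤ 52 H mu0 (2^s + 2) log 2` (`log_sum`), and `2^s + 2 ≤ 2 2^s`.
-/

set_option autoImplicit false

namespace Pool.Agent.Helper9.RS

open Finset

private theorem badThree_card (H : ℕ) : (IH H).card = 2 * H := by
  unfold IH
  rw [card_erase_of_mem (by simp), Int.card_Icc]
  omega

private theorem badThree_log (θ : Finset (ℕ × ℤ)) (hθ : ∀ x ∈ θ, 0 < x.1) (s K : ℕ)
    (h : (2 ^ 2 ^ s) ^ K < TT θ) :
    (K : ℝ) * (2 ^ s * Real.log 2) ≤ ∑ x ∈ θ, Real.log x.1 := by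
  have h1 : Real.log (((2 ^ 2 ^ s) ^ K : ℕ) : ℝ) ≤ Real.log ((TT θ : ℕ) : ℝ) := by
    refine Real.log_le_log (by positivity) ?_
    exact_mod_cast h.le
  have h2 : Real.log (((2 ^ 2 ^ s) ^ K : ℕ) : ℝ) = (K : ℝ) * (2 ^ s * Real.log 2) := by
    push_cast
    rw [Real.log_pow, Real.log_pow]
    push_cast
    ring
  have h3 : Real.log ((TT θ : ℕ) : ℝ) = ∑ x ∈ θ, Real.log x.1 := by
    unfold TT
    push_cast
    rw [Real.log_prod]
    intro x hx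
    have := hθ x hx
    have h0 : (0 : ℝ) < (x.1 : ℝ) := by exact_mod_cast this
    exact h0.ne'
  rw [h2, h3] at h1
  exact h1

theorem bad_three {y s Q lq J₀ J₁ : ℕ} (h : SP y s Q lq J₀ J₁) (c H K : ℕ) (hH : H < 2 ^ J₀)
    (hK : 0 < K) :
    mu J₀ J₁ (fun N => Thin Q c y (2 ^ 2 ^ s) N ∧
      (2 ^ 2 ^ s) ^ K < TT (theta y (2 ^ 2 ^ s) H N)) ≤
      104 * H * mu0 y s Q J₁ / K := by
  classical
  have hVV : 0 ≤ VV y (2 ^ 2 ^ s) := by
    refine le_trans ?_ (VV_lower y s (by have := h.hy; omega))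
    positivity
  have hmu0 : 0 ≤ mu0 y s Q J₁ := by
    unfold mu0
    positivity
  have hK' : (0 : ℝ) < K := by exact_mod_cast hK
  have hlog2 : 0 < Real.log 2 := Real.log_pos (by norm_num)
  obtain ⟨t, ht⟩ : ∃ t : ℝ, t = (K : ℝ) * (2 ^ s * Real.log 2) := ⟨_, rfl⟩
  have ht0 : 0 < t := by rw [ht]; positivity
  obtain ⟨S, hS⟩ : ∃ S, S = (PP y (2 ^ 2 ^ s)) ×ˢ (IH H) := ⟨_, rfl⟩
  have h1 : mu J₀ J₁ (fun N => Thin Q c y (2 ^ 2 ^ s) N ∧
      (2 ^ 2 ^ s) ^ K < TT (theta y (2 ^ 2 ^ s) H N)) ≤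
      mu J₀ J₁ (fun N => Thin Q c y (2 ^ 2 ^ s) N ∧
        t ≤ ∑ x ∈ S with (x.1 : ℤ) ∣ (N : ℤ) + x.2, Real.log x.1) := by
    apply mu_mono
    rintro N - - ⟨hT, hlt⟩
    refine ⟨hT, ?_⟩
    have h2 := badThree_log (theta y (2 ^ 2 ^ s) H N) ?_ s K hlt
    · rw [ht]
      refine h2.trans (le_of_eq ?_)
      unfold theta
      rw [hS]
    · intro x hx
      unfold theta at hx
      rw [mem_filter, mem_product] at hx
      have hx1 := hx.1.1
      unfold PP at hx1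
      rw [mem_filter] at hx1
      exact hx1.2.pos
  refine h1.trans ?_
  have h3 := mu_markov J₀ J₁ S (fun x => Real.log x.1) (fun x _ => Real.log_natCast_nonneg x.1)
    (fun x N => (x.1 : ℤ) ∣ (N : ℤ) + x.2) (fun N => Thin Q c y (2 ^ 2 ^ s) N) t ht0
  have h3' : mu J₀ J₁ (fun N => Thin Q c y (2 ^ 2 ^ s) N ∧
        t ≤ ∑ x ∈ S with (x.1 : ℤ) ∣ (N : ℤ) + x.2, Real.log x.1) ≤
      (∑ x ∈ S, Real.log x.1 * mu J₀ J₁ (fun N => Thin Q c y (2 ^ 2 ^ s) N ∧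
        (x.1 : ℤ) ∣ (N : ℤ) + x.2)) / t := by
    convert h3 using 8
  refine h3'.trans ?_
  have h4 : ∀ x ∈ S, Real.log x.1 * mu J₀ J₁ (fun N => Thin Q c y (2 ^ 2 ^ s) N ∧
        (x.1 : ℤ) ∣ (N : ℤ) + x.2) ≤ 26 * mu0 y s Q J₁ * (Real.log x.1 / x.1) := by
    rintro ⟨l, i⟩ hx
    rw [hS, mem_product] at hx
    obtain ⟨hl, hi⟩ := hx
    simp only at hl hi ⊢
    unfold PP at hl
    rw [mem_filter, mem_Ioc] at hl
    obtain ⟨⟨hyl, _⟩, hlp⟩ := hl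
    have hi' : |i| < 2 ^ J₀ := by
      unfold IH at hi
      rw [mem_erase, mem_Icc] at hi
      have hle : |i| ≤ (H : ℤ) := abs_le.mpr hi.2
      refine lt_of_le_of_lt hle ?_
      exact_mod_cast hH
    have hm := mu_dvd h c l hlp.pos i hi'
    have hg : Nat.gcd l Q = 1 := by
      rw [← Nat.coprime_iff_gcd_eq_one, Nat.Prime.coprime_iff_not_dvd hlp]
      intro hd
      have := h.hQp l hlp hd
      omega
    rw [hg] at hm
    have hh2 := hh_prime_pow y (2 ^ 2 ^ s) l 1 hlp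
    rw [pow_one] at hh2
    have hl0 : (0 : ℝ) < l := by exact_mod_cast hlp.pos
    have hlog : 0 ≤ Real.log l := Real.log_natCast_nonneg l
    have hm2 : mu J₀ J₁ (fun N => Thin Q c y (2 ^ 2 ^ s) N ∧ (l : ℤ) ∣ (N : ℤ) + i) ≤
        26 * mu0 y s Q J₁ / l := by
      refine hm.trans ?_
      rw [Nat.cast_one, mul_one]
      apply div_le_div_of_nonneg_right _ hl0.le
      nlinarith
    refine (mul_le_mul_of_nonneg_left hm2 hlog).trans (le_of_eq ?_)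
    ring
  have h5 := sum_le_sum h4
  have h6 : ∑ x ∈ S, 26 * mu0 y s Q J₁ * (Real.log x.1 / x.1) =
      52 * H * mu0 y s Q J₁ * ∑ l ∈ PP y (2 ^ 2 ^ s), Real.log l / l := by
    rw [hS, sum_product, mul_sum]
    refine sum_congr rfl fun l _ => ?_
    simp only
    rw [sum_const, badThree_card, nsmul_eq_mul]
    push_cast
    ring
  rw [h6] at h5
  have h7 := log_sum y s
  have h8 : (52 * H * mu0 y s Q J₁) * ∑ l ∈ PP y (2 ^ 2 ^ s), Real.log l / l ≤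
      (52 * H * mu0 y s Q J₁) * ((2 * 2 ^ s) * Real.log 2) := by
    refine mul_le_mul_of_nonneg_left (h7.trans ?_) (by positivity)
    refine mul_le_mul_of_nonneg_right ?_ hlog2.le
    have h9 : (2 : ℝ) ≤ 2 ^ s := by
      calc (2 : ℝ) = 2 ^ 1 := by norm_num
        _ ≤ 2 ^ s := pow_le_pow_right₀ (by norm_num) (by have := h.hs; omega)
    linarith
  rw [div_le_div_iff₀ ht0 hK']
  calc (∑ x ∈ S, Real.log x.1 * mu J₀ J₁ (fun N => Thin Q c y (2 ^ 2 ^ s) N ∧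
        (x.1 : ℤ) ∣ (N : ℤ) + x.2)) * K
      ≤ ((52 * H * mu0 y s Q J₁) * ((2 * 2 ^ s) * Real.log 2)) * K :=
        mul_le_mul_of_nonneg_right (h5.trans h8) hK'.le
    _ = 104 * H * mu0 y s Q J₁ * t := by rw [ht]; ring

end Pool.Agent.Helper9.RS
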