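import Pool.Agent.Helper9.RS.MuDvd
import Pool.Agent.Helper9.RS.HhBound

/-!
PROJECT RS, module RS-17. The second bad event: squares.

`mu_union` over `PP y z ×ˢ IH H` (`|IH H| = 2 H`), `mu_dvd` with `n = l^2`: `hh (l^2) ≤ 2` (`hh_prime_pow`), `gcd (l^2) Q = 1` (`l > y`, `h.hQp`), so every term is `≤ 26 mu0/l^2`; `sq_sum`: total `≤ 2H 26 mu0/y`. `|i| ≤ H < 2^J₀`.
-/

set_option autoImplicit false

namespace Pool.Agent.Helper9.RS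

open Finset

private theorem badTwo_card (H : ℕ) : (IH H).card = 2 * H := by
  unfold IH
  rw [card_erase_of_mem (by simp), Int.card_Icc]
  omega

theorem bad_two {y s Q lq J₀ J₁ : ℕ} (h : SP y s Q lq J₀ J₁) (c H : ℕ) (hH : H < 2 ^ J₀) :
    mu J₀ J₁ (fun N => Thin Q c y (2 ^ 2 ^ s) N ∧
      ∃ x ∈ theta y (2 ^ 2 ^ s) H N, (x.1 : ℤ) ^ 2 ∣ (N : ℤ) + x.2) ≤
      52 * H * mu0 y s Q J₁ / y := by
  have hVV : 0 ≤ VV y (2 ^ 2 ^ s) := by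
    refine le_trans ?_ (VV_lower y s (by have := h.hy; omega))
    positivity
  have hmu0 : 0 ≤ mu0 y s Q J₁ := by
    unfold mu0
    positivity
  have h1 : mu J₀ J₁ (fun N => Thin Q c y (2 ^ 2 ^ s) N ∧
      ∃ x ∈ theta y (2 ^ 2 ^ s) H N, (x.1 : ℤ) ^ 2 ∣ (N : ℤ) + x.2) ≤
      mu J₀ J₁ (fun N => Thin Q c y (2 ^ 2 ^ s) N ∧
        ∃ x ∈ (PP y (2 ^ 2 ^ s)) ×ˢ (IH H), (x.1 : ℤ) ^ 2 ∣ (N : ℤ) + x.2) := by
    apply mu_mono
    rintro N - - ⟨hT, x, hx, hd⟩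
    unfold theta at hx
    exact ⟨hT, x, (mem_filter.mp hx).1, hd⟩
  refine h1.trans ((mu_union J₀ J₁ ((PP y (2 ^ 2 ^ s)) ×ˢ (IH H))
    (fun x N => (x.1 : ℤ) ^ 2 ∣ (N : ℤ) + x.2) (fun N => Thin Q c y (2 ^ 2 ^ s) N)).trans ?_)
  have h2 : ∀ x ∈ (PP y (2 ^ 2 ^ s)) ×ˢ (IH H),
      mu J₀ J₁ (fun N => Thin Q c y (2 ^ 2 ^ s) N ∧ (x.1 : ℤ) ^ 2 ∣ (N : ℤ) + x.2) ≤
        26 * mu0 y s Q J₁ * (1 / (x.1 : ℝ) ^ 2) := by
    rintro ⟨l, i⟩ hx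
    rw [mem_product] at hx
    obtain ⟨hl, hi⟩ := hx
    simp only at hl hi ⊢
    unfold PP at hl
    rw [mem_filter, mem_Ioc] at hl
    obtain ⟨⟨hyl, _⟩, hlp⟩ := hl
    have hi' : |i| < 2 ^ J₀ := by
      unfold IH at hi
      rw [mem_erase, mem_Icc] at hi
      have hle : |i| ≤ (H : ℤ) := abs_le.mpr hi.2
      refine lt_of_le_of_lt hle ?_
      exact_mod_cast hH
    have hm := mu_dvd h c (l ^ 2) (pow_pos hlp.pos 2) i hi'
    have hg : Nat.gcd (l ^ 2) Q = 1 := by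
      apply Nat.Coprime.pow_left
      rw [Nat.Prime.coprime_iff_not_dvd hlp]
      intro hd
      have := h.hQp l hlp hd
      omega
    rw [hg] at hm
    push_cast at hm
    refine hm.trans ?_
    have hh2 := hh_prime_pow y (2 ^ 2 ^ s) l 2 hlp
    have hl2 : (0 : ℝ) < (l : ℝ) ^ 2 := by
      have : (0 : ℝ) < l := by exact_mod_cast hlp.pos
      positivity
    rw [mul_one, mul_one_div]
    apply div_le_div_of_nonneg_right _ hl2.le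
    nlinarith
  refine (sum_le_sum h2).trans ?_
  rw [sum_product]
  have h3 : ∑ l ∈ PP y (2 ^ 2 ^ s), ∑ _i ∈ IH H, 26 * mu0 y s Q J₁ * (1 / (l : ℝ) ^ 2) =
      52 * H * mu0 y s Q J₁ * ∑ l ∈ PP y (2 ^ 2 ^ s), (1 : ℝ) / (l : ℝ) ^ 2 := by
    rw [mul_sum]
    refine sum_congr rfl fun l _ => ?_
    rw [sum_const, badTwo_card, nsmul_eq_mul]
    push_cast
    ring
  simp only at h3 ⊢
  rw [h3]
  have h4 := sq_sum y (2 ^ 2 ^ s) (by have := h.hy; omega)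
  refine (mul_le_mul_of_nonneg_left h4 (by positivity)).trans (le_of_eq ?_)
  rw [mul_one_div]

end Pool.Agent.Helper9.RS
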