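import Mathlib

/-!
PROJECT RS, module RS-01. Bonferroni inequalities for `∏ (1 - x i)`, `0 ≤ x i ≤ 1`, and the elementary symmetric sums.

`bonf`: put `B n P = ∑ (-1)^|S| ∏_{i ∈ S} x i` over the `S ⊆ P` with `|S| < n` and `e n P = ∑_{|S| = n} ∏_{i ∈ S} x i`. Induction on `P` (for all `n`): `0 ≤ (-1)^n (∏ (1 - x i) - B n P) ≤ e n P`. Step `P ∪ {a}`, `n ≥ 1`: `∏' = (1 - x a) ∏`,
`B n (P ∪ {a}) = B n P - x a B (n-1) P`, `e n (P ∪ {a}) = e n P + x a e (n-1) P`, so `(-1)^n (∏' - B n (P ∪ {a})) = (-1)^n (∏ - B n P) + x a (-1)^(n-1) (∏ - B (n-1) P)`. For `n = 0`: `0 ≤ ∏ ≤ 1`. Then `n = 2 m`.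
`esum`: induction on `P` with `(s + x)^(n+1) / (n+1)! ≥ s^(n+1)/(n+1)! + x s^n / n!` (binomial theorem, or Bernoulli type inequality by induction on `n`).
-/

set_option autoImplicit false

namespace Pool.Agent.Helper9.RS

open Finset

private def BB (x : ℕ → ℝ) (n : ℕ) (P : Finset ℕ) : ℝ :=
  ∑ S ∈ P.powerset, if S.card < n then (-1 : ℝ) ^ S.card * ∏ i ∈ S, x i else 0

private def ee (x : ℕ → ℝ) (n : ℕ) (P : Finset ℕ) : ℝ :=
  ∑ S ∈ P.powerset, if S.card = n then ∏ i ∈ S, x i else 0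

private theorem BB_insert (x : ℕ → ℝ) (n : ℕ) {P : Finset ℕ} {a : ℕ} (ha : a ∉ P) :
    BB x (n + 1) (insert a P) = BB x (n + 1) P - x a * BB x n P := by
  unfold BB
  rw [Finset.sum_powerset_insert ha, sub_eq_add_neg, Finset.mul_sum, ← Finset.sum_neg_distrib]
  congr 1
  apply Finset.sum_congr rfl
  intro t ht
  have hat : a ∉ t := fun h => ha (Finset.mem_powerset.mp ht h)
  rw [Finset.card_insert_of_notMem hat, Finset.prod_insert hat]
  by_cases h : t.card < n
  · rw [if_pos h, if_pos (Nat.succ_lt_succ h), pow_succ]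
    ring
  · rw [if_neg h, if_neg (fun h' => h (Nat.lt_of_succ_lt_succ h'))]
    ring

private theorem ee_insert (x : ℕ → ℝ) (n : ℕ) {P : Finset ℕ} {a : ℕ} (ha : a ∉ P) :
    ee x (n + 1) (insert a P) = ee x (n + 1) P + x a * ee x n P := by
  unfold ee
  rw [Finset.sum_powerset_insert ha, Finset.mul_sum]
  congr 1
  apply Finset.sum_congr rfl
  intro t ht
  have hat : a ∉ t := fun h => ha (Finset.mem_powerset.mp ht h)
  rw [Finset.card_insert_of_notMem hat, Finset.prod_insert hat]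
  by_cases h : t.card = n
  · rw [if_pos h, if_pos (by rw [h])]
  · rw [if_neg h, if_neg (fun h' => h (Nat.succ_injective h'))]
    ring

private theorem ee_zero (x : ℕ → ℝ) (P : Finset ℕ) : ee x 0 P = 1 := by
  unfold ee
  rw [Finset.sum_eq_single ∅]
  · simp
  · intro S _ hS
    rw [if_neg]
    rw [Finset.card_eq_zero]
    exact hS
  · intro h
    exact absurd (Finset.empty_mem_powerset P) h

private theorem BB_zero (x : ℕ → ℝ) (P : Finset ℕ) : BB x 0 P = 0 := by
  unfold BB
  simp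

private theorem key (x : ℕ → ℝ) (P : Finset ℕ) (hx : ∀ i ∈ P, 0 ≤ x i ∧ x i ≤ 1) (n : ℕ) :
    0 ≤ (-1 : ℝ) ^ n * (∏ i ∈ P, (1 - x i) - BB x n P) ∧
      (-1 : ℝ) ^ n * (∏ i ∈ P, (1 - x i) - BB x n P) ≤ ee x n P := by
  induction P using Finset.induction_on generalizing n with
  | empty =>
    rcases n with _ | n
    · rw [BB_zero, ee_zero]
      simp
    · unfold BB ee
      simp
  | insert a P ha ih =>
    have hP : ∀ i ∈ P, 0 ≤ x i ∧ x i ≤ 1 := fun i hi => hx i (Finset.mem_insert_of_mem hi)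
    have hxa := hx a (Finset.mem_insert_self a P)
    rcases n with _ | n
    · rw [BB_zero, ee_zero, pow_zero, one_mul, sub_zero]
      refine ⟨Finset.prod_nonneg fun i hi => ?_, Finset.prod_le_one (fun i hi => ?_) fun i hi => ?_⟩
      · have := hx i hi
        linarith
      · have := hx i hi
        linarith
      · have := hx i hi
        linarith
    · have h1 := ih hP (n + 1)
      have h2 := ih hP n
      have h3 : (-1 : ℝ) ^ (n + 1) * (∏ i ∈ insert a P, (1 - x i) - BB x (n + 1) (insert a P)) =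
          (-1 : ℝ) ^ (n + 1) * (∏ i ∈ P, (1 - x i) - BB x (n + 1) P) +
            x a * ((-1 : ℝ) ^ n * (∏ i ∈ P, (1 - x i) - BB x n P)) := by
        rw [BB_insert x n ha, Finset.prod_insert ha, pow_succ]
        ring
      rw [h3, ee_insert x n ha]
      constructor
      · exact add_nonneg h1.1 (mul_nonneg hxa.1 h2.1)
      · exact add_le_add h1.2 (mul_le_mul_of_nonneg_left h2.2 hxa.1)

private theorem bern {s y : ℝ} (hs : 0 ≤ s) (hy : 0 ≤ y) (n : ℕ) :
    s ^ (n + 1) + (n + 1) * y * s ^ n ≤ (s + y) ^ (n + 1) := by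
  induction n with
  | zero => simp
  | succ n ih =>
    have h1 : (s + y) * (s ^ (n + 1) + (n + 1) * y * s ^ n) ≤ (s + y) * (s + y) ^ (n + 1) :=
      mul_le_mul_of_nonneg_left ih (add_nonneg hs hy)
    have h2 : 0 ≤ ((n : ℝ) + 1) * y ^ 2 * s ^ n := by positivity
    have h3 : (s + y) * (s + y) ^ (n + 1) = (s + y) ^ (n + 1 + 1) := by ring
    have h4 : (s + y) * (s ^ (n + 1) + (n + 1) * y * s ^ n) =
        s ^ (n + 1 + 1) + ((n : ℝ) + 1 + 1) * y * s ^ (n + 1) + ((n : ℝ) + 1) * y ^ 2 * s ^ n := by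
      ring
    rw [h3, h4] at h1
    push_cast
    linarith

theorem bonf (P : Finset ℕ) (x : ℕ → ℝ) (hx : ∀ i ∈ P, 0 ≤ x i ∧ x i ≤ 1) (m : ℕ) :
    ∑ S ∈ P.powerset with S.card < 2 * m, (-1 : ℝ) ^ S.card * ∏ i ∈ S, x i ≤ ∏ i ∈ P, (1 - x i) ∧
      ∏ i ∈ P, (1 - x i) ≤ ∑ S ∈ P.powerset with S.card < 2 * m, (-1 : ℝ) ^ S.card * ∏ i ∈ S, x i +
        ∑ S ∈ P.powerset with S.card = 2 * m, ∏ i ∈ S, x i := by
  have h1 := key x P hx (2 * m)
  have h2 : (-1 : ℝ) ^ (2 * m) = 1 := by
    rw [pow_mul]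
    simp
  rw [h2, one_mul] at h1
  rw [Finset.sum_filter, Finset.sum_filter]
  unfold BB ee at h1
  constructor
  · linarith [h1.1]
  · linarith [h1.2]

theorem esum (P : Finset ℕ) (x : ℕ → ℝ) (hx : ∀ i ∈ P, 0 ≤ x i) (n : ℕ) :
    ∑ S ∈ P.powerset with S.card = n, ∏ i ∈ S, x i ≤ (∑ i ∈ P, x i) ^ n / (n.factorial : ℝ) := by
  have h0 : ee x n P ≤ (∑ i ∈ P, x i) ^ n / (n.factorial : ℝ) := by
    induction P using Finset.induction_on generalizing n with
    | empty =>
      rcases n with _ | n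
      · rw [ee_zero]
        simp
      · unfold ee
        simp
    | insert a P ha ih =>
      have hP : ∀ i ∈ P, 0 ≤ x i := fun i hi => hx i (Finset.mem_insert_of_mem hi)
      have hxa := hx a (Finset.mem_insert_self a P)
      have hs : 0 ≤ ∑ i ∈ P, x i := Finset.sum_nonneg hP
      rcases n with _ | n
      · rw [ee_zero]
        simp
      · rw [ee_insert x n ha, Finset.sum_insert ha]
        have h1 := ih hP (n + 1)
        have h2 := ih hP n
        have h3 := bern hs hxa n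
        have h4 : (0 : ℝ) < ((n + 1).factorial : ℝ) := by positivity
        have h5 : ((n + 1).factorial : ℝ) = ((n : ℝ) + 1) * (n.factorial : ℝ) := by
          rw [Nat.factorial_succ]
          push_cast
          ring
        have h6 : (0 : ℝ) < (n.factorial : ℝ) := by positivity
        calc ee x (n + 1) P + x a * ee x n P
            ≤ (∑ i ∈ P, x i) ^ (n + 1) / ((n + 1).factorial : ℝ) +
              x a * ((∑ i ∈ P, x i) ^ n / (n.factorial : ℝ)) :=
              add_le_add h1 (mul_le_mul_of_nonneg_left h2 hxa)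
          _ = ((∑ i ∈ P, x i) ^ (n + 1) + (n + 1) * x a * (∑ i ∈ P, x i) ^ n) /
              ((n + 1).factorial : ℝ) := by
              rw [h5]
              field_simp
          _ ≤ (x a + ∑ i ∈ P, x i) ^ (n + 1) / ((n + 1).factorial : ℝ) := by
              apply div_le_div_of_nonneg_right _ h4.le
              rw [add_comm (x a)]
              exact h3
  rw [Finset.sum_filter]
  exact h0

end Pool.Agent.Helper9.RS
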