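import Mathlib

/-!
PROJECT RS, module RS-02. Counting the integers of an interval in prescribed residue classes modulo several primes.

Let `D = ∏_{l ∈ S} l`. By the Chinese remainder theorem (`Nat.chineseRemainderOfFinset`, or induction on `S` with `Nat.chineseRemainder`) exactly `∏ |Ω l|` of the residues `r < D` satisfy `r % l ∈ Ω l` for all `l ∈ S`; every residue class modulo `D` has between
`L / D - 1` and `L / D + 1` elements in an interval of `L` integers (`Nat.count_modEq_card` or `Nat.filter_Ico_card_eq_of_periodic`, or an induction on `L / D`). Sum over the classes. (`Ω` empty at some `l`: both sides are `0`.)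
Or by induction on `S` for all intervals AND all arithmetic progressions: the integers `s ≡ r` modulo the new prime `q` in the interval are `r + q t`, `t` in an interval of length within `1` of `L / q`.
-/

set_option autoImplicit false

namespace Pool.Agent.Helper9.RS

open Finset

private theorem crtCount_base (m : ℕ) (hm : 0 < m) (r s₀ L : ℕ) :
    |(((Ico s₀ (s₀ + L)).filter (fun s => s ≡ r [MOD m])).card : ℝ) - L / m| ≤ 1 := by
  have h1 := Nat.Ico_filter_modEq_card s₀ (s₀ + L) hm r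
  set x : ℚ := ((s₀ : ℚ) - r) / m with hx
  have hmq : (0 : ℚ) < m := by exact_mod_cast hm
  have h2 : (((s₀ + L : ℕ) : ℚ) - r) / m = x + L / m := by
    rw [hx]
    push_cast
    field_simp
    ring
  rw [h2] at h1
  have h3 := Int.ceil_lt_add_one x
  have h4 := Int.le_ceil x
  have h5 := Int.ceil_lt_add_one (x + L / m)
  have h6 := Int.le_ceil (x + (L : ℚ) / m)
  have h7 : (0 : ℚ) ≤ L / m := by positivity
  have h8 : ⌈x⌉ ≤ ⌈x + (L : ℚ) / m⌉ := Int.ceil_le_ceil (by linarith)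
  rw [max_eq_left (by linarith)] at h1
  set c := ((Ico s₀ (s₀ + L)).filter (fun s => s ≡ r [MOD m])).card with hc
  have h9 : ((c : ℤ) : ℚ) = (⌈x + (L : ℚ) / m⌉ : ℚ) - ⌈x⌉ := by
    rw [h1]
    push_cast
    ring
  have h10 : |(c : ℚ) - L / m| ≤ 1 := by
    have h11 : (c : ℚ) = (⌈x + (L : ℚ) / m⌉ : ℚ) - ⌈x⌉ := by
      rw [← h9]
      push_cast
      ring
    rw [h11, abs_le]
    constructor <;> linarith
  have h12 := (Rat.cast_le (K := ℝ)).2 h10
  rw [Rat.cast_abs] at h12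
  push_cast at h12
  exact h12

private theorem crtCount_gen (S : Finset ℕ) (hS : ∀ l ∈ S, l.Prime) (Ω : ℕ → Finset ℕ)
    (hΩ : ∀ l ∈ S, ∀ t ∈ Ω l, t < l) (s₀ L : ℕ) : ∀ m : ℕ, 0 < m → (∀ l ∈ S, Nat.Coprime m l) → ∀ r : ℕ,
    |(((Ico s₀ (s₀ + L)).filter (fun s => s ≡ r [MOD m] ∧ ∀ l ∈ S, s % l ∈ Ω l)).card : ℝ) -
      L / m * ∏ l ∈ S, ((Ω l).card : ℝ) / l| ≤ ∏ l ∈ S, ((Ω l).card : ℝ) := by
  induction S using Finset.induction_on with
  | empty =>
    intro m hm _ r
    simpa using crtCount_base m hm r s₀ L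
  | insert q S hq ih =>
    intro m hm hcop r
    have hqp : q.Prime := hS q (mem_insert_self q S)
    have hSp : ∀ l ∈ S, l.Prime := fun l hl => hS l (mem_insert_of_mem hl)
    have hmq : Nat.Coprime m q := hcop q (mem_insert_self q S)
    have ih' := ih hSp (fun l hl => hΩ l (mem_insert_of_mem hl)) (m * q) (Nat.mul_pos hm hqp.pos)
      (fun l hl => Nat.Coprime.mul_left (hcop l (mem_insert_of_mem hl))
        ((Nat.coprime_primes hqp (hSp l hl)).2 (fun h => hq (h ▸ hl))))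
    have hset : (Ico s₀ (s₀ + L)).filter (fun s => s ≡ r [MOD m] ∧ ∀ l ∈ insert q S, s % l ∈ Ω l) =
        (Ω q).biUnion (fun t => (Ico s₀ (s₀ + L)).filter (fun s =>
          s ≡ (Nat.chineseRemainder hmq r t : ℕ) [MOD m * q] ∧ ∀ l ∈ S, s % l ∈ Ω l)) := by
      ext s
      simp only [mem_filter, mem_biUnion, mem_insert, forall_eq_or_imp]
      constructor
      · rintro ⟨h1, h2, h3, h4⟩
        refine ⟨s % q, h3, h1, ?_, h4⟩
        refine (Nat.modEq_and_modEq_iff_modEq_mul hmq).1 ⟨?_, ?_⟩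
        · exact h2.trans (Nat.chineseRemainder hmq r (s % q)).2.1.symm
        · exact (Nat.mod_modEq s q).symm.trans (Nat.chineseRemainder hmq r (s % q)).2.2.symm
      · rintro ⟨t, ht, h1, h2, h4⟩
        obtain ⟨h5, h6⟩ := (Nat.modEq_and_modEq_iff_modEq_mul hmq).2 h2
        refine ⟨h1, h5.trans (Nat.chineseRemainder hmq r t).2.1, ?_, h4⟩
        have h7 : s ≡ t [MOD q] := h6.trans (Nat.chineseRemainder hmq r t).2.2
        have h8 : s % q = t := by
          have h9 : s % q = t % q := h7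
          rw [h9, Nat.mod_eq_of_lt (hΩ q (mem_insert_self q S) t ht)]
        rw [h8]
        exact ht
    have hdisj : ∀ t ∈ Ω q, ∀ t' ∈ Ω q, t ≠ t' → Disjoint
        ((Ico s₀ (s₀ + L)).filter (fun s =>
          s ≡ (Nat.chineseRemainder hmq r t : ℕ) [MOD m * q] ∧ ∀ l ∈ S, s % l ∈ Ω l))
        ((Ico s₀ (s₀ + L)).filter (fun s =>
          s ≡ (Nat.chineseRemainder hmq r t' : ℕ) [MOD m * q] ∧ ∀ l ∈ S, s % l ∈ Ω l)) := by
      intro t ht t' ht' hne
      rw [Finset.disjoint_left]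
      intro s hs hs'
      rw [mem_filter] at hs hs'
      have h5 := ((Nat.modEq_and_modEq_iff_modEq_mul hmq).2 hs.2.1).2
      have h6 := ((Nat.modEq_and_modEq_iff_modEq_mul hmq).2 hs'.2.1).2
      have h7 : t ≡ t' [MOD q] := ((Nat.chineseRemainder hmq r t).2.2.symm.trans h5.symm).trans
        (h6.trans (Nat.chineseRemainder hmq r t').2.2)
      apply hne
      have h8 : t % q = t' % q := h7
      rwa [Nat.mod_eq_of_lt (hΩ q (mem_insert_self q S) t ht),
        Nat.mod_eq_of_lt (hΩ q (mem_insert_self q S) t' ht')] at h8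
    rw [hset, card_biUnion hdisj, prod_insert hq, prod_insert hq]
    have hq0 : (q : ℝ) ≠ 0 := by exact_mod_cast hqp.ne_zero
    have hm0 : (m : ℝ) ≠ 0 := by exact_mod_cast hm.ne'
    have e1 : (L : ℝ) / m * (((Ω q).card : ℝ) / q * ∏ l ∈ S, ((Ω l).card : ℝ) / l) =
        ∑ t ∈ Ω q, (L : ℝ) / (m * q : ℕ) * ∏ l ∈ S, ((Ω l).card : ℝ) / l := by
      rw [sum_const, nsmul_eq_mul]
      push_cast
      field_simp
    rw [e1, Nat.cast_sum, ← sum_sub_distrib]
    refine (abs_sum_le_sum_abs _ _).trans ?_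
    refine (sum_le_sum fun t _ => ih' (Nat.chineseRemainder hmq r t : ℕ)).trans ?_
    rw [sum_const, nsmul_eq_mul]

theorem crt_count (S : Finset ℕ) (hS : ∀ l ∈ S, l.Prime) (Ω : ℕ → Finset ℕ)
    (hΩ : ∀ l ∈ S, ∀ t ∈ Ω l, t < l) (s₀ L : ℕ) :
    |(((Ico s₀ (s₀ + L)).filter (fun s => ∀ l ∈ S, s % l ∈ Ω l)).card : ℝ) -
      L * ∏ l ∈ S, ((Ω l).card : ℝ) / l| ≤ ∏ l ∈ S, ((Ω l).card : ℝ) := by
  have h1 := crtCount_gen S hS Ω hΩ s₀ L 1 one_pos (fun l _ => Nat.coprime_one_left l) 0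
  have h2 : ∀ s : ℕ, s ≡ 0 [MOD 1] := fun s => Nat.modEq_one
  simpa [h2] using h1

end Pool.Agent.Helper9.RS
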