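import Pool.Agent.Helper9.RS.Bonf
import Pool.Agent.Helper9.RS.CrtCount

/-!
PROJECT RS, module RS-03. Brun's pure sieve.

For every `s` apply `bonf` to `x l = 1` if `s % l ∈ Ω l`, else `0`: the indicator of `s % l ∉ Ω l` for all `l ∈ P` is `∏ (1 - x l)`. Sum over `s` and interchange: with `c S = #{s : ∀ l ∈ S, s % l ∈ Ω l}` the count `F` satisfies
`∑_{|S| < 2m} (-1)^|S| c S ≤ F ≤ ∑_{|S| < 2m} (-1)^|S| c S + ∑_{|S| = 2m} c S`. By `crt_count` `c S = L ∏ |Ω l| / l + O(∏ |Ω l|)`. By `bonf` for `x l = |Ω l| / l` (`≤ 1` as `Ω l ⊆ range l`) and `esum`: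
`|F - L ∏ (1 - |Ω l| / l)| ≤ L e + ∑_{|S| ≤ 2m} ∏_{l ∈ S} |Ω l|`, `e ≤ (∑ |Ω l| / l)^(2m) / (2m)!`, and `∑_{|S| ≤ n} ∏ |Ω l| ≤ ∑_{i ≤ n} (|P| choose i) κ^i ≤ ∑_{i ≤ n} (n choose i) (κ |P|)^i = (κ |P| + 1)^n` (`Nat.choose_le_pow`, `1 ≤ n choose i`).
-/

set_option autoImplicit false

namespace Pool.Agent.Helper9.RS

open Finset

/-- `∑_{|S| ≤ n} κ ^ |S| ≤ (κ |P| + 1) ^ n` -/
private theorem sum_pow_card (P : Finset ℕ) (κ : ℝ) (hκ : 0 ≤ κ) (n : ℕ) :
    ∑ S ∈ P.powerset with S.card ≤ n, κ ^ S.card ≤ (κ * P.card + 1) ^ n := by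
  rw [Finset.sum_filter, Finset.sum_powerset_apply_card (fun k => if k ≤ n then κ ^ k else 0), add_pow]
  have h1 : ∀ k ∈ range (P.card + 1), (P.card.choose k) • (if k ≤ n then κ ^ k else (0 : ℝ)) =
      if k ≤ n then (P.card.choose k) * κ ^ k else 0 := by
    intro k _
    split_ifs
    · rw [nsmul_eq_mul]
    · rw [smul_zero]
  rw [Finset.sum_congr rfl h1, ← Finset.sum_filter]
  have hP0 : (0 : ℝ) ≤ P.card := Nat.cast_nonneg _
  have h2 : ∀ k ∈ (range (P.card + 1)).filter (fun k => k ≤ n),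
      (P.card.choose k : ℝ) * κ ^ k ≤ (κ * P.card) ^ k * 1 ^ (n - k) * (n.choose k : ℝ) := by
    intro k hk
    rw [Finset.mem_filter] at hk
    have h3 : ((P.card.choose k : ℕ) : ℝ) ≤ (P.card : ℝ) ^ k := by
      exact_mod_cast Nat.choose_le_pow P.card k
    have h4 : (1 : ℝ) ≤ (n.choose k : ℝ) := by
      exact_mod_cast Nat.choose_pos hk.2
    have h5 : 0 ≤ κ ^ k := pow_nonneg hκ k
    rw [one_pow, mul_one, mul_pow]
    calc (P.card.choose k : ℝ) * κ ^ k ≤ (P.card : ℝ) ^ k * κ ^ k := mul_le_mul_of_nonneg_right h3 h5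
      _ = κ ^ k * (P.card : ℝ) ^ k * 1 := by ring
      _ ≤ κ ^ k * (P.card : ℝ) ^ k * (n.choose k : ℝ) :=
          mul_le_mul_of_nonneg_left h4 (mul_nonneg h5 (pow_nonneg hP0 k))
  refine (Finset.sum_le_sum h2).trans ?_
  refine Finset.sum_le_sum_of_subset_of_nonneg ?_ fun k _ _ => by positivity
  intro k hk
  rw [Finset.mem_filter] at hk
  exact Finset.mem_range.2 (Nat.lt_succ_of_le hk.2)

theorem brun (P : Finset ℕ) (hP : ∀ l ∈ P, l.Prime) (Ω : ℕ → Finset ℕ)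
    (hΩ : ∀ l ∈ P, ∀ t ∈ Ω l, t < l) (κ : ℕ) (hκ : ∀ l ∈ P, (Ω l).card ≤ κ) (m s₀ L : ℕ) :
    |(((Ico s₀ (s₀ + L)).filter (fun s => ∀ l ∈ P, s % l ∉ Ω l)).card : ℝ) -
      L * ∏ l ∈ P, (1 - ((Ω l).card : ℝ) / l)| ≤
      L * ((∑ l ∈ P, ((Ω l).card : ℝ) / l) ^ (2 * m) / ((2 * m).factorial : ℝ)) +
        ((κ : ℝ) * P.card + 1) ^ (2 * m) := by
  classical
  obtain ⟨x, hx⟩ : ∃ x : ℕ → ℕ → ℝ, ∀ s l, x s l = if s % l ∈ Ω l then 1 else 0 := ⟨_, fun _ _ => rfl⟩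
  obtain ⟨c, hc⟩ : ∃ c : Finset ℕ → ℝ, ∀ S, c S =
      (((Ico s₀ (s₀ + L)).filter (fun s => ∀ l ∈ S, s % l ∈ Ω l)).card : ℝ) := ⟨_, fun _ => rfl⟩
  obtain ⟨w, hw⟩ : ∃ w : ℕ → ℝ, ∀ l, w l = ((Ω l).card : ℝ) / l := ⟨_, fun _ => rfl⟩
  obtain ⟨R, hR⟩ : ∃ R : Finset ℕ → ℝ, ∀ S, R S = ∏ l ∈ S, ((Ω l).card : ℝ) := ⟨_, fun _ => rfl⟩
  -- indicators
  have hprod : ∀ s (S : Finset ℕ), ∏ l ∈ S, x s l = if (∀ l ∈ S, s % l ∈ Ω l) then 1 else 0 := by
    intro s S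
    split_ifs with h
    · exact Finset.prod_eq_one fun l hl => by rw [hx, if_pos (h l hl)]
    · push Not at h
      obtain ⟨l, hl, hl'⟩ := h
      exact Finset.prod_eq_zero hl (by rw [hx, if_neg hl'])
  have hprod' : ∀ s, ∏ l ∈ P, (1 - x s l) = if (∀ l ∈ P, s % l ∉ Ω l) then 1 else 0 := by
    intro s
    split_ifs with h
    · exact Finset.prod_eq_one fun l hl => by rw [hx, if_neg (h l hl), sub_zero]
    · push Not at h
      obtain ⟨l, hl, hl'⟩ := h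
      exact Finset.prod_eq_zero hl (by rw [hx, if_pos hl', sub_self])
  have hcs : ∀ S, ∑ s ∈ Ico s₀ (s₀ + L), ∏ l ∈ S, x s l = c S := by
    intro S
    rw [hc, Finset.card_filter, Nat.cast_sum]
    refine Finset.sum_congr rfl fun s _ => ?_
    rw [hprod]
    split_ifs <;> simp
  have hF : ∑ s ∈ Ico s₀ (s₀ + L), ∏ l ∈ P, (1 - x s l) =
      (((Ico s₀ (s₀ + L)).filter (fun s => ∀ l ∈ P, s % l ∉ Ω l)).card : ℝ) := by
    rw [Finset.card_filter, Nat.cast_sum]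
    refine Finset.sum_congr rfl fun s _ => ?_
    rw [hprod']
    split_ifs <;> simp
  have hx01 : ∀ s, ∀ i ∈ P, 0 ≤ x s i ∧ x s i ≤ 1 := by
    intro s i _
    rw [hx]
    split_ifs <;> simp
  have hb := fun s => bonf P (x s) (hx01 s) m
  have hlow : ∑ S ∈ P.powerset with S.card < 2 * m, (-1 : ℝ) ^ S.card * c S ≤
      ∑ s ∈ Ico s₀ (s₀ + L), ∏ l ∈ P, (1 - x s l) := by
    have h1 : ∑ S ∈ P.powerset with S.card < 2 * m, (-1 : ℝ) ^ S.card * c S =
        ∑ s ∈ Ico s₀ (s₀ + L), ∑ S ∈ P.powerset with S.card < 2 * m, (-1 : ℝ) ^ S.card * ∏ i ∈ S, x s i := by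
      rw [Finset.sum_comm]
      refine Finset.sum_congr rfl fun S _ => ?_
      rw [← Finset.mul_sum, hcs]
    rw [h1]
    exact Finset.sum_le_sum fun s _ => (hb s).1
  have hupp : ∑ s ∈ Ico s₀ (s₀ + L), ∏ l ∈ P, (1 - x s l) ≤
      ∑ S ∈ P.powerset with S.card < 2 * m, (-1 : ℝ) ^ S.card * c S +
        ∑ S ∈ P.powerset with S.card = 2 * m, c S := by
    have h1 : ∑ S ∈ P.powerset with S.card < 2 * m, (-1 : ℝ) ^ S.card * c S +
        ∑ S ∈ P.powerset with S.card = 2 * m, c S =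
        ∑ s ∈ Ico s₀ (s₀ + L), (∑ S ∈ P.powerset with S.card < 2 * m, (-1 : ℝ) ^ S.card * ∏ i ∈ S, x s i +
          ∑ S ∈ P.powerset with S.card = 2 * m, ∏ i ∈ S, x s i) := by
      rw [Finset.sum_add_distrib, Finset.sum_comm, Finset.sum_comm (s := Ico s₀ (s₀ + L))]
      congr 1
      · refine Finset.sum_congr rfl fun S _ => ?_
        rw [← Finset.mul_sum, hcs]
      · exact Finset.sum_congr rfl fun S _ => (hcs S).symm
    rw [h1]
    exact Finset.sum_le_sum fun s _ => (hb s).2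
  have hw01 : ∀ i ∈ P, 0 ≤ w i ∧ w i ≤ 1 := by
    intro i hi
    rw [hw]
    have hi0 : (0 : ℝ) < i := by exact_mod_cast (hP i hi).pos
    have h2 : (Ω i).card ≤ i := by
      have h3 : Ω i ⊆ range i := fun t ht => Finset.mem_range.2 (hΩ i hi t ht)
      simpa using Finset.card_le_card h3
    refine ⟨by positivity, ?_⟩
    rw [div_le_one hi0]
    exact_mod_cast h2
  obtain ⟨hB1, hB2⟩ := bonf P w hw01 m
  have he := esum P w (fun i hi => (hw01 i hi).1) (2 * m)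
  have hcR : ∀ S ∈ P.powerset, |c S - L * ∏ l ∈ S, w l| ≤ R S := by
    intro S hS
    rw [Finset.mem_powerset] at hS
    rw [hc, hR]
    simp only [hw]
    exact crt_count S (fun l hl => hP l (hS hl)) Ω (fun l hl => hΩ l (hS hl)) s₀ L
  have hRs : ∑ S ∈ P.powerset with S.card < 2 * m, R S + ∑ S ∈ P.powerset with S.card = 2 * m, R S ≤
      ((κ : ℝ) * P.card + 1) ^ (2 * m) := by
    refine le_trans ?_ (sum_pow_card P κ (Nat.cast_nonneg _) (2 * m))
    have h1 : (P.powerset.filter fun S => S.card ≤ 2 * m) =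
        (P.powerset.filter fun S => S.card < 2 * m) ∪ (P.powerset.filter fun S => S.card = 2 * m) := by
      rw [← Finset.filter_or]
      refine Finset.filter_congr fun S _ => ?_
      exact le_iff_lt_or_eq
    have h2 : Disjoint (P.powerset.filter fun S => S.card < 2 * m) (P.powerset.filter fun S => S.card = 2 * m) := by
      rw [Finset.disjoint_filter]
      intro S _ h3 h4
      omega
    rw [h1, Finset.sum_union h2]
    have h3 : ∀ S ∈ P.powerset, R S ≤ (κ : ℝ) ^ S.card := by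
      intro S hS
      rw [Finset.mem_powerset] at hS
      rw [hR, ← Finset.prod_const]
      refine Finset.prod_le_prod (fun l _ => Nat.cast_nonneg _) fun l hl => ?_
      exact_mod_cast hκ l (hS hl)
    exact add_le_add (Finset.sum_le_sum fun S hS => h3 S (Finset.mem_filter.1 hS).1)
      (Finset.sum_le_sum fun S hS => h3 S (Finset.mem_filter.1 hS).1)
  -- comparison of the alternating sums
  have hA : |∑ S ∈ P.powerset with S.card < 2 * m, (-1 : ℝ) ^ S.card * c S -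
      L * ∑ S ∈ P.powerset with S.card < 2 * m, (-1 : ℝ) ^ S.card * ∏ i ∈ S, w i| ≤
      ∑ S ∈ P.powerset with S.card < 2 * m, R S := by
    rw [Finset.mul_sum, ← Finset.sum_sub_distrib]
    refine (Finset.abs_sum_le_sum_abs _ _).trans (Finset.sum_le_sum fun S hS => ?_)
    have h1 : (-1 : ℝ) ^ S.card * c S - L * ((-1 : ℝ) ^ S.card * ∏ i ∈ S, w i) =
        (-1 : ℝ) ^ S.card * (c S - L * ∏ l ∈ S, w l) := by ring
    rw [h1, abs_mul, abs_pow, abs_neg, abs_one, one_pow, one_mul]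
    exact hcR S (Finset.mem_filter.1 hS).1
  have hE : ∑ S ∈ P.powerset with S.card = 2 * m, c S ≤
      L * ∑ S ∈ P.powerset with S.card = 2 * m, ∏ i ∈ S, w i + ∑ S ∈ P.powerset with S.card = 2 * m, R S := by
    rw [Finset.mul_sum, ← Finset.sum_add_distrib]
    refine Finset.sum_le_sum fun S hS => ?_
    have h1 := (abs_le.1 (hcR S (Finset.mem_filter.1 hS).1)).2
    linarith
  have hR0 : 0 ≤ ∑ S ∈ P.powerset with S.card = 2 * m, R S := by
    refine Finset.sum_nonneg fun S _ => ?_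
    rw [hR]
    exact Finset.prod_nonneg fun l _ => Nat.cast_nonneg _
  have hL : (0 : ℝ) ≤ L := Nat.cast_nonneg _
  rw [hF] at hlow hupp
  simp only [← hw]
  have h1 := mul_le_mul_of_nonneg_left hB1 hL
  have h2 := mul_le_mul_of_nonneg_left hB2 hL
  have h3 := mul_le_mul_of_nonneg_left he hL
  rw [mul_add] at h2
  obtain ⟨h4, h5⟩ := abs_le.1 hA
  rw [abs_le]
  constructor <;> linarith

end Pool.Agent.Helper9.RS
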