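import Mathlib

/-!
PROJECT RS, module RS-04. Elementary facts on arithmetic progressions.

`ap_interval`: `s₀ = ⌈(X - r) / M⌉`, `s₁ = ⌈(Y - r) / M⌉` (natural subtraction; `Nat` ceiling division `(a + M - 1) / M`), `L = s₁ - s₀`. `X ≤ r + M s ↔ s₀ ≤ s`, `r + M s < Y ↔ s < s₁`. The length: `s₁ - s₀` differs from `(Y - X)/M` by at most `1` (cases `X ≤ r` or not, `0 ≤ r < M`).
`residue`: `M` is invertible modulo `l` (`ZMod l` is a field, or `Int.gcd` / Bezout): `u = - (r + i) M⁻¹`. `residue2`: `M = l M'`, `l ∤ M'`, `r + i = l r'`: `l^2 ∣ r + M s + i ↔ l ∣ r' + M' s`; apply `residue` to `r'` (an integer; the statement of `residue` allows an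
integer `i`, use `r := 0`, `i := r'`).
-/

set_option autoImplicit false

namespace Pool.Agent.Helper9.RS

open Finset

private theorem ceil_iff (M r Z s : ℕ) (hM : 0 < M) : Z ≤ r + M * s ↔ (Z - r + M - 1) / M ≤ s := by
  have h1 : (Z - r + M - 1) / M ≤ s ↔ Z - r + M - 1 < (s + 1) * M := by
    rw [← Nat.div_lt_iff_lt_mul hM]
    exact Nat.lt_succ_iff.symm
  rw [h1]
  have h2 : (s + 1) * M = M * s + M := by ring
  rw [h2]
  omega

private theorem ceil_bd (M r Z : ℕ) (hM : 0 < M) (hr : r < M) :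
    (Z : ℝ) - r ≤ M * ((Z - r + M - 1) / M : ℕ) ∧ (M : ℝ) * ((Z - r + M - 1) / M : ℕ) < Z - r + M := by
  obtain ⟨c, hc⟩ : ∃ c, c = (Z - r + M - 1) / M := ⟨_, rfl⟩
  rw [← hc]
  have h1 : Z ≤ r + M * c := (ceil_iff M r Z c hM).2 hc.ge
  have h2 : r + M * c < Z + M := by
    rcases Nat.eq_zero_or_pos c with h0 | h0
    · rw [h0]
      omega
    · have h3 : ¬ Z ≤ r + M * (c - 1) := by
        rw [ceil_iff M r Z (c - 1) hM, ← hc]
        omega
      have h4 : M * c = M * (c - 1) + M := by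
        conv_lhs => rw [← Nat.sub_add_cancel h0]
        ring
      omega
  have h1' : (Z : ℝ) ≤ r + M * c := by exact_mod_cast h1
  have h2' : (r : ℝ) + M * c < Z + M := by exact_mod_cast h2
  constructor <;> linarith

theorem ap_interval (M r X Y : ℕ) (hM : 0 < M) (hr : r < M) (hXY : X ≤ Y) :
    ∃ s₀ L : ℕ, (∀ s : ℕ, (X ≤ r + M * s ∧ r + M * s < Y) ↔ (s₀ ≤ s ∧ s < s₀ + L)) ∧
      |(L : ℝ) - ((Y : ℝ) - X) / M| ≤ 1 := by
  have hle : (X - r + M - 1) / M ≤ (Y - r + M - 1) / M := Nat.div_le_div_right (by omega)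
  refine ⟨(X - r + M - 1) / M, (Y - r + M - 1) / M - (X - r + M - 1) / M, fun s => ?_, ?_⟩
  · rw [ceil_iff M r X s hM, ← not_le, ceil_iff M r Y s hM]
    omega
  · obtain ⟨hx1, hx2⟩ := ceil_bd M r X hM hr
    obtain ⟨hy1, hy2⟩ := ceil_bd M r Y hM hr
    rw [Nat.cast_sub hle]
    have hM' : (0 : ℝ) < M := by exact_mod_cast hM
    have h1 : (((Y - r + M - 1) / M : ℕ) : ℝ) - ((X - r + M - 1) / M : ℕ) - ((Y : ℝ) - X) / M =
        ((M : ℝ) * ((Y - r + M - 1) / M : ℕ) - M * ((X - r + M - 1) / M : ℕ) - (Y - X)) / M := by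
      field_simp
    rw [h1, abs_div, abs_of_pos hM', div_le_one hM', abs_le]
    constructor <;> linarith

theorem residue (l : ℕ) (hl : l.Prime) (M r : ℕ) (hM : ¬ l ∣ M) (i : ℤ) :
    ∃ u < l, ∀ s : ℕ, ((l : ℤ) ∣ ((r + M * s : ℕ) : ℤ) + i ↔ s % l = u) := by
  have : Fact l.Prime := ⟨hl⟩
  have hm : (M : ZMod l) ≠ 0 := by
    rw [Ne, ZMod.natCast_eq_zero_iff]
    exact hM
  refine ⟨(-((r : ZMod l) + (i : ZMod l)) * (M : ZMod l)⁻¹).val, ZMod.val_lt _, fun s => ?_⟩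
  rw [← ZMod.intCast_zmod_eq_zero_iff_dvd, ← ZMod.val_natCast]
  rw [(ZMod.val_injective l).eq_iff]
  push_cast
  constructor
  · intro h
    have h1 : (s : ZMod l) * M = -((r : ZMod l) + (i : ZMod l)) := by linear_combination h
    rw [← h1, mul_assoc, mul_inv_cancel₀ hm, mul_one]
  · intro h
    rw [h]
    have h1 : (M : ZMod l) * (-((r : ZMod l) + (i : ZMod l)) * (M : ZMod l)⁻¹) =
        -((r : ZMod l) + (i : ZMod l)) := by
      rw [mul_comm, mul_assoc, inv_mul_cancel₀ hm, mul_one]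
    rw [h1]
    ring

theorem residue2 (l : ℕ) (hl : l.Prime) (M r : ℕ) (hM : l ∣ M) (hM2 : ¬ l ^ 2 ∣ M) (i : ℤ)
    (hr : (l : ℤ) ∣ (r : ℤ) + i) :
    ∃ u < l, ∀ s : ℕ, ((l : ℤ) ^ 2 ∣ ((r + M * s : ℕ) : ℤ) + i ↔ s % l = u) := by
  obtain ⟨M', rfl⟩ := hM
  obtain ⟨r', hr'⟩ := hr
  have hM' : ¬ l ∣ M' := by
    rintro ⟨c, rfl⟩
    exact hM2 ⟨c, by ring⟩
  obtain ⟨u, hu, h⟩ := residue l hl M' 0 hM' r'
  refine ⟨u, hu, fun s => ?_⟩
  rw [← h s]
  have hl0 : (l : ℤ) ≠ 0 := by exact_mod_cast hl.ne_zero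
  have h1 : ((r + l * M' * s : ℕ) : ℤ) + i = l * (((0 + M' * s : ℕ) : ℤ) + r') := by
    push_cast
    linear_combination hr'
  rw [h1, sq, mul_dvd_mul_iff_left hl0]

end Pool.Agent.Helper9.RS
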