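import Pool.Agent.Helper9.RS.Brun
import Pool.Agent.Helper9.RS.Interval

/-!
PROJECT RS, module RS-05. The pure sieve in an arithmetic progression.

`N ↦ (N - r) / M` is a bijection from the set counted onto `{s ∈ [s₀, s₀ + L) : ∀ l ∈ P, s % l ∉ Ω l}` (`ap_interval`; `N = r + M s`, `s` is determined by `N` as `M > 0`); so the count equals the one in `brun`.
-/

set_option autoImplicit false

namespace Pool.Agent.Helper9.RS

open Finset

open Classical in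
theorem brun_ap (P : Finset ℕ) (hP : ∀ l ∈ P, l.Prime) (Ω : ℕ → Finset ℕ)
    (hΩ : ∀ l ∈ P, ∀ t ∈ Ω l, t < l) (κ : ℕ) (hκ : ∀ l ∈ P, (Ω l).card ≤ κ) (m M r X Y : ℕ)
    (hM : 0 < M) (hr : r < M) (hXY : X ≤ Y) :
    ∃ L : ℕ, |(L : ℝ) - ((Y : ℝ) - X) / M| ≤ 1 ∧
      |((((Ico X Y).filter (fun N => ∃ s : ℕ, N = r + M * s ∧ ∀ l ∈ P, s % l ∉ Ω l)).card : ℕ) : ℝ) -
        L * ∏ l ∈ P, (1 - ((Ω l).card : ℝ) / l)| ≤
        L * ((∑ l ∈ P, ((Ω l).card : ℝ) / l) ^ (2 * m) / ((2 * m).factorial : ℝ)) +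
          ((κ : ℝ) * P.card + 1) ^ (2 * m) := by
  obtain ⟨s₀, L, h1, h2⟩ := ap_interval M r X Y hM hr hXY
  refine ⟨L, h2, ?_⟩
  have hb := brun P hP Ω hΩ κ hκ m s₀ L
  have hcard : ((Ico s₀ (s₀ + L)).filter (fun s => ∀ l ∈ P, s % l ∉ Ω l)).card =
      ((Ico X Y).filter (fun N => ∃ s : ℕ, N = r + M * s ∧ ∀ l ∈ P, s % l ∉ Ω l)).card := by
    refine Finset.card_bij (fun s _ => r + M * s) ?_ ?_ ?_
    · intro s hs
      rw [Finset.mem_filter, Finset.mem_Ico] at hs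
      rw [Finset.mem_filter, Finset.mem_Ico]
      exact ⟨(h1 s).2 hs.1, s, rfl, hs.2⟩
    · intro s _ s' _ h
      have h3 : M * s = M * s' := by
        have h4 : r + M * s = r + M * s' := h
        omega
      exact Nat.eq_of_mul_eq_mul_left hM h3
    · intro N hN
      rw [Finset.mem_filter, Finset.mem_Ico] at hN
      obtain ⟨hN1, s, hs, hs2⟩ := hN
      refine ⟨s, ?_, hs.symm⟩
      rw [Finset.mem_filter, Finset.mem_Ico]
      refine ⟨(h1 s).1 ?_, hs2⟩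
      rw [← hs]
      exact hN1
  rw [← hcard]
  exact hb

end Pool.Agent.Helper9.RS
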