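import Pool.Agent.Helper9.RS.Defs

/-!
PROJECT RS, module RS-30. Construction of the two residue classes.

`y = q^2`, `H = p^k / 4` (integer part), `M₀` a prime with `q^4 < M₀ ≤ 2 q^4` (`Nat.exists_prime_lt_and_le_two_mul`), `c₁ = q M₀` (`q^5 < c₁ ≤ 2 q^5`), `E` the least integer with `2^E > 4 c₁` (so `E ≤ 5 log₂ q + 5`), `Q' = ∏_{l ≤ y, l prime, l ≠ p} l^E`, `Q = p^(k+1) Q'`, `c₀ ≡ c₁` modulo `Q'`, `c₀ ≡ p^(k-1) (p-1)/2` modulo `p^(k+1)` (`Nat.chineseRemainder`).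
`Q ≤ q^2 (4^y)^E ≤ 2^(q^3)` for large `q` (`primorial_le_four_pow`; `p^(k+1) ≤ q^2` as `p^k ≤ q`, `p ≤ q`). `mem`, `hp`, `hp2`, `hpq`, `hq`: clear. `four`, `c4`: `4 ∣ 2^E ∣ Q'` (`2 ≤ y`, `p ≠ 2`, `E ≥ 2`). `uniq`: if `n ∣ q` and `¬ n ∣ q/p` then `p^k ∣ n` (compare the exponents of `p`).
`near`, `l ≠ p`: `N_b + i ≡ c₁ + i` modulo `l^E`, `0 < c₁ + i < l^E`; `e ≤ E`: both sides are `l^e ∣ c₁ + i`; `e > E`: both are false. `near`, `l = p`: for `e ≤ k-1` both sides are `p^e ∣ i` (`N₁ ≡ c₁ ≡ 0` modulo `p^k`, `N₀ ≡ 0` modulo `p^(k-1)`); for `e ≥ k` both are false: `p^k ∣ N₁ + i` would give `p^k ∣ i`, `0 < |i| < p^k`; `p^k ∣ N₀ + i` would give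
`i = p^(k-1) t`, `p ∣ (p-1)/2 + t`, `|t| ≤ p/4`, impossible. `zero1`: for a prime `l ≤ y`, `l ≠ p`: `v_l(N₁) = v_l(c₁) = v_l(q)` (`c₁ < l^E`, `M₀` is a prime `> y`), `v_p(N₁) = k = v_p(q)`. `zero0`: `v_l(N₀) = v_l(c₁) = v_l(q/p)`, `v_p(N₀) = k-1 = v_p(q/p)`.
`gcd1`: `0 < c₁ + i ≤ 3 q^5` for `|i| ≤ q^4`, so `g ≤ 3 q^5`. `gcd0`: `g = p^a g'`, `a ≤ k+1`, `p ∤ g'`, `g' ∣ Q'`, so `g' ∣ c₁ + i`, `g' ≤ 3 q^5`, `p^a ≤ q^2`.
-/

set_option autoImplicit false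

namespace Pool.Agent.Helper9.RS

open Finset

private theorem clsExists_shift {Q N c : ℕ} (h : N ≡ c [MOD Q]) {d : ℤ} (hd : d ∣ (Q : ℤ)) (i : ℤ) :
    d ∣ (N : ℤ) + i ↔ d ∣ (c : ℤ) + i := by
  have h1 : (Q : ℤ) ∣ (c : ℤ) - N := Nat.modEq_iff_dvd.1 h
  have h2 : d ∣ (c : ℤ) - N := hd.trans h1
  constructor
  · intro h3
    have h4 := dvd_add h3 h2
    have h5 : (N : ℤ) + i + ((c : ℤ) - N) = c + i := by ring
    rwa [h5] at h4
  · intro h3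
    have h4 := dvd_sub h3 h2
    have h5 : (c : ℤ) + i - ((c : ℤ) - N) = N + i := by ring
    rwa [h5] at h4

private theorem clsExists_pow {Q N c l E : ℕ} (h : N ≡ c [MOD Q]) (hl : l ^ E ∣ Q) {i : ℤ} (h0 : 0 < (c : ℤ) + i)
    (h1 : (c : ℤ) + i < (l : ℤ) ^ E) (e : ℕ) : (l : ℤ) ^ e ∣ (N : ℤ) + i ↔ (l : ℤ) ^ e ∣ (c : ℤ) + i := by
  have hE : ((l : ℤ) ^ E) ∣ (Q : ℤ) := by exact_mod_cast hl
  rcases le_or_gt e E with he | he
  · exact clsExists_shift h ((pow_dvd_pow _ he).trans hE) i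
  · have hno : ¬ (l : ℤ) ^ E ∣ (c : ℤ) + i := fun h2 => by
      have := Int.le_of_dvd h0 h2
      linarith
    constructor
    · intro h2
      exact absurd ((clsExists_shift h hE i).1 ((pow_dvd_pow _ he.le).trans h2)) hno
    · intro h2
      exact absurd ((pow_dvd_pow _ he.le).trans h2) hno

private theorem clsExists_pow_nat {Q N c l E : ℕ} (h : N ≡ c [MOD Q]) (hl : l ^ E ∣ Q) (h0 : 0 < c)
    (h1 : c < l ^ E) (e : ℕ) : l ^ e ∣ N ↔ l ^ e ∣ c := by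
  have h2 := clsExists_pow (i := 0) h hl (by simpa using h0) (by simpa using (by exact_mod_cast h1 : (c : ℤ) < (l : ℤ) ^ E)) e
  simp only [add_zero] at h2
  exact_mod_cast h2

/-- Both numbers have valuation `k`, so the same powers of `p` divide them. -/
private theorem clsExists_val {p k a b : ℕ} (ha : p ^ k ∣ a) (ha' : ¬ p ^ (k + 1) ∣ a) (hb : p ^ k ∣ b)
    (hb' : ¬ p ^ (k + 1) ∣ b) (e : ℕ) : p ^ e ∣ a ↔ p ^ e ∣ b := by
  rcases le_or_gt e k with he | he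
  · exact ⟨fun _ => (pow_dvd_pow _ he).trans hb, fun _ => (pow_dvd_pow _ he).trans ha⟩
  · exact ⟨fun h => absurd ((pow_dvd_pow _ he).trans h) ha', fun h => absurd ((pow_dvd_pow _ he).trans h) hb'⟩

private theorem clsExists_all {n a b y : ℕ} (hn : ∀ l : ℕ, l.Prime → l ∣ n → l ≤ y)
    (h : ∀ l : ℕ, l.Prime → l ≤ y → ∀ e : ℕ, l ^ e ∣ a ↔ l ^ e ∣ b) : n ∣ a ↔ n ∣ b := by
  constructor
  · intro h1
    rw [Nat.dvd_iff_prime_pow_dvd_dvd]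
    intro l e hl he
    rcases Nat.eq_zero_or_pos e with rfl | he0
    · simp
    · exact (h l hl (hn l hl ((dvd_pow_self l he0.ne').trans he)) e).1 (he.trans h1)
  · intro h1
    rw [Nat.dvd_iff_prime_pow_dvd_dvd]
    intro l e hl he
    rcases Nat.eq_zero_or_pos e with rfl | he0
    · simp
    · exact (h l hl (hn l hl ((dvd_pow_self l he0.ne').trans he)) e).2 (he.trans h1)

private theorem clsExists_cop_dvd {l e m a : ℕ} (h : Nat.Coprime l m) : l ^ e ∣ m * a ↔ l ^ e ∣ a :=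
  ⟨fun h1 => (Nat.Coprime.pow_left e h).dvd_of_dvd_mul_left h1, fun h1 => h1.mul_left m⟩

private theorem clsExists_core (A : Set ℕ) (q p j : ℕ) (hq : 128 ≤ q) (hqA : q ∈ A) (hp : p.Prime) (hp2 : p ≠ 2)
    (h1 : p ^ (j + 1) ∣ q) (h2 : ¬ p ^ (j + 1 + 1) ∣ q) (h3 : ∀ n ∈ A, n ∣ q → p ^ (j + 1) ∣ n → n = q)
    (M₀ E Q' c₀ : ℕ) (hM : M₀.Prime) (hM1 : q ^ 4 < M₀) (hM2 : M₀ ≤ 2 * q ^ 4) (hE : 4 * (q * M₀) < 2 ^ E)
    (hQ1 : ∀ l : ℕ, l.Prime → l ≤ q ^ 2 → l ≠ p → l ^ E ∣ Q') (hQ2 : Nat.Coprime (p ^ (j + 1 + 1)) Q')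
    (hc : c₀ ≡ q * M₀ [MOD Q']) (hc' : c₀ ≡ p ^ j * ((p - 1) / 2) [MOD p ^ (j + 1 + 1)]) :
    Cls A q p (p ^ (j + 1) / 4) (q ^ 2) (p ^ (j + 1 + 1) * Q') (q * M₀) c₀ (3 * q ^ 7) (q ^ 4) := by
  have hq0 : 0 < q := by omega
  have hp3 : 3 ≤ p := by
    have := hp.two_le
    omega
  have hodd : p % 2 = 1 := hp.eq_two_or_odd.resolve_left hp2
  have hpq : p ∣ q := (dvd_pow_self p (Nat.succ_ne_zero j)).trans h1
  have hple : p ≤ q := Nat.le_of_dvd hq0 hpq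
  have hpkle : p ^ (j + 1) ≤ q := Nat.le_of_dvd hq0 h1
  have hqy : q ≤ q ^ 2 := by nlinarith
  have hyq4 : q ^ 2 ≤ q ^ 4 := Nat.pow_le_pow_right hq0 (by norm_num)
  have hqq4 : q ≤ q ^ 4 := hqy.trans hyq4
  have hc1pos : 0 < q * M₀ := Nat.mul_pos hq0 hM.pos
  have hc1lo : q ^ 5 < q * M₀ := by
    have : q ^ 5 = q * q ^ 4 := by ring
    rw [this]
    exact Nat.mul_lt_mul_of_pos_left hM1 hq0
  have hq45 : q ^ 4 ≤ q ^ 5 := Nat.pow_le_pow_right hq0 (by norm_num)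
  have hc1hi : q * M₀ ≤ 2 * q ^ 5 := by
    have : 2 * q ^ 5 = q * (2 * q ^ 4) := by ring
    rw [this]
    exact Nat.mul_le_mul_left q hM2
  have hlE : ∀ l : ℕ, l.Prime → 4 * (q * M₀) < l ^ E := fun l hl =>
    hE.trans_le (Nat.pow_le_pow_left hl.two_le E)
  have hE2 : 2 ≤ E := by
    by_contra hcon
    have h4 : 2 ^ E ≤ 2 ^ 1 := Nat.pow_le_pow_right (by norm_num) (by omega)
    have h5 : 4 * 1 ≤ 4 * (q * M₀) := Nat.mul_le_mul_left 4 hc1pos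
    omega
  have h2y : 2 ≤ q ^ 2 := by nlinarith
  have h4Q' : 4 ∣ Q' := by
    have h5 : 2 ^ 2 ∣ 2 ^ E := pow_dvd_pow 2 hE2
    exact (by simpa using h5.trans (hQ1 2 Nat.prime_two h2y (fun h => hp2 h.symm)))
  have hMnotle : ∀ l : ℕ, l.Prime → l ≤ q ^ 2 → Nat.Coprime l M₀ := fun l hl hly =>
    (Nat.coprime_primes hl hM).2 (fun h => by rw [h] at hly; omega)
  have hpM : Nat.Coprime p M₀ := hMnotle p hp (hple.trans hqy)
  have hQdvd' : Q' ∣ p ^ (j + 1 + 1) * Q' := dvd_mul_left _ _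
  have hQdvdp : p ^ (j + 1 + 1) ∣ p ^ (j + 1 + 1) * Q' := dvd_mul_right _ _
  -- powers of `p` and `c₁`
  have hc1p : p ^ (j + 1) ∣ q * M₀ := h1.mul_right M₀
  have hc1p' : ¬ p ^ (j + 1 + 1) ∣ q * M₀ := fun h =>
    h2 ((Nat.Coprime.pow_left (j + 1 + 1) hpM).dvd_of_dvd_mul_right h)
  -- powers of `p` and `c₀`
  have hhalf0 : 0 < (p - 1) / 2 := by omega
  have hhalf1 : (p - 1) / 2 < p := by omega
  have hc0p : p ^ j ∣ c₀ := by
    have h5 : c₀ ≡ p ^ j * ((p - 1) / 2) [MOD p ^ j] :=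
      Nat.ModEq.of_dvd (pow_dvd_pow p (by omega)) hc'
    have h6 := Nat.modEq_iff_dvd.1 h5
    have h7 : ((p ^ j : ℕ) : ℤ) ∣ ((p ^ j * ((p - 1) / 2) : ℕ) : ℤ) := by
      exact_mod_cast (dvd_mul_right (p ^ j) ((p - 1) / 2))
    have h8 := (dvd_sub_right h7).1 h6
    exact_mod_cast h8
  -- the congruence for the numbers `N`
  have key : ∀ {N : ℕ}, N ≡ c₀ [MOD p ^ (j + 1 + 1) * Q'] → N ≡ q * M₀ [MOD Q'] := fun {N} hN =>
    (Nat.ModEq.of_dvd hQdvd' hN).trans hc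
  have keyp : ∀ {N : ℕ}, N ≡ c₀ [MOD p ^ (j + 1 + 1) * Q'] → N ≡ p ^ j * ((p - 1) / 2) [MOD p ^ (j + 1 + 1)] :=
    fun {N} hN => (Nat.ModEq.of_dvd hQdvdp hN).trans hc'
  -- `p ^ (j + 1)` does not divide `N₀ + i`
  have hnot0 : ∀ {N : ℕ}, N ≡ c₀ [MOD p ^ (j + 1 + 1) * Q'] → ∀ i : ℤ, 4 * |i| ≤ (p : ℤ) ^ (j + 1) →
      ¬ (p : ℤ) ^ (j + 1) ∣ (N : ℤ) + i := by
    intro N hN i hi hdvd
    have h5 := (clsExists_shift (keyp hN) (d := (p : ℤ) ^ (j + 1))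
      (by push_cast; exact pow_dvd_pow _ (by omega)) i).1 hdvd
    have h6 : (p : ℤ) ^ j ∣ ((p ^ j * ((p - 1) / 2) : ℕ) : ℤ) := by
      push_cast
      exact dvd_mul_right _ _
    have h7 : (p : ℤ) ^ j ∣ i := (dvd_add_right h6).1 ((pow_dvd_pow _ (by omega)).trans h5)
    obtain ⟨t, rfl⟩ := h7
    have h8 : ((p ^ j * ((p - 1) / 2) : ℕ) : ℤ) + (p : ℤ) ^ j * t = (p : ℤ) ^ j * ((((p - 1) / 2 : ℕ) : ℤ) + t) := by
      push_cast
      ring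
    have hpj : (0 : ℤ) < (p : ℤ) ^ j := by
      have : (0 : ℤ) < p := by exact_mod_cast hp.pos
      positivity
    rw [h8, pow_succ, mul_dvd_mul_iff_left hpj.ne'] at h5
    rw [abs_mul, abs_of_pos hpj, pow_succ] at hi
    have h9 : 4 * |t| ≤ (p : ℤ) := by
      by_contra hcon
      push Not at hcon
      have : (p : ℤ) ^ j * p < (p : ℤ) ^ j * (4 * |t|) := mul_lt_mul_of_pos_left hcon hpj
      linarith
    have h10 := abs_le.1 (show |t| ≤ |t| from le_rfl)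
    have h11 : ((((p - 1) / 2 : ℕ) : ℤ)) * 2 + 1 = p := by omega
    obtain ⟨u, hu⟩ := h5
    have h12 : 0 < (((p - 1) / 2 : ℕ) : ℤ) + t := by
      have : (3 : ℤ) ≤ p := by exact_mod_cast hp3
      rcases abs_cases t with ⟨h13, h14⟩ | ⟨h13, h14⟩ <;> omega
    have h13 : (((p - 1) / 2 : ℕ) : ℤ) + t < p := by
      have : (3 : ℤ) ≤ p := by exact_mod_cast hp3
      rcases abs_cases t with ⟨h13, h14⟩ | ⟨h13, h14⟩ <;> omega
    have h14 := Int.le_of_dvd h12 ⟨u, hu⟩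
    omega
  have hpk4 : ∀ i ∈ IH (p ^ (j + 1) / 4), i ≠ 0 ∧ 4 * |i| ≤ (p : ℤ) ^ (j + 1) := by
    intro i hi
    simp only [IH, Finset.mem_erase, Finset.mem_Icc] at hi
    refine ⟨hi.1, ?_⟩
    have h5 : |i| ≤ ((p ^ (j + 1) / 4 : ℕ) : ℤ) := abs_le.2 ⟨hi.2.1, hi.2.2⟩
    have h6 : 4 * (p ^ (j + 1) / 4) ≤ p ^ (j + 1) := Nat.mul_div_le _ _
    have h7 : (4 : ℤ) * ((p ^ (j + 1) / 4 : ℕ) : ℤ) ≤ (p : ℤ) ^ (j + 1) := by exact_mod_cast h6
    linarith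
  have hc0 : ∀ {N : ℕ}, N ≡ c₀ [MOD p ^ (j + 1 + 1) * Q'] → p ^ j ∣ N := by
    intro N hN
    have h5 := clsExists_shift (d := (p : ℤ) ^ j) hN
      (by push_cast; exact (pow_dvd_pow _ (by omega)).trans (dvd_mul_right _ _)) 0
    simp only [add_zero] at h5
    exact_mod_cast h5.2 (by exact_mod_cast hc0p)
  have hN1 : ∀ {N : ℕ}, N ≡ q * M₀ [MOD p ^ (j + 1 + 1) * Q'] → ∀ e : ℕ, e ≤ j + 1 + 1 → (p ^ e ∣ N ↔ p ^ e ∣ q * M₀) := by
    intro N hN e he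
    have h5 := clsExists_shift (d := (p : ℤ) ^ e) hN
      (by push_cast; exact (pow_dvd_pow _ he).trans (dvd_mul_right _ _)) 0
    simp only [add_zero] at h5
    exact_mod_cast h5
  have hlc : ∀ l : ℕ, l.Prime → l ≤ q ^ 2 → l ≠ p → ∀ {N : ℕ}, N ≡ q * M₀ [MOD Q'] → ∀ e : ℕ, (l ^ e ∣ N ↔ l ^ e ∣ q) := by
    intro l hl hly hlp N hN e
    rw [clsExists_pow_nat hN (hQ1 l hl hly hlp) hc1pos (by have := hlE l hl; omega) e, mul_comm q M₀]
    exact clsExists_cop_dvd (hMnotle l hl hly)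
  refine ⟨hqA, hp, hp2, hpq, hq0, h4Q'.mul_left _, ?_, ?_, ?_, ?_, ?_, ?_, ?_,
    Nat.le_self_pow (by norm_num) q⟩
  · exact (Nat.ModEq.of_dvd h4Q' hc).symm
  · intro n hnA hnq hn
    refine h3 n hnA hnq ?_
    obtain ⟨m, rfl⟩ := hnq
    have hpm : ¬ p ∣ m := by
      rintro ⟨m', rfl⟩
      apply hn
      have : n * (p * m') / p = n * m' := by
        rw [show n * (p * m') = p * (n * m') by ring]
        exact Nat.mul_div_cancel_left _ hp.pos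
      rw [this]
      exact dvd_mul_right _ _
    exact (Nat.Coprime.pow_left _ ((Nat.Prime.coprime_iff_not_dvd hp).2 hpm)).dvd_of_dvd_mul_right h1
  · intro N₁ N₀ hN₁ hN₀ i hi l hl hly e
    obtain ⟨hi0, hi4⟩ := hpk4 i hi
    by_cases hlp : l = p
    · subst hlp
      rcases le_or_gt e j with he | he
      · have h5 : (l : ℤ) ^ e ∣ (N₁ : ℤ) := by
          exact_mod_cast (hN1 hN₁ e (by omega)).2 ((pow_dvd_pow l (by omega)).trans hc1p)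
        have h6 : (l : ℤ) ^ e ∣ (N₀ : ℤ) := by
          exact_mod_cast (pow_dvd_pow l he).trans (hc0 hN₀)
        rw [dvd_add_right h5, dvd_add_right h6]
      · have h5 : ¬ (l : ℤ) ^ (j + 1) ∣ (N₀ : ℤ) + i := hnot0 hN₀ i hi4
        have h6 : ¬ (l : ℤ) ^ (j + 1) ∣ (N₁ : ℤ) + i := by
          intro h7
          have h8 : (l : ℤ) ^ (j + 1) ∣ (N₁ : ℤ) := by
            exact_mod_cast (hN1 hN₁ (j + 1) (by omega)).2 hc1p
          have h9 := (dvd_add_right h8).1 h7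
          have h10 := Int.le_of_dvd (abs_pos.2 hi0) ((dvd_abs _ _).2 h9)
          have h11 : 0 < |i| := abs_pos.2 hi0
          omega
        exact ⟨fun h => absurd ((pow_dvd_pow _ (by omega)).trans h) h6,
          fun h => absurd ((pow_dvd_pow _ (by omega)).trans h) h5⟩
    · have hile : |i| ≤ (q : ℤ) := by
        have h5 : (p : ℤ) ^ (j + 1) ≤ q := by exact_mod_cast hpkle
        have h6 := abs_nonneg i
        linarith
      have h7 := abs_le.1 hile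
      have h8 : ((q * M₀ : ℕ) : ℤ) > (q : ℤ) ^ 5 := by exact_mod_cast hc1lo
      have h9 : (q : ℤ) ≤ (q : ℤ) ^ 5 := by exact_mod_cast hqq4.trans hq45
      have h10 : 4 * ((q * M₀ : ℕ) : ℤ) < (l : ℤ) ^ E := by exact_mod_cast hlE l hl
      have hb0 : 0 < ((q * M₀ : ℕ) : ℤ) + i := by linarith
      have hb1 : ((q * M₀ : ℕ) : ℤ) + i < (l : ℤ) ^ E := by linarith
      rw [clsExists_pow (Nat.ModEq.of_dvd hQdvd' hN₁) (hQ1 l hl hly hlp) hb0 hb1 e,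
        clsExists_pow (key hN₀) (hQ1 l hl hly hlp) hb0 hb1 e]
  · intro N hN n hn hnl
    refine clsExists_all hnl fun l hl hly e => ?_
    by_cases hlp : l = p
    · subst hlp
      refine clsExists_val ((hN1 hN (j + 1) (by omega)).2 hc1p) (fun h => hc1p' ((hN1 hN (j + 1 + 1) le_rfl).1 h)) h1 h2 e
    · exact hlc l hl hly hlp (Nat.ModEq.of_dvd hQdvd' hN) e
  · intro N hN n hn hnl
    refine clsExists_all hnl fun l hl hly e => ?_
    obtain ⟨q', hq'⟩ := hpq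
    have hqp : q / p = q' := by
      rw [hq']
      exact Nat.mul_div_cancel_left _ hp.pos
    rw [hqp]
    by_cases hlp : l = p
    · subst hlp
      refine clsExists_val (hc0 hN) ?_ ?_ ?_ e
      · intro h
        have h5 := hnot0 hN 0 (by simp)
        apply h5
        rw [add_zero]
        exact_mod_cast h
      · have h5 : l * l ^ j ∣ l * q' := by
          rw [← hq', ← pow_succ']
          exact h1
        exact (Nat.mul_dvd_mul_iff_left hl.pos).1 h5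
      · intro h5
        apply h2
        rw [hq', pow_succ' l (j + 1)]
        exact Nat.mul_dvd_mul_left l h5
    · have h5 := hlc l hl hly hlp (key hN) e
      rw [h5, hq']
      exact clsExists_cop_dvd ((Nat.coprime_primes hl hp).2 hlp)
  · intro g hg i hi hgi
    have h5 : ((q * M₀ : ℕ) : ℤ) > (q : ℤ) ^ 5 := by exact_mod_cast hc1lo
    have h6 : ((q * M₀ : ℕ) : ℤ) ≤ 2 * (q : ℤ) ^ 5 := by exact_mod_cast hc1hi
    have h7 : ((q ^ 4 : ℕ) : ℤ) ≤ (q : ℤ) ^ 5 := by exact_mod_cast hq45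
    have h8 := abs_le.1 hi
    have h9 := Int.le_of_dvd (by linarith) hgi
    have h10 : (q : ℤ) ^ 5 ≤ (q : ℤ) ^ 7 := by
      exact_mod_cast (Nat.pow_le_pow_right hq0 (by norm_num) : q ^ 5 ≤ q ^ 7)
    have h11 : (g : ℤ) ≤ 3 * (q : ℤ) ^ 7 := by linarith
    exact_mod_cast h11
  · intro g hg i hi hgi
    have h5 : ((q * M₀ : ℕ) : ℤ) > (q : ℤ) ^ 5 := by exact_mod_cast hc1lo
    have h6 : ((q * M₀ : ℕ) : ℤ) ≤ 2 * (q : ℤ) ^ 5 := by exact_mod_cast hc1hi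
    have h7 : ((q ^ 4 : ℕ) : ℤ) ≤ (q : ℤ) ^ 5 := by exact_mod_cast hq45
    have h8 := abs_le.1 hi
    have h9 : Nat.gcd g (p ^ (j + 1 + 1) * Q') = g := Nat.gcd_eq_left hg
    rw [Nat.Coprime.gcd_mul g hQ2] at h9
    have h10 : Nat.gcd g (p ^ (j + 1 + 1)) ≤ p ^ (j + 1 + 1) :=
      Nat.le_of_dvd (pow_pos hp.pos _) (Nat.gcd_dvd_right _ _)
    have h11 : p ^ (j + 1 + 1) ≤ q ^ 2 := by
      rw [pow_succ, pow_two]
      exact Nat.mul_le_mul hpkle hple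
    have h12 : ((Nat.gcd g Q' : ℕ) : ℤ) ∣ (c₀ : ℤ) + i := by
      refine dvd_trans ?_ hgi
      exact_mod_cast Nat.gcd_dvd_left g Q'
    have h13 : ((Nat.gcd g Q' : ℕ) : ℤ) ∣ ((q * M₀ : ℕ) : ℤ) + i := by
      refine (clsExists_shift hc ?_ i).1 h12
      exact_mod_cast Nat.gcd_dvd_right g Q'
    have h14 := Int.le_of_dvd (by linarith) h13
    have h15 : ((Nat.gcd g Q' : ℕ) : ℤ) ≤ 3 * (q : ℤ) ^ 5 := by linarith
    have h16 : Nat.gcd g Q' ≤ 3 * q ^ 5 := by exact_mod_cast h15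
    calc g = Nat.gcd g (p ^ (j + 1 + 1)) * Nat.gcd g Q' := h9.symm
      _ ≤ q ^ 2 * (3 * q ^ 5) := Nat.mul_le_mul (h10.trans h11) h16
      _ = 3 * q ^ 7 := by ring

private theorem clsExists_log (L : ℕ) (h : 7 ≤ L) : 10 * L + 17 ≤ 2 ^ L := by
  induction L, h using Nat.le_induction with
  | base => norm_num
  | succ n hn ih =>
    rw [pow_succ]
    omega

theorem cls_exists : ∃ q₁ : ℕ, ∀ (A : Set ℕ) (q p k : ℕ), q₁ ≤ q → q ∈ A → p.Prime → p ≠ 2 →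
    0 < k → p ^ k ∣ q → ¬ p ^ (k + 1) ∣ q → (∀ n ∈ A, n ∣ q → p ^ k ∣ n → n = q) →
    ∃ Q c₁ c₀ : ℕ, 0 < Q ∧ Q ≤ 2 ^ (q ^ 3) ∧ (∀ l : ℕ, l.Prime → l ∣ Q → l ≤ q ^ 2) ∧
      Cls A q p (p ^ k / 4) (q ^ 2) Q c₁ c₀ (3 * q ^ 7) (q ^ 4) := by
  refine ⟨128, ?_⟩
  intro A q p k hq hqA hp hp2 hk h1 h2 h3
  obtain ⟨j, rfl⟩ : ∃ j, k = j + 1 := ⟨k - 1, by omega⟩
  have hq0 : 0 < q := by omega
  have hpq : p ∣ q := (dvd_pow_self p (Nat.succ_ne_zero j)).trans h1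
  have hple : p ≤ q := Nat.le_of_dvd hq0 hpq
  have hpkle : p ^ (j + 1) ≤ q := Nat.le_of_dvd hq0 h1
  have hqy : q ≤ q ^ 2 := by nlinarith
  obtain ⟨M₀, hM, hM1, hM2⟩ := Nat.exists_prime_lt_and_le_two_mul (q ^ 4) (pow_pos hq0 4).ne'
  set L := Nat.log 2 q with hL
  have hL1 : 2 ^ L ≤ q := Nat.pow_log_le_self 2 hq0.ne'
  have hL2 : q < 2 ^ (L + 1) := Nat.lt_pow_succ_log_self (by norm_num) q
  have hL7 : 7 ≤ L := by
    by_contra hcon
    have : 2 ^ (L + 1) ≤ 2 ^ 7 := Nat.pow_le_pow_right (by norm_num) (by omega)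
    omega
  have hE : 4 * (q * M₀) < 2 ^ (5 * L + 8) := by
    have h5 : q * M₀ ≤ 2 * q ^ 5 := by
      have : 2 * q ^ 5 = q * (2 * q ^ 4) := by ring
      rw [this]
      exact Nat.mul_le_mul_left q hM2
    have h6 : q ^ 5 < (2 ^ (L + 1)) ^ 5 := Nat.pow_lt_pow_left hL2 (by norm_num)
    have h7 : 2 ^ (5 * L + 8) = 8 * (2 ^ (L + 1)) ^ 5 := by
      rw [← pow_mul, show 5 * L + 8 = 3 + (L + 1) * 5 by ring, pow_add]
      norm_num
    omega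
  set S := (range (q ^ 2 + 1)).filter (fun l => l.Prime ∧ l ≠ p) with hS
  set Q' := ∏ l ∈ S, l ^ (5 * L + 8) with hQ'
  have hcop : Nat.Coprime (p ^ (j + 1 + 1)) Q' := by
    refine Nat.Coprime.prod_right fun l hl => ?_
    have hl' := (Finset.mem_filter.1 hl).2
    exact Nat.Coprime.pow _ _ ((Nat.coprime_primes hp hl'.1).2 (fun h => hl'.2 h.symm))
  have hQ1 : ∀ l : ℕ, l.Prime → l ≤ q ^ 2 → l ≠ p → l ^ (5 * L + 8) ∣ Q' := fun l hl hly hlp =>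
    Finset.dvd_prod_of_mem (fun l => l ^ (5 * L + 8)) (Finset.mem_filter.2 ⟨Finset.mem_range.2 (by omega), hl, hlp⟩)
  have hQpos : 0 < Q' := Finset.prod_pos fun l hl => pow_pos (Finset.mem_filter.1 hl).2.1.pos _
  have hcc := (Nat.chineseRemainder hcop (p ^ j * ((p - 1) / 2)) (q * M₀)).2
  refine ⟨p ^ (j + 1 + 1) * Q', q * M₀, (Nat.chineseRemainder hcop (p ^ j * ((p - 1) / 2)) (q * M₀) : ℕ),
    Nat.mul_pos (pow_pos hp.pos _) hQpos, ?_, ?_, ?_⟩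
  · have h11 : p ^ (j + 1 + 1) ≤ q ^ 2 := by
      rw [pow_succ, pow_two]
      exact Nat.mul_le_mul hpkle hple
    have h12 : Q' ≤ (4 ^ (q ^ 2)) ^ (5 * L + 8) := by
      rw [hQ', Finset.prod_pow]
      refine Nat.pow_le_pow_left ?_ _
      refine le_trans ?_ (primorial_le_four_pow (q ^ 2))
      refine Finset.prod_le_prod_of_subset_of_one_le' ?_ ?_
      · intro l hl
        have := Finset.mem_filter.1 hl
        exact Finset.mem_filter.2 ⟨this.1, this.2.1⟩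
      · intro l hl _
        exact (Finset.mem_filter.1 hl).2.one_lt.le
    have h13 : q ^ 2 ≤ 2 ^ (2 * (L + 1)) := by
      rw [mul_comm, pow_mul]
      exact Nat.pow_le_pow_left hL2.le 2
    have h14 : (4 ^ (q ^ 2)) ^ (5 * L + 8) = 2 ^ (2 * q ^ 2 * (5 * L + 8)) := by
      rw [← pow_mul, show (4 : ℕ) = 2 ^ 2 by norm_num, ← pow_mul]
      congr 1
      ring
    calc p ^ (j + 1 + 1) * Q' ≤ 2 ^ (2 * (L + 1)) * 2 ^ (2 * q ^ 2 * (5 * L + 8)) := by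
          refine Nat.mul_le_mul (h11.trans h13) ?_
          rw [← h14]
          exact h12
      _ = 2 ^ (2 * (L + 1) + 2 * q ^ 2 * (5 * L + 8)) := by rw [pow_add]
      _ ≤ 2 ^ (q ^ 3) := by
          refine Nat.pow_le_pow_right (by norm_num) ?_
          have h15 := clsExists_log L hL7
          have h16 : 10 * L + 17 ≤ q := h15.trans hL1
          have h17 : 2 * (L + 1) ≤ q := by omega
          have h18 : q ^ 2 * (10 * L + 17) ≤ q ^ 2 * q := Nat.mul_le_mul_left _ h16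
          have h19 : q ^ 3 = q ^ 2 * q := by ring
          have h20 : 2 * q ^ 2 * (5 * L + 8) + q ^ 2 = q ^ 2 * (10 * L + 17) := by ring
          omega
  · intro l hl hlQ
    rcases (Nat.Prime.dvd_mul hl).1 hlQ with h5 | h5
    · have h6 := (Nat.prime_dvd_prime_iff_eq hl hp).1 (hl.dvd_of_dvd_pow h5)
      omega
    · obtain ⟨l', hl', h6⟩ := (Prime.dvd_finsetProd_iff hl.prime _).1 h5
      have h7 := Finset.mem_filter.1 hl'
      have h8 := (Nat.prime_dvd_prime_iff_eq hl h7.2.1).1 (hl.dvd_of_dvd_pow h6)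
      have h9 := Finset.mem_range.1 h7.1
      omega
  · exact clsExists_core A q p j hq hqA hp hp2 h1 h2 h3 M₀ (5 * L + 8) Q' _ hM hM1 hM2 hE hQ1 hcop hcc.2 hcc.1

end Pool.Agent.Helper9.RS
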