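import Pool.Agent.Helper9.RS.BrunAP
import Pool.Agent.Helper9.RS.Recip

/-!
PROJECT RS, module RS-09. Thin integers near which a small `n` divides.

If no `N` satisfies `N ≡ c [MOD Q]` and `n ∣ N + i` the count is `0`. Otherwise fix such an `N'`, `M = lcm n Q`, `r = N' % M`; the two conditions are `N ≡ N' [MOD M]`, i.e. `N = r + M t`. `M = n Q / g`, `g = gcd n Q`. `P = {l ∈ PP y z : ¬ l ∣ n}` (`z = 2^(2^s)`): these primes do not divide `M` (`h.hQp`). `residue` (`i = 0`) and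
`brun_ap` with `Ω l = {u l}`, `κ = 1`, `m := 8 (s+6)`: the set counted is contained in `{N = r + M t : ∀ l ∈ P, t % l ∉ Ω l}`, so the count is `≤ L V' + L e + E`, `V' = ∏_{l ∈ P} (1 - 1/l) = V hh(n) ≥ V`, `e ≤ 2^(-16(s+6)) ≤ V/8 ≤ V'/8` (`recip'`, `eps_small`, `VV_lower`), `E ≤ z^(16(s+6))`, `W = 2^j / M ≥ 2^j/(nQ) ≥ 2^(2^s (16(s+6)+20))`,
`L ≤ W + 1 ≤ (9/8) W`, `E ≤ W 2^(-20 2^s) ≤ W V/8`. Total `≤ (81/64 + 1/8) W V' ≤ 2 W V'`.
-/

set_option autoImplicit false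

namespace Pool.Agent.Helper9.RS

open Finset

private theorem one_sub_pos' {l : ℕ} (hl : l.Prime) : (0 : ℝ) < 1 - 1 / (l : ℝ) := by
  have h1 : (2 : ℝ) ≤ l := by exact_mod_cast hl.two_le
  have h2 : 1 / (l : ℝ) ≤ 1 / 2 := one_div_le_one_div_of_le (by norm_num) h1
  linarith

private theorem VV_split (y z n : ℕ) :
    ∏ l ∈ (PP y z).filter (fun l => ¬ l ∣ n), (1 - 1 / (l : ℝ)) = VV y z * hh y z n := by
  have h1 := Finset.prod_filter_mul_prod_filter_not (PP y z) (fun l => l ∣ n)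
    (fun l : ℕ => (1 - 1 / (l : ℝ)))
  have h2 : ∏ l ∈ (PP y z).filter (fun l => l ∣ n), (1 - 1 / (l : ℝ)) ≠ 0 := by
    rw [Finset.prod_ne_zero_iff]
    intro l hl
    rw [mem_filter, PP, mem_filter] at hl
    exact (one_sub_pos' hl.1.2).ne'
  rw [VV, hh, ← h1, Finset.prod_inv_distrib]
  field_simp

private theorem VV_pos' (y z : ℕ) : 0 < VV y z := by
  rw [VV]
  refine Finset.prod_pos fun l hl => ?_
  rw [PP, mem_filter] at hl
  exact one_sub_pos' hl.2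

private theorem card_PP (y z : ℕ) (hy : 2 ≤ y) (hz : 1 ≤ z) : (PP y z).card + 1 ≤ z := by
  have h1 : (PP y z).card ≤ (Ioc y z).card := card_le_card (filter_subset _ _)
  rw [Nat.card_Ioc] at h1
  omega

private theorem two_pow_bd (s e : ℕ) (he : 13 + s ≤ e) : 1 / (2 : ℝ) ^ e ≤ 1 / (1000 * 2 ^ s) / 8 := by
  rw [div_div]
  apply one_div_le_one_div_of_le (by positivity)
  have h1 : (2 : ℝ) ^ (13 + s) ≤ 2 ^ e := pow_le_pow_right₀ (by norm_num) he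
  rw [pow_add] at h1
  have h2 : (0 : ℝ) < 2 ^ s := by positivity
  nlinarith

private theorem final_bd (F L V e E W : ℝ) (hW : 8 ≤ W) (hL : |L - W| ≤ 1) (hV : 0 ≤ V)
    (hL0 : 0 ≤ L) (he : e ≤ V / 8) (hE : E ≤ W * (V / 8)) (hF : |F - L * V| ≤ L * e + E) :
    F ≤ 2 * W * V := by
  have h1 : L ≤ 9 / 8 * W := by
    have := (abs_le.1 hL).2
    linarith
  have h2 := (abs_le.1 hF).2
  have h3 : L * e ≤ 9 / 8 * W * (V / 8) := by
    calc L * e ≤ L * (V / 8) := mul_le_mul_of_nonneg_left he hL0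
      _ ≤ 9 / 8 * W * (V / 8) := mul_le_mul_of_nonneg_right h1 (by positivity)
  have h4 : L * V ≤ 9 / 8 * W * V := mul_le_mul_of_nonneg_right h1 hV
  have h5 : 0 ≤ W * V := by positivity
  nlinarith

open Classical in
theorem cnt_big {y s Q lq J₀ J₁ : ℕ} (h : SP y s Q lq J₀ J₁) (c n j : ℕ) (hn : 0 < n) (i : ℤ)
    (hj : n * Q * 2 ^ (2 ^ s * (16 * (s + 6) + 20)) ≤ 2 ^ j) :
    ((((Ico (2 ^ j) (2 ^ (j + 1))).filter
      (fun N => Thin Q c y (2 ^ 2 ^ s) N ∧ (n : ℤ) ∣ (N : ℤ) + i)).card : ℕ) : ℝ) ≤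
      2 * ((2 : ℝ) ^ j / n) * ((Nat.gcd n Q : ℝ) / Q) * VV y (2 ^ 2 ^ s) * hh y (2 ^ 2 ^ s) n := by
  obtain ⟨S, hS⟩ : ∃ S, S = (Ico (2 ^ j) (2 ^ (j + 1))).filter
      (fun N => Thin Q c y (2 ^ 2 ^ s) N ∧ (n : ℤ) ∣ (N : ℤ) + i) := ⟨_, rfl⟩
  rw [← hS]
  have hVV := VV_pos' y (2 ^ 2 ^ s)
  have hhh := one_le_hh y (2 ^ 2 ^ s) n
  rcases S.eq_empty_or_nonempty with h0 | ⟨N', hN'⟩
  · rw [h0, card_empty]
    have : (0 : ℝ) ≤ hh y (2 ^ 2 ^ s) n := by linarith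
    push_cast
    positivity
  rw [hS, mem_filter] at hN'
  obtain ⟨-, hT', hd'⟩ := hN'
  obtain ⟨M, hMdef⟩ : ∃ M, M = Nat.lcm n Q := ⟨_, rfl⟩
  have hM : 0 < M := hMdef ▸ Nat.lcm_pos hn h.hQ0
  obtain ⟨r, hr⟩ : ∃ r, r = N' % M := ⟨_, rfl⟩
  have hrM : r < M := hr ▸ Nat.mod_lt _ hM
  obtain ⟨P, hPdef⟩ : ∃ P, P = (PP y (2 ^ 2 ^ s)).filter (fun l => ¬ l ∣ n) := ⟨_, rfl⟩
  have hPmem : ∀ l ∈ P, y < l ∧ l.Prime ∧ ¬ l ∣ n ∧ l ∈ PP y (2 ^ 2 ^ s) := by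
    intro l hl
    rw [hPdef, mem_filter] at hl
    have h1 := hl.1
    rw [PP, mem_filter, mem_Ioc] at h1
    exact ⟨h1.1.1, h1.2, hl.2, hl.1⟩
  have hlM : ∀ l ∈ P, ¬ l ∣ M := by
    intro l hl hd
    obtain ⟨h1, h2, h3, -⟩ := hPmem l hl
    have h4 : l ∣ n * Q := hd.trans (hMdef ▸ Nat.lcm_dvd_mul n Q)
    rcases (Nat.Prime.dvd_mul h2).1 h4 with h5 | h5
    · exact h3 h5
    · exact absurd (h.hQp l h2 h5) (not_le.2 h1)
  have hu : ∀ l : ℕ, ∃ u : ℕ, l ∈ P → u < l ∧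
      ∀ t : ℕ, ((l : ℤ) ∣ ((r + M * t : ℕ) : ℤ) + 0 ↔ t % l = u) := by
    intro l
    by_cases hl : l ∈ P
    · obtain ⟨u, h1, h2⟩ := residue l (hPmem l hl).2.1 M r (hlM l hl) 0
      exact ⟨u, fun _ => ⟨h1, h2⟩⟩
    · exact ⟨0, fun h => absurd h hl⟩
  choose u hu using hu
  obtain ⟨L, hL, hF⟩ := brun_ap P (fun l hl => (hPmem l hl).2.1) (fun l => {u l})
    (fun l hl t ht => by
      rw [mem_singleton] at ht
      rw [ht]
      exact (hu l hl).1) 1 (fun l _ => by simp) (8 * (s + 6)) M r (2 ^ j) (2 ^ (j + 1)) hM hrM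
    (Nat.pow_le_pow_right (by norm_num) (by omega))
  obtain ⟨F, hFdef⟩ : ∃ F, F = ((Ico (2 ^ j) (2 ^ (j + 1))).filter (fun N => ∃ t : ℕ, N = r + M * t ∧
    ∀ l ∈ P, t % l ∉ ({u l} : Finset ℕ))) := ⟨_, rfl⟩
  rw [← hFdef] at hF
  have hsub : S ⊆ F := by
    intro N hN
    rw [hS, mem_filter] at hN
    obtain ⟨hI, hT, hd⟩ := hN
    rw [hFdef, mem_filter]
    refine ⟨hI, N / M, ?_, ?_⟩
    · have h1 : N ≡ N' [MOD Q] := hT.1.trans hT'.1.symm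
      have h2 : N ≡ N' [MOD n] := by
        refine (Nat.modEq_iff_dvd.2 ?_).symm
        have h3 := dvd_sub hd hd'
        have h4 : (N : ℤ) + i - ((N' : ℤ) + i) = (N : ℤ) - N' := by ring
        rwa [h4] at h3
      have h3 : N ≡ N' [MOD M] := hMdef ▸ Nat.mod_lcm h2 h1
      have h4 : N % M = r := by
        rw [hr]
        exact h3
      rw [← h4]
      exact (Nat.mod_add_div N M).symm
    · intro l hl hml
      rw [mem_singleton] at hml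
      have h1 := ((hu l hl).2 (N / M)).2 hml
      have h2 : N ≡ N' [MOD Q] := hT.1.trans hT'.1.symm
      have h3 : N % M = r := by
        have h5 : N ≡ N' [MOD n] := by
          refine (Nat.modEq_iff_dvd.2 ?_).symm
          have h3 := dvd_sub hd hd'
          have h4 : (N : ℤ) + i - ((N' : ℤ) + i) = (N : ℤ) - N' := by ring
          rwa [h4] at h3
        have h6 : N ≡ N' [MOD M] := hMdef ▸ Nat.mod_lcm h5 h2
        rw [hr]
        exact h6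
      have h4 : r + M * (N / M) = N := by
        rw [← h3]
        exact Nat.mod_add_div N M
      rw [h4, add_zero] at h1
      exact hT.2 l (hPmem l hl).2.2.2 (by exact_mod_cast h1)
  have hcard : ((S.card : ℕ) : ℝ) ≤ F.card := by exact_mod_cast card_le_card hsub
  refine hcard.trans ?_
  -- the main quantities
  have hV' : ∏ l ∈ P, (1 - ((({u l} : Finset ℕ).card : ℕ) : ℝ) / l) = VV y (2 ^ 2 ^ s) * hh y (2 ^ 2 ^ s) n := by
    rw [← VV_split, hPdef]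
    refine prod_congr rfl fun l _ => ?_
    rw [card_singleton]
    norm_num
  have hsum : ∑ l ∈ P, ((({u l} : Finset ℕ).card : ℕ) : ℝ) / l ≤ s + 6 := by
    refine le_trans ?_ (recip' y s)
    rw [hPdef]
    refine (sum_le_sum_of_subset_of_nonneg (filter_subset _ _) (fun l _ _ => by positivity)).trans ?_
    refine sum_le_sum fun l _ => ?_
    rw [card_singleton]
    norm_num
  have hsum0 : 0 ≤ ∑ l ∈ P, ((({u l} : Finset ℕ).card : ℕ) : ℝ) / l :=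
    sum_nonneg fun l _ => by positivity
  have hcP : P.card + 1 ≤ 2 ^ 2 ^ s := by
    have h1 : P.card ≤ (PP y (2 ^ 2 ^ s)).card := by
      rw [hPdef]
      exact card_le_card (filter_subset _ _)
    have h2 := card_PP y (2 ^ 2 ^ s) h.hy Nat.one_le_two_pow
    omega
  have h16 : 2 * (8 * (s + 6)) = 16 * (s + 6) := by ring
  rw [hV', h16] at hF
  obtain ⟨V, hVdef⟩ : ∃ V, V = VV y (2 ^ 2 ^ s) * hh y (2 ^ 2 ^ s) n := ⟨_, rfl⟩
  have hVge : 1 / (1000 * 2 ^ s) ≤ V := by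
    have h1 := VV_lower y s (by have := h.hy; omega)
    have h2 : VV y (2 ^ 2 ^ s) * 1 ≤ VV y (2 ^ 2 ^ s) * hh y (2 ^ 2 ^ s) n :=
      mul_le_mul_of_nonneg_left hhh hVV.le
    rw [← hVdef, mul_one] at h2
    exact h1.trans h2
  have hV0 : 0 ≤ V := le_trans (by positivity) hVge
  have hgM : (Nat.gcd n Q : ℝ) * M = n * Q := by
    rw [hMdef]
    exact_mod_cast Nat.gcd_mul_lcm n Q
  have hn' : (0 : ℝ) < n := by exact_mod_cast hn
  have hQ' : (0 : ℝ) < Q := by exact_mod_cast h.hQ0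
  have hM' : (0 : ℝ) < M := by exact_mod_cast hM
  have hMle : (M : ℝ) ≤ n * Q := by
    have h1 : M ≤ n * Q := Nat.le_of_dvd (Nat.mul_pos hn h.hQ0) (hMdef ▸ Nat.lcm_dvd_mul n Q)
    exact_mod_cast h1
  obtain ⟨W, hW⟩ : ∃ W : ℝ, W = 2 ^ j / M := ⟨_, rfl⟩
  have hgoal : 2 * ((2 : ℝ) ^ j / n) * ((Nat.gcd n Q : ℝ) / Q) * VV y (2 ^ 2 ^ s) * hh y (2 ^ 2 ^ s) n =
      2 * W * V := by
    have h1 : ((2 : ℝ) ^ j / n) * ((Nat.gcd n Q : ℝ) / Q) = W := by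
      rw [hW, div_mul_div_comm, div_eq_div_iff (by positivity) hM'.ne', ← hgM]
      ring
    rw [hVdef, ← h1]
    ring
  rw [hgoal]
  have hWge : (2 : ℝ) ^ (2 ^ s * (16 * (s + 6))) * 2 ^ (20 * 2 ^ s) ≤ W := by
    have h1 : (n : ℝ) * Q * 2 ^ (2 ^ s * (16 * (s + 6) + 20)) ≤ 2 ^ j := by exact_mod_cast hj
    rw [hW, le_div_iff₀ hM', ← pow_add]
    have h2 : 2 ^ s * (16 * (s + 6)) + 20 * 2 ^ s = 2 ^ s * (16 * (s + 6) + 20) := by ring
    rw [h2]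
    calc (2 : ℝ) ^ (2 ^ s * (16 * (s + 6) + 20)) * M ≤ 2 ^ (2 ^ s * (16 * (s + 6) + 20)) * (n * Q) :=
          mul_le_mul_of_nonneg_left hMle (by positivity)
      _ = n * Q * 2 ^ (2 ^ s * (16 * (s + 6) + 20)) := by ring
      _ ≤ 2 ^ j := h1
  have hs2 : s + 1 ≤ 2 ^ s := Nat.lt_two_pow_self
  have hW8 : 8 ≤ W := by
    refine le_trans ?_ hWge
    have h1 : (1 : ℝ) ≤ (2 : ℝ) ^ (2 ^ s * (16 * (s + 6))) := one_le_pow₀ (by norm_num)
    have h2 : (2 : ℝ) ^ 3 ≤ (2 : ℝ) ^ (20 * 2 ^ s) := pow_le_pow_right₀ (by norm_num) (by omega)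
    nlinarith
  refine final_bd (F.card : ℝ) (L : ℝ) V _ _ W hW8 ?_ hV0 (by positivity) ?_ ?_ (hVdef ▸ hF)
  · have h1 : (((2 : ℕ) ^ (j + 1) : ℕ) : ℝ) - ((2 ^ j : ℕ) : ℝ) = 2 ^ j := by
      push_cast
      ring
    rw [h1, ← hW] at hL
    exact hL
  · have h1 : (∑ l ∈ P, ((({u l} : Finset ℕ).card : ℕ) : ℝ) / l) ^ (16 * (s + 6)) /
        (((16 * (s + 6)).factorial : ℕ) : ℝ) ≤ ((s : ℝ) + 6) ^ (16 * (s + 6)) /
        ((Nat.factorial (16 * (s + 6)) : ℕ) : ℝ) :=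
      div_le_div_of_nonneg_right (pow_le_pow_left₀ hsum0 hsum _) (by positivity)
    refine h1.trans ((eps_small s).trans ?_)
    refine (two_pow_bd s (16 * (s + 6)) (by omega)).trans ?_
    linarith
  · have h1 : (((1 : ℕ) : ℝ) * P.card + 1) ^ (16 * (s + 6)) ≤ (2 : ℝ) ^ (2 ^ s * (16 * (s + 6))) := by
      rw [pow_mul (2 : ℝ) (2 ^ s) (16 * (s + 6))]
      have : ((P.card : ℕ) : ℝ) + 1 ≤ 2 ^ 2 ^ s := by exact_mod_cast hcP
      refine pow_le_pow_left₀ (by positivity) ?_ _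
      simpa using this
    refine h1.trans ?_
    have h2 : (1 : ℝ) ≤ 2 ^ (20 * 2 ^ s) * (V / 8) := by
      have h3 := two_pow_bd s (20 * 2 ^ s) (by omega)
      have h4 : 1 / (2 : ℝ) ^ (20 * 2 ^ s) ≤ V / 8 := by linarith
      rw [div_le_iff₀ (by positivity)] at h4
      linarith
    calc (2 : ℝ) ^ (2 ^ s * (16 * (s + 6))) = 2 ^ (2 ^ s * (16 * (s + 6))) * 1 := (mul_one _).symm
      _ ≤ 2 ^ (2 ^ s * (16 * (s + 6))) * (2 ^ (20 * 2 ^ s) * (V / 8)) :=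
          mul_le_mul_of_nonneg_left h2 (by positivity)
      _ = 2 ^ (2 ^ s * (16 * (s + 6))) * 2 ^ (20 * 2 ^ s) * (V / 8) := by ring
      _ ≤ W * (V / 8) := mul_le_mul_of_nonneg_right hWge (by positivity)

end Pool.Agent.Helper9.RS
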