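import Pool.Agent.Helper9.RS.BrunAP
import Pool.Agent.Helper9.RS.Recip

/-!
PROJECT RS, module RS-10. Thin integers near which a large `n` divides.

`N ≡ - i` modulo `n`: `N = r + n τ'` with `r = (-i) mod n`. `P = {l ∈ PP y (2^t) : ¬ l ∣ n}` is contained in `PP y (2^(2^s))` as `t ≤ 2^s`. `residue` (`M = n`, `i = 0`), `brun_ap` with `Ω l = {u l}`, `κ = 1`, `m := 8 (s+6)`: count `≤ L V' + L e + E` with `V' = ∏_{l ∈ P} (1 - 1/l) = VV y (2^t) ∏_{l ∈ PP y (2^t), l ∣ n} (1 - 1/l)⁻¹ ≤ (2 y/t) hh(n)` (`VV_upper`),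
`e ≤ (s+6)^(16(s+6))/(16(s+6))! ≤ 2^(-16(s+6)) ≤ 1/2^s ≤ 1/t`, `E ≤ (2^t)^(16(s+6))` (`|P| + 1 ≤ 2^t`), `W = 2^j/n ≥ 2^v`, `L ≤ W + 1 ≤ 2 W`, `E ≤ 2^(v/4) ≤ W 2^(-t) ≤ W/t`. Total `≤ W (4 y hh/t + 2/t + 1/t) ≤ 6 W hh y/t` (`y ≥ 2`, `one_le_hh`).
-/

set_option autoImplicit false

namespace Pool.Agent.Helper9.RS

open Finset

private theorem fac_pos {y z l : ℕ} (hl : l ∈ PP y z) : (0 : ℝ) < 1 - 1 / (l : ℝ) ∧ 1 - 1 / (l : ℝ) ≤ 1 := by
  have h1 : l.Prime := (mem_filter.1 hl).2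
  have h2 : (2 : ℝ) ≤ l := by exact_mod_cast h1.two_le
  have h3 : 1 / (l : ℝ) ≤ 1 / 2 := one_div_le_one_div_of_le (by norm_num) h2
  have h4 : 0 ≤ 1 / (l : ℝ) := by positivity
  constructor <;> linarith

private theorem hh_mono {y z z' : ℕ} (h : z ≤ z') (n : ℕ) : hh y z n ≤ hh y z' n := by
  unfold hh
  apply prod_le_prod_of_subset_of_one_le
  · intro l hl
    rw [mem_filter] at hl ⊢
    refine ⟨?_, hl.2⟩
    have h1 := hl.1
    unfold PP at h1 ⊢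
    rw [mem_filter, mem_Ioc] at h1 ⊢
    exact ⟨⟨h1.1.1, h1.1.2.trans h⟩, h1.2⟩
  · intro l hl
    have h1 := fac_pos (mem_filter.1 hl).1
    exact inv_nonneg.2 h1.1.le
  · intro l hl _
    have h1 := fac_pos (mem_filter.1 hl).1
    exact (one_le_inv₀ h1.1).2 h1.2

private theorem prod_split (y z n : ℕ) :
    ∏ l ∈ (PP y z).filter (fun l => ¬ l ∣ n), (1 - 1 / (l : ℝ)) = VV y z * hh y z n := by
  have h1 := prod_filter_mul_prod_filter_not (PP y z) (fun l => l ∣ n) (fun l => (1 - 1 / (l : ℝ)))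
  unfold VV hh
  rw [← h1, prod_inv_distrib]
  have h2 : ∏ l ∈ PP y z with l ∣ n, (1 - 1 / (l : ℝ)) ≠ 0 := by
    apply prod_ne_zero_iff.2
    intro l hl
    exact (fac_pos (mem_filter.1 hl).1).1.ne'
  field_simp

open Classical in
theorem cnt_small {y s : ℕ} (hy : 2 ≤ y) (n j t v : ℕ) (hn : 0 < n) (i : ℤ) (ht : 1 ≤ t)
    (hts : t ≤ 2 ^ s) (hv : 64 * (s + 6) * t ≤ v) (hj : n * 2 ^ v ≤ 2 ^ j) :
    ((((Ico (2 ^ j) (2 ^ (j + 1))).filter
      (fun N => (∀ l ∈ PP y (2 ^ 2 ^ s), ¬ l ∣ N) ∧ (n : ℤ) ∣ (N : ℤ) + i)).card : ℕ) : ℝ) ≤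
      6 * ((2 : ℝ) ^ j / n) * hh y (2 ^ 2 ^ s) n * ((y : ℝ) / t) := by
  have hn' : (0 : ℝ) < n := by exact_mod_cast hn
  have hnz : (n : ℤ) ≠ 0 := by exact_mod_cast hn.ne'
  have ht' : (1 : ℝ) ≤ t := by exact_mod_cast ht
  have hzz : 2 ^ t ≤ 2 ^ 2 ^ s := Nat.pow_le_pow_right (by norm_num) hts
  obtain ⟨r, hr⟩ : ∃ r : ℕ, (r : ℤ) = (-i) % n := ⟨((-i) % n).toNat, Int.toNat_of_nonneg (Int.emod_nonneg _ hnz)⟩
  have hrn : r < n := by
    have h1 := Int.emod_lt_of_pos (-i) (by exact_mod_cast hn : (0 : ℤ) < n)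
    rw [← hr] at h1
    exact_mod_cast h1
  set P : Finset ℕ := (PP y (2 ^ t)).filter (fun l => ¬ l ∣ n) with hPdef
  have hPP : ∀ l ∈ P, l ∈ PP y (2 ^ 2 ^ s) := by
    intro l hl
    have h1 := (mem_filter.1 hl).1
    unfold PP at h1 ⊢
    rw [mem_filter, mem_Ioc] at h1 ⊢
    exact ⟨⟨h1.1.1, h1.1.2.trans hzz⟩, h1.2⟩
  have hPprime : ∀ l ∈ P, l.Prime := fun l hl => (mem_filter.1 (mem_filter.1 hl).1).2
  have hres : ∀ l : ℕ, ∃ u : ℕ, l ∈ P → u < l ∧ ∀ s : ℕ, (l ∣ r + n * s ↔ s % l = u) := by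
    intro l
    by_cases hl : l ∈ P
    · obtain ⟨u, hu1, hu2⟩ := residue l (hPprime l hl) n r (mem_filter.1 hl).2 0
      refine ⟨u, fun _ => ⟨hu1, fun s => ?_⟩⟩
      rw [← hu2 s, add_zero]
      norm_cast
    · exact ⟨0, fun h => absurd h hl⟩
  choose u hu using hres
  obtain ⟨L, hL1, hL2⟩ := brun_ap P hPprime (fun l => {u l}) (fun l hl t h => by
      rw [mem_singleton] at h
      rw [h]
      exact (hu l hl).1) 1 (fun l _ => by simp) (8 * (s + 6)) n r (2 ^ j) (2 ^ (j + 1)) hn hrn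
      (Nat.pow_le_pow_right (by norm_num) (by omega))
  have hV0 : 0 ≤ VV y (2 ^ t) := prod_nonneg (fun l hl => (fac_pos hl).1.le)
  have hh1 : 1 ≤ hh y (2 ^ 2 ^ s) n := one_le_hh _ _ _
  have hh0 : hh y (2 ^ t) n ≤ hh y (2 ^ 2 ^ s) n := hh_mono hzz n
  have hhp : 0 ≤ hh y (2 ^ t) n := zero_le_one.trans (one_le_hh _ _ _)
  have hy' : (2 : ℝ) ≤ y := by exact_mod_cast hy
  have hprod : ∏ l ∈ P, (1 - (((({u l} : Finset ℕ)).card : ℕ) : ℝ) / l) ≤ 2 * (y : ℝ) / t * hh y (2 ^ 2 ^ s) n := by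
    have h1 : ∏ l ∈ P, (1 - (((({u l} : Finset ℕ)).card : ℕ) : ℝ) / l) = VV y (2 ^ t) * hh y (2 ^ t) n := by
      rw [← prod_split]
      apply prod_congr rfl
      intro l _
      simp
    rw [h1]
    exact mul_le_mul (VV_upper y t hy ht) hh0 hhp (by positivity)
  have hprod0 : 0 ≤ ∏ l ∈ P, (1 - (((({u l} : Finset ℕ)).card : ℕ) : ℝ) / l) := by
    apply prod_nonneg
    intro l hl
    rw [card_singleton, Nat.cast_one]
    exact (fac_pos (hPP l hl)).1.le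
  have hsum : ∑ l ∈ P, (((({u l} : Finset ℕ)).card : ℕ) : ℝ) / l ≤ s + 6 := by
    refine le_trans ?_ (recip' y s)
    have h1 : ∑ l ∈ P, (((({u l} : Finset ℕ)).card : ℕ) : ℝ) / l = ∑ l ∈ P, 1 / (l : ℝ) := by
      apply sum_congr rfl
      intro l _
      simp
    rw [h1]
    exact sum_le_sum_of_subset_of_nonneg hPP (fun l _ _ => by positivity)
  have hsum0 : 0 ≤ ∑ l ∈ P, (((({u l} : Finset ℕ)).card : ℕ) : ℝ) / l := sum_nonneg (fun l _ => by positivity)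
  have he : (∑ l ∈ P, (((({u l} : Finset ℕ)).card : ℕ) : ℝ) / l) ^ (2 * (8 * (s + 6))) /
      (((2 * (8 * (s + 6))).factorial : ℕ) : ℝ) ≤ 1 / t := by
    have h2 : 2 * (8 * (s + 6)) = 16 * (s + 6) := by ring
    rw [h2]
    have h3 := eps_small s
    have h4 : (∑ l ∈ P, (((({u l} : Finset ℕ)).card : ℕ) : ℝ) / l) ^ (16 * (s + 6)) /
      (((16 * (s + 6)).factorial : ℕ) : ℝ) ≤ ((s : ℝ) + 6) ^ (16 * (s + 6)) / ((Nat.factorial (16 * (s + 6)) : ℕ) : ℝ) :=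
      div_le_div_of_nonneg_right (pow_le_pow_left₀ hsum0 hsum _) (by positivity)
    have h5 : (1 : ℝ) / 2 ^ (16 * (s + 6)) ≤ 1 / t := by
      apply one_div_le_one_div_of_le (by linarith)
      have h6 : (t : ℝ) ≤ 2 ^ s := by exact_mod_cast hts
      exact h6.trans (pow_le_pow_right₀ (by norm_num) (by omega))
    linarith
  have hPcard : P.card + 1 ≤ 2 ^ t := by
    have h1 : P ⊆ Ioc y (2 ^ t) := by
      intro l hl
      have h2 := (mem_filter.1 hl).1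
      unfold PP at h2
      exact (mem_filter.1 h2).1
    have h2 := card_le_card h1
    rw [Nat.card_Ioc] at h2
    have h3 : 0 < 2 ^ t := by positivity
    omega
  have hW : (2 : ℝ) ^ v ≤ (2 : ℝ) ^ j / n := by
    rw [le_div_iff₀ hn']
    have h1 : ((n * 2 ^ v : ℕ) : ℝ) ≤ ((2 ^ j : ℕ) : ℝ) := by exact_mod_cast hj
    push_cast at h1
    linarith
  have hE : (((1 : ℕ) : ℝ) * P.card + 1) ^ (2 * (8 * (s + 6))) ≤ (2 : ℝ) ^ j / n / t := by
    have h1 : (((1 : ℕ) : ℝ) * P.card + 1) ≤ (2 : ℝ) ^ t := by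
      have h2 : ((P.card + 1 : ℕ) : ℝ) ≤ ((2 ^ t : ℕ) : ℝ) := by exact_mod_cast hPcard
      push_cast at h2
      push_cast
      linarith
    have h3 : (((1 : ℕ) : ℝ) * P.card + 1) ^ (2 * (8 * (s + 6))) ≤ ((2 : ℝ) ^ t) ^ (2 * (8 * (s + 6))) :=
      pow_le_pow_left₀ (by positivity) h1 _
    have h4 : ((2 : ℝ) ^ t) ^ (2 * (8 * (s + 6))) * t ≤ (2 : ℝ) ^ v := by
      have h5 : (t : ℝ) ≤ (2 : ℝ) ^ t := by exact_mod_cast (Nat.lt_two_pow_self (n := t)).le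
      have h6 : t * (2 * (8 * (s + 6))) + t ≤ v := by nlinarith
      calc ((2 : ℝ) ^ t) ^ (2 * (8 * (s + 6))) * t ≤ ((2 : ℝ) ^ t) ^ (2 * (8 * (s + 6))) * (2 : ℝ) ^ t :=
            mul_le_mul_of_nonneg_left h5 (by positivity)
        _ = (2 : ℝ) ^ (t * (2 * (8 * (s + 6))) + t) := by rw [← pow_mul, ← pow_add]
        _ ≤ (2 : ℝ) ^ v := pow_le_pow_right₀ (by norm_num) h6
    rw [le_div_iff₀ (by linarith)]
    calc (((1 : ℕ) : ℝ) * P.card + 1) ^ (2 * (8 * (s + 6))) * t ≤ ((2 : ℝ) ^ t) ^ (2 * (8 * (s + 6))) * t :=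
          mul_le_mul_of_nonneg_right h3 (by linarith)
      _ ≤ (2 : ℝ) ^ v := h4
      _ ≤ _ := hW
  set W : ℝ := (2 : ℝ) ^ j / n with hWdef
  have hW1 : 1 ≤ W := le_trans (one_le_pow₀ (by norm_num)) hW
  have hL : (L : ℝ) ≤ 2 * W := by
    have h1 := (abs_le.1 hL1).2
    have h2 : (((2 ^ (j + 1) : ℕ) : ℝ) - ((2 ^ j : ℕ) : ℝ)) / n = W := by
      rw [hWdef]
      push_cast
      rw [pow_succ]
      ring
    rw [h2] at h1
    linarith
  have hL0 : (0 : ℝ) ≤ L := Nat.cast_nonneg _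
  have key := (abs_le.1 hL2).2
  refine le_trans (Nat.cast_le.2 (card_le_card (fun N hN => ?_))) (le_trans (sub_le_iff_le_add.1 key) ?_)
  · have hN := (@Finset.mem_filter _ _ (_) _ _).1 hN
    have h2 : N % n = r := by
      have h3 : (N : ℤ) % n = (-i) % n := by
        apply Int.emod_emod_of_dvd (N : ℤ) (dvd_refl _) |>.symm.trans
        rw [Int.emod_emod_of_dvd (N : ℤ) (dvd_refl _)]
        rw [Int.emod_eq_emod_iff_emod_sub_eq_zero]
        apply Int.emod_eq_zero_of_dvd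
        rw [sub_neg_eq_add]
        exact hN.2.2
      rw [← hr] at h3
      exact_mod_cast h3
    have h4 : N = r + n * (N / n) := by
      rw [← h2]
      exact (Nat.mod_add_div N n).symm
    refine (@Finset.mem_filter _ _ (_) _ _).2 ⟨hN.1, N / n, h4, fun l hl h => ?_⟩
    rw [mem_singleton] at h
    have h5 := ((hu l hl).2 (N / n)).2 h
    rw [← h4] at h5
    exact hN.2.1 l (hPP l hl) h5
  · have h1 : (L : ℝ) * ∏ l ∈ P, (1 - (((({u l} : Finset ℕ)).card : ℕ) : ℝ) / l) ≤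
        2 * W * (2 * (y : ℝ) / t * hh y (2 ^ 2 ^ s) n) := mul_le_mul hL hprod hprod0 (by linarith)
    have h2 := mul_le_mul hL he (div_nonneg (pow_nonneg hsum0 _) (Nat.cast_nonneg _))
      (mul_nonneg zero_le_two (zero_le_one.trans hW1))
    have h3 : 6 * W * hh y (2 ^ 2 ^ s) n * ((y : ℝ) / t) - 2 * W * (2 * (y : ℝ) / t * hh y (2 ^ 2 ^ s) n) -
        2 * W * (1 / t) - W / t = W / t * (2 * (y * hh y (2 ^ 2 ^ s) n) - 3) := by
      field_simp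
      ring
    have h4 : 0 ≤ W / t * (2 * (y * hh y (2 ^ 2 ^ s) n) - 3) := by
      apply mul_nonneg (by positivity)
      nlinarith
    linarith

end Pool.Agent.Helper9.RS
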