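import Pool.Agent.Helper9.RS.Mu

/-!
PROJECT RS, module RS-11. Trivial bounds.

`cnt_triv`: an interval of `2^j` integers contains at most `2^j / n + 1` multiples of `n` (`Int.Ico_filter_dvd_card`, `Nat.count_modEq_card`, or `Nat.Ioc_filter_dvd_card_eq_div`). `cnt_zero`: `0 < N + i < 2^(j+1) + 2^j < 2^(j+2) ≤ n`. `cnt_four`: if `2^(j+2) ≤ n` the count is `0`; if `n ≤ 2^j` use `2^j/n + 1 ≤ 2 (2^j/n)`; if `2^j < n < 2^(j+2)` the count is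
`≤ 1` (`2^j/n + 1 < 2`) and `1 ≤ 4 (2^j/n)`. `mu_triv`: sum over the blocks.
-/

set_option autoImplicit false

namespace Pool.Agent.Helper9.RS

open Finset

open Classical in
theorem cnt_triv (n j : ℕ) (hn : 0 < n) (i : ℤ) :
    ((((Ico (2 ^ j) (2 ^ (j + 1))).filter (fun N : ℕ => (n : ℤ) ∣ (N : ℤ) + i)).card : ℕ) : ℝ) ≤
      (2 : ℝ) ^ j / n + 1 := by
  have hn' : (0 : ℤ) < (n : ℤ) := by exact_mod_cast hn
  have hcard : ((Ico (2 ^ j) (2 ^ (j + 1))).filter (fun N : ℕ => (n : ℤ) ∣ (N : ℤ) + i)).card ≤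
      ((Ico ((2 : ℤ) ^ j + i) ((2 : ℤ) ^ (j + 1) + i)).filter (fun x => (n : ℤ) ∣ x)).card := by
    apply Finset.card_le_card_of_injOn (fun N : ℕ => (N : ℤ) + i)
    · intro N hN
      have hN' := Finset.mem_filter.mp (Finset.mem_coe.mp hN)
      obtain ⟨h12, h3⟩ := hN'
      obtain ⟨h1, h2⟩ := Finset.mem_Ico.mp h12
      refine Finset.mem_coe.mpr (Finset.mem_filter.mpr ⟨Finset.mem_Ico.mpr ⟨?_, ?_⟩, h3⟩)
      · have : ((2 ^ j : ℕ) : ℤ) ≤ (N : ℤ) := by exact_mod_cast h1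
        push_cast at this
        simpa using this
      · have : (N : ℤ) < ((2 ^ (j + 1) : ℕ) : ℤ) := by exact_mod_cast h2
        push_cast at this
        simpa using this
    · intro x _ y _ h
      simpa using h
  have h2 : ((((Ico ((2 : ℤ) ^ j + i) ((2 : ℤ) ^ (j + 1) + i)).filter
      (fun x => (n : ℤ) ∣ x)).card : ℕ) : ℤ) =
      max (⌈((((2 : ℤ) ^ (j + 1) + i : ℤ) : ℚ)) / ((n : ℤ) : ℚ)⌉ -
        ⌈((((2 : ℤ) ^ j + i : ℤ) : ℚ)) / ((n : ℤ) : ℚ)⌉) 0 := by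
    have := Int.Ico_filter_dvd_card ((2 : ℤ) ^ j + i) ((2 : ℤ) ^ (j + 1) + i) hn'
    convert this
  have hq : ((((Ico ((2 : ℤ) ^ j + i) ((2 : ℤ) ^ (j + 1) + i)).filter
      (fun x => (n : ℤ) ∣ x)).card : ℕ) : ℚ) ≤ (2 : ℚ) ^ j / n + 1 := by
    have h3 : ((((Ico ((2 : ℤ) ^ j + i) ((2 : ℤ) ^ (j + 1) + i)).filter
      (fun x => (n : ℤ) ∣ x)).card : ℕ) : ℚ) =
      ((max (⌈((((2 : ℤ) ^ (j + 1) + i : ℤ) : ℚ)) / ((n : ℤ) : ℚ)⌉ -
        ⌈((((2 : ℤ) ^ j + i : ℤ) : ℚ)) / ((n : ℤ) : ℚ)⌉) 0 : ℤ) : ℚ) := by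
      exact_mod_cast h2
    rw [h3, Int.cast_max]
    have hnq : (0 : ℚ) < (n : ℚ) := by exact_mod_cast hn
    apply max_le
    · push_cast
      have e1 := (Int.ceil_lt_add_one (((2 : ℚ) ^ (j + 1) + i) / (n : ℚ))).le
      have e2 := Int.le_ceil (((2 : ℚ) ^ j + i) / (n : ℚ))
      have e3 : ((2 : ℚ) ^ (j + 1) + i) / (n : ℚ) - ((2 : ℚ) ^ j + i) / (n : ℚ) =
          (2 : ℚ) ^ j / n := by
        rw [← sub_div]
        congr 1
        ring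
      linarith
    · have : (0 : ℚ) ≤ (2 : ℚ) ^ j / n := by positivity
      push_cast
      linarith
  have h4 : ((((Ico ((2 : ℤ) ^ j + i) ((2 : ℤ) ^ (j + 1) + i)).filter
      (fun x => (n : ℤ) ∣ x)).card : ℕ) : ℝ) ≤ (2 : ℝ) ^ j / n + 1 := by
    have h5 := (Rat.cast_le (K := ℝ)).mpr hq
    push_cast at h5
    exact h5
  refine le_trans ?_ h4
  exact_mod_cast hcard

theorem cnt_zero (n j J₀ N : ℕ) (i : ℤ) (hi : |i| < 2 ^ J₀) (hJ : J₀ ≤ j) (hn : 2 ^ (j + 2) ≤ n)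
    (h1 : 2 ^ j ≤ N) (h2 : N < 2 ^ (j + 1)) : ¬ (n : ℤ) ∣ (N : ℤ) + i := by
  intro hd
  have h1' : ((2 : ℤ) ^ j) ≤ (N : ℤ) := by exact_mod_cast h1
  have h2' : (N : ℤ) < (2 : ℤ) ^ (j + 1) := by exact_mod_cast h2
  have hn' : (2 : ℤ) ^ (j + 2) ≤ (n : ℤ) := by exact_mod_cast hn
  have hp : (2 : ℤ) ^ J₀ ≤ 2 ^ j := pow_le_pow_right₀ (by norm_num) hJ
  have hi1 := (abs_lt.mp hi).1
  have hi2 := (abs_lt.mp hi).2
  have e1 : (2 : ℤ) ^ (j + 1) = 2 * 2 ^ j := by ring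
  have e2 : (2 : ℤ) ^ (j + 2) = 4 * 2 ^ j := by ring
  have hpos : (0 : ℤ) < (N : ℤ) + i := by linarith
  have hle := Int.le_of_dvd hpos hd
  linarith

open Classical in
theorem cnt_four (n j J₀ : ℕ) (hn : 0 < n) (i : ℤ) (hi : |i| < 2 ^ J₀) (hJ : J₀ ≤ j) :
    ((((Ico (2 ^ j) (2 ^ (j + 1))).filter (fun N : ℕ => (n : ℤ) ∣ (N : ℤ) + i)).card : ℕ) : ℝ) /
      2 ^ j ≤ 4 / (n : ℝ) := by
  have hnR : (0 : ℝ) < n := by exact_mod_cast hn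
  have h2j : (0 : ℝ) < (2 : ℝ) ^ j := by positivity
  by_cases hbig : 2 ^ (j + 2) ≤ n
  · have : ((Ico (2 ^ j) (2 ^ (j + 1))).filter (fun N : ℕ => (n : ℤ) ∣ (N : ℤ) + i)) = ∅ := by
      rw [Finset.filter_eq_empty_iff]
      intro N hN
      obtain ⟨a, b⟩ := Finset.mem_Ico.mp hN
      exact cnt_zero n j J₀ N i hi hJ hbig a b
    rw [this]
    simp only [Finset.card_empty, Nat.cast_zero, zero_div]
    positivity
  · have hbig' : n < 2 ^ (j + 2) := not_le.mp hbig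
    have hbR : (n : ℝ) < 4 * 2 ^ j := by
      have : (n : ℝ) < (2 : ℝ) ^ (j + 2) := by exact_mod_cast hbig'
      have e2 : (2 : ℝ) ^ (j + 2) = 4 * 2 ^ j := by ring
      linarith
    have ht := cnt_triv n j hn i
    rw [div_le_div_iff₀ h2j hnR]
    by_cases hs : n ≤ 2 ^ j
    · have hsR : (n : ℝ) ≤ 2 ^ j := by exact_mod_cast hs
      have : ((((Ico (2 ^ j) (2 ^ (j + 1))).filter
          (fun N : ℕ => (n : ℤ) ∣ (N : ℤ) + i)).card : ℕ) : ℝ) * n ≤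
          ((2 : ℝ) ^ j / n + 1) * n := mul_le_mul_of_nonneg_right ht hnR.le
      have e : ((2 : ℝ) ^ j / n + 1) * n = 2 ^ j + n := by
        field_simp
      linarith
    · have hs' : 2 ^ j < n := not_le.mp hs
      have hsR : (2 : ℝ) ^ j < n := by exact_mod_cast hs'
      have hlt : (2 : ℝ) ^ j / n < 1 := by
        rw [div_lt_one hnR]
        exact hsR
      have hc2 : ((((Ico (2 ^ j) (2 ^ (j + 1))).filter
          (fun N : ℕ => (n : ℤ) ∣ (N : ℤ) + i)).card : ℕ) : ℝ) < 2 := by linarith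
      have hc1 : ((Ico (2 ^ j) (2 ^ (j + 1))).filter
          (fun N : ℕ => (n : ℤ) ∣ (N : ℤ) + i)).card < 2 := by exact_mod_cast hc2
      have hc : ((((Ico (2 ^ j) (2 ^ (j + 1))).filter
          (fun N : ℕ => (n : ℤ) ∣ (N : ℤ) + i)).card : ℕ) : ℝ) ≤ 1 := by
        exact_mod_cast (Nat.lt_succ_iff.mp hc1)
      nlinarith

theorem mu_triv (J₀ J₁ n : ℕ) (hn : 0 < n) (i : ℤ) (hi : |i| < 2 ^ J₀) :
    mu J₀ J₁ (fun N => (n : ℤ) ∣ (N : ℤ) + i) ≤ 4 * (J₁ : ℝ) / n := by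
  classical
  have hnR : (0 : ℝ) < n := by exact_mod_cast hn
  unfold mu
  have h : ∀ j ∈ Ico J₀ J₁, ((((Ico (2 ^ j) (2 ^ (j + 1))).filter
      (fun N : ℕ => (n : ℤ) ∣ (N : ℤ) + i)).card : ℕ) : ℝ) / 2 ^ j ≤ 4 / (n : ℝ) := by
    intro j hj
    have := cnt_four n j J₀ hn i hi (Finset.mem_Ico.mp hj).1
    convert this
  refine le_trans (Finset.sum_le_sum (g := fun _ => 4 / (n : ℝ)) ?_) ?_
  · intro j hj
    refine le_trans (le_of_eq ?_) (h j hj)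
    congr!
  · rw [Finset.sum_const, Nat.card_Ico, nsmul_eq_mul]
    have : ((J₁ - J₀ : ℕ) : ℝ) ≤ J₁ := by exact_mod_cast Nat.sub_le J₁ J₀
    have h4 : (0 : ℝ) ≤ 4 / n := by positivity
    calc ((J₁ - J₀ : ℕ) : ℝ) * (4 / n) ≤ J₁ * (4 / n) := mul_le_mul_of_nonneg_right this h4
      _ = 4 * (J₁ : ℝ) / n := by ring

end Pool.Agent.Helper9.RS
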