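import Pool.Agent.Helper9.RS.Mu

/-!
PROJECT RS, module RS-24. Two good integers of the same type.

Suppose not. `Θ` = the set of the `theta N`, `N` in the range, `Thin Q c₁`, `¬ B₁ N` (a finite set of subsets of `PP y z ×ˢ IH H`, all with `TT θ ≤ X` by `g1`). `mu (Thin c₁ ∧ ¬ B₁) = ∑_{θ ∈ Θ} mu (Thin c₁ ∧ ¬ B₁ ∧ theta = θ) ≤ ∑_{θ ∈ Θ} nu c₁ θ` (`mu_types`, `mu_mono`, `g1`) `≤ ∑_{θ ∈ Θ} nu c₀ θ + m0/10` (`hs`), and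
`∑_{θ ∈ Θ} nu c₀ θ ≤ mu (Thin c₀ ∧ theta ∈ Θ) ≤ mu (Thin c₀ ∧ B₀)` since a thin `N₀` with `theta N₀ ∈ Θ`, `¬ B₀ N₀` would be a solution. With `mu_split`: `m0 ≤ mu (Thin c₁) ≤ m0/10 + m0/10 + m0/10`, contradiction.
-/

set_option autoImplicit false

namespace Pool.Agent.Helper9.RS

open Finset

open Classical in
theorem meet (J₀ J₁ Q c₁ c₀ y z H X : ℕ) (m0 : ℝ) (hm0 : 0 < m0) (E₁ E₀ : ℕ → Prop)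
    (h1 : m0 ≤ mu J₀ J₁ (fun N => Thin Q c₁ y z N))
    (hb1 : mu J₀ J₁ (fun N => Thin Q c₁ y z N ∧ E₁ N) ≤ m0 / 10)
    (hb0 : mu J₀ J₁ (fun N => Thin Q c₀ y z N ∧ E₀ N) ≤ m0 / 10)
    (g1 : ∀ N, 2 ^ J₀ ≤ N → N < 2 ^ J₁ → Thin Q c₁ y z N → ¬ E₁ N →
      TT (theta y z H N) ≤ X ∧ ∀ x ∈ theta y z H N, ¬ ((x.1 : ℤ) ^ 2 ∣ (N : ℤ) + x.2))
    (hs : ∑ θ ∈ (PP y z ×ˢ IH H).powerset with TT θ ≤ X,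
      |nu J₀ J₁ Q c₁ y z H θ - nu J₀ J₁ Q c₀ y z H θ| ≤ m0 / 10) :
    ∃ N₁ N₀ : ℕ, (2 ^ J₀ ≤ N₁ ∧ N₁ < 2 ^ J₁ ∧ Thin Q c₁ y z N₁ ∧ ¬ E₁ N₁) ∧
      (2 ^ J₀ ≤ N₀ ∧ N₀ < 2 ^ J₁ ∧ Thin Q c₀ y z N₀ ∧ ¬ E₀ N₀) ∧
      theta y z H N₁ = theta y z H N₀ := by
  by_contra hcon
  push Not at hcon
  set Θ : Finset (Finset (ℕ × ℤ)) := ((PP y z ×ˢ IH H).powerset.filter (fun θ => TT θ ≤ X)).filter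
    (fun θ => ∃ N₁ : ℕ, 2 ^ J₀ ≤ N₁ ∧ N₁ < 2 ^ J₁ ∧ Thin Q c₁ y z N₁ ∧ ¬ E₁ N₁ ∧
      theta y z H N₁ = θ) with hΘ
  have hsplit := mu_split J₀ J₁ (fun N => Thin Q c₁ y z N) E₁
  -- the good integers in the class `c₁`
  have e1 : mu J₀ J₁ (fun N => Thin Q c₁ y z N ∧ ¬ E₁ N) ≤
      mu J₀ J₁ (fun N => (Thin Q c₁ y z N ∧ ¬ E₁ N) ∧ theta y z H N ∈ Θ) := by
    refine mu_mono J₀ J₁ _ _ fun N hN1 hN2 hN => ⟨hN, ?_⟩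
    rw [hΘ, Finset.mem_filter, Finset.mem_filter, Finset.mem_powerset]
    refine ⟨⟨Finset.filter_subset _ _, (g1 N hN1 hN2 hN.1 hN.2).1⟩, N, hN1, hN2, hN.1, hN.2, rfl⟩
  have e2 := mu_types J₀ J₁ Θ (theta y z H) (fun N => Thin Q c₁ y z N ∧ ¬ E₁ N)
  have e3 : ∑ θ ∈ Θ, mu J₀ J₁ (fun N => (Thin Q c₁ y z N ∧ ¬ E₁ N) ∧ theta y z H N = θ) ≤
      ∑ θ ∈ Θ, nu J₀ J₁ Q c₁ y z H θ := by
    refine Finset.sum_le_sum fun θ _ => ?_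
    refine mu_mono J₀ J₁ _ _ fun N hN1 hN2 hN => ⟨hN.1.1, hN.2, ?_⟩
    have h2 := (g1 N hN1 hN2 hN.1.1 hN.1.2).2
    rw [hN.2] at h2
    exact h2
  have e4 : ∑ θ ∈ Θ, |nu J₀ J₁ Q c₁ y z H θ - nu J₀ J₁ Q c₀ y z H θ| ≤ m0 / 10 := by
    refine le_trans (Finset.sum_le_sum_of_subset_of_nonneg ?_ fun _ _ _ => abs_nonneg _) hs
    intro θ hθ
    rw [hΘ, Finset.mem_filter, Finset.mem_filter] at hθ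
    rw [Finset.mem_filter]
    exact hθ.1
  have e5 : ∑ θ ∈ Θ, nu J₀ J₁ Q c₁ y z H θ ≤ (∑ θ ∈ Θ, nu J₀ J₁ Q c₀ y z H θ) +
      ∑ θ ∈ Θ, |nu J₀ J₁ Q c₁ y z H θ - nu J₀ J₁ Q c₀ y z H θ| := by
    rw [← Finset.sum_add_distrib]
    refine Finset.sum_le_sum fun θ _ => ?_
    have := le_abs_self (nu J₀ J₁ Q c₁ y z H θ - nu J₀ J₁ Q c₀ y z H θ)
    linarith
  have e6 : ∑ θ ∈ Θ, nu J₀ J₁ Q c₀ y z H θ ≤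
      ∑ θ ∈ Θ, mu J₀ J₁ (fun N => Thin Q c₀ y z N ∧ theta y z H N = θ) := by
    refine Finset.sum_le_sum fun θ _ => ?_
    exact mu_mono J₀ J₁ _ _ fun N _ _ hN => ⟨hN.1, hN.2.1⟩
  have e7 := mu_types J₀ J₁ Θ (theta y z H) (fun N => Thin Q c₀ y z N)
  have e8 : mu J₀ J₁ (fun N => Thin Q c₀ y z N ∧ theta y z H N ∈ Θ) ≤
      mu J₀ J₁ (fun N => Thin Q c₀ y z N ∧ E₀ N) := by
    refine mu_mono J₀ J₁ _ _ fun N hN1 hN2 hN => ⟨hN.1, ?_⟩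
    by_contra hE
    have h2 := hN.2
    rw [hΘ, Finset.mem_filter] at h2
    obtain ⟨-, N₁, h3, h4, h5, h6, h7⟩ := h2
    exact hcon N₁ N ⟨h3, h4, h5, h6⟩ ⟨hN1, hN2, hN.1, hE⟩ h7
  linarith

end Pool.Agent.Helper9.RS
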