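import Pool.Agent.Helper9.RS.Defs

/-!
PROJECT RS, module RS-26. The coefficients at the two places differ by one.

An `n ∈ A` with `n ∣ N₁` is `≤ z` (`b1` with `i = 0`), its prime factors are `≤ z` and not in `PP y z` (`h1`), so `≤ y`; by `hC.zero1`: `n ∣ N₁ ↔ n ∣ q`; the same for `N₀`: `n ∣ N₀ ↔ n ∣ q / p` (`hC.zero0`). So `a(N₁) = ∑_{n ∈ A, n ∣ q} c n N₁`, `a(N₀) = ∑_{n ∈ A, n ∣ q/p} c n N₀`. For `n ∣ q/p`: `2n ∣ N₁ ↔ 2n ∣ q ↔ 2n ∣ q/p ↔ 2n ∣ N₀`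
(`p` odd; `zero1`, `zero0` for `2 n`, `2 ≤ y`), `N₁ ≡ N₀` modulo 4, so `c n N₁ = c n N₀`. The `n ∈ A` with `n ∣ q`, `¬ n ∣ q/p`: only `n = q` (`hC.uniq`; `q ∣ q`, `¬ q ∣ q/p`), so `a(N₁) - a(N₀) = c q N₁`, and `q ∣ N₁`, `¬ 2q ∣ N₁`, so it is `± 1` (`Fib.c_ne_zero_iff`, `Fib.abs_c_le`). The bounds: at most `q` divisors, every term is at most `1`.
-/

set_option autoImplicit false

namespace Pool.Agent.Helper9.RS

open Finset

open Classical in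
private lemma pz_a_eq (A : Set ℕ) (N : ℕ) (D : Finset ℕ) (hD : ∀ n ∈ D, 1 ≤ n)
    (h : ∀ n, 0 < n → n ∈ A → n ∣ N → n ∈ D) :
    Fib.a A N = ∑ n ∈ D, if n ∈ A then Fib.c n N else 0 := by
  have e1 : ∑ n ∈ Icc 1 N, (if n ∈ A then Fib.c n N else 0) =
      ∑ n ∈ Icc 1 N ∪ D, (if n ∈ A then Fib.c n N else 0) := by
    apply sum_subset subset_union_left
    intro n hn hn'
    have hnD : n ∈ D := (mem_union.1 hn).resolve_left hn'
    have h1 := hD n hnD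
    have h2 : N < n := by
      by_contra h3
      exact hn' (mem_Icc.2 ⟨h1, by omega⟩)
    rw [Fib.c_of_lt h2, ite_self]
  have e2 : ∑ n ∈ D, (if n ∈ A then Fib.c n N else 0) =
      ∑ n ∈ Icc 1 N ∪ D, (if n ∈ A then Fib.c n N else 0) := by
    apply sum_subset subset_union_right
    intro n hn hn'
    have hnI : n ∈ Icc 1 N := (mem_union.1 hn).resolve_right hn'
    split_ifs with hA
    · by_contra hc
      exact hn' (h n (mem_Icc.1 hnI).1 hA ((Fib.c_ne_zero_iff n N).1 hc).1)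
    · rfl
  rw [e2, ← e1]
  rfl

private lemma pz_odd {n N : ℕ} (hn : 0 < n) (hd : n ∣ N) : Odd (N / n) ↔ ¬ 2 * n ∣ N := by
  obtain ⟨t, rfl⟩ := hd
  rw [Nat.mul_div_cancel_left _ hn, mul_comm 2 n, Nat.mul_dvd_mul_iff_left hn,
    ← Nat.not_even_iff_odd, even_iff_two_dvd]

private lemma pz_smooth {A : Set ℕ} {H y Q c z N : ℕ} (h1 : Thin Q c y z N)
    (b1 : ¬ B1 A z H N) (n : ℕ) (hn : 0 < n) (hA : n ∈ A) (hd : n ∣ N) (l : ℕ) (hl : l.Prime)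
    (hln : l ∣ n) : l ≤ y := by
  have hnz : n ≤ z := by
    by_contra h
    apply b1
    refine ⟨0, by simp, n, hA, by omega, ?_⟩
    rw [add_zero]
    exact Int.natCast_dvd_natCast.2 hd
  by_contra hly
  have h3 : l ≤ n := Nat.le_of_dvd hn hln
  exact h1.2 l (mem_filter.2 ⟨mem_Ioc.2 ⟨by omega, by omega⟩, hl⟩) (hln.trans hd)

theorem place_zero {A : Set ℕ} {q p H y Q c₁ c₀ G R : ℕ} (hC : Cls A q p H y Q c₁ c₀ G R) (z : ℕ)
    (hy : 2 ≤ y) (hyz : y ≤ z) (h0 : 0 ∉ A) (N₁ N₀ : ℕ) (h1 : Thin Q c₁ y z N₁)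
    (h2 : Thin Q c₀ y z N₀) (hN1 : 0 < N₁) (hN0 : 0 < N₀) (b1 : ¬ B1 A z H N₁)
    (b0 : ¬ B1 A z H N₀) :
    |Fib.a A N₁ - Fib.a A N₀| = 1 ∧ |Fib.a A N₁| ≤ q ∧ |Fib.a A N₀| ≤ q := by
  classical
  have hq := hC.hq
  have hp := hC.hp
  obtain ⟨q', hq'⟩ := hC.hpq
  have hq'0 : 0 < q' := by
    rcases Nat.eq_zero_or_pos q' with h | h
    · rw [h] at hq'
      omega
    · exact h
  have hdiv : q / p = q' := by
    rw [hq', Nat.mul_div_cancel_left _ hp.pos]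
  have hpodd : ¬ 2 ∣ p := by
    intro h
    rcases (Nat.dvd_prime hp).1 h with h' | h'
    · omega
    · exact hC.hp2 h'.symm
  have hsm : ∀ n : ℕ, n ∣ q → ∀ l : ℕ, l.Prime → l ∣ n → l ≤ y := fun n hn l _ hln =>
    (Nat.le_of_dvd hq (hln.trans hn)).trans hC.qy
  have hsm2 : ∀ n : ℕ, n ∣ q → ∀ l : ℕ, l.Prime → l ∣ 2 * n → l ≤ y := by
    intro n hn l hl hln
    rcases hl.dvd_mul.1 hln with h | h
    · exact (Nat.le_of_dvd (by norm_num) h).trans hy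
    · exact hsm n hn l hl h
  have hq'q : q' ∣ q := ⟨p, by rw [hq', mul_comm]⟩
  have hd1 : ∀ n, 0 < n → n ∈ A → n ∣ N₁ → n ∈ q.divisors := fun n hn hA hd =>
    Nat.mem_divisors.2 ⟨(hC.zero1 N₁ h1.1 n hn (pz_smooth h1 b1 n hn hA hd)).1 hd, hq.ne'⟩
  have hd0' : ∀ n, 0 < n → n ∈ A → n ∣ N₀ → n ∣ q' := fun n hn hA hd => by
    rw [← hdiv]
    exact (hC.zero0 N₀ h2.1 n hn (pz_smooth h2 b0 n hn hA hd)).1 hd
  have hd0 : ∀ n, 0 < n → n ∈ A → n ∣ N₀ → n ∈ q.divisors := fun n hn hA hd =>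
    Nat.mem_divisors.2 ⟨(hd0' n hn hA hd).trans hq'q, hq.ne'⟩
  have hpos : ∀ n ∈ q.divisors, 1 ≤ n := fun n hn => Nat.pos_of_mem_divisors hn
  have e1 := pz_a_eq A N₁ q.divisors hpos hd1
  have e0 := pz_a_eq A N₀ q.divisors hpos hd0
  have hmod : N₁ ≡ N₀ [MOD 4] :=
    ((h1.1.of_dvd hC.four).trans hC.c4).trans (h2.1.of_dvd hC.four).symm
  have hqN1 : q ∣ N₁ := (hC.zero1 N₁ h1.1 q hq (hsm q dvd_rfl)).2 dvd_rfl
  have h2q : ¬ 2 * q ∣ N₁ := by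
    intro h
    have h3 := (hC.zero1 N₁ h1.1 (2 * q) (by omega) (hsm2 q dvd_rfl)).1 h
    have h4 := Nat.le_of_dvd hq h3
    omega
  have hqN0 : ¬ q ∣ N₀ := by
    intro h
    have h3 := hd0' q hq hC.mem h
    have h4 := Nat.le_of_dvd hq'0 h3
    have h5 : 2 ≤ p := hp.two_le
    have h6 : 2 * q' ≤ q := by
      rw [hq']
      exact Nat.mul_le_mul_right _ h5
    omega
  have hcq0 : Fib.c q N₀ = 0 := by
    by_contra h
    exact hqN0 ((Fib.c_ne_zero_iff q N₀).1 h).1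
  have hcq1 : |Fib.c q N₁| = 1 := by
    have h3 : Fib.c q N₁ ≠ 0 := (Fib.c_ne_zero_iff q N₁).2 ⟨hqN1, (pz_odd hq hqN1).2 h2q⟩
    have h4 := Fib.abs_c_le q N₁
    have h5 := Int.one_le_abs h3
    omega
  have hsame : ∀ n ∈ q.divisors, n ≠ q → n ∈ A → Fib.c n N₁ = Fib.c n N₀ := by
    intro n hn hnq hA
    have hnd : n ∣ q := Nat.dvd_of_mem_divisors hn
    have hn0 : 0 < n := hpos n hn
    have hnq' : n ∣ q' := by
      by_contra h
      exact hnq (hC.uniq n hA hnd (by rwa [hdiv]))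
    have hN1' : n ∣ N₁ := (hC.zero1 N₁ h1.1 n hn0 (hsm n hnd)).2 hnd
    have hN0' : n ∣ N₀ := (hC.zero0 N₀ h2.1 n hn0 (hsm n hnd)).2 (by rwa [hdiv])
    have h2n : (2 * n ∣ N₁ ↔ 2 * n ∣ N₀) := by
      rw [hC.zero1 N₁ h1.1 (2 * n) (by omega) (hsm2 n hnd),
        hC.zero0 N₀ h2.1 (2 * n) (by omega) (hsm2 n hnd), hdiv]
      constructor
      · intro h
        obtain ⟨t, ht⟩ := hnq'
        rw [hq', ht, show p * (n * t) = n * (p * t) by ring, mul_comm 2 n,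
          Nat.mul_dvd_mul_iff_left hn0] at h
        rcases Nat.prime_two.dvd_mul.1 h with h' | h'
        · exact absurd h' hpodd
        · rw [ht, mul_comm 2 n]
          exact Nat.mul_dvd_mul_left n h'
      · intro h
        exact h.trans hq'q
    have hodd : (Odd (N₁ / n) ↔ Odd (N₀ / n)) := by
      rw [pz_odd hn0 hN1', pz_odd hn0 hN0', h2n]
    unfold Fib.c
    by_cases ho : Odd (N₁ / n)
    · rw [if_pos ⟨hN1', ho⟩, if_pos ⟨hN0', hodd.1 ho⟩, neg_one_pow_eq_pow_mod_two,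
        neg_one_pow_eq_pow_mod_two (n := (N₀ - n) / 2)]
      congr 1
      have h3 := Nat.le_of_dvd hN1 hN1'
      have h4 := Nat.le_of_dvd hN0 hN0'
      have h5 : N₁ % 4 = N₀ % 4 := hmod
      omega
    · rw [if_neg (fun h => ho h.2), if_neg (fun h => ho (hodd.2 h.2))]
  have hdiff : Fib.a A N₁ - Fib.a A N₀ = Fib.c q N₁ := by
    rw [e1, e0, ← sum_sub_distrib]
    rw [sum_eq_single q]
    · rw [if_pos hC.mem, if_pos hC.mem, hcq0, sub_zero]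
    · intro n hn hnq
      split_ifs with hA
      · rw [hsame n hn hnq hA, sub_self]
      · rw [sub_self]
    · intro h
      exact absurd (Nat.mem_divisors.2 ⟨dvd_rfl, hq.ne'⟩) h
  have hbd : ∀ N : ℕ, |∑ n ∈ q.divisors, (if n ∈ A then Fib.c n N else 0)| ≤ (q : ℤ) := by
    intro N
    calc |∑ n ∈ q.divisors, (if n ∈ A then Fib.c n N else 0)|
        ≤ ∑ n ∈ q.divisors, |if n ∈ A then Fib.c n N else 0| := abs_sum_le_sum_abs _ _
      _ ≤ ∑ _n ∈ q.divisors, (1 : ℤ) := by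
          apply sum_le_sum
          intro n _
          split_ifs
          · exact Fib.abs_c_le n N
          · simp
      _ = (q.divisors.card : ℤ) := by simp
      _ ≤ (q : ℤ) := by exact_mod_cast Nat.card_divisors_le_self q
  refine ⟨?_, ?_, ?_⟩
  · rw [hdiff, hcq1]
  · rw [e1]
    exact hbd N₁
  · rw [e0]
    exact hbd N₀

end Pool.Agent.Helper9.RS
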