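import Pool.Agent.Helper9.RS.NuDiff

/-!
PROJECT RS, module RS-23. Sum over the types.

`S = PP y z ×ˢ IH H`, `|IH H| = 2H`: `∑_{θ ⊆ S} 1/TT θ = ∏_{(l,i) ∈ S} (1 + 1/l) ≤ exp (∑ 1/l) ≤ exp (2H (s+6))` (`Finset.prod_one_add` / `Finset.prod_add`, `recip'`); `#{θ : TT θ ≤ X} ≤ X ∑ 1/TT θ`. Then `nu_diff` for every `θ`.
-/

set_option autoImplicit false

namespace Pool.Agent.Helper9.RS

open Finset

theorem TypeSum_card_IH (H : ℕ) : (IH H).card = 2 * H := by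
  unfold IH
  rw [Finset.card_erase_of_mem (by simp), Int.card_Icc]
  omega

theorem TypeSum_inv (S : Finset (ℕ × ℤ)) :
    ∑ θ ∈ S.powerset, 1 / (TT θ : ℝ) = ∏ x ∈ S, (1 + 1 / (x.1 : ℝ)) := by
  rw [Finset.prod_one_add]
  refine Finset.sum_congr rfl fun θ _ => ?_
  unfold TT
  push_cast
  rw [one_div, ← Finset.prod_inv_distrib]
  refine Finset.prod_congr rfl fun x _ => ?_
  rw [one_div]

theorem TypeSum_exp (y s H : ℕ) :
    ∏ x ∈ PP y (2 ^ 2 ^ s) ×ˢ IH H, (1 + 1 / (x.1 : ℝ)) ≤ Real.exp (2 * H * ((s : ℝ) + 6)) := by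
  calc ∏ x ∈ PP y (2 ^ 2 ^ s) ×ˢ IH H, (1 + 1 / (x.1 : ℝ))
      ≤ ∏ x ∈ PP y (2 ^ 2 ^ s) ×ˢ IH H, Real.exp (1 / (x.1 : ℝ)) := by
        refine Finset.prod_le_prod (fun x _ => by positivity) fun x _ => ?_
        rw [add_comm]
        exact Real.add_one_le_exp _
    _ = Real.exp (∑ x ∈ PP y (2 ^ 2 ^ s) ×ˢ IH H, 1 / (x.1 : ℝ)) := by
        rw [Real.exp_sum]
    _ ≤ Real.exp (2 * H * ((s : ℝ) + 6)) := by
        refine Real.exp_le_exp.2 ?_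
        rw [Finset.sum_product]
        simp only [Finset.sum_const, TypeSum_card_IH, nsmul_eq_mul]
        rw [← Finset.mul_sum]
        push_cast
        exact mul_le_mul_of_nonneg_left (recip' y s) (by positivity)

open Classical in
theorem nu_sum (J₀ J₁ y s H Q c₁ c₀ m X : ℕ) (hH : 2 * H + 1 ≤ y) (hQ : 0 < Q)
    (hQp : ∀ l : ℕ, l.Prime → l ∣ Q → l ≤ y) :
    ∑ θ ∈ (PP y (2 ^ 2 ^ s) ×ˢ IH H).powerset with TT θ ≤ X,
      |nu J₀ J₁ Q c₁ y (2 ^ 2 ^ s) H θ - nu J₀ J₁ Q c₀ y (2 ^ 2 ^ s) H θ| ≤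
      Real.exp (2 * H * ((s : ℝ) + 6)) *
        (2 * J₁ * eps H s m / Q + 12 * err H s m * X / 2 ^ J₀) := by
  have hQ' : (0 : ℝ) < Q := by exact_mod_cast hQ
  have heps : 0 ≤ eps H s m := by unfold eps; positivity
  have herr : 0 ≤ err H s m := by unfold err; positivity
  have hTT : ∀ θ ∈ (PP y (2 ^ 2 ^ s) ×ˢ IH H).powerset, 0 < TT θ := by
    intro θ hθ
    refine Finset.prod_pos fun x hx => ?_
    have h1 := Finset.mem_powerset.1 hθ hx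
    have h2 := (Finset.mem_product.1 h1).1
    unfold PP at h2
    exact (Finset.mem_filter.1 h2).2.pos
  have key : ∀ θ ∈ (PP y (2 ^ 2 ^ s) ×ˢ IH H).powerset.filter (fun θ => TT θ ≤ X),
      |nu J₀ J₁ Q c₁ y (2 ^ 2 ^ s) H θ - nu J₀ J₁ Q c₀ y (2 ^ 2 ^ s) H θ| ≤
      (1 / (TT θ : ℝ)) * (2 * J₁ * eps H s m / Q + 12 * err H s m * X / 2 ^ J₀) := by
    intro θ hθ
    obtain ⟨h1, h2⟩ := Finset.mem_filter.1 hθ
    have h3 := nu_diff J₀ J₁ y s H Q c₁ c₀ m hH hQ hQp θ (Finset.mem_powerset.1 h1)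
    have hT : (0 : ℝ) < TT θ := by exact_mod_cast hTT θ h1
    have hX : (TT θ : ℝ) ≤ X := by exact_mod_cast h2
    refine h3.trans ?_
    have e1 : (1 / (TT θ : ℝ)) * (2 * J₁ * eps H s m / Q + 12 * err H s m * X / 2 ^ J₀) =
        2 * J₁ * eps H s m / ((Q : ℝ) * TT θ) +
          (12 * err H s m / 2 ^ J₀) * ((X : ℝ) / TT θ) := by
      field_simp
    rw [e1]
    have h4 : 1 ≤ (X : ℝ) / TT θ := by rwa [le_div_iff₀ hT, one_mul]
    have h5 : 0 ≤ 12 * err H s m / 2 ^ J₀ := by positivity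
    nlinarith [mul_le_mul_of_nonneg_left h4 h5]
  refine (Finset.sum_le_sum key).trans ?_
  rw [← Finset.sum_mul]
  refine mul_le_mul_of_nonneg_right ?_ (by positivity)
  refine le_trans ?_ (TypeSum_exp y s H)
  rw [← TypeSum_inv]
  refine Finset.sum_le_sum_of_subset_of_nonneg (Finset.filter_subset _ _) fun θ _ _ => by positivity

end Pool.Agent.Helper9.RS
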