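import Pool.Agent.Helper9.RS.BadOne
import Pool.Agent.Helper9.RS.BadTwo
import Pool.Agent.Helper9.RS.BadThree
import Pool.Agent.Helper9.RS.BadFour
import Pool.Agent.Helper9.RS.TypeSum
import Pool.Agent.Helper9.RS.Meet
import Pool.Agent.Helper9.RS.Agree
import Pool.Agent.Helper9.RS.PlaceZero

/-!
PROJECT RS, module RS-37. The two places.

`z = 2^(2^s)`, `m0 = mu0 ≥ 1` (`mu0_ge`). For `b = 0, 1` let `E_b N` be the disjunction of: `B1 A z H N`; `∃ x ∈ theta N, x.1^2 ∣ N + x.2`; `z^K < TT (theta N)`; `2 δ < tl A x H N`. `mu (Thin ∧ E_b) ≤` the sum of the four (`mu_mono`, `mu_or`) `≤ m0/10`: `bad_one` with `hη`, `hN.n1` (`≤ m0/40`: `tau ≤ tau m0`, `hb ≥ 0`); `bad_two` with `n2`; `bad_three` with `n3`; `bad_four` with `hg`, `n4`.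
(`hG` of `bad_one`, `bad_four` from `hC.gcd1`, `hC.gcd0` and `H ≤ R`.) `nu_sum` with `X = z^K`: `exp · 2 J₁ eps/Q ≤ m0/20` by `n5` (`m0 = J₁ V/(4Q) ≥ J₁/(4000 2^s Q)`, `VV_lower`) and `exp · 12 err X/2^J₀ ≤ 1/20 ≤ m0/20` by `n6`. `meet` (with `mu_thin`) gives `N₁`, `N₀`; `agree`, `place_zero`. `H ≤ 4 J₁ < 2^J₀ ≤ N_b`. `x^N_b ≤ x^(4 J₁) ≤ 2^(-J₁) ≤ δ` (`x^2 ≤ 1/2`, `hδJ`).
-/

set_option autoImplicit false

namespace Pool.Agent.Helper9.RS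

open Finset

/-- The bad event. -/
private def Ev (A : Set ℕ) (y z H K : ℕ) (δ : ℝ) (N : ℕ) : Prop :=
  B1 A z H N ∨ (∃ x ∈ theta y z H N, (x.1 : ℤ) ^ 2 ∣ (N : ℤ) + x.2) ∨
    z ^ K < TT (theta y z H N) ∨ 2 * δ < tl A Fib.x H N

private lemma x_sq : Fib.x ^ 2 = 1 - Fib.x := by
  have h1 : Fib.x = -Real.goldenConj := Fib.x_eq
  have h2 := Real.goldenConj_sq
  rw [h1]
  linear_combination h2

private lemma x_sq_le : Fib.x ^ 2 ≤ 1 / 2 := by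
  have h1 := x_sq
  have h2 := Fib.x_pos
  have h3 := Fib.x_lt_one
  by_contra hcon
  push Not at hcon
  have h4 : Fib.x < 1 / 2 := by linarith
  nlinarith

private lemma mu0_one {y s Q lq J₀ J₁ : ℕ} (hS : SP y s Q lq J₀ J₁) : 1 ≤ mu0 y s Q J₁ := by
  have h1 := mu0_ge hS
  have h2 : (2 : ℝ) ≤ y := by exact_mod_cast hS.hy
  have h3 : (1 : ℝ) ≤ ((s : ℝ) + 6) ^ 2 := by
    have : (0 : ℝ) ≤ s := Nat.cast_nonneg s
    nlinarith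
  nlinarith

private lemma SS_nonneg (A : Set ℕ) (X Y : ℕ) : 0 ≤ SS A X Y := by
  unfold SS
  exact Finset.sum_nonneg fun n _ => by positivity

private lemma tau_nonneg (J w : ℕ) : 0 ≤ tau J w := by
  unfold tau
  positivity

private lemma bad_le {A : Set ℕ} {H y Q G R s lq J₀ J₁ w K m : ℕ} {hb η g δ : ℝ} (c : ℕ)
    (hS : SP y s Q lq J₀ J₁) (hN : Num H y s Q J₀ J₁ w G R K m hb η g δ)
    (hG : ∀ g : ℕ, g ∣ Q → ∀ i : ℤ, |i| ≤ R → (g : ℤ) ∣ (c : ℤ) + i → g ≤ G)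
    (hhb : ∀ n : ℕ, 0 < n → n.primeFactors.card ≤ w → hh y (2 ^ 2 ^ s) n ≤ hb)
    (hη : SS A (2 ^ 2 ^ s) (2 ^ (J₁ + 1)) ≤ η) (hg : SS A 0 (2 ^ (J₁ + 1)) ≤ g) :
    mu J₀ J₁ (fun N => Thin Q c y (2 ^ 2 ^ s) N ∧ Ev A y (2 ^ 2 ^ s) H K δ N) ≤
      mu0 y s Q J₁ / 10 := by
  have hm1 := mu0_one hS
  have hH : H < 2 ^ J₀ := by
    have h1 := hN.hHR
    have h2 := hN.hRJ
    have h3 := hN.hJ
    omega
  have hhb1 : 1 ≤ hb := by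
    refine (one_le_hh y (2 ^ 2 ^ s) 1).trans (hhb 1 one_pos ?_)
    simp
  have hHR : (H : ℤ) ≤ R := by exact_mod_cast hN.hHR
  have b1 := bad_one hS A c H w G hb hH
    (fun g hg' i hi hd => hG g hg' i (hi.trans hHR) hd) hhb
  have b2 := bad_two hS c H hH
  have b3 := bad_three hS c H K hH hN.hK
  have b4 := bad_four hS A c H R w G hb δ hN.hδ hN.hδJ hN.hJ hN.hHR hN.hRJ hG hhb
  have hy0 : (0 : ℝ) < y := by
    have : (2 : ℝ) ≤ y := by exact_mod_cast hS.hy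
    linarith
  have hK0 : (0 : ℝ) < K := by exact_mod_cast hN.hK
  have ht := tau_nonneg J₁ w
  obtain ⟨M, hM⟩ : ∃ M, M = mu0 y s Q J₁ := ⟨_, rfl⟩
  rw [← hM] at b1 b2 b3 b4 hm1
  have hM0 : 0 ≤ M := by linarith
  have hGp : (0 : ℝ) ≤ G := Nat.cast_nonneg G
  have hQp : (0 : ℝ) ≤ Q := Nat.cast_nonneg Q
  have hHp : (0 : ℝ) ≤ H := Nat.cast_nonneg H
  -- part 1
  have c1 : mu J₀ J₁ (fun N => Thin Q c y (2 ^ 2 ^ s) N ∧ B1 A (2 ^ 2 ^ s) H N) ≤ M / 40 := by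
    refine b1.trans ?_
    have e1 : 13 * M * hb * G * SS A (2 ^ 2 ^ s) (2 ^ (J₁ + 1)) + tau J₁ w ≤
        M * (13 * hb * G * η + tau J₁ w) := by
      have f1 : 13 * M * hb * G * SS A (2 ^ 2 ^ s) (2 ^ (J₁ + 1)) ≤ 13 * M * hb * G * η :=
        mul_le_mul_of_nonneg_left hη (by positivity)
      have f2 : tau J₁ w ≤ M * tau J₁ w := le_mul_of_one_le_left ht hm1
      linarith
    have e2 := hN.n1
    calc (2 * (H : ℝ) + 1) * (13 * M * hb * G * SS A (2 ^ 2 ^ s) (2 ^ (J₁ + 1)) + tau J₁ w)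
        ≤ (2 * (H : ℝ) + 1) * (M * (13 * hb * G * η + tau J₁ w)) :=
          mul_le_mul_of_nonneg_left e1 (by positivity)
      _ = M * (40 * (2 * (H : ℝ) + 1) * (13 * hb * G * η + tau J₁ w)) / 40 := by ring
      _ ≤ M * 1 / 40 := by
          refine div_le_div_of_nonneg_right ?_ (by norm_num)
          exact mul_le_mul_of_nonneg_left e2 hM0
      _ = M / 40 := by ring
  -- part 2
  have c2 : mu J₀ J₁ (fun N => Thin Q c y (2 ^ 2 ^ s) N ∧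
      ∃ x ∈ theta y (2 ^ 2 ^ s) H N, (x.1 : ℤ) ^ 2 ∣ (N : ℤ) + x.2) ≤ M / 40 := by
    refine b2.trans ?_
    have e1 : (2080 : ℝ) * H ≤ y := by exact_mod_cast hN.n2
    rw [div_le_div_iff₀ hy0 (by norm_num)]
    nlinarith
  -- part 3
  have c3 : mu J₀ J₁ (fun N => Thin Q c y (2 ^ 2 ^ s) N ∧
      (2 ^ 2 ^ s) ^ K < TT (theta y (2 ^ 2 ^ s) H N)) ≤ M / 40 := by
    refine b3.trans ?_
    have e1 : (4160 : ℝ) * H ≤ K := by exact_mod_cast hN.n3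
    rw [div_le_div_iff₀ hK0 (by norm_num)]
    nlinarith
  -- part 4
  have c4 : mu J₀ J₁ (fun N => Thin Q c y (2 ^ 2 ^ s) N ∧ 2 * δ < tl A Fib.x H N) ≤ M / 40 := by
    refine b4.trans ?_
    have hx := Fib.x_pos
    have g0 : 0 ≤ SS A 0 (2 ^ (J₁ + 1)) := SS_nonneg _ _ _
    have e1 : ∀ B : ℝ, 0 ≤ B → 13 * M * hb * B * SS A 0 (2 ^ (J₁ + 1)) + tau J₁ w ≤
        M * (13 * hb * B * g + tau J₁ w) := by
      intro B hB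
      have f1 : 13 * M * hb * B * SS A 0 (2 ^ (J₁ + 1)) ≤ 13 * M * hb * B * g :=
        mul_le_mul_of_nonneg_left hg (by positivity)
      have f2 : tau J₁ w ≤ M * tau J₁ w := le_mul_of_one_le_left ht hm1
      linarith
    have e2 := e1 G hGp
    have e3 := e1 Q hQp
    have e4 : 4 * Fib.x ^ H * (13 * M * hb * G * SS A 0 (2 ^ (J₁ + 1)) + tau J₁ w) ≤
        4 * Fib.x ^ H * (M * (13 * hb * G * g + tau J₁ w)) :=
      mul_le_mul_of_nonneg_left e2 (by positivity)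
    have e5 : 4 * Fib.x ^ R * (13 * M * hb * Q * SS A 0 (2 ^ (J₁ + 1)) + tau J₁ w) ≤
        4 * Fib.x ^ R * (M * (13 * hb * Q * g + tau J₁ w)) :=
      mul_le_mul_of_nonneg_left e3 (by positivity)
    have e6 := hN.n4
    have e7 : M * (160 * (Fib.x ^ H * (13 * hb * G * g + tau J₁ w) +
        Fib.x ^ R * (13 * hb * Q * g + tau J₁ w))) ≤ M * δ :=
      mul_le_mul_of_nonneg_left e6 hM0
    rw [div_le_iff₀ hN.hδ]
    nlinarith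
  have s1 : mu J₀ J₁ (fun N => Thin Q c y (2 ^ 2 ^ s) N ∧ Ev A y (2 ^ 2 ^ s) H K δ N) ≤
      mu J₀ J₁ (fun N => (Thin Q c y (2 ^ 2 ^ s) N ∧ B1 A (2 ^ 2 ^ s) H N) ∨
        ((Thin Q c y (2 ^ 2 ^ s) N ∧
          ∃ x ∈ theta y (2 ^ 2 ^ s) H N, (x.1 : ℤ) ^ 2 ∣ (N : ℤ) + x.2) ∨
        ((Thin Q c y (2 ^ 2 ^ s) N ∧ (2 ^ 2 ^ s) ^ K < TT (theta y (2 ^ 2 ^ s) H N)) ∨
          (Thin Q c y (2 ^ 2 ^ s) N ∧ 2 * δ < tl A Fib.x H N)))) := by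
    refine mu_mono _ _ _ _ fun N _ _ hE => ?_
    obtain ⟨hT, h | h | h | h⟩ := hE
    · exact Or.inl ⟨hT, h⟩
    · exact Or.inr (Or.inl ⟨hT, h⟩)
    · exact Or.inr (Or.inr (Or.inl ⟨hT, h⟩))
    · exact Or.inr (Or.inr (Or.inr ⟨hT, h⟩))
  have s2 := mu_or J₀ J₁ (fun N => Thin Q c y (2 ^ 2 ^ s) N ∧ B1 A (2 ^ 2 ^ s) H N)
    (fun N => (Thin Q c y (2 ^ 2 ^ s) N ∧
          ∃ x ∈ theta y (2 ^ 2 ^ s) H N, (x.1 : ℤ) ^ 2 ∣ (N : ℤ) + x.2) ∨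
        ((Thin Q c y (2 ^ 2 ^ s) N ∧ (2 ^ 2 ^ s) ^ K < TT (theta y (2 ^ 2 ^ s) H N)) ∨
          (Thin Q c y (2 ^ 2 ^ s) N ∧ 2 * δ < tl A Fib.x H N)))
  have s3 := mu_or J₀ J₁ (fun N => Thin Q c y (2 ^ 2 ^ s) N ∧
          ∃ x ∈ theta y (2 ^ 2 ^ s) H N, (x.1 : ℤ) ^ 2 ∣ (N : ℤ) + x.2)
    (fun N => (Thin Q c y (2 ^ 2 ^ s) N ∧ (2 ^ 2 ^ s) ^ K < TT (theta y (2 ^ 2 ^ s) H N)) ∨
          (Thin Q c y (2 ^ 2 ^ s) N ∧ 2 * δ < tl A Fib.x H N))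
  have s4 := mu_or J₀ J₁
    (fun N => Thin Q c y (2 ^ 2 ^ s) N ∧ (2 ^ 2 ^ s) ^ K < TT (theta y (2 ^ 2 ^ s) H N))
    (fun N => Thin Q c y (2 ^ 2 ^ s) N ∧ 2 * δ < tl A Fib.x H N)
  rw [← hM]
  linarith

theorem core {A : Set ℕ} {q p H y Q c₁ c₀ G R s lq J₀ J₁ w K m : ℕ} {hb η g δ : ℝ}
    (hC : Cls A q p H y Q c₁ c₀ G R) (hS : SP y s Q lq J₀ J₁)
    (hN : Num H y s Q J₀ J₁ w G R K m hb η g δ) (h0 : 0 ∉ A) (hyz : y ≤ 2 ^ 2 ^ s)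
    (hhb : ∀ n : ℕ, 0 < n → n.primeFactors.card ≤ w → hh y (2 ^ 2 ^ s) n ≤ hb)
    (hη : SS A (2 ^ 2 ^ s) (2 ^ (J₁ + 1)) ≤ η) (hg : SS A 0 (2 ^ (J₁ + 1)) ≤ g) :
    ∃ N₁ N₀ : ℕ, H < N₁ ∧ H < N₀ ∧
      (∀ i ∈ IH H, Fib.a A ((N₁ : ℤ) + i).toNat = Fib.a A ((N₀ : ℤ) + i).toNat) ∧
      |Fib.a A N₁ - Fib.a A N₀| = 1 ∧ |Fib.a A N₁| ≤ q ∧ |Fib.a A N₀| ≤ q ∧
      tl A Fib.x H N₁ ≤ 2 * δ ∧ tl A Fib.x H N₀ ≤ 2 * δ ∧ Fib.x ^ N₁ ≤ δ ∧ Fib.x ^ N₀ ≤ δ := by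
  classical
  have hm1 := mu0_one hS
  have hb1 := bad_le (A := A) c₁ hS hN hC.gcd1 hhb hη hg
  have hb0 := bad_le (A := A) c₀ hS hN hC.gcd0 hhb hη hg
  have hthin := mu_thin hS c₁
  have hQ0 : (0 : ℝ) < Q := by exact_mod_cast hS.hQ0
  have hJ1 : (0 : ℝ) ≤ J₁ := Nat.cast_nonneg _
  have hE0 : 0 < Real.exp (2 * H * ((s : ℝ) + 6)) := Real.exp_pos _
  have herr : 0 ≤ err H s m := by
    unfold err
    positivity
  have hepsn : 0 ≤ eps H s m := by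
    unfold eps
    positivity
  have hsum := nu_sum J₀ J₁ y s H Q c₁ c₀ m ((2 ^ 2 ^ s) ^ K) hN.hyH hS.hQ0 hS.hQp
  have hsum2 : Real.exp (2 * H * ((s : ℝ) + 6)) *
        (2 * J₁ * eps H s m / Q + 12 * err H s m * (((2 ^ 2 ^ s) ^ K : ℕ) : ℝ) / 2 ^ J₀) ≤
      mu0 y s Q J₁ / 10 := by
    have e1 : Real.exp (2 * H * ((s : ℝ) + 6)) * (2 * J₁ * eps H s m / Q) ≤ mu0 y s Q J₁ / 20 := by
      have f1 : (J₁ : ℝ) * (1 / (1000 * 2 ^ s)) / (4 * Q) ≤ mu0 y s Q J₁ := by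
        unfold mu0
        refine div_le_div_of_nonneg_right ?_ (by positivity)
        exact mul_le_mul_of_nonneg_left (VV_lower y s (by have := hS.hy; omega)) hJ1
      have f2 := hN.n5
      have f3 : Real.exp (2 * H * ((s : ℝ) + 6)) * eps H s m ≤ 1 / (160000 * 2 ^ s) := by
        rw [le_div_iff₀ (by positivity)]
        linarith
      have f4 : Real.exp (2 * H * ((s : ℝ) + 6)) * (2 * J₁ * eps H s m / Q) =
          (2 * J₁ / Q) * (Real.exp (2 * H * ((s : ℝ) + 6)) * eps H s m) := by ring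
      rw [f4]
      calc (2 * (J₁ : ℝ) / Q) * (Real.exp (2 * H * ((s : ℝ) + 6)) * eps H s m)
          ≤ (2 * (J₁ : ℝ) / Q) * (1 / (160000 * 2 ^ s)) :=
            mul_le_mul_of_nonneg_left f3 (by positivity)
        _ = ((J₁ : ℝ) * (1 / (1000 * 2 ^ s)) / (4 * Q)) / 20 := by
            field_simp
            ring
        _ ≤ _ := div_le_div_of_nonneg_right f1 (by norm_num)
    have e2 : Real.exp (2 * H * ((s : ℝ) + 6)) *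
        (12 * err H s m * (((2 ^ 2 ^ s) ^ K : ℕ) : ℝ) / 2 ^ J₀) ≤ mu0 y s Q J₁ / 20 := by
      have f2 := hN.n6
      have f5 : (0 : ℝ) < 2 ^ J₀ := by positivity
      have f3 : Real.exp (2 * H * ((s : ℝ) + 6)) *
          (12 * err H s m * (((2 ^ 2 ^ s) ^ K : ℕ) : ℝ) / 2 ^ J₀) ≤ 1 / 20 := by
        push_cast
        rw [mul_div_assoc', div_le_iff₀ f5]
        linarith
      linarith
    rw [mul_add]
    linarith
  obtain ⟨N₁, N₀, ⟨a1, a2, a3, a4⟩, ⟨d1, d2, d3, d4⟩, hth⟩ :=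
    meet J₀ J₁ Q c₁ c₀ y (2 ^ 2 ^ s) H ((2 ^ 2 ^ s) ^ K) (mu0 y s Q J₁) (by linarith)
      (Ev A y (2 ^ 2 ^ s) H K δ) (Ev A y (2 ^ 2 ^ s) H K δ) hthin hb1 hb0 (by
        intro N _ _ _ hE
        unfold Ev at hE
        push Not at hE
        exact ⟨hE.2.2.1, fun x hx => hE.2.1 x hx⟩) (hsum.trans hsum2)
  unfold Ev at a4 d4
  push Not at a4 d4
  obtain ⟨a5, a6, a7, a8⟩ := a4
  obtain ⟨d5, d6, d7, d8⟩ := d4
  have hH1 : H < N₁ := by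
    have h1 := hN.hHR
    have h2 := hN.hRJ
    have h3 := hN.hJ
    omega
  have hH0 : H < N₀ := by
    have h1 := hN.hHR
    have h2 := hN.hRJ
    have h3 := hN.hJ
    omega
  have hz : 2 ≤ 2 ^ 2 ^ s := by
    calc 2 = 2 ^ 1 := by norm_num
      _ ≤ 2 ^ 2 ^ s := Nat.pow_le_pow_right (by norm_num) Nat.one_le_two_pow
  have hp0 := place_zero hC (2 ^ 2 ^ s) hS.hy hyz h0 N₁ N₀ a3 d3 (by omega) (by omega) a5 d5
  have hx0 := Fib.x_pos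
  have hx1 := Fib.x_lt_one
  have hxN : ∀ N : ℕ, 2 ^ J₀ ≤ N → Fib.x ^ N ≤ δ := by
    intro N hNN
    have h3 := hN.hJ
    have e1 : Fib.x ^ N ≤ Fib.x ^ (2 * J₁) :=
      pow_le_pow_of_le_one hx0.le hx1.le (by omega)
    have e2 : Fib.x ^ (2 * J₁) ≤ (1 / 2) ^ J₁ := by
      rw [pow_mul]
      exact pow_le_pow_left₀ (by positivity) x_sq_le _
    have e3 : ((1 : ℝ) / 2) ^ J₁ ≤ 100 / 2 ^ J₁ := by
      rw [div_pow, one_pow]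
      exact div_le_div_of_nonneg_right (by norm_num) (by positivity)
    exact e1.trans (e2.trans (e3.trans hN.hδJ))
  refine ⟨N₁, N₀, hH1, hH0, fun i hi => ?_, hp0.1, hp0.2.1, hp0.2.2, a8, d8, hxN N₁ a1, hxN N₀ d1⟩
  exact agree hC (2 ^ 2 ^ s) hz hyz h0 N₁ N₀ a3 d3 hH1 hH0 hth a6 d6 a5 d5 i hi

end Pool.Agent.Helper9.RS
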