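import Pool.Agent.Helper9.Fib.Series

/-!
PROJECT RS (MP_175197_nt): `∑ 1 / F_{n_k}` is irrational as soon as `∑_{n_k ≤ x} 1 / n_k ≤ C (log log x)^(1 - ε)`.
Definitions. DONE.
-/

set_option autoImplicit false

namespace Pool.Agent.Helper9.RS

open Finset

/-- The primes in `(y, z]`. -/
def PP (y z : ℕ) : Finset ℕ := (Ioc y z).filter Nat.Prime

/-- The density of the integers without prime factors in `(y, z]`. -/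
noncomputable def VV (y z : ℕ) : ℝ := ∏ l ∈ PP y z, (1 - 1 / (l : ℝ))

/-- The part of `n / φ(n)` coming from the primes in `(y, z]`. -/
noncomputable def hh (y z n : ℕ) : ℝ := ∏ l ∈ PP y z with l ∣ n, (1 - 1 / (l : ℝ))⁻¹

/-- `N` lies in the residue class of `c` modulo `Q` and has no prime factor in `(y, z]`. -/
def Thin (Q c y z N : ℕ) : Prop := N ≡ c [MOD Q] ∧ ∀ l ∈ PP y z, ¬ l ∣ N

open Classical in
/-- Logarithmic measure of the set of the `N` with `2 ^ J₀ ≤ N < 2 ^ J₁` and `E N`. -/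
noncomputable def mu (J₀ J₁ : ℕ) (E : ℕ → Prop) : ℝ :=
  ∑ j ∈ Ico J₀ J₁, ((((Ico (2 ^ j) (2 ^ (j + 1))).filter (fun N => E N)).card : ℕ) : ℝ) / 2 ^ j

/-- The `i` with `0 < |i| ≤ H`. -/
noncomputable def IH (H : ℕ) : Finset ℤ := (Icc (-(H : ℤ)) H).erase 0

/-- The type of `N`: the pairs `(l, i)`, `l` a prime in `(y, z]`, `0 < |i| ≤ H`, `l ∣ N + i`. -/
noncomputable def theta (y z H N : ℕ) : Finset (ℕ × ℤ) :=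
  ((PP y z) ×ˢ (IH H)).filter (fun x => (x.1 : ℤ) ∣ (N : ℤ) + x.2)

/-- The product of the primes of a type. -/
def TT (θ : Finset (ℕ × ℤ)) : ℕ := ∏ x ∈ θ, x.1

/-- The measure of the thin set of type `θ` (without squares). -/
noncomputable def nu (J₀ J₁ Q c y z H : ℕ) (θ : Finset (ℕ × ℤ)) : ℝ :=
  mu J₀ J₁ (fun N => Thin Q c y z N ∧ theta y z H N = θ ∧ ∀ x ∈ θ, ¬ ((x.1 : ℤ) ^ 2 ∣ (N : ℤ) + x.2))

/-- Conditions on the parameters of the sieve. -/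
structure SP (y s Q lq J₀ J₁ : ℕ) : Prop where
  hy : 2 ≤ y
  hs : 5 ≤ s
  hQ0 : 0 < Q
  hQ : Q ≤ 2 ^ lq
  hQp : ∀ l : ℕ, l.Prime → l ∣ Q → l ≤ y
  hJ0 : 2 ^ s * (16 * (s + 6) + 20) + lq ≤ J₀
  hJ1 : 2 * J₀ ≤ J₁
  hlq : 2 ^ s * (16 * (s + 6) + 20) + lq ≤ 64 * (s + 6) * 2 ^ s
  hmu : 4000000 * y * (s + 6) ^ 2 * 2 ^ s * Q ≤ J₁

/-- The normalising constant. -/
noncomputable def mu0 (y s Q J₁ : ℕ) : ℝ := J₁ * VV y (2 ^ 2 ^ s) / (4 * Q)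

open Classical in
/-- The number of elements of `A` dividing `m`. -/
noncomputable def ff (A : Set ℕ) (m : ℕ) : ℕ := (m.divisors.filter (fun n => n ∈ A)).card

open Classical in
/-- The sum of `1 / n` over the `n ∈ A` with `X < n ≤ Y`. -/
noncomputable def SS (A : Set ℕ) (X Y : ℕ) : ℝ := ∑ n ∈ Ioc X Y with n ∈ A, 1 / (n : ℝ)

/-- The tail of the weighted sum of the `ff A` around `N`. -/
noncomputable def tl (A : Set ℕ) (x : ℝ) (H N : ℕ) : ℝ :=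
  (∑' h : ℕ, (ff A (N + (H + 1 + h)) : ℝ) * x ^ (H + 1 + h)) +
    ∑ j ∈ Ico (H + 1) N, (ff A (N - j) : ℝ) * x ^ j

/-- The `i` with `H < |i| ≤ T`. -/
noncomputable def IT (H T : ℕ) : Finset ℤ := (Icc (-(T : ℤ)) T).filter (fun i => (H : ℤ) < |i|)

open Classical in
/-- The elements of `A` in `[1, X]`. -/
noncomputable def AX (A : Set ℕ) (X : ℕ) : Finset ℕ := (Ioc 0 X).filter (fun n => n ∈ A)

/-- A large element of `A` divides a number near `N`. -/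
def B1 (A : Set ℕ) (z H N : ℕ) : Prop := ∃ i : ℤ, |i| ≤ H ∧ ∃ n ∈ A, z < n ∧ (n : ℤ) ∣ (N : ℤ) + i

/-- An error term. -/
noncomputable def tau (J₁ w : ℕ) : ℝ := 4 * (J₁ : ℝ) * ((J₁ : ℝ) + 3) ^ 2 / 2 ^ w

/-- The main error term of the sieve for a type. -/
noncomputable def eps (H s m : ℕ) : ℝ :=
  ((2 * (H : ℝ) + 1) * ((s : ℝ) + 6)) ^ (2 * m) / ((Nat.factorial (2 * m) : ℕ) : ℝ)

/-- The second error term of the sieve for a type. -/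
noncomputable def err (H s m : ℕ) : ℝ := ((2 * (H : ℝ) + 1) * 2 ^ 2 ^ s + 1) ^ (2 * m)

/-- The properties of the two residue classes `c₁`, `c₀` modulo `Q`. -/
structure Cls (A : Set ℕ) (q p H y Q c₁ c₀ G R : ℕ) : Prop where
  mem : q ∈ A
  hp : p.Prime
  hp2 : p ≠ 2
  hpq : p ∣ q
  hq : 0 < q
  four : 4 ∣ Q
  c4 : c₁ ≡ c₀ [MOD 4]
  uniq : ∀ n ∈ A, n ∣ q → ¬ n ∣ q / p → n = q
  near : ∀ N₁ N₀ : ℕ, N₁ ≡ c₁ [MOD Q] → N₀ ≡ c₀ [MOD Q] → ∀ i ∈ IH H, ∀ l : ℕ, l.Prime → l ≤ y →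
    ∀ e : ℕ, ((l : ℤ) ^ e ∣ (N₁ : ℤ) + i ↔ (l : ℤ) ^ e ∣ (N₀ : ℤ) + i)
  zero1 : ∀ N : ℕ, N ≡ c₁ [MOD Q] → ∀ n : ℕ, 0 < n → (∀ l : ℕ, l.Prime → l ∣ n → l ≤ y) →
    (n ∣ N ↔ n ∣ q)
  zero0 : ∀ N : ℕ, N ≡ c₀ [MOD Q] → ∀ n : ℕ, 0 < n → (∀ l : ℕ, l.Prime → l ∣ n → l ≤ y) →
    (n ∣ N ↔ n ∣ q / p)
  gcd1 : ∀ g : ℕ, g ∣ Q → ∀ i : ℤ, |i| ≤ R → (g : ℤ) ∣ (c₁ : ℤ) + i → g ≤ G
  gcd0 : ∀ g : ℕ, g ∣ Q → ∀ i : ℤ, |i| ≤ R → (g : ℤ) ∣ (c₀ : ℤ) + i → g ≤ G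
  qy : q ≤ y

/-- Numerical conditions on the parameters. -/
structure Num (H y s Q J₀ J₁ w G R K m : ℕ) (hb η g δ : ℝ) : Prop where
  hyH : 2 * H + 1 ≤ y
  hHR : H ≤ R
  hRJ : R ≤ 4 * J₁
  hJ : 4 * J₁ < 2 ^ J₀
  hK : 0 < K
  hδ : 0 < δ
  hδJ : 100 / 2 ^ J₁ ≤ δ
  n1 : 40 * (2 * (H : ℝ) + 1) * (13 * hb * G * η + tau J₁ w) ≤ 1
  n2 : 2080 * H ≤ y
  n3 : 4160 * H ≤ K
  n4 : 160 * (Fib.x ^ H * (13 * hb * G * g + tau J₁ w) + Fib.x ^ R * (13 * hb * Q * g + tau J₁ w)) ≤ δ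
  n5 : 160000 * 2 ^ s * Real.exp (2 * H * ((s : ℝ) + 6)) * eps H s m ≤ 1
  n6 : 240 * Real.exp (2 * H * ((s : ℝ) + 6)) * err H s m * (2 ^ 2 ^ s) ^ K ≤ 2 ^ J₀

end Pool.Agent.Helper9.RS
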