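import Pool.Agent.Helper9.RS.Defs
import Pool.Agent.Helper9.PF.DynGen

/-!
PROJECT RS, module RS-27. Determinism: in the rational case the coefficients near a place determine the coefficient.

Copy from `Pool/Agent/Helper9/PF/DynGen.lean` (private there): `dT`, `dw`, `dT_R`, `dT_R'`, `dw_tail`, `dw_R`, `dw_R'`: `w M = (w₁, w₂) ∈ ℤ²` with `w₁ + w₂ φ = - v √5 ∑_{h ≥ 0} a(M+1+h) x^(h+1)` and `w₁ + w₂ φ' = - u φ'^M - v √5 ∑_{j < M} a(M-j) φ'^j` (`φ' = goldenConj`, `|φ'| = x`; `(u : ℝ) = v √5 ∑' a k x^k` follows from `hY` and `Fib.tsum_fib` as in `dyn_of_eq`).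
Let `(P, R) = w N₁ - w N₀`. `P + R φ = - v √5 ((∑_{1 ≤ h ≤ H} + ∑_{h > H}) (a(N₁+h) - a(N₀+h)) x^h)`: the first sum is `0`, so `|P + R φ| ≤ v √5 2 δ` (`|a m| ≤ ff A m`, first part of `tl`). `P + R φ' = - u (φ'^N₁ - φ'^N₀) - v √5 ((a(N₁) - a(N₀)) + 0 + ∑_{H < j < N_b})`, so `|P + R φ'| ≤ 2 |u| δ + v √5 (2 B + 2 δ)`.
The product `(P + R φ)(P + R φ') = P^2 + P R - R^2` is an integer of absolute value `≤ 2 v √5 δ (2 |u| + 2 v √5)(B + 1) < 1`, so it is `0`, hence `P = R = 0` (`4 (P^2 + P R - R^2) = (2P + R)^2 - 5 R^2`; `√5` is irrational, or one factor is `0` and `φ` is irrational). Then `v √5 |a(N₁) - a(N₀)| ≤ 2 |u| δ + 2 v √5 δ < v √5`, so the integer `a(N₁) - a(N₀)` is `0`.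
`K₀ = 100 (v + |u|)^2`, or so.
-/

set_option autoImplicit false

namespace Pool.Agent.Helper9.RS

open Finset

private def dT (v : ℕ) (p : ℤ × ℤ) (s : ℤ) : ℤ × ℤ := (p.2 - v * s, p.1 + p.2 + 2 * v * s)

private def dw (a : ℕ → ℤ) (u : ℤ) (v : ℕ) : ℕ → ℤ × ℤ
  | 0 => (-u, 0)
  | (M + 1) => dT v (dw a u v M) (a (M + 1))

private theorem dT_R (v : ℕ) (p : ℤ × ℤ) (s : ℤ) :
    ((dT v p s).1 : ℝ) + ((dT v p s).2 : ℝ) * Real.goldenRatio =
      Real.goldenRatio * ((p.1 : ℝ) + (p.2 : ℝ) * Real.goldenRatio) + (v * √5) * (s : ℝ) := by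
  have h1 : Real.goldenRatio ^ 2 = Real.goldenRatio + 1 := Real.goldenRatio_sq
  have h2 : √5 = 2 * Real.goldenRatio - 1 := by
    unfold Real.goldenRatio
    ring
  unfold dT
  rw [h2]
  push_cast
  linear_combination (-(p.2 : ℝ)) * h1

private theorem dT_R' (v : ℕ) (p : ℤ × ℤ) (s : ℤ) :
    ((dT v p s).1 : ℝ) + ((dT v p s).2 : ℝ) * Real.goldenConj =
      Real.goldenConj * ((p.1 : ℝ) + (p.2 : ℝ) * Real.goldenConj) - (v * √5) * (s : ℝ) := by
  have h1 : Real.goldenConj ^ 2 = Real.goldenConj + 1 := Real.goldenConj_sq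
  have h2 : √5 = 1 - 2 * Real.goldenConj := by
    unfold Real.goldenConj
    ring
  unfold dT
  rw [h2]
  push_cast
  linear_combination (-(p.2 : ℝ)) * h1

private theorem dw_tail (A : Set ℕ) (M : ℕ) :
    Summable (fun h : ℕ => (Fib.a A (M + 1 + h) : ℝ) * Real.goldenRatio⁻¹ ^ (h + 1)) := by
  have h1 := (Fib.summable_a_shift A (M + 1)).mul_right Fib.x
  refine h1.congr fun h => ?_
  unfold Fib.x
  ring

private theorem dw_R (A : Set ℕ) (u : ℤ) (v : ℕ)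
    (hu : (u : ℝ) = v * √5 * ∑' k, (Fib.a A k : ℝ) * Fib.x ^ k) (M : ℕ) :
    ((dw (Fib.a A) u v M).1 : ℝ) + ((dw (Fib.a A) u v M).2 : ℝ) * Real.goldenRatio =
      -(v * √5) * ∑' h : ℕ, (Fib.a A (M + 1 + h) : ℝ) * Real.goldenRatio⁻¹ ^ (h + 1) := by
  have hφ : Real.goldenRatio ≠ 0 := Real.goldenRatio_pos.ne'
  induction M with
  | zero =>
    have h1 : ∑' k, (Fib.a A k : ℝ) * Fib.x ^ k =
        ∑' h : ℕ, (Fib.a A (0 + 1 + h) : ℝ) * Real.goldenRatio⁻¹ ^ (h + 1) := by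
      rw [(Fib.summable_a A).tsum_eq_zero_add, Fib.a_zero, Int.cast_zero, zero_mul, zero_add]
      refine tsum_congr fun h => ?_
      rw [show 0 + 1 + h = h + 1 by ring]
      rfl
    unfold dw
    rw [← h1]
    push_cast
    rw [hu]
    ring
  | succ M ih =>
    have h1 : ∑' h : ℕ, (Fib.a A (M + 1 + h) : ℝ) * Real.goldenRatio⁻¹ ^ (h + 1) =
        (Fib.a A (M + 1) : ℝ) * Real.goldenRatio⁻¹ +
          Real.goldenRatio⁻¹ * ∑' h : ℕ, (Fib.a A (M + 1 + 1 + h) : ℝ) * Real.goldenRatio⁻¹ ^ (h + 1) := by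
      rw [(dw_tail A M).tsum_eq_zero_add, ← tsum_mul_left, add_zero, zero_add, pow_one]
      congr 1
      refine tsum_congr fun h => ?_
      rw [show M + 1 + (h + 1) = M + 1 + 1 + h by ring]
      ring
    have h2 : dw (Fib.a A) u v (M + 1) = dT v (dw (Fib.a A) u v M) (Fib.a A (M + 1)) := rfl
    rw [h2, dT_R, ih, h1]
    field_simp
    ring

private theorem dw_R' (A : Set ℕ) (u : ℤ) (v : ℕ) (M : ℕ) :
    ((dw (Fib.a A) u v M).1 : ℝ) + ((dw (Fib.a A) u v M).2 : ℝ) * Real.goldenConj =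
      -(u : ℝ) * Real.goldenConj ^ M - (v * √5) * ∑ j ∈ range M, (Fib.a A (M - j) : ℝ) * Real.goldenConj ^ j := by
  induction M with
  | zero =>
    unfold dw
    simp
  | succ M ih =>
    have h2 : dw (Fib.a A) u v (M + 1) = dT v (dw (Fib.a A) u v M) (Fib.a A (M + 1)) := rfl
    rw [h2, dT_R', ih, Finset.sum_range_succ']
    have h3 : ∑ k ∈ range M, (Fib.a A (M + 1 - (k + 1)) : ℝ) * Real.goldenConj ^ (k + 1) =
        Real.goldenConj * ∑ j ∈ range M, (Fib.a A (M - j) : ℝ) * Real.goldenConj ^ j := by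
      rw [Finset.mul_sum]
      refine Finset.sum_congr rfl fun k _ => ?_
      rw [Nat.add_sub_add_right]
      ring
    rw [h3, Nat.sub_zero]
    ring

open Classical in
private theorem det_abs_le (A : Set ℕ) (m : ℕ) : |(Fib.a A m : ℝ)| ≤ (ff A m : ℝ) := by
  have h1 : |Fib.a A m| ≤ (ff A m : ℤ) := by
    unfold Fib.a ff
    refine (Finset.abs_sum_le_sum_abs _ _).trans ?_
    have h2 : ∀ n ∈ Icc 1 m, |if n ∈ A then Fib.c n m else 0| ≤
        if (n ∣ m ∧ n ∈ A) then (1 : ℤ) else 0 := by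
      intro n hn
      by_cases hA : n ∈ A
      · rw [if_pos hA]
        by_cases hd : n ∣ m
        · rw [if_pos ⟨hd, hA⟩]
          exact Fib.abs_c_le n m
        · rw [if_neg (fun h => hd h.1)]
          have h3 : Fib.c n m = 0 := by
            by_contra h
            exact hd ((Fib.c_ne_zero_iff n m).1 h).1
          rw [h3, abs_zero]
      · rw [if_neg hA, if_neg (fun h => hA h.2), abs_zero]
    refine (Finset.sum_le_sum h2).trans ?_
    rw [← Finset.sum_filter, Finset.sum_const, nsmul_eq_mul, mul_one]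
    have h4 : (Icc 1 m).filter (fun n => n ∣ m ∧ n ∈ A) ⊆ m.divisors.filter (fun n => n ∈ A) := by
      intro n hn
      rw [Finset.mem_filter, Finset.mem_Icc] at hn
      rw [Finset.mem_filter, Nat.mem_divisors]
      exact ⟨⟨hn.2.1, by omega⟩, hn.2.2⟩
    exact_mod_cast Finset.card_le_card h4
  exact_mod_cast h1

open Classical in
private theorem det_ff_le (A : Set ℕ) (m : ℕ) : (ff A m : ℝ) ≤ m := by
  unfold ff
  exact_mod_cast (Finset.card_filter_le _ _).trans (Nat.card_divisors_le_self m)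

private theorem det_summable (A : Set ℕ) (H N : ℕ) :
    Summable (fun h : ℕ => (ff A (N + (H + 1 + h)) : ℝ) * Fib.x ^ (H + 1 + h)) := by
  have hx0 := Fib.x_pos
  have hx1 := Fib.x_lt_one
  have h1 : Summable (fun k : ℕ => (k : ℝ) * Fib.x ^ k) := by
    have h2 := summable_pow_mul_geometric_of_norm_lt_one (R := ℝ) 1 (r := Fib.x)
      (by rw [Real.norm_eq_abs, abs_of_pos hx0]; exact hx1)
    simpa using h2
  have h2 := ((summable_nat_add_iff (N + H + 1)).2 h1).mul_left ((Fib.x ^ N)⁻¹)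
  refine Summable.of_nonneg_of_le (fun h => by positivity) (fun h => ?_) h2
  have h3 : (Fib.x ^ N)⁻¹ * (((h + (N + H + 1) : ℕ) : ℝ) * Fib.x ^ (h + (N + H + 1))) =
      ((N + (H + 1 + h) : ℕ) : ℝ) * Fib.x ^ (H + 1 + h) := by
    rw [show h + (N + H + 1) = N + (H + 1 + h) by ring, pow_add]
    have : Fib.x ^ N ≠ 0 := (pow_pos hx0 N).ne'
    field_simp
  rw [h3]
  exact mul_le_mul_of_nonneg_right (det_ff_le A _) (pow_nonneg hx0.le _)

private theorem det_tail (A : Set ℕ) (H N : ℕ) :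
    |∑' h : ℕ, (Fib.a A (N + 1 + (h + H)) : ℝ) * Real.goldenRatio⁻¹ ^ ((h + H) + 1)| ≤
      ∑' h : ℕ, (ff A (N + (H + 1 + h)) : ℝ) * Fib.x ^ (H + 1 + h) := by
  have hs : Summable (fun h : ℕ => (Fib.a A (N + 1 + (h + H)) : ℝ) * Real.goldenRatio⁻¹ ^ ((h + H) + 1)) :=
    (summable_nat_add_iff H).2 (dw_tail A N)
  have h1 := norm_tsum_le_tsum_norm hs.norm
  rw [Real.norm_eq_abs] at h1
  refine h1.trans (hs.norm.tsum_le_tsum ?_ (det_summable A H N))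
  intro h
  have hx : Real.goldenRatio⁻¹ = Fib.x := rfl
  rw [Real.norm_eq_abs, abs_mul, hx, abs_of_nonneg (pow_nonneg Fib.x_pos.le _),
    show N + 1 + (h + H) = N + (H + 1 + h) by ring, show h + H + 1 = H + 1 + h by ring]
  exact mul_le_mul_of_nonneg_right (det_abs_le A _) (pow_nonneg Fib.x_pos.le _)

private theorem det_tl (A : Set ℕ) (H N : ℕ) (δ : ℝ) (h : tl A Fib.x H N ≤ δ) :
    (∑' h : ℕ, (ff A (N + (H + 1 + h)) : ℝ) * Fib.x ^ (H + 1 + h)) ≤ δ ∧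
      (∑ j ∈ Ico (H + 1) N, (ff A (N - j) : ℝ) * Fib.x ^ j) ≤ δ := by
  have hx0 := Fib.x_pos
  unfold tl at h
  have h1 : 0 ≤ ∑' h : ℕ, (ff A (N + (H + 1 + h)) : ℝ) * Fib.x ^ (H + 1 + h) :=
    tsum_nonneg fun h => by positivity
  have h2 : 0 ≤ ∑ j ∈ Ico (H + 1) N, (ff A (N - j) : ℝ) * Fib.x ^ j :=
    Finset.sum_nonneg fun j _ => by positivity
  constructor <;> linarith

private theorem det_head (A : Set ℕ) (H N₁ N₀ : ℕ)
    (hA : ∀ i ∈ IH H, Fib.a A ((N₁ : ℤ) + i).toNat = Fib.a A ((N₀ : ℤ) + i).toNat) :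
    ∑ i ∈ range H, (Fib.a A (N₁ + 1 + i) : ℝ) * Real.goldenRatio⁻¹ ^ (i + 1) =
      ∑ i ∈ range H, (Fib.a A (N₀ + 1 + i) : ℝ) * Real.goldenRatio⁻¹ ^ (i + 1) := by
  refine Finset.sum_congr rfl fun i hi => ?_
  rw [Finset.mem_range] at hi
  have h1 := hA ((i : ℤ) + 1) (by
    unfold IH
    rw [Finset.mem_erase, Finset.mem_Icc]
    omega)
  rw [show ((N₁ : ℤ) + ((i : ℤ) + 1)).toNat = N₁ + 1 + i by omega,
    show ((N₀ : ℤ) + ((i : ℤ) + 1)).toNat = N₀ + 1 + i by omega] at h1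
  rw [h1]

private theorem det_split (A : Set ℕ) (H N : ℕ) (hH : H < N) :
    ∑ j ∈ range N, (Fib.a A (N - j) : ℝ) * Real.goldenConj ^ j =
      (Fib.a A N : ℝ) + ((∑ j ∈ Ico 1 (H + 1), (Fib.a A (N - j) : ℝ) * Real.goldenConj ^ j) +
        ∑ j ∈ Ico (H + 1) N, (Fib.a A (N - j) : ℝ) * Real.goldenConj ^ j) := by
  rw [Finset.sum_Ico_consecutive _ (by omega) (by omega), Finset.range_eq_Ico,
    Finset.sum_eq_sum_Ico_succ_bot (by omega)]
  simp

private theorem det_low (A : Set ℕ) (H N₁ N₀ : ℕ) (h1 : H < N₁) (h0 : H < N₀)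
    (hA : ∀ i ∈ IH H, Fib.a A ((N₁ : ℤ) + i).toNat = Fib.a A ((N₀ : ℤ) + i).toNat) :
    ∑ j ∈ Ico 1 (H + 1), (Fib.a A (N₁ - j) : ℝ) * Real.goldenConj ^ j =
      ∑ j ∈ Ico 1 (H + 1), (Fib.a A (N₀ - j) : ℝ) * Real.goldenConj ^ j := by
  refine Finset.sum_congr rfl fun j hj => ?_
  rw [Finset.mem_Ico] at hj
  have h2 := hA (-(j : ℤ)) (by
    unfold IH
    rw [Finset.mem_erase, Finset.mem_Icc]
    omega)
  rw [show ((N₁ : ℤ) + (-(j : ℤ))).toNat = N₁ - j by omega,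
    show ((N₀ : ℤ) + (-(j : ℤ))).toNat = N₀ - j by omega] at h2
  rw [h2]

private theorem det_conj_abs : |Real.goldenConj| = Fib.x := by
  rw [Fib.x_eq, abs_of_neg Real.goldenConj_neg]

private theorem det_far (A : Set ℕ) (H N : ℕ) :
    |∑ j ∈ Ico (H + 1) N, (Fib.a A (N - j) : ℝ) * Real.goldenConj ^ j| ≤
      ∑ j ∈ Ico (H + 1) N, (ff A (N - j) : ℝ) * Fib.x ^ j := by
  refine (Finset.abs_sum_le_sum_abs _ _).trans (Finset.sum_le_sum fun j _ => ?_)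
  rw [abs_mul, abs_pow, det_conj_abs]
  exact mul_le_mul_of_nonneg_right (det_abs_le A _) (pow_nonneg Fib.x_pos.le _)

private theorem det_norm (P R : ℤ)
    (h : |((P : ℝ) + R * Real.goldenRatio) * ((P : ℝ) + R * Real.goldenConj)| < 1) :
    P = 0 ∧ R = 0 := by
  have h1 : ((P : ℝ) + R * Real.goldenRatio) * ((P : ℝ) + R * Real.goldenConj) =
      ((P ^ 2 + P * R - R ^ 2 : ℤ) : ℝ) := by
    have e1 := Real.goldenRatio_add_goldenConj
    have e2 := Real.goldenRatio_mul_goldenConj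
    push_cast
    linear_combination ((P : ℝ) * R) * e1 + (R : ℝ) ^ 2 * e2
  have h2 : (P ^ 2 + P * R - R ^ 2 : ℤ) = 0 := by
    rw [h1] at h
    have h3 : |(P ^ 2 + P * R - R ^ 2 : ℤ)| < 1 := by exact_mod_cast h
    exact Int.abs_lt_one_iff.1 h3
  rw [h2, Int.cast_zero] at h1
  have hirr : ∀ y : ℝ, Irrational y → (P : ℝ) + R * y = 0 → P = 0 ∧ R = 0 := by
    intro y hy h3
    have hR : R = 0 := by
      by_contra hR
      have hR' : (R : ℝ) ≠ 0 := by exact_mod_cast hR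
      apply hy
      refine ⟨-(P : ℚ) / R, ?_⟩
      push_cast
      rw [div_eq_iff hR']
      linarith
    refine ⟨?_, hR⟩
    rw [hR, Int.cast_zero, zero_mul, add_zero] at h3
    exact_mod_cast h3
  rcases mul_eq_zero.1 h1 with h3 | h3
  · exact hirr _ Real.goldenRatio_irrational h3
  · exact hirr _ Real.goldenConj_irrational h3

open Classical in
theorem determinism (A : Set ℕ) (h0 : 0 ∉ A) (u : ℤ) (v : ℕ) (hv : 0 < v)
    (hY : (∑' n : ℕ, if n ∈ A then 1 / (Nat.fib n : ℝ) else 0) = (u : ℝ) / (v : ℝ)) :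
    ∃ K₀ : ℝ, 0 < K₀ ∧ ∀ (H N₁ N₀ : ℕ) (B δ : ℝ), H < N₁ → H < N₀ → 0 ≤ B → 0 ≤ δ → δ ≤ 1 →
      (∀ i ∈ IH H, Fib.a A ((N₁ : ℤ) + i).toNat = Fib.a A ((N₀ : ℤ) + i).toNat) →
      |(Fib.a A N₁ : ℝ)| ≤ B → |(Fib.a A N₀ : ℝ)| ≤ B →
      tl A Fib.x H N₁ ≤ δ → tl A Fib.x H N₀ ≤ δ → Fib.x ^ N₁ ≤ δ → Fib.x ^ N₀ ≤ δ →
      K₀ * δ * (B + 1) < 1 → Fib.a A N₁ = Fib.a A N₀ := by
  have hv0 : (0 : ℝ) < v := by exact_mod_cast hv
  have hv1 : (1 : ℝ) ≤ v := by exact_mod_cast hv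
  have h5 : (0 : ℝ) < √5 := by positivity
  have hu : (u : ℝ) = v * √5 * ∑' k, (Fib.a A k : ℝ) * Fib.x ^ k := by
    have h1 := Fib.tsum_fib A h0
    have h2 : (u : ℝ) = v * (√5 * ∑' k, (Fib.a A k : ℝ) * Fib.x ^ k) := by
      rw [← h1, hY]
      field_simp
    rw [h2]
    ring
  have h52 : (2 : ℝ) ≤ √5 := by
    rw [Real.le_sqrt (by norm_num) (by norm_num)]
    norm_num
  set c : ℝ := v * √5 with hc
  have hc2 : 2 ≤ c := by
    rw [hc]
    nlinarith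
  have hU := abs_nonneg (u : ℝ)
  refine ⟨4 * c * (|(u : ℝ)| + c), by positivity, ?_⟩
  intro H N₁ N₀ B δ hN₁ hN₀ hB hδ hδ1 hA hB1 hB0 ht1 ht0 hx1 hx0 hK
  obtain ⟨t1, t1'⟩ := det_tl A H N₁ δ ht1
  obtain ⟨t0, t0'⟩ := det_tl A H N₀ δ ht0
  set w := dw (Fib.a A) u v with hw
  set P : ℤ := (w N₁).1 - (w N₀).1 with hP
  set R : ℤ := (w N₁).2 - (w N₀).2 with hR
  set T : ℕ → ℝ := fun N => ∑' h : ℕ, (Fib.a A (N + 1 + (h + H)) : ℝ) * Real.goldenRatio⁻¹ ^ ((h + H) + 1) with hT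
  set F : ℕ → ℝ := fun N => ∑ j ∈ Ico (H + 1) N, (Fib.a A (N - j) : ℝ) * Real.goldenConj ^ j with hF
  have hX : (P : ℝ) + R * Real.goldenRatio = -c * (T N₁ - T N₀) := by
    have e1 := dw_R A u v hu N₁
    have e0 := dw_R A u v hu N₀
    rw [← (dw_tail A N₁).sum_add_tsum_nat_add H] at e1
    rw [← (dw_tail A N₀).sum_add_tsum_nat_add H] at e0
    rw [det_head A H N₁ N₀ hA] at e1
    rw [hP, hR]
    push_cast
    simp only [hT, hw]
    rw [hc]
    linear_combination e1 - e0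
  have hX' : (P : ℝ) + R * Real.goldenConj =
      -(u : ℝ) * (Real.goldenConj ^ N₁ - Real.goldenConj ^ N₀) -
        c * (((Fib.a A N₁ : ℝ) - (Fib.a A N₀ : ℝ)) + (F N₁ - F N₀)) := by
    have e1 := dw_R' A u v N₁
    have e0 := dw_R' A u v N₀
    rw [det_split A H N₁ hN₁, det_low A H N₁ N₀ hN₁ hN₀ hA] at e1
    rw [det_split A H N₀ hN₀] at e0
    rw [hP, hR]
    push_cast
    simp only [hF, hw]
    rw [hc]
    linear_combination e1 - e0
  have hTN : |T N₁ - T N₀| ≤ 2 * δ := by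
    have e1 := (det_tail A H N₁).trans t1
    have e0 := (det_tail A H N₀).trans t0
    have e2 := abs_sub (T N₁) (T N₀)
    have e3 : |T N₁| ≤ δ := e1
    have e4 : |T N₀| ≤ δ := e0
    linarith
  have hFN : |F N₁ - F N₀| ≤ 2 * δ := by
    have e1 := (det_far A H N₁).trans t1'
    have e0 := (det_far A H N₀).trans t0'
    have e2 := abs_sub (F N₁) (F N₀)
    have e3 : |F N₁| ≤ δ := e1
    have e4 : |F N₀| ≤ δ := e0
    linarith
  have hGN : |Real.goldenConj ^ N₁ - Real.goldenConj ^ N₀| ≤ 2 * δ := by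
    have e2 := abs_sub (Real.goldenConj ^ N₁) (Real.goldenConj ^ N₀)
    rw [abs_pow, abs_pow, det_conj_abs] at e2
    linarith
  have hD : |(Fib.a A N₁ : ℝ) - (Fib.a A N₀ : ℝ)| ≤ 2 * B := by
    have e2 := abs_sub (Fib.a A N₁ : ℝ) (Fib.a A N₀ : ℝ)
    linarith
  have hXb : |(P : ℝ) + R * Real.goldenRatio| ≤ c * (2 * δ) := by
    rw [hX, abs_mul, abs_neg, abs_of_pos (by linarith : 0 < c)]
    exact mul_le_mul_of_nonneg_left hTN (by linarith)
  have hXb' : |(P : ℝ) + R * Real.goldenConj| ≤ |(u : ℝ)| * (2 * δ) + c * (2 * B + 2 * δ) := by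
    rw [hX']
    refine (abs_sub _ _).trans (add_le_add ?_ ?_)
    · rw [abs_mul, abs_neg]
      exact mul_le_mul_of_nonneg_left hGN hU
    · rw [abs_mul, abs_of_pos (by linarith : 0 < c)]
      refine mul_le_mul_of_nonneg_left ?_ (by linarith)
      exact (abs_add_le _ _).trans (add_le_add hD hFN)
  have hprod : |((P : ℝ) + R * Real.goldenRatio) * ((P : ℝ) + R * Real.goldenConj)| < 1 := by
    rw [abs_mul]
    refine lt_of_le_of_lt (mul_le_mul hXb hXb' (abs_nonneg _) (by positivity)) ?_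
    refine lt_of_le_of_lt ?_ hK
    have e1 : |(u : ℝ)| * (2 * δ) + c * (2 * B + 2 * δ) ≤ 2 * (|(u : ℝ)| + c) * (B + 1) := by
      have e2 : |(u : ℝ)| * (2 * δ) ≤ |(u : ℝ)| * (2 * (B + 1)) :=
        mul_le_mul_of_nonneg_left (by linarith) hU
      have e3 : c * (2 * B + 2 * δ) ≤ c * (2 * (B + 1)) :=
        mul_le_mul_of_nonneg_left (by linarith) (by linarith)
      linarith
    calc c * (2 * δ) * (|(u : ℝ)| * (2 * δ) + c * (2 * B + 2 * δ))
        ≤ c * (2 * δ) * (2 * (|(u : ℝ)| + c) * (B + 1)) :=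
          mul_le_mul_of_nonneg_left e1 (by positivity)
      _ = 4 * c * (|(u : ℝ)| + c) * δ * (B + 1) := by ring
  obtain ⟨hP0, hR0⟩ := det_norm P R hprod
  rw [hP0, hR0, Int.cast_zero, zero_mul, add_zero] at hX'
  have hfin : c * |(Fib.a A N₁ : ℝ) - (Fib.a A N₀ : ℝ)| < c := by
    have e1 : c * ((Fib.a A N₁ : ℝ) - (Fib.a A N₀ : ℝ)) =
        -(u : ℝ) * (Real.goldenConj ^ N₁ - Real.goldenConj ^ N₀) - c * (F N₁ - F N₀) := by
      linarith
    have e2 : c * |(Fib.a A N₁ : ℝ) - (Fib.a A N₀ : ℝ)| =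
        |c * ((Fib.a A N₁ : ℝ) - (Fib.a A N₀ : ℝ))| := by
      rw [abs_mul, abs_of_pos (by linarith : 0 < c)]
    rw [e2, e1]
    have e3 : |-(u : ℝ) * (Real.goldenConj ^ N₁ - Real.goldenConj ^ N₀) - c * (F N₁ - F N₀)| ≤
        |(u : ℝ)| * (2 * δ) + c * (2 * δ) := by
      refine (abs_sub _ _).trans (add_le_add ?_ ?_)
      · rw [abs_mul, abs_neg]
        exact mul_le_mul_of_nonneg_left hGN hU
      · rw [abs_mul, abs_of_pos (by linarith : 0 < c)]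
        exact mul_le_mul_of_nonneg_left hFN (by linarith)
    refine lt_of_le_of_lt e3 ?_
    have e4 : 4 * c * (|(u : ℝ)| + c) * δ ≤ 4 * c * (|(u : ℝ)| + c) * δ * (B + 1) :=
      le_mul_of_one_le_right (by positivity) (by linarith)
    have e5 : 4 * c * (|(u : ℝ)| + c) * δ < 1 := lt_of_le_of_lt e4 hK
    have e6 : |(u : ℝ)| * (2 * δ) + c * (2 * δ) ≤ 4 * c * (|(u : ℝ)| + c) * δ := by
      have e7 : 0 ≤ (|(u : ℝ)| + c) * δ := by positivity
      nlinarith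
    linarith
  have hlt : |(Fib.a A N₁ : ℝ) - (Fib.a A N₀ : ℝ)| < 1 := by
    by_contra hcon
    push Not at hcon
    have := mul_le_mul_of_nonneg_left hcon (by linarith : 0 ≤ c)
    linarith
  have hlt' : |Fib.a A N₁ - Fib.a A N₀| < 1 := by exact_mod_cast hlt
  have := Int.abs_lt_one_iff.1 hlt'
  omega

end Pool.Agent.Helper9.RS
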