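import Pool.Agent.Helper9.RS.BadSum

/-!
PROJECT RS, module RS-29. Good elements of `A`.

By `bad_summable` and `hdiv` the set of the `n ∈ A` having an odd prime factor `p` with `p^(v_p n) ≥ (log n)^2` is infinite (otherwise `A` would be contained in the union of a finite set and the bad set, and the sum would converge). Take such a `q₀` with `(log q₀)^2 ≥ B₀` (and `q₀ > 0`), `k = v_p(q₀) ≥ 1`. Let `q` be the least `n ∈ A` with `n ∣ q₀`, `p^k ∣ n` (`Nat.find` or `sInf`). Then `¬ p^(k+1) ∣ q`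
(`q ∣ q₀`), `(log q)^2 ≤ (log q₀)^2 ≤ p^k`, and `n ∈ A`, `n ∣ q`, `p^k ∣ n` gives `n ≥ q`, so `n = q`.
-/

set_option autoImplicit false

namespace Pool.Agent.Helper9.RS

open Finset

open Classical in
theorem good_q (A : Set ℕ) (h0 : 0 ∉ A)
    (hdiv : ¬ Summable (fun n : ℕ => if n ∈ A then 1 / (n : ℝ) else 0)) (B₀ : ℕ) :
    ∃ q ∈ A, ∃ p k : ℕ, p.Prime ∧ p ≠ 2 ∧ 0 < k ∧ p ^ k ∣ q ∧ ¬ p ^ (k + 1) ∣ q ∧ B₀ ≤ p ^ k ∧
      (Real.log q) ^ 2 ≤ (p : ℝ) ^ k ∧ ∀ n ∈ A, n ∣ q → p ^ k ∣ n → n = q := by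
  obtain ⟨q₀, hqA, hB, p, hp, hp2, hpq, hlog⟩ : ∃ q₀ ∈ A, (B₀ : ℝ) ≤ (Real.log q₀) ^ 2 ∧
      ∃ p : ℕ, p.Prime ∧ p ≠ 2 ∧ p ∣ q₀ ∧ (Real.log q₀) ^ 2 ≤ (p : ℝ) ^ q₀.factorization p := by
    by_contra hcon
    push Not at hcon
    apply hdiv
    refine Summable.of_norm_bounded_eventually_nat bad_summable ?_
    have ht : Filter.Tendsto (fun n : ℕ => Real.log (n : ℝ)) Filter.atTop Filter.atTop :=
      Real.tendsto_log_atTop.comp tendsto_natCast_atTop_atTop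
    filter_upwards [ht.eventually_ge_atTop ((B₀ : ℝ) + 1)] with n hn
    have hB : (B₀ : ℝ) ≤ (Real.log n) ^ 2 := by
      have h1 : (0 : ℝ) ≤ B₀ := Nat.cast_nonneg _
      nlinarith
    by_cases hA : n ∈ A
    · have hbad : ∀ p : ℕ, p.Prime → p ≠ 2 → p ∣ n →
          ((p : ℝ) ^ n.factorization p) < (Real.log n) ^ 2 := by
        intro p hp hp2 hpn
        exact hcon n hA hB p hp hp2 hpn
      rw [if_pos hA, if_pos hbad, Real.norm_of_nonneg (by positivity)]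
    · rw [if_neg hA, norm_zero]
      split_ifs
      · positivity
      · exact le_rfl
  have hq0 : q₀ ≠ 0 := by
    rintro rfl
    exact h0 hqA
  have hex : ∃ n, n ∈ A ∧ n ∣ q₀ ∧ p ^ q₀.factorization p ∣ n :=
    ⟨q₀, hqA, dvd_rfl, Nat.ordProj_dvd q₀ p⟩
  obtain ⟨hqA', hqd, hpd⟩ := Nat.find_spec hex
  have hmin : ∀ n, n ∈ A → n ∣ q₀ → p ^ q₀.factorization p ∣ n → Nat.find hex ≤ n :=
    fun n h1 h2 h3 => Nat.find_min' hex ⟨h1, h2, h3⟩
  have hq1 : Nat.find hex ≠ 0 := by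
    intro h
    rw [h] at hqA'
    exact h0 hqA'
  refine ⟨Nat.find hex, hqA', p, q₀.factorization p, hp, hp2, ?_, hpd, ?_, ?_, ?_, ?_⟩
  · exact hp.factorization_pos_of_dvd hq0 hpq
  · intro h
    exact Nat.pow_succ_factorization_not_dvd hq0 hp (h.trans hqd)
  · have h1 := hB.trans hlog
    exact_mod_cast h1
  · refine le_trans ?_ hlog
    have h1 : (1 : ℝ) ≤ (Nat.find hex : ℝ) := by exact_mod_cast Nat.one_le_iff_ne_zero.2 hq1
    have h2 : (Nat.find hex : ℝ) ≤ (q₀ : ℝ) := by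
      exact_mod_cast Nat.le_of_dvd (Nat.pos_of_ne_zero hq0) hqd
    have h3 := Real.log_nonneg h1
    have h4 := Real.log_le_log (by linarith) h2
    exact pow_le_pow_left₀ h3 h4 2
  · intro n hn hnd hnp
    exact le_antisymm (Nat.le_of_dvd (Nat.pos_of_ne_zero hq1) hnd) (hmin n hn (hnd.trans hqd) hnp)

end Pool.Agent.Helper9.RS
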