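import Pool.Agent.Helper9.RS.HhBound

/-!
PROJECT RS, module RS-33. Parameters: the bound for `hh`.

`hh_le` with `w = 20 s ≤ 40 q^D`, `b` the least integer with `40 q^D ≤ 2^(2^b)`: `2^b ≤ 2 (log₂ (40 q^D) + 1) ≤ 2 (7 + D log₂ q)`, so `exp (2 (b log 2 + 6) + 2) = e^14 (2^b)^2 ≤ e^14 4 (7 + D log₂ q)^2 ≤ q` for large `q` (`D` fixed).
-/

set_option autoImplicit false

namespace Pool.Agent.Helper9.RS

open Finset

private theorem pb_exp (b : ℕ) :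
    Real.exp (2 * ((b : ℝ) * Real.log 2 + 6) + 2) = Real.exp 14 * ((2 : ℝ) ^ b) ^ 2 := by
  have h1 : (2 : ℝ) ^ b = Real.exp ((b : ℝ) * Real.log 2) := by
    rw [Real.exp_nat_mul, Real.exp_log (by norm_num)]
  rw [h1, sq, ← Real.exp_add, ← Real.exp_add]
  congr 1
  ring

private theorem pb_lim (C : ℝ) (hC : 0 < C) : ∃ m₀ : ℕ, ∀ m : ℕ, m₀ ≤ m →
    C * (m : ℝ) ^ 2 ≤ 2 ^ m := by
  have h1 := tendsto_pow_const_div_const_pow_of_one_lt 2 (show (1 : ℝ) < 2 by norm_num)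
  have h2 : ∀ᶠ m : ℕ in Filter.atTop, (m : ℝ) ^ 2 / 2 ^ m < 1 / C :=
    h1.eventually (gt_mem_nhds (by positivity))
  obtain ⟨m₀, hm⟩ := Filter.eventually_atTop.1 h2
  refine ⟨m₀, fun m h => ?_⟩
  have h3 := hm m h
  rw [div_lt_div_iff₀ (by positivity) hC] at h3
  linarith

theorem hh_q (D : ℕ) : ∃ q₄ : ℕ, ∀ q s n z : ℕ, q₄ ≤ q → s ≤ 2 * q ^ D → 0 < n →
    n.primeFactors.card ≤ 20 * s → hh (q ^ 2) z n ≤ q := by
  obtain ⟨m₀, hm₀⟩ := pb_lim (2 * (Real.exp 14 * (4 * (6 + (D : ℝ)) ^ 2))) (by positivity)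
  refine ⟨2 ^ (m₀ + 1), ?_⟩
  intro q s n z hq hs hn hcard
  obtain ⟨m, hm⟩ : ∃ m, m = Nat.clog 2 q := ⟨_, rfl⟩
  have hq0 : 2 ≤ q := by
    have h1 : 2 ^ 1 ≤ 2 ^ (m₀ + 1) := Nat.pow_le_pow_right (by norm_num) (by omega)
    omega
  have hm1 : q ≤ 2 ^ m := by
    rw [hm]
    exact Nat.le_pow_clog (by norm_num) q
  have hm2 : 2 ^ (m - 1) < q := by
    rw [hm]
    exact Nat.pow_pred_clog_lt_self (by norm_num) (by omega)
  have hm3 : m₀ + 1 ≤ m := by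
    rw [hm]
    by_contra hlt
    push Not at hlt
    have h1 : Nat.clog 2 q ≤ m₀ := by omega
    rw [Nat.clog_le_iff_le_pow (by norm_num)] at h1
    have h2 : 2 ^ m₀ < 2 ^ (m₀ + 1) := Nat.pow_lt_pow_right (by norm_num) (by omega)
    omega
  obtain ⟨c, hc⟩ : ∃ c, c = 6 + D * m := ⟨_, rfl⟩
  obtain ⟨b, hb⟩ : ∃ b, b = Nat.clog 2 c := ⟨_, rfl⟩
  have hb1 : c ≤ 2 ^ b := by
    rw [hb]
    exact Nat.le_pow_clog (by norm_num) c
  have hb2 : 2 ^ b ≤ 2 * c := by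
    have h1 : 2 ^ (b - 1) < c := by
      rw [hb]
      exact Nat.pow_pred_clog_lt_self (by norm_num) (by omega)
    have h2 : 1 ≤ b := by
      by_contra h3
      have h4 : b = 0 := by omega
      rw [h4] at hb1
      omega
    have h3 : 2 ^ b = 2 * 2 ^ (b - 1) := by
      rw [← pow_succ']
      congr 1
      omega
    omega
  have hw : 20 * s ≤ 2 ^ 2 ^ b := by
    have h1 : q ^ D ≤ 2 ^ (D * m) := by
      calc q ^ D ≤ (2 ^ m) ^ D := Nat.pow_le_pow_left hm1 D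
        _ = 2 ^ (D * m) := by rw [← pow_mul, mul_comm]
    have h2 : 2 ^ c ≤ 2 ^ 2 ^ b := Nat.pow_le_pow_right (by norm_num) hb1
    have h3 : 2 ^ c = 64 * 2 ^ (D * m) := by
      rw [hc, pow_add]
      norm_num
    omega
  have h1 := hh_le (q ^ 2) z n (20 * s) b hn hcard hw
  rw [pb_exp] at h1
  refine h1.trans ?_
  have h2 : ((2 : ℝ) ^ b) ≤ 2 * ((6 + (D : ℝ)) * m) := by
    have h3 : ((2 ^ b : ℕ) : ℝ) ≤ ((2 * c : ℕ) : ℝ) := by exact_mod_cast hb2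
    push_cast at h3
    refine h3.trans ?_
    rw [hc]
    push_cast
    have h4 : (1 : ℝ) ≤ m := by
      have h5 : 1 ≤ m := by omega
      exact_mod_cast h5
    nlinarith
  have h3 : ((2 : ℝ) ^ b) ^ 2 ≤ (2 * ((6 + (D : ℝ)) * m)) ^ 2 :=
    pow_le_pow_left₀ (by positivity) h2 2
  have h4 := hm₀ m (by omega)
  have h5 : (2 : ℝ) ^ m ≤ 2 * q := by
    have h6 : 2 ^ m ≤ 2 * q := by
      have h7 : 2 ^ m = 2 * 2 ^ (m - 1) := by
        rw [← pow_succ']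
        congr 1
        omega
      omega
    exact_mod_cast h6
  have h6 : Real.exp 14 * ((2 : ℝ) ^ b) ^ 2 ≤ Real.exp 14 * (2 * ((6 + (D : ℝ)) * m)) ^ 2 :=
    mul_le_mul_of_nonneg_left h3 (Real.exp_pos _).le
  have h7 : 2 * (Real.exp 14 * (4 * (6 + (D : ℝ)) ^ 2)) * (m : ℝ) ^ 2 =
      2 * (Real.exp 14 * (2 * ((6 + (D : ℝ)) * m)) ^ 2) := by ring
  rw [h7] at h4
  linarith

end Pool.Agent.Helper9.RS
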