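import Pool.Agent.Helper9.RS.Defs

/-!
PROJECT RS, module RS-34. Parameters: `n1` and `n4`.

`J₁ = 2^(s + 2 q^4)`, `w = 20 s`: `tau ≤ 4 J₁ (4 J₁)^2/2^(20 s) = 2^(6 + 3 s + 6 q^4 - 20 s) ≤ 2^(-s) ≤ 2^(-q^D)` as `16 s ≥ 6 q^4 + 6` (`s ≥ q^10`). `par_n1`: `2H+1 ≤ q` (`4 H ≤ q`, `q ≥ 2`), `40 q (39 q^8 q^(-40) + tau) ≤ 1`.
`par_n4`: `x = φ⁻¹ ≤ exp (-12/25)` (`φ ≥ 1.618 > exp 0.48`; or use `x ≤ 5/8` and a weaker exponent), `x^H ≤ exp (-(12/25)((log q)^2/4 - 1)) ≤ 2 q^(-(3/25) log q) ≤ q^(-(D + 40))` for large `q`; so `160 x^H (39 q^8 q^(D+1) + tau) ≤ q^(-20)/2`; `x^(q^4) 2^(q^3) ≤ 2^(q^3 - q^4/2) `(`x^2 ≤ 1/2`), so the second part is `≤ 160 2^(q^3 - q^4/2) (13 q q^(D+1) + 1) ≤ q^(-20)/2`.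
-/

set_option autoImplicit false

namespace Pool.Agent.Helper9.RS

open Finset

private lemma tau_nn (J w : ℕ) : 0 ≤ tau J w := by
  unfold tau
  positivity

private lemma s_big (D q s : ℕ) (hD : 10 ≤ D) (hq : 2 ≤ q) (hs : q ^ D ≤ s) :
    q ^ 10 ≤ s := le_trans (Nat.pow_le_pow_right (by omega) hD) hs

private lemma tau_le (D q s : ℕ) (hD : 10 ≤ D) (hq : 2 ≤ q) (hs : q ^ D ≤ s) :
    tau (2 ^ (s + 2 * q ^ 4)) (20 * s) ≤ 1 / 2 ^ s := by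
  have h10 := s_big D q s hD hq hs
  have h4 : q ^ 4 * 64 ≤ s := by
    calc q ^ 4 * 64 = q ^ 4 * 2 ^ 6 := by norm_num
      _ ≤ q ^ 4 * q ^ 6 := Nat.mul_le_mul_left _ (Nat.pow_le_pow_left hq 6)
      _ = q ^ 10 := by rw [← pow_add]
      _ ≤ s := h10
  have h1 : 1 ≤ q ^ 4 := Nat.one_le_pow _ _ (by omega)
  have hexp : 6 + (3 * (s + 2 * q ^ 4) + s) ≤ 20 * s := by omega
  unfold tau
  push_cast
  have hJ : (1 : ℝ) ≤ 2 ^ (s + 2 * q ^ 4) := one_le_pow₀ (by norm_num)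
  generalize hJd : (2 : ℝ) ^ (s + 2 * q ^ 4) = J at hJ ⊢
  rw [div_le_div_iff₀ (by positivity) (by positivity), one_mul]
  have e1 : 4 * J * (J + 3) ^ 2 ≤ 2 ^ 6 * J ^ 3 := by
    have : (J + 3) ^ 2 ≤ (4 * J) ^ 2 := by
      apply pow_le_pow_left₀ (by linarith)
      linarith
    calc 4 * J * (J + 3) ^ 2 ≤ 4 * J * (4 * J) ^ 2 := by
          apply mul_le_mul_of_nonneg_left this
          linarith
      _ = 2 ^ 6 * J ^ 3 := by ring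
  calc 4 * J * (J + 3) ^ 2 * 2 ^ s ≤ 2 ^ 6 * J ^ 3 * 2 ^ s :=
        mul_le_mul_of_nonneg_right e1 (by positivity)
    _ = 2 ^ (6 + (3 * (s + 2 * q ^ 4) + s)) := by
        rw [← hJd, ← pow_mul, mul_assoc, ← pow_add, ← pow_add]
        congr 1
        ring
    _ ≤ 2 ^ (20 * s) := pow_le_pow_right₀ (by norm_num) hexp

theorem par_n1 (D : ℕ) (hD : 10 ≤ D) : ∃ q₅ : ℕ, ∀ q s H : ℕ, q₅ ≤ q → q ^ D ≤ s → 4 * H ≤ q →
    40 * (2 * (H : ℝ) + 1) * (13 * (q : ℝ) * ((3 * q ^ 7 : ℕ) : ℝ) * (1 / (q : ℝ) ^ 40) +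
      tau (2 ^ (s + 2 * q ^ 4)) (20 * s)) ≤ 1 := by
  refine ⟨100, fun q s H hq hs hH => ?_⟩
  have ht := tau_le D q s hD (by omega) hs
  have ht0 := tau_nn (2 ^ (s + 2 * q ^ 4)) (20 * s)
  generalize tau (2 ^ (s + 2 * q ^ 4)) (20 * s) = t at ht ht0 ⊢
  have hqR : (100 : ℝ) ≤ q := by exact_mod_cast hq
  have hHR : 2 * (H : ℝ) + 1 ≤ q := by
    have : (4 : ℝ) * H ≤ q := by exact_mod_cast hH
    linarith
  have hsq : q ^ 2 ≤ s := le_trans (Nat.pow_le_pow_right (by omega) (by omega)) hs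
  -- `2 ^ s ≥ s ≥ q ^ 2`
  have h2s : (q : ℝ) ^ 2 ≤ 2 ^ s := by
    have h1 : s < 2 ^ s := Nat.lt_two_pow_self
    have h2 : q ^ 2 ≤ 2 ^ s := by omega
    exact_mod_cast h2
  have ht2 : t ≤ 1 / (q : ℝ) ^ 2 := ht.trans (one_div_le_one_div_of_le (by positivity) h2s)
  have hq0 : (0 : ℝ) < q := by linarith
  have e1 : 13 * (q : ℝ) * ((3 * q ^ 7 : ℕ) : ℝ) * (1 / (q : ℝ) ^ 40) ≤ 39 / (q : ℝ) ^ 4 := by
    push_cast
    have : 13 * (q : ℝ) * (3 * (q : ℝ) ^ 7) * (1 / (q : ℝ) ^ 40) = 39 / (q : ℝ) ^ 32 := by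
      field_simp
      ring
    rw [this]
    apply div_le_div_of_nonneg_left (by norm_num) (by positivity)
    exact pow_le_pow_right₀ (by linarith) (by norm_num)
  have hsum : 13 * (q : ℝ) * ((3 * q ^ 7 : ℕ) : ℝ) * (1 / (q : ℝ) ^ 40) + t ≤
      39 / (q : ℝ) ^ 4 + 1 / (q : ℝ) ^ 2 := add_le_add e1 ht2
  have hsum0 : 0 ≤ 39 / (q : ℝ) ^ 4 + 1 / (q : ℝ) ^ 2 := by positivity
  calc 40 * (2 * (H : ℝ) + 1) * (13 * (q : ℝ) * ((3 * q ^ 7 : ℕ) : ℝ) * (1 / (q : ℝ) ^ 40) + t)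
      ≤ 40 * (2 * (H : ℝ) + 1) * (39 / (q : ℝ) ^ 4 + 1 / (q : ℝ) ^ 2) :=
        mul_le_mul_of_nonneg_left hsum (by positivity)
    _ ≤ 40 * q * (39 / (q : ℝ) ^ 4 + 1 / (q : ℝ) ^ 2) :=
        mul_le_mul_of_nonneg_right (by linarith) hsum0
    _ = 1560 / (q : ℝ) ^ 3 + 40 / q := by
        field_simp
        ring
    _ ≤ 1560 / (100 : ℝ) ^ 3 + 40 / 100 := by
        apply add_le_add
        · apply div_le_div_of_nonneg_left (by norm_num) (by norm_num)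
          exact pow_le_pow_left₀ (by norm_num) hqR 3
        · apply div_le_div_of_nonneg_left (by norm_num) (by norm_num) hqR
    _ ≤ 1 := by norm_num

private lemma x_le : Fib.x ≤ 5 / 8 := by
  have h0 := Fib.x_pos
  have h1 : Real.goldenRatio = (1 + Real.sqrt 5) / 2 := rfl
  have h5 : (2.2 : ℝ) ≤ Real.sqrt 5 := by
    apply Real.le_sqrt_of_sq_le
    norm_num
  unfold Fib.x
  rw [inv_le_comm₀ (Real.goldenRatio_pos) (by norm_num), h1]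
  linarith

private lemma x_exp (n : ℕ) (u : ℝ) (hu : u ≤ n) : Fib.x ^ n ≤ Real.exp (-(3 / 8) * u) := by
  have h0 := Fib.x_pos
  have hl : Real.log Fib.x ≤ -(3 / 8) := by
    have := Real.log_le_sub_one_of_pos h0
    have := x_le
    linarith
  calc Fib.x ^ n = Real.exp (Real.log Fib.x * n) := by
        rw [mul_comm, Real.exp_nat_mul, Real.exp_log h0]
    _ ≤ Real.exp (-(3 / 8) * u) := by
        apply Real.exp_le_exp.mpr
        have hn : (0 : ℝ) ≤ n := Nat.cast_nonneg n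
        nlinarith

theorem par_n4 (D : ℕ) (hD : 10 ≤ D) : ∃ q₆ : ℕ, ∀ q s H Q : ℕ, q₆ ≤ q → q ^ D ≤ s →
    (Real.log q) ^ 2 / 4 - 1 ≤ (H : ℝ) → Q ≤ 2 ^ (q ^ 3) →
    160 * (Fib.x ^ H * (13 * (q : ℝ) * ((3 * q ^ 7 : ℕ) : ℝ) * (q : ℝ) ^ (D + 1) +
      tau (2 ^ (s + 2 * q ^ 4)) (20 * s)) +
      Fib.x ^ (q ^ 4) * (13 * (q : ℝ) * Q * (q : ℝ) ^ (D + 1) +
        tau (2 ^ (s + 2 * q ^ 4)) (20 * s))) ≤ 1 / (q : ℝ) ^ 20 := by
  refine ⟨⌈Real.exp (11 * ((D : ℝ) + 60))⌉₊ + D + 100, fun q s H Q hq hs hH hQ => ?_⟩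
  have hq100 : 100 ≤ q := by omega
  have hqD : D + 22 ≤ q := by omega
  have hqE : Real.exp (11 * ((D : ℝ) + 60)) ≤ q := by
    have h1 := Nat.le_ceil (Real.exp (11 * ((D : ℝ) + 60)))
    have h2 : ⌈Real.exp (11 * ((D : ℝ) + 60))⌉₊ ≤ q := by omega
    have h3 : ((⌈Real.exp (11 * ((D : ℝ) + 60))⌉₊ : ℕ) : ℝ) ≤ q := by exact_mod_cast h2
    linarith
  have hqR : (100 : ℝ) ≤ q := by exact_mod_cast hq100
  have hqDR : (D : ℝ) + 22 ≤ q := by exact_mod_cast hqD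
  have hq0 : (0 : ℝ) < q := by linarith
  have hD0 : (0 : ℝ) ≤ D := Nat.cast_nonneg D
  obtain ⟨L, hL⟩ : ∃ L : ℝ, L = Real.log q := ⟨_, rfl⟩
  have hqL : Real.exp L = q := by rw [hL, Real.exp_log hq0]
  have hL11 : 11 * ((D : ℝ) + 60) ≤ L := by
    rw [hL]
    exact (Real.le_log_iff_exp_le hq0).mpr hqE
  have hLq : L ≤ q := by
    rw [hL]
    have := Real.log_le_sub_one_of_pos hq0
    linarith
  have hpow : ∀ n : ℕ, (q : ℝ) ^ n = Real.exp (n * L) := by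
    intro n
    rw [Real.exp_nat_mul, hqL]
  -- tau is at most 1
  have ht := tau_le D q s hD (by omega) hs
  have ht0 := tau_nn (2 ^ (s + 2 * q ^ 4)) (20 * s)
  generalize tau (2 ^ (s + 2 * q ^ 4)) (20 * s) = t at ht ht0 ⊢
  have ht1 : t ≤ 1 := by
    refine ht.trans ?_
    rw [div_le_one (by positivity)]
    exact one_le_pow₀ (by norm_num)
  have hq1 : (1 : ℝ) ≤ (q : ℝ) ^ (D + 9) := one_le_pow₀ (by linarith)
  have hq2 : (1 : ℝ) ≤ (q : ℝ) ^ (D + 2) := one_le_pow₀ (by linarith)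
  -- first part
  have hx1 : Fib.x ^ H ≤ 2 * Real.exp (-((D : ℝ) + 60) * L) := by
    rw [← hL] at hH
    refine (x_exp H (L ^ 2 / 4 - 1) hH).trans ?_
    have e : -(3 / 8) * (L ^ 2 / 4 - 1) = 3 / 8 + -(3 / 32) * L ^ 2 := by ring
    rw [e, Real.exp_add]
    have h38 : Real.exp (3 / 8) ≤ 2 := by
      have h1 : Real.exp (3 / 8 : ℝ) ≤ Real.exp (1 / 2) := Real.exp_le_exp.mpr (by norm_num)
      have h2 : Real.exp (1 / 2 : ℝ) ^ 2 = Real.exp 1 := by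
        rw [← Real.exp_nat_mul]
        norm_num
      have h3 := Real.exp_one_lt_d9
      have h4 : Real.exp (1 / 2 : ℝ) ≤ 2 := by
        nlinarith [Real.exp_pos (1 / 2 : ℝ)]
      linarith
    apply mul_le_mul h38 _ (Real.exp_pos _).le (by norm_num)
    apply Real.exp_le_exp.mpr
    nlinarith
  have hA : 13 * (q : ℝ) * ((3 * q ^ 7 : ℕ) : ℝ) * (q : ℝ) ^ (D + 1) + t ≤
      40 * (q : ℝ) ^ (D + 9) := by
    push_cast
    have : 13 * (q : ℝ) * (3 * (q : ℝ) ^ 7) * (q : ℝ) ^ (D + 1) = 39 * (q : ℝ) ^ (D + 9) := by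
      ring
    linarith
  have hA0 : 0 ≤ 13 * (q : ℝ) * ((3 * q ^ 7 : ℕ) : ℝ) * (q : ℝ) ^ (D + 1) + t := by positivity
  have hfirst : 160 * (Fib.x ^ H *
      (13 * (q : ℝ) * ((3 * q ^ 7 : ℕ) : ℝ) * (q : ℝ) ^ (D + 1) + t)) ≤
      1 / 2 * (1 / (q : ℝ) ^ 20) := by
    have h1 : Fib.x ^ H * (13 * (q : ℝ) * ((3 * q ^ 7 : ℕ) : ℝ) * (q : ℝ) ^ (D + 1) + t) ≤
        2 * Real.exp (-((D : ℝ) + 60) * L) * (40 * (q : ℝ) ^ (D + 9)) :=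
      mul_le_mul hx1 hA hA0 (by positivity)
    have h2 : Real.exp (-((D : ℝ) + 60) * L) * (q : ℝ) ^ (D + 9) = 1 / (q : ℝ) ^ 51 := by
      rw [hpow, hpow, ← Real.exp_add, one_div, ← Real.exp_neg]
      congr 1
      push_cast
      ring
    have h3 : 1 / (q : ℝ) ^ 51 = 1 / (q : ℝ) ^ 20 * (1 / (q : ℝ) ^ 31) := by
      field_simp
    have h4 : (12800 : ℝ) * (1 / (q : ℝ) ^ 31) ≤ 1 / 2 := by
      rw [mul_one_div, div_le_div_iff₀ (by positivity) (by norm_num)]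
      have : (100 : ℝ) ^ 31 ≤ (q : ℝ) ^ 31 := pow_le_pow_left₀ (by norm_num) hqR 31
      norm_num at this ⊢
      linarith
    have h5 : 0 < 1 / (q : ℝ) ^ 20 := by positivity
    calc _ ≤ 160 * (2 * Real.exp (-((D : ℝ) + 60) * L) * (40 * (q : ℝ) ^ (D + 9))) :=
          mul_le_mul_of_nonneg_left h1 (by norm_num)
      _ = 12800 * (Real.exp (-((D : ℝ) + 60) * L) * (q : ℝ) ^ (D + 9)) := by ring
      _ = 12800 * (1 / (q : ℝ) ^ 31) * (1 / (q : ℝ) ^ 20) := by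
          rw [h2, h3]
          ring
      _ ≤ 1 / 2 * (1 / (q : ℝ) ^ 20) := mul_le_mul_of_nonneg_right h4 h5.le
  -- second part
  have hQR : (Q : ℝ) ≤ 2 ^ (q ^ 3) := by exact_mod_cast hQ
  have h2q : (1 : ℝ) ≤ 2 ^ (q ^ 3) := one_le_pow₀ (by norm_num)
  have hB : 13 * (q : ℝ) * Q * (q : ℝ) ^ (D + 1) + t ≤ 14 * (q : ℝ) ^ (D + 2) * 2 ^ (q ^ 3) := by
    have h1 : 13 * (q : ℝ) * Q * (q : ℝ) ^ (D + 1) = 13 * (q : ℝ) ^ (D + 2) * Q := by ring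
    have h2 : 13 * (q : ℝ) ^ (D + 2) * Q ≤ 13 * (q : ℝ) ^ (D + 2) * 2 ^ (q ^ 3) :=
      mul_le_mul_of_nonneg_left hQR (by positivity)
    have h3 : (1 : ℝ) ≤ (q : ℝ) ^ (D + 2) * 2 ^ (q ^ 3) := by
      have := mul_le_mul hq2 h2q (by norm_num) (by positivity)
      linarith
    rw [h1]
    linarith
  have hB0 : 0 ≤ 13 * (q : ℝ) * Q * (q : ℝ) ^ (D + 1) + t := by positivity
  have hx2 : Fib.x ^ (q ^ 4) ≤ Real.exp (-(3 / 8) * (q : ℝ) ^ 4) :=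
    x_exp (q ^ 4) ((q : ℝ) ^ 4) (by push_cast; exact le_refl _)
  have h2e : (2 : ℝ) ^ (q ^ 3) ≤ Real.exp ((q : ℝ) ^ 3) := by
    have h1 : (2 : ℝ) ≤ Real.exp 1 := by
      have := Real.add_one_le_exp (1 : ℝ)
      linarith
    calc (2 : ℝ) ^ (q ^ 3) ≤ Real.exp 1 ^ (q ^ 3) := pow_le_pow_left₀ (by norm_num) h1 _
      _ = Real.exp ((q : ℝ) ^ 3) := by
          rw [← Real.exp_nat_mul]
          push_cast
          rw [mul_one]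
  have hsecond : 160 * (Fib.x ^ (q ^ 4) * (13 * (q : ℝ) * Q * (q : ℝ) ^ (D + 1) + t)) ≤
      1 / 2 * (1 / (q : ℝ) ^ 20) := by
    have h1 : Fib.x ^ (q ^ 4) * (13 * (q : ℝ) * Q * (q : ℝ) ^ (D + 1) + t) ≤
        Real.exp (-(3 / 8) * (q : ℝ) ^ 4) * (14 * (q : ℝ) ^ (D + 2) * Real.exp ((q : ℝ) ^ 3)) := by
      apply mul_le_mul hx2 _ hB0 (Real.exp_pos _).le
      exact hB.trans (mul_le_mul_of_nonneg_left h2e (by positivity))
    have h2 : Real.exp (-(3 / 8) * (q : ℝ) ^ 4) * ((q : ℝ) ^ (D + 2) * Real.exp ((q : ℝ) ^ 3)) *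
        (q : ℝ) ^ 20 ≤ Real.exp (-(q : ℝ) ^ 3) := by
      rw [hpow (D + 2), hpow 20, ← Real.exp_add, ← Real.exp_add, ← Real.exp_add]
      apply Real.exp_le_exp.mpr
      push_cast
      have c1 : ((D : ℝ) + 22) * L ≤ (q : ℝ) ^ 3 := by
        have : ((D : ℝ) + 22) * L ≤ q * q := mul_le_mul hqDR hLq (by linarith) hq0.le
        nlinarith
      have c2 : 3 * (q : ℝ) ^ 3 ≤ 3 / 8 * (q : ℝ) ^ 4 := by
        have : 0 ≤ (q : ℝ) ^ 3 * ((q : ℝ) - 8) := by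
          apply mul_nonneg (by positivity)
          linarith
        nlinarith
      linarith
    have h3 : Real.exp (-(q : ℝ) ^ 3) * 4480 ≤ 1 := by
      rw [Real.exp_neg, inv_mul_le_one₀ (Real.exp_pos _)]
      have := Real.add_one_le_exp ((q : ℝ) ^ 3)
      have h100 : (100 : ℝ) ^ 3 ≤ (q : ℝ) ^ 3 := pow_le_pow_left₀ (by norm_num) hqR 3
      norm_num at h100
      linarith
    have hq20 : 0 < (q : ℝ) ^ 20 := by positivity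
    have h4 : 1 / 2 * (1 / (q : ℝ) ^ 20) = (1 / 2) / (q : ℝ) ^ 20 := by ring
    rw [h4, le_div_iff₀ hq20]
    calc _ ≤ 160 * (Real.exp (-(3 / 8) * (q : ℝ) ^ 4) *
            (14 * (q : ℝ) ^ (D + 2) * Real.exp ((q : ℝ) ^ 3))) * (q : ℝ) ^ 20 :=
          mul_le_mul_of_nonneg_right (mul_le_mul_of_nonneg_left h1 (by norm_num)) hq20.le
      _ = 2240 * (Real.exp (-(3 / 8) * (q : ℝ) ^ 4) *
            ((q : ℝ) ^ (D + 2) * Real.exp ((q : ℝ) ^ 3)) * (q : ℝ) ^ 20) := by ring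
      _ ≤ 2240 * Real.exp (-(q : ℝ) ^ 3) := mul_le_mul_of_nonneg_left h2 (by norm_num)
      _ ≤ 1 / 2 := by linarith
  linarith

end Pool.Agent.Helper9.RS
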