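import Pool.Agent.Helper9.RS.Defs

/-!
PROJECT RS, module RS-35. Parameters: `n5` and `n6`.

`m = 8 q (s+6)`, `n = 2m = 16 q (s+6)`, `2H+1 ≤ q`. `eps ≤ (q (s+6))^n/n! = (n/16)^n/n! ≤ (e/16)^n ≤ 4^(-n)` (`n^n/n! ≤ e^n`: one term of the exponential series), `exp (2H(s+6)) ≤ exp (q (s+6)/2) ≤ 2^n`, `160000 2^s 2^n 4^(-n) ≤ 1` as `n ≥ 16 (s + 6) + ...`.
`par_n6`: `err ≤ (q z)^n`, `z = 2^(2^s)`, `q ≤ 2^q`: all exponents of `2`: `8 + n + n 2^s + n q + 2^s q^2 ≤ 2^s (8 + n + n + n q + q^2) ≤ 2^s 2^(q^4)`, `n ≤ 16 q (2 q^D + 6)`, for large `q`.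
-/

set_option autoImplicit false

namespace Pool.Agent.Helper9.RS

open Finset

/-- `exp n ≤ 4 ^ n`. -/
private theorem parD_exp (n : ℕ) : Real.exp n ≤ 4 ^ n := by
  have h1 : Real.exp (n : ℝ) = Real.exp 1 ^ n := by
    rw [← Real.exp_nat_mul, mul_one]
  rw [h1]
  exact pow_le_pow_left₀ (Real.exp_pos 1).le (by linarith [Real.exp_one_lt_d9]) n

private theorem parD_exp' {q s H : ℕ} (h : 4 * H ≤ q) :
    Real.exp (2 * H * ((s : ℝ) + 6)) ≤ 2 ^ (2 * (q * (s + 6))) := by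
  have h1 : (2 * H * ((s : ℝ) + 6)) ≤ ((q * (s + 6) : ℕ) : ℝ) := by
    push_cast
    have h2 : (4 * H : ℝ) ≤ q := by exact_mod_cast h
    have h3 : (0 : ℝ) ≤ H := Nat.cast_nonneg H
    have h4 : (0 : ℝ) ≤ (s : ℝ) + 6 := by positivity
    exact mul_le_mul_of_nonneg_right (by linarith) h4
  calc Real.exp (2 * H * ((s : ℝ) + 6)) ≤ Real.exp ((q * (s + 6) : ℕ) : ℝ) := Real.exp_le_exp.2 h1
    _ ≤ 4 ^ (q * (s + 6)) := parD_exp _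
    _ = 2 ^ (2 * (q * (s + 6))) := by
      rw [show (4 : ℝ) = 2 ^ 2 by norm_num, ← pow_mul]

private theorem parD_eps {q s H : ℕ} (hq : 2 ≤ q) (h : 4 * H ≤ q) :
    eps H s (8 * q * (s + 6)) ≤ (1 / 4) ^ (16 * (q * (s + 6))) := by
  unfold eps
  have hn : 2 * (8 * q * (s + 6)) = 16 * (q * (s + 6)) := by ring
  rw [hn]
  obtain ⟨n, hn⟩ : ∃ n, n = 16 * (q * (s + 6)) := ⟨_, rfl⟩
  rw [← hn]
  obtain ⟨x, hx⟩ : ∃ x : ℝ, x = (2 * (H : ℝ) + 1) * ((s : ℝ) + 6) := ⟨_, rfl⟩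
  rw [← hx]
  have hx0 : 0 ≤ x := by
    rw [hx]
    positivity
  have h1 : 16 * x ≤ (n : ℝ) := by
    rw [hx, hn]
    push_cast
    have h2 : (2 * H + 1 : ℝ) ≤ q := by
      have h3 : 2 * H + 1 ≤ q := by omega
      exact_mod_cast h3
    have h4 : (0 : ℝ) ≤ (s : ℝ) + 6 := by positivity
    have h5 := mul_le_mul_of_nonneg_right h2 h4
    linarith
  have h2 : (16 * x) ^ n / ((Nat.factorial n : ℕ) : ℝ) ≤ 4 ^ n :=
    le_trans (Real.pow_div_factorial_le_exp (16 * x) (by positivity) n)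
      (le_trans (Real.exp_le_exp.2 h1) (parD_exp n))
  have h3 : x ^ n / ((Nat.factorial n : ℕ) : ℝ) =
      (1 / 16) ^ n * ((16 * x) ^ n / ((Nat.factorial n : ℕ) : ℝ)) := by
    rw [mul_pow, ← mul_div_assoc, ← mul_assoc, ← mul_pow]
    norm_num
  rw [h3]
  calc (1 / 16 : ℝ) ^ n * ((16 * x) ^ n / ((Nat.factorial n : ℕ) : ℝ)) ≤ (1 / 16) ^ n * 4 ^ n :=
        mul_le_mul_of_nonneg_left h2 (by positivity)
    _ = (1 / 4) ^ n := by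
      rw [← mul_pow]
      norm_num

theorem par_n5 : ∃ q₇ : ℕ, ∀ q s H : ℕ, q₇ ≤ q → 4 * H ≤ q →
    160000 * 2 ^ s * Real.exp (2 * H * ((s : ℝ) + 6)) * eps H s (8 * q * (s + 6)) ≤ 1 := by
  refine ⟨2, fun q s H hq hH => ?_⟩
  have h1 := parD_exp' (s := s) hH
  have h2 := parD_eps (s := s) hq hH
  obtain ⟨a, ha⟩ : ∃ a, a = q * (s + 6) := ⟨_, rfl⟩
  rw [← ha] at h1 h2
  have hsa : s + 6 ≤ a := by
    rw [ha]
    calc s + 6 = 1 * (s + 6) := (one_mul _).symm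
      _ ≤ q * (s + 6) := Nat.mul_le_mul_right _ (by omega)
  have h3 : (160000 : ℝ) ≤ 2 ^ 18 := by norm_num
  have h4 : (160000 : ℝ) * 2 ^ s * Real.exp (2 * H * ((s : ℝ) + 6)) ≤ 2 ^ (32 * a) := by
    calc (160000 : ℝ) * 2 ^ s * Real.exp (2 * H * ((s : ℝ) + 6))
        ≤ 2 ^ 18 * 2 ^ s * 2 ^ (2 * a) := by gcongr
      _ = 2 ^ (18 + s + 2 * a) := by rw [pow_add, pow_add]
      _ ≤ 2 ^ (32 * a) := pow_le_pow_right₀ (by norm_num) (by omega)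
  calc (160000 : ℝ) * 2 ^ s * Real.exp (2 * H * ((s : ℝ) + 6)) * eps H s (8 * q * (s + 6))
      ≤ 2 ^ (32 * a) * (1 / 4) ^ (16 * a) :=
        mul_le_mul h4 h2 (by unfold eps; positivity) (by positivity)
    _ = 1 := by
      have h5 : 32 * a = 2 * (16 * a) := by ring
      rw [h5, pow_mul, ← mul_pow]
      norm_num

private theorem parD_err {q s H : ℕ} (hq : 4 ≤ q) (h : 4 * H ≤ q) :
    err H s (8 * q * (s + 6)) ≤ 2 ^ ((q + 2 ^ s) * (16 * (q * (s + 6)))) := by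
  unfold err
  have hn : 2 * (8 * q * (s + 6)) = 16 * (q * (s + 6)) := by ring
  obtain ⟨n, hn'⟩ : ∃ n, n = 16 * (q * (s + 6)) := ⟨_, rfl⟩
  rw [hn, ← hn', pow_mul]
  refine pow_le_pow_left₀ (by positivity : (0 : ℝ) ≤ (2 * (H : ℝ) + 1) * 2 ^ 2 ^ s + 1) ?_ n
  have h1 : (2 * (H : ℝ) + 1) + 1 ≤ q := by
    have h3 : 2 * H + 1 + 1 ≤ q := by omega
    exact_mod_cast h3
  have h2 : (1 : ℝ) ≤ 2 ^ 2 ^ s := one_le_pow₀ (by norm_num)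
  have h3 : (q : ℝ) ≤ 2 ^ q := by exact_mod_cast (Nat.lt_two_pow_self (n := q)).le
  calc (2 * (H : ℝ) + 1) * 2 ^ 2 ^ s + 1 ≤ (2 * (H : ℝ) + 1) * 2 ^ 2 ^ s + 1 * 2 ^ 2 ^ s := by
        linarith
    _ = ((2 * (H : ℝ) + 1) + 1) * 2 ^ 2 ^ s := by ring
    _ ≤ 2 ^ q * 2 ^ 2 ^ s := mul_le_mul_of_nonneg_right (le_trans h1 h3) (by positivity)
    _ = 2 ^ (q + 2 ^ s) := by rw [pow_add]

private theorem parD_num {D q s : ℕ} (hq : D + 5 ≤ q) (hs : s ≤ 2 * q ^ D) :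
    8 + 2 * (q * (s + 6)) + (q + 2 ^ s) * (16 * (q * (s + 6))) + 2 ^ s * q ^ 2 ≤
      2 ^ (s + q ^ 4) := by
  have hqD : 1 ≤ q ^ D := Nat.one_le_pow _ _ (by omega)
  have h2s : 1 ≤ 2 ^ s := Nat.one_le_two_pow
  obtain ⟨a, ha⟩ : ∃ a, a = q * (s + 6) := ⟨_, rfl⟩
  have ha1 : a ≤ 8 * q ^ (D + 1) := by
    rw [ha]
    calc q * (s + 6) ≤ q * (8 * q ^ D) := Nat.mul_le_mul_left _ (by omega)
      _ = 8 * q ^ (D + 1) := by ring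
  rw [← ha]
  -- everything is at most `2 ^ s` times a polynomial
  have h1 : 8 + 2 * a + (q + 2 ^ s) * (16 * a) + 2 ^ s * q ^ 2 ≤
      2 ^ s * (8 + 2 * a + (q + 1) * (16 * a) + q ^ 2) := by
    have e1 : 1 * 8 ≤ 2 ^ s * 8 := Nat.mul_le_mul_right _ h2s
    have e2 : 1 * (2 * a) ≤ 2 ^ s * (2 * a) := Nat.mul_le_mul_right _ h2s
    have e3 : 1 * (q * (16 * a)) ≤ 2 ^ s * (q * (16 * a)) := Nat.mul_le_mul_right _ h2s
    calc 8 + 2 * a + (q + 2 ^ s) * (16 * a) + 2 ^ s * q ^ 2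
        = 1 * 8 + 1 * (2 * a) + 1 * (q * (16 * a)) + 2 ^ s * (16 * a) + 2 ^ s * q ^ 2 := by ring
      _ ≤ 2 ^ s * 8 + 2 ^ s * (2 * a) + 2 ^ s * (q * (16 * a)) + 2 ^ s * (16 * a) +
          2 ^ s * q ^ 2 := by omega
      _ = 2 ^ s * (8 + 2 * a + (q + 1) * (16 * a) + q ^ 2) := by ring
  refine le_trans h1 ?_
  rw [pow_add]
  refine Nat.mul_le_mul_left _ ?_
  -- the polynomial is at most `2 ^ 9 q ^ (D + 2)`
  have h2 : 8 + 2 * a + (q + 1) * (16 * a) + q ^ 2 ≤ 2 ^ 9 * q ^ (D + 2) := by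
    have hP : 1 ≤ q ^ (D + 2) := Nat.one_le_pow _ _ (by omega)
    have e1 : q ^ 2 ≤ q ^ (D + 2) := Nat.pow_le_pow_right (by omega) (by omega)
    have e2 : q * a ≤ 8 * q ^ (D + 2) := by
      calc q * a ≤ q * (8 * q ^ (D + 1)) := Nat.mul_le_mul_left _ ha1
        _ = 8 * q ^ (D + 2) := by ring
    have e3 : 5 * a ≤ q * a := Nat.mul_le_mul_right _ (by omega)
    have e4 : (q + 1) * (16 * a) = 16 * (q * a) + 16 * a := by ring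
    rw [e4]
    omega
  refine le_trans h2 ?_
  -- and this is at most `2 ^ (q ^ 4)`
  have h3 : q ^ (D + 2) ≤ 2 ^ (q * (D + 2)) := by
    rw [pow_mul]
    exact Nat.pow_le_pow_left (Nat.lt_two_pow_self (n := q)).le _
  have h4 : 9 + q * (D + 2) ≤ q ^ 4 := by
    have e1 : q * (D + 2) ≤ q * q := Nat.mul_le_mul_left _ (by omega)
    have e2 : 5 * 5 ≤ q * q := Nat.mul_le_mul (by omega) (by omega)
    have e3 : 2 * (q * q) ≤ (q * q) * (q * q) := Nat.mul_le_mul_right _ (by omega)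
    have e4 : q ^ 4 = (q * q) * (q * q) := by ring
    rw [e4]
    omega
  calc 2 ^ 9 * q ^ (D + 2) ≤ 2 ^ 9 * 2 ^ (q * (D + 2)) := Nat.mul_le_mul_left _ h3
    _ = 2 ^ (9 + q * (D + 2)) := by rw [pow_add]
    _ ≤ 2 ^ (q ^ 4) := Nat.pow_le_pow_right (by norm_num) h4

theorem par_n6 (D : ℕ) : ∃ q₈ : ℕ, ∀ q s H : ℕ, q₈ ≤ q → s ≤ 2 * q ^ D → 4 * H ≤ q →
    240 * Real.exp (2 * H * ((s : ℝ) + 6)) * err H s (8 * q * (s + 6)) *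
      (2 ^ 2 ^ s) ^ (q ^ 2) ≤ (2 : ℝ) ^ 2 ^ (s + q ^ 4) := by
  refine ⟨D + 5, fun q s H hq hs hH => ?_⟩
  have h1 := parD_exp' (s := s) hH
  have h2 := parD_err (s := s) (by omega) hH
  have h3 : (240 : ℝ) ≤ 2 ^ 8 := by norm_num
  have h0 : 0 ≤ err H s (8 * q * (s + 6)) := by
    unfold err
    positivity
  calc 240 * Real.exp (2 * H * ((s : ℝ) + 6)) * err H s (8 * q * (s + 6)) *
        (2 ^ 2 ^ s) ^ (q ^ 2)
      ≤ 2 ^ 8 * 2 ^ (2 * (q * (s + 6))) * 2 ^ ((q + 2 ^ s) * (16 * (q * (s + 6)))) *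
        (2 ^ 2 ^ s) ^ (q ^ 2) := by gcongr
    _ = (2 : ℝ) ^ (8 + 2 * (q * (s + 6)) + (q + 2 ^ s) * (16 * (q * (s + 6))) +
        2 ^ s * q ^ 2) := by
      rw [← pow_mul, ← pow_add, ← pow_add, ← pow_add]
    _ ≤ (2 : ℝ) ^ 2 ^ (s + q ^ 4) := pow_le_pow_right₀ (by norm_num) (parD_num hq hs)

end Pool.Agent.Helper9.RS
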