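import Pool.Agent.Helper9.RS.ParA
import Pool.Agent.Helper9.RS.ParB
import Pool.Agent.Helper9.RS.ParC
import Pool.Agent.Helper9.RS.ParD

/-!
PROJECT RS, module RS-36. Parameters: conclusion.

`q₉` = a number larger than all the `q_i` of `ParA`, `ParC`, `ParD`, and `K = q^2`, `w = 20 s`, `hb = q`, `η = 1/q^40`, `g = q^(D+1)`, `δ = 1/q^20`, `m = 8 q (s+6)`, `G = 3 q^7`, `R = q^4`. `hyH`: `2H+1 ≤ q ≤ q^2`; `hHR`: `H ≤ q ≤ q^4`; `hRJ`: `q^4 ≤ 2^(q^4) ≤ J₁`; `hJ`: `four_J1`; `hδJ`: `100 q^20 ≤ 2^q ≤ J₁ ≤ 2^J₁`;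
`n2`: `2080 H ≤ 520 q ≤ q^2`; `n3`: `4160 H ≤ 1040 q ≤ q^2`. `par_K`: `2 K₀ (q + 1)/q^20 < 1` for large `q`. `par_z`: `q^2 ≤ 2^(2^s)`.
-/

set_option autoImplicit false

namespace Pool.Agent.Helper9.RS

open Finset

theorem num_of (D : ℕ) (hD : 10 ≤ D) : ∃ q₉ : ℕ, ∀ q s H Q : ℕ, q₉ ≤ q → q ^ D ≤ s →
    s ≤ 2 * q ^ D → 4 * H ≤ q → (Real.log q) ^ 2 / 4 - 1 ≤ (H : ℝ) → Q ≤ 2 ^ (q ^ 3) →
    Num H (q ^ 2) s Q (2 ^ (s + q ^ 4)) (2 ^ (s + 2 * q ^ 4)) (20 * s) (3 * q ^ 7) (q ^ 4) (q ^ 2)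
      (8 * q * (s + 6)) (q : ℝ) (1 / (q : ℝ) ^ 40) ((q : ℝ) ^ (D + 1)) (1 / (q : ℝ) ^ 20) := by
  obtain ⟨q₅, h5⟩ := par_n1 D hD
  obtain ⟨q₆, h6⟩ := par_n4 D hD
  obtain ⟨q₇, h7⟩ := par_n5
  obtain ⟨q₈, h8⟩ := par_n6 D
  refine ⟨q₅ + q₆ + q₇ + q₈ + 2000, fun q s H Q hq hs1 hs2 hH hHl hQ => ?_⟩
  have hqb : 2000 ≤ q := by omega
  have hqR : (2000 : ℝ) ≤ q := by exact_mod_cast hqb
  have hq0 : (0 : ℝ) < q := by linarith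
  have hq2 : 2000 * q ≤ q ^ 2 := by
    rw [sq]
    exact Nat.mul_le_mul_right _ hqb
  have hq4 : q ^ 2 ≤ q ^ 4 := Nat.pow_le_pow_right (by omega) (by omega)
  have hqD : q ≤ q ^ D := Nat.le_self_pow (by omega) q
  have hlt : s + 2 * q ^ 4 < 2 ^ (s + 2 * q ^ 4) := Nat.lt_two_pow_self
  refine ⟨by omega, by omega, by omega, ?_, by positivity, by positivity, ?_, ?_, by omega,
    by omega, ?_, ?_, ?_⟩
  · exact four_J1 s (q ^ 4) (by omega) (Nat.one_le_pow _ _ (by omega))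
  · have h1 : 7 + 20 * q ≤ 2 ^ (s + 2 * q ^ 4) := by omega
    have h2 : (q : ℝ) ≤ 2 ^ q := by exact_mod_cast (Nat.lt_two_pow_self (n := q)).le
    have h3 : (100 : ℝ) * (q : ℝ) ^ 20 ≤ 2 ^ 2 ^ (s + 2 * q ^ 4) := by
      calc (100 : ℝ) * (q : ℝ) ^ 20 ≤ 2 ^ 7 * (2 ^ q) ^ 20 := by
            gcongr
            norm_num
        _ = 2 ^ (7 + 20 * q) := by rw [← pow_mul, ← pow_add, mul_comm q 20]
        _ ≤ 2 ^ 2 ^ (s + 2 * q ^ 4) := pow_le_pow_right₀ (by norm_num) h1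
    rw [div_le_div_iff₀ (by positivity) (by positivity), one_mul]
    exact h3
  · exact h5 q s H (by omega) hs1 hH
  · exact h6 q s H Q (by omega) hs1 hHl hQ
  · exact h7 q s H (by omega) hH
  · exact h8 q s H (by omega) hs2 hH

theorem par_K (K₀ : ℝ) : ∃ q₁₀ : ℕ, ∀ q : ℕ, q₁₀ ≤ q →
    K₀ * (2 * (1 / (q : ℝ) ^ 20)) * ((q : ℝ) + 1) < 1 ∧ 2 * (1 / (q : ℝ) ^ 20) ≤ (1 : ℝ) ∧ 2 ≤ q := by
  obtain ⟨n, hn⟩ := exists_nat_gt (4 * K₀)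
  refine ⟨n + 2, fun q hq => ⟨?_, ?_, by omega⟩⟩
  · have hq2 : (2 : ℝ) ≤ q := by exact_mod_cast (by omega : 2 ≤ q)
    have hq0 : (0 : ℝ) < q := by linarith
    have hqn : (n : ℝ) ≤ q := by exact_mod_cast (by omega : n ≤ q)
    have h1 : 4 * K₀ < q := by linarith
    have h2 : (q : ℝ) ^ 2 ≤ (q : ℝ) ^ 20 := pow_le_pow_right₀ (by linarith) (by norm_num)
    have e : K₀ * (2 * (1 / (q : ℝ) ^ 20)) * ((q : ℝ) + 1) =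
        (K₀ * 2 * ((q : ℝ) + 1)) / (q : ℝ) ^ 20 := by ring
    rw [e, div_lt_one (by positivity)]
    refine lt_of_lt_of_le ?_ h2
    have h3 : 4 * K₀ * (q + 1) < q * (q + 1) := by
      apply mul_lt_mul_of_pos_right h1
      linarith
    nlinarith
  · have hq2 : (2 : ℝ) ≤ q := by exact_mod_cast (by omega : 2 ≤ q)
    have h1 : (2 : ℝ) ≤ (q : ℝ) ^ 20 := by
      calc (2 : ℝ) ≤ (2 : ℝ) ^ 20 := by norm_num
        _ ≤ (q : ℝ) ^ 20 := pow_le_pow_left₀ (by norm_num) hq2 20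
    have e : 2 * (1 / (q : ℝ) ^ 20) = 2 / (q : ℝ) ^ 20 := by ring
    rw [e, div_le_one (by linarith)]
    exact h1

theorem par_z (D q s : ℕ) (hq : 2 ≤ q) (hD : 1 ≤ D) (hs : q ^ D ≤ s) : q ^ 2 ≤ 2 ^ 2 ^ s := by
  have hqD : q ≤ q ^ D := Nat.le_self_pow (by omega) q
  have h1 : q - 1 < 2 ^ (q - 1) := Nat.lt_two_pow_self
  have h2 : 2 ^ q = 2 * 2 ^ (q - 1) := by
    rw [← pow_succ']
    congr 1
    omega
  have h3 : 2 * q ≤ 2 ^ s := by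
    calc 2 * q ≤ 2 ^ q := by omega
      _ ≤ 2 ^ s := Nat.pow_le_pow_right (by norm_num) (by omega)
  calc q ^ 2 ≤ (2 ^ q) ^ 2 := Nat.pow_le_pow_left (Nat.lt_two_pow_self (n := q)).le 2
    _ = 2 ^ (2 * q) := by rw [← pow_mul, mul_comm]
    _ ≤ 2 ^ 2 ^ s := Nat.pow_le_pow_right (by norm_num) h3

end Pool.Agent.Helper9.RS
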