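import Pool.Agent.Helper9.RS.Defs

/-!
PROJECT RS, module RS-31. Choice of the scale.

`C ≥ 0` (the sums are nonnegative) and we may replace `ε` by `min ε 1` (`log (log x) ≥ 1` for `x ≥ 16`). `D = max 10 ⌈60/ε⌉`. `r = 2 q^4 + 1`, `s_t = q^D + t r`, `t < T = q^D / r` (integer part, `≥ q^D/(2r)`); `2^(2^(s + 2 q^4) + 1) ≤ 2^(2^(s + r))`. The intervals `(2^(2^s_t), 2^(2^(s_t + r))]` are disjoint and contained in `(0, x]`, `x = 2^(2^(3 q^D))`, `log (log x) ≤ 3 q^D`, so the sum of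
the `SS A` over the `t` is `≤ C (3 q^D)^(1-ε)`, and one of them is `≤ C (3 q^D)^(1-ε) 2 r/q^D ≤ 18 C q^4 q^(-D ε) ≤ 18 C q^(-56) ≤ q^(-40)` for large `q`. The second bound: `SS A 0 x ≤ C (3 q^D)^(1-ε) ≤ 3 C q^D ≤ q^(D+1)`.
-/

set_option autoImplicit false

namespace Pool.Agent.Helper9.RS

open Finset

private lemma SS_nonneg' (A : Set ℕ) (X Y : ℕ) : 0 ≤ SS A X Y := by
  unfold SS
  exact Finset.sum_nonneg (fun n _ => by positivity)

private lemma SS_add' (A : Set ℕ) {X Y Z : ℕ} (h1 : X ≤ Y) (h2 : Y ≤ Z) :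
    SS A X Y + SS A Y Z = SS A X Z := by
  unfold SS
  rw [Finset.sum_filter, Finset.sum_filter, Finset.sum_filter]
  exact Finset.sum_Ioc_consecutive _ h1 h2

private lemma SS_mono_right' (A : Set ℕ) {X Y Z : ℕ} (h1 : X ≤ Y) (h2 : Y ≤ Z) :
    SS A X Y ≤ SS A X Z := by
  have := SS_add' A h1 h2
  have := SS_nonneg' A Y Z
  linarith

private lemma SS_mono_left' (A : Set ℕ) {X Y Z : ℕ} (h1 : X ≤ Y) (h2 : Y ≤ Z) :
    SS A Y Z ≤ SS A X Z := by
  have := SS_add' A h1 h2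
  have := SS_nonneg' A X Y
  linarith

private lemma loglog_sixteen : (1 : ℝ) ≤ Real.log (Real.log 16) := by
  have h2 : Real.log 16 = 4 * Real.log 2 := by
    rw [show (16 : ℝ) = 2 ^ 4 by norm_num, Real.log_pow]; norm_num
  have h3 := Real.log_two_gt_d9
  have h4 : Real.exp 1 ≤ Real.log 16 := by
    have := Real.exp_one_lt_d9
    rw [h2]; linarith
  have h5 := Real.log_le_log (Real.exp_pos 1) h4
  rwa [Real.log_exp] at h5

private lemma loglog_one_le {x : ℕ} (hx : 16 ≤ x) : (1 : ℝ) ≤ Real.log (Real.log x) := by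
  have h1 : (16 : ℝ) ≤ x := by exact_mod_cast hx
  have h2 : Real.log 16 ≤ Real.log x := Real.log_le_log (by norm_num) h1
  have h3 : (0 : ℝ) < Real.log 16 := Real.log_pos (by norm_num)
  exact loglog_sixteen.trans (Real.log_le_log h3 h2)

private lemma loglog_tower (m : ℕ) :
    Real.log (Real.log ((2 ^ 2 ^ m : ℕ) : ℝ)) ≤ m := by
  have h1 : Real.log ((2 ^ 2 ^ m : ℕ) : ℝ) = 2 ^ m * Real.log 2 := by
    push_cast
    rw [Real.log_pow]; push_cast; ring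
  rw [h1]
  have hl : (0 : ℝ) < Real.log 2 := Real.log_pos (by norm_num)
  have hl1 : Real.log 2 ≤ 1 := by linarith [Real.log_two_lt_d9]
  rw [Real.log_mul (by positivity) hl.ne', Real.log_pow]
  have h2 : Real.log (Real.log 2) ≤ 0 := Real.log_nonpos hl.le hl1
  have h3 : (m : ℝ) * Real.log 2 ≤ m * 1 := by
    exact mul_le_mul_of_nonneg_left hl1 (Nat.cast_nonneg m)
  linarith

private lemma tele (A : Set ℕ) (a r : ℕ) (T : ℕ) :
    ∑ t ∈ range T, SS A (2 ^ 2 ^ (a + t * r)) (2 ^ 2 ^ (a + (t + 1) * r)) =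
      SS A (2 ^ 2 ^ a) (2 ^ 2 ^ (a + T * r)) := by
  induction T with
  | zero =>
    simp [SS]
  | succ T ih =>
    rw [Finset.sum_range_succ, ih]
    apply SS_add'
    · apply Nat.pow_le_pow_right (by norm_num)
      apply Nat.pow_le_pow_right (by norm_num)
      omega
    · apply Nat.pow_le_pow_right (by norm_num)
      apply Nat.pow_le_pow_right (by norm_num)
      nlinarith

theorem scale (A : Set ℕ) (C ε : ℝ) (hε : 0 < ε)
    (hA : ∀ x : ℕ, 16 ≤ x → SS A 0 x ≤ C * (Real.log (Real.log x)) ^ (1 - ε)) :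
    ∃ D : ℕ, 10 ≤ D ∧ ∃ q₂ : ℕ, ∀ q : ℕ, q₂ ≤ q → ∃ s : ℕ, q ^ D ≤ s ∧ s ≤ 2 * q ^ D ∧
      SS A (2 ^ 2 ^ s) (2 ^ (2 ^ (s + 2 * q ^ 4) + 1)) ≤ 1 / (q : ℝ) ^ 40 ∧
      SS A 0 (2 ^ (2 ^ (s + 2 * q ^ 4) + 1)) ≤ (q : ℝ) ^ (D + 1) := by
  have hC : 0 ≤ C := by
    have h1 := hA 16 le_rfl
    have h2 := SS_nonneg' A 0 16
    have h3 : (0 : ℝ) < (Real.log (Real.log ((16 : ℕ) : ℝ))) ^ (1 - ε) := by
      apply Real.rpow_pos_of_pos
      have := loglog_one_le (le_refl 16)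
      linarith
    by_contra hneg
    push Not at hneg
    have := mul_neg_of_neg_of_pos hneg h3
    linarith
  set e : ℝ := min ε 1 with he
  have he0 : 0 < e := lt_min hε one_pos
  have he1 : e ≤ 1 := min_le_right _ _
  have heε : e ≤ ε := min_le_left _ _
  have hA' : ∀ x : ℕ, 16 ≤ x → SS A 0 x ≤ C * (Real.log (Real.log x)) ^ (1 - e) := by
    intro x hx
    refine (hA x hx).trans ?_
    apply mul_le_mul_of_nonneg_left _ hC
    exact Real.rpow_le_rpow_of_exponent_le (loglog_one_le hx) (by linarith)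
  refine ⟨max 10 ⌈60 / e⌉₊, le_max_left _ _, max 2 ⌈12 * C⌉₊, ?_⟩
  intro q hq
  set D : ℕ := max 10 ⌈60 / e⌉₊ with hD
  have hD10 : 10 ≤ D := le_max_left _ _
  have hDe : 60 ≤ (D : ℝ) * e := by
    have h1 : 60 / e ≤ (D : ℝ) := by
      refine (Nat.le_ceil _).trans ?_
      exact_mod_cast le_max_right _ _
    rwa [div_le_iff₀ he0] at h1
  have hq2 : 2 ≤ q := (le_max_left _ _).trans hq
  have hqC : 12 * C ≤ (q : ℝ) := by
    refine (Nat.le_ceil _).trans ?_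
    exact_mod_cast (le_max_right _ _).trans hq
  have hqR : (2 : ℝ) ≤ q := by exact_mod_cast hq2
  have hq0 : (0 : ℝ) < q := by linarith
  have hq1 : (1 : ℝ) ≤ q := by linarith
  set r : ℕ := 2 * q ^ 4 + 1 with hr
  set T : ℕ := q ^ D / r with hT
  have hrpos : 0 < r := by positivity
  have hrD : r ≤ q ^ D := by
    have h1 : q ^ 10 ≤ q ^ D := Nat.pow_le_pow_right (by omega) hD10
    have h2 : 2 * q ^ 4 + 1 ≤ q ^ 10 := by
      have h3 : q ^ 10 = q ^ 4 * q ^ 6 := by ring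
      have h4 : 2 ^ 6 ≤ q ^ 6 := Nat.pow_le_pow_left hq2 6
      have h5 : 1 ≤ q ^ 4 := Nat.one_le_pow _ _ (by omega)
      rw [h3]; nlinarith
    omega
  have hTr : T * r ≤ q ^ D := Nat.div_mul_le_self _ _
  have hT1 : 1 ≤ T := (Nat.one_le_div_iff hrpos).2 hrD
  have hTr2 : q ^ D ≤ 2 * r * T := by
    have h1 : q ^ D < r * (T + 1) := by
      have := Nat.lt_mul_div_succ (q ^ D) hrpos
      simpa [hT] using this
    nlinarith
  -- the large interval
  set x : ℕ := 2 ^ 2 ^ (2 * q ^ D) with hx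
  have hx16 : 16 ≤ x := by
    have h1 : 1 ≤ q ^ D := Nat.one_le_pow _ _ (by omega)
    have h2 : 2 ^ 2 ≤ 2 ^ (2 * q ^ D) := Nat.pow_le_pow_right (by norm_num) (by omega)
    have h3 : 2 ^ (2 ^ 2) ≤ 2 ^ 2 ^ (2 * q ^ D) := Nat.pow_le_pow_right (by norm_num) h2
    simpa using h3
  have hll : Real.log (Real.log x) ≤ 2 * (q : ℝ) ^ D := by
    have := loglog_tower (2 * q ^ D)
    rw [hx]
    refine this.trans (le_of_eq ?_)
    push_cast; ring
  have hqD1 : (1 : ℝ) ≤ (q : ℝ) ^ D := one_le_pow₀ hq1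
  have hmain : SS A 0 x ≤ 2 * C * ((q : ℝ) ^ D * (q : ℝ) ^ (-(60 : ℝ))) := by
    refine (hA' x hx16).trans ?_
    have h1 : (Real.log (Real.log x)) ^ (1 - e) ≤ (2 * (q : ℝ) ^ D) ^ (1 - e) := by
      apply Real.rpow_le_rpow _ hll (by linarith)
      linarith [loglog_one_le hx16]
    have h2 : (2 * (q : ℝ) ^ D) ^ (1 - e) ≤ 2 * ((q : ℝ) ^ D * (q : ℝ) ^ (-(60 : ℝ))) := by
      rw [Real.mul_rpow (by norm_num) (by positivity)]
      have h3 : (2 : ℝ) ^ (1 - e) ≤ 2 := by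
        have := Real.rpow_le_rpow_of_exponent_le (show (1 : ℝ) ≤ 2 by norm_num)
          (show 1 - e ≤ 1 by linarith)
        simpa using this
      have h4 : ((q : ℝ) ^ D) ^ (1 - e) = (q : ℝ) ^ D * (q : ℝ) ^ (-((D : ℝ) * e)) := by
        rw [← Real.rpow_natCast, ← Real.rpow_mul hq0.le, ← Real.rpow_add hq0]
        congr 1; ring
      have h5 : (q : ℝ) ^ (-((D : ℝ) * e)) ≤ (q : ℝ) ^ (-(60 : ℝ)) :=
        Real.rpow_le_rpow_of_exponent_le hq1 (by linarith)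
      rw [h4]
      have h6 : (q : ℝ) ^ D * (q : ℝ) ^ (-((D : ℝ) * e)) ≤
          (q : ℝ) ^ D * (q : ℝ) ^ (-(60 : ℝ)) :=
        mul_le_mul_of_nonneg_left h5 (by positivity)
      have h7 : 0 ≤ (q : ℝ) ^ D * (q : ℝ) ^ (-((D : ℝ) * e)) := by positivity
      exact mul_le_mul h3 h6 h7 (by norm_num)
    calc C * (Real.log (Real.log x)) ^ (1 - e)
        ≤ C * (2 * ((q : ℝ) ^ D * (q : ℝ) ^ (-(60 : ℝ)))) :=
          mul_le_mul_of_nonneg_left (h1.trans h2) hC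
      _ = 2 * C * ((q : ℝ) ^ D * (q : ℝ) ^ (-(60 : ℝ))) := by ring
  have hq60 : (q : ℝ) ^ (-(60 : ℝ)) = 1 / (q : ℝ) ^ 60 := by
    rw [Real.rpow_neg hq0.le, one_div]
    congr 1
    exact_mod_cast Real.rpow_natCast (q : ℝ) 60
  have hsum : ∑ t ∈ range T, SS A (2 ^ 2 ^ (q ^ D + t * r)) (2 ^ 2 ^ (q ^ D + (t + 1) * r)) ≤
      SS A 0 x := by
    rw [tele]
    refine (SS_mono_left' A (Nat.zero_le _) ?_).trans (SS_mono_right' A (Nat.zero_le _) ?_)
    · apply Nat.pow_le_pow_right (by norm_num)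
      apply Nat.pow_le_pow_right (by norm_num)
      omega
    · rw [hx]
      apply Nat.pow_le_pow_right (by norm_num)
      apply Nat.pow_le_pow_right (by norm_num)
      omega
  -- some `t` is good
  have hex : ∃ t ∈ range T, SS A (2 ^ 2 ^ (q ^ D + t * r)) (2 ^ 2 ^ (q ^ D + (t + 1) * r)) ≤
      1 / (q : ℝ) ^ 40 := by
    by_contra hno
    push Not at hno
    have h1 : (T : ℝ) * (1 / (q : ℝ) ^ 40) <
        ∑ t ∈ range T, SS A (2 ^ 2 ^ (q ^ D + t * r)) (2 ^ 2 ^ (q ^ D + (t + 1) * r)) := by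
      have h2 : ∑ _t ∈ range T, (1 / (q : ℝ) ^ 40) <
          ∑ t ∈ range T, SS A (2 ^ 2 ^ (q ^ D + t * r)) (2 ^ 2 ^ (q ^ D + (t + 1) * r)) :=
        Finset.sum_lt_sum_of_nonempty ⟨0, Finset.mem_range.2 hT1⟩ hno
      simpa using h2
    have h3 : (T : ℝ) * (1 / (q : ℝ) ^ 40) < 2 * C * ((q : ℝ) ^ D * (1 / (q : ℝ) ^ 60)) := by
      rw [← hq60]; linarith
    have h4 : (q : ℝ) ^ D ≤ 2 * r * T := by exact_mod_cast hTr2
    have h5 : (r : ℝ) ≤ 3 * (q : ℝ) ^ 4 := by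
      have : (1 : ℝ) ≤ (q : ℝ) ^ 4 := one_le_pow₀ hq1
      rw [hr]; push_cast; linarith
    have hT0 : (0 : ℝ) < T := by exact_mod_cast hT1
    have h6 : (q : ℝ) ^ D ≤ 6 * (q : ℝ) ^ 4 * T := by
      have : 2 * (r : ℝ) * T ≤ 2 * (3 * (q : ℝ) ^ 4) * T := by
        apply mul_le_mul_of_nonneg_right _ hT0.le
        linarith
      linarith
    have h7 : 2 * C * ((q : ℝ) ^ D * (1 / (q : ℝ) ^ 60)) ≤
        2 * C * (6 * (q : ℝ) ^ 4 * T * (1 / (q : ℝ) ^ 60)) := by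
      apply mul_le_mul_of_nonneg_left _ (by linarith)
      exact mul_le_mul_of_nonneg_right h6 (by positivity)
    have h8 : 2 * C * (6 * (q : ℝ) ^ 4 * T * (1 / (q : ℝ) ^ 60)) =
        (T : ℝ) * (1 / (q : ℝ) ^ 40) * (12 * C / (q : ℝ) ^ 16) := by
      field_simp
      ring
    have h9 : 12 * C / (q : ℝ) ^ 16 ≤ 1 := by
      rw [div_le_one (by positivity)]
      refine hqC.trans ?_
      exact le_self_pow₀ hq1 (by norm_num)
    have h10 : (T : ℝ) * (1 / (q : ℝ) ^ 40) * (12 * C / (q : ℝ) ^ 16) ≤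
        (T : ℝ) * (1 / (q : ℝ) ^ 40) * 1 :=
      mul_le_mul_of_nonneg_left h9 (by positivity)
    linarith
  obtain ⟨t, ht, hgood⟩ := hex
  have htT : t < T := Finset.mem_range.1 ht
  have htr : (t + 1) * r ≤ q ^ D := (Nat.mul_le_mul_right r (by omega)).trans hTr
  have htr' : t * r + r ≤ q ^ D := by
    have : (t + 1) * r = t * r + r := by ring
    omega
  have hend : 2 ^ (2 ^ (q ^ D + t * r + 2 * q ^ 4) + 1) ≤ 2 ^ 2 ^ (q ^ D + (t + 1) * r) := by
    apply Nat.pow_le_pow_right (by norm_num)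
    have h1 : q ^ D + (t + 1) * r = (q ^ D + t * r + 2 * q ^ 4) + 1 := by
      rw [hr]; ring
    rw [h1, pow_succ 2 (q ^ D + t * r + 2 * q ^ 4)]
    have h2 : 1 ≤ 2 ^ (q ^ D + t * r + 2 * q ^ 4) := Nat.one_le_two_pow
    omega
  refine ⟨q ^ D + t * r, by omega, by omega, ?_, ?_⟩
  · refine le_trans (SS_mono_right' A ?_ hend) hgood
    apply Nat.pow_le_pow_right (by norm_num)
    have h1 : 2 ^ (q ^ D + t * r) ≤ 2 ^ (q ^ D + t * r + 2 * q ^ 4) :=
      Nat.pow_le_pow_right (by norm_num) (by omega)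
    omega
  · have h1 : SS A 0 (2 ^ (2 ^ (q ^ D + t * r + 2 * q ^ 4) + 1)) ≤ SS A 0 x := by
      apply SS_mono_right' A (Nat.zero_le _)
      refine hend.trans ?_
      rw [hx]
      apply Nat.pow_le_pow_right (by norm_num)
      apply Nat.pow_le_pow_right (by norm_num)
      omega
    refine h1.trans (hmain.trans ?_)
    rw [hq60]
    have h2 : (q : ℝ) ^ D * (1 / (q : ℝ) ^ 60) ≤ (q : ℝ) ^ D * 1 := by
      apply mul_le_mul_of_nonneg_left _ (by positivity)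
      rw [div_le_one (by positivity)]
      exact one_le_pow₀ hq1
    calc 2 * C * ((q : ℝ) ^ D * (1 / (q : ℝ) ^ 60)) ≤ 2 * C * ((q : ℝ) ^ D * 1) :=
          mul_le_mul_of_nonneg_left h2 (by linarith)
      _ ≤ q * (q : ℝ) ^ D := by
          have h3 : 2 * C ≤ q := by linarith
          have := mul_le_mul_of_nonneg_right h3 (show (0 : ℝ) ≤ (q : ℝ) ^ D by positivity)
          linarith
      _ = (q : ℝ) ^ (D + 1) := by ring

end Pool.Agent.Helper9.RS
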