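import Pool.Agent.Helper9.RS.Core
import Pool.Agent.Helper9.RS.Determ
import Pool.Agent.Helper9.RS.GoodQ
import Pool.Agent.Helper9.RS.ClsExists
import Pool.Agent.Helper9.RS.Scale
import Pool.Agent.Helper9.RS.ParE
import Pool.Agent.Helper9.Fib.IrrSet

/-!
PROJECT RS, module RS-38. The theorem.

`A = range n`, `0 ∉ A`, infinite; `∑' k, 1/fib (n k) = ∑' m, if m ∈ A then 1/fib m else 0` (`n` injective; `Function.Injective.tsum_eq`, as in `Pool/Agent/Results/MP_175197_nt/SummableReciprocals.lean`), `SS A 0 x = ∑_{k ≤ x, n k ≤ x} 1/n k` (`k < n k` since `n` is strictly increasing with positive values). If `∑_{m ∈ A} 1/m` converges: `Fib.irrational_set`. Otherwise suppose the sum is `u/v`; `determinism` gives `K₀`, `scale` gives `D`, `q₂`;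
let `q*` be larger than `q₁` (`cls_exists`), `q₂`, `q₃` (`sp_of D`), `q₄` (`hh_q D`), `q₉` (`num_of D`), `q₁₀` (`par_K K₀`); `good_q` with `B₀ = q*` gives `q ≥ p^k ≥ q*`; `H = p^k/4`: `4H ≤ p^k ≤ q`, `H ≥ p^k/4 - 1 ≥ (log q)^2/4 - 1`; `core` with `s` from `scale`; `determinism` with `δ := 2/q^20`, `B := q` gives `a(N₁) = a(N₀)`, a contradiction.
-/

set_option autoImplicit false

namespace Pool.Agent.Helper9.RS

open Finset

open Classical in
theorem irrational_set_of_log_log (A : Set ℕ) (h0 : 0 ∉ A) (hinf : A.Infinite) (C ε : ℝ)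
    (hε : 0 < ε)
    (hA : ∀ x : ℕ, 16 ≤ x → SS A 0 x ≤ C * (Real.log (Real.log x)) ^ (1 - ε)) :
    Irrational (∑' m : ℕ, if m ∈ A then 1 / (Nat.fib m : ℝ) else 0) := by
  by_cases hs : Summable (fun m : ℕ => if m ∈ A then 1 / (m : ℝ) else 0)
  · refine Fib.irrational_set A h0 hinf ?_
    refine hs.congr fun m => ?_
    unfold Fib.wA
    split_ifs <;> rfl
  by_contra hirr
  obtain ⟨r, hr⟩ : ∃ r : ℚ, (r : ℝ) = ∑' m : ℕ, if m ∈ A then 1 / (Nat.fib m : ℝ) else 0 := by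
    unfold Irrational at hirr
    push Not at hirr
    exact hirr
  have hY : (∑' n : ℕ, if n ∈ A then 1 / (Nat.fib n : ℝ) else 0) = (r.num : ℝ) / (r.den : ℝ) := by
    rw [← hr]
    exact_mod_cast (Rat.num_div_den r).symm
  obtain ⟨K₀, hK₀, hdet⟩ := determinism A h0 r.num r.den r.den_pos hY
  obtain ⟨D, hD, q₂, hq₂⟩ := scale A C ε hε hA
  obtain ⟨q₁, hq₁⟩ := cls_exists
  obtain ⟨q₃, hq₃⟩ := sp_of D hD
  obtain ⟨q₄, hq₄⟩ := hh_q D
  obtain ⟨q₉, hq₉⟩ := num_of D hD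
  obtain ⟨q₁₀, hq₁₀⟩ := par_K K₀
  obtain ⟨q, hqA, p, k, hp, hp2, hk, hpk, hpk1, hB, hlog, huniq⟩ :=
    good_q A h0 hs (q₁ + q₂ + q₃ + q₄ + q₉ + q₁₀ + 1)
  have hq0 : 0 < q := Nat.pos_of_ne_zero fun h => h0 (h ▸ hqA)
  have hpkq : p ^ k ≤ q := Nat.le_of_dvd hq0 hpk
  obtain ⟨Q, c₁, c₀, hQ0, hQ, hQp, hC⟩ :=
    hq₁ A q p k (by omega) hqA hp hp2 hk hpk hpk1 huniq
  obtain ⟨s, hs1, hs2, hη, hg⟩ := hq₂ q (by omega)
  have hSP := hq₃ q s Q (by omega) hs1 hs2 hQ0 hQ hQp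
  obtain ⟨hK1, hK2, hq2⟩ := hq₁₀ q (by omega)
  have hH4 : 4 * (p ^ k / 4) ≤ q := (Nat.mul_div_le _ _).trans hpkq
  have hHlog : (Real.log q) ^ 2 / 4 - 1 ≤ ((p ^ k / 4 : ℕ) : ℝ) := by
    have h1 : p ^ k ≤ 4 * (p ^ k / 4) + 3 := by omega
    have h2 : ((p ^ k : ℕ) : ℝ) ≤ 4 * ((p ^ k / 4 : ℕ) : ℝ) + 3 := by exact_mod_cast h1
    push_cast at h2 ⊢
    linarith
  have hN := hq₉ q s (p ^ k / 4) Q (by omega) hs1 hs2 hH4 hHlog hQ
  obtain ⟨N₁, N₀, hN1, hN0, hag, hone, ha1, ha0, ht1, ht0, hx1, hx0⟩ :=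
    core hC hSP hN h0 (par_z D q s hq2 (by omega) hs1)
      (fun n hn hw => hq₄ q s n _ (by omega) hs2 hn hw) hη hg
  have hq20 : (0 : ℝ) ≤ 1 / (q : ℝ) ^ 20 := by positivity
  have heq := hdet (p ^ k / 4) N₁ N₀ q (2 * (1 / (q : ℝ) ^ 20)) hN1 hN0 (Nat.cast_nonneg q)
    (by positivity) hK2 hag (by exact_mod_cast ha1) (by exact_mod_cast ha0) ht1 ht0
    (hx1.trans (by linarith)) (hx0.trans (by linarith)) hK1
  rw [heq, sub_self, abs_zero] at hone
  exact zero_ne_one hone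

theorem irrational_of_log_log (n : ℕ → ℕ) (hn : StrictMono n) (hpos : ∀ k, 0 < n k) (C ε : ℝ)
    (hε : 0 < ε)
    (h : ∀ x : ℕ, 16 ≤ x → ∑ k ∈ (Finset.range (x + 1)).filter (fun k => n k ≤ x), 1 / (n k : ℝ) ≤
      C * (Real.log (Real.log x)) ^ (1 - ε)) :
    Irrational (∑' k, 1 / (Nat.fib (n k) : ℝ)) := by
  classical
  obtain ⟨A, hA⟩ : ∃ A : Set ℕ, A = Set.range n := ⟨_, rfl⟩
  have hinj : Function.Injective n := hn.injective
  have hmem : ∀ k, n k ∈ A := fun k => hA ▸ Set.mem_range_self k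
  have h0 : 0 ∉ A := by
    rw [hA]
    rintro ⟨k, hk⟩
    have := hpos k
    omega
  have hinf : A.Infinite := hA ▸ Set.infinite_range_of_injective hinj
  have hge : ∀ k, k ≤ n k := fun k => hn.le_apply
  have hSS : ∀ x : ℕ, 16 ≤ x → SS A 0 x ≤ C * (Real.log (Real.log x)) ^ (1 - ε) := by
    intro x hx
    refine le_trans (le_of_eq ?_) (h x hx)
    unfold SS
    have hinj2 : Set.InjOn n ((((Finset.range (x + 1)).filter (fun k => n k ≤ x)) : Finset ℕ) : Set ℕ) :=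
      fun a _ b _ hab => hinj hab
    rw [← Finset.sum_image (f := fun m : ℕ => 1 / (m : ℝ)) hinj2]
    refine Finset.sum_congr ?_ fun m _ => rfl
    ext m
    rw [Finset.mem_filter, Finset.mem_Ioc, Finset.mem_image]
    constructor
    · rintro ⟨⟨hm1, hm2⟩, hm3⟩
      rw [hA] at hm3
      obtain ⟨k, rfl⟩ := hm3
      refine ⟨k, ?_, rfl⟩
      rw [Finset.mem_filter, Finset.mem_range]
      have := hge k
      exact ⟨by omega, hm2⟩
    · rintro ⟨k, hk, rfl⟩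
      rw [Finset.mem_filter, Finset.mem_range] at hk
      exact ⟨⟨hpos k, hk.2⟩, hmem k⟩
  have h1 := irrational_set_of_log_log A h0 hinf C ε hε hSS
  have h2 : ∑' m, (if m ∈ A then 1 / (Nat.fib m : ℝ) else 0) = ∑' k, 1 / (Nat.fib (n k) : ℝ) := by
    rw [← hinj.tsum_eq]
    · apply tsum_congr
      intro k
      rw [if_pos (hmem k)]
    · intro m hm
      rw [Function.mem_support] at hm
      by_contra hcon
      rw [if_neg (fun h' => hcon (hA ▸ h'))] at hm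
      exact hm rfl
  rw [← h2]
  exact h1

end Pool.Agent.Helper9.RS
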