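import Pool.Agent.Helper9.RS.Defs

/-!
PROJECT RS, module RS-08. Calculus of the logarithmic measure.

Unfold `mu`. The blocks `[2^j, 2^(j+1))`, `J₀ ≤ j < J₁`, consist of `N` with `2^J₀ ≤ N < 2^J₁`. `mu_markov`: for every block, `t * #{N : E N ∧ t ≤ ∑_{x ∈ S, D x N} c x} ≤ ∑_{N, E N} ∑_{x ∈ S, D x N} c x = ∑_{x ∈ S} c x #{N : E N ∧ D x N}`. `mu_union` is `mu_markov` with `c = 1`, `t = 1`.
`mu_types`: `Finset.card_eq_sum_card_fiberwise` (or `card_biUnion`) in every block.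
-/

set_option autoImplicit false

namespace Pool.Agent.Helper9.RS

open Finset

theorem mu_nonneg (J₀ J₁ : ℕ) (E : ℕ → Prop) : 0 ≤ mu J₀ J₁ E := by
  unfold mu
  exact sum_nonneg fun j _ => by positivity

private theorem Mu_eq (J₀ J₁ : ℕ) (E : ℕ → Prop) [DecidablePred E] :
    mu J₀ J₁ E = ∑ j ∈ Ico J₀ J₁, ((((Ico (2 ^ j) (2 ^ (j + 1))).filter E).card : ℕ) : ℝ) / 2 ^ j := by
  unfold mu
  refine sum_congr rfl fun j _ => ?_
  congr 2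
  refine congrArg card ?_
  ext N
  simp only [mem_filter]

private theorem Mu_card_le (J₀ J₁ : ℕ) (E F : ℕ → Prop)
    (h : ∀ j ∈ Ico J₀ J₁, ∀ N ∈ Ico (2 ^ j) (2 ^ (j + 1)), E N → F N) : mu J₀ J₁ E ≤ mu J₀ J₁ F := by
  classical
  rw [Mu_eq J₀ J₁ E, Mu_eq J₀ J₁ F]
  refine sum_le_sum fun j hj => ?_
  have h1 : ((Ico (2 ^ j) (2 ^ (j + 1))).filter E).card ≤
      ((Ico (2 ^ j) (2 ^ (j + 1))).filter F).card := by
    refine card_le_card fun N hN => ?_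
    rw [mem_filter] at hN ⊢
    exact ⟨hN.1, h j hj N hN.1 hN.2⟩
  have h2 : (0 : ℝ) < 2 ^ j := by positivity
  have h3 := (Nat.cast_le (α := ℝ)).2 h1
  exact div_le_div_of_nonneg_right h3 h2.le

theorem mu_mono (J₀ J₁ : ℕ) (E F : ℕ → Prop) (h : ∀ N, 2 ^ J₀ ≤ N → N < 2 ^ J₁ → E N → F N) :
    mu J₀ J₁ E ≤ mu J₀ J₁ F := by
  refine Mu_card_le J₀ J₁ E F fun j hj N hN hE => ?_
  rw [mem_Ico] at hj hN
  exact h N ((Nat.pow_le_pow_right (by norm_num) hj.1).trans hN.1)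
    (hN.2.trans_le (Nat.pow_le_pow_right (by norm_num) hj.2)) hE

theorem mu_or (J₀ J₁ : ℕ) (E F : ℕ → Prop) :
    mu J₀ J₁ (fun N => E N ∨ F N) ≤ mu J₀ J₁ E + mu J₀ J₁ F := by
  classical
  rw [Mu_eq J₀ J₁ (fun N => E N ∨ F N), Mu_eq J₀ J₁ E, Mu_eq J₀ J₁ F, ← sum_add_distrib]
  refine sum_le_sum fun j _ => ?_
  rw [← add_div]
  have h2 : (0 : ℝ) < 2 ^ j := by positivity
  refine div_le_div_of_nonneg_right ?_ h2.le
  rw [filter_or]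
  exact_mod_cast card_union_le _ _

theorem mu_split (J₀ J₁ : ℕ) (E F : ℕ → Prop) :
    mu J₀ J₁ E = mu J₀ J₁ (fun N => E N ∧ F N) + mu J₀ J₁ (fun N => E N ∧ ¬ F N) := by
  classical
  rw [Mu_eq J₀ J₁ E, Mu_eq J₀ J₁ (fun N => E N ∧ F N), Mu_eq J₀ J₁ (fun N => E N ∧ ¬ F N), ← sum_add_distrib]
  refine sum_congr rfl fun j _ => ?_
  rw [← add_div]
  congr 1
  have h1 : ((Ico (2 ^ j) (2 ^ (j + 1))).filter E).card =
      ((Ico (2 ^ j) (2 ^ (j + 1))).filter (fun N => E N ∧ F N)).card +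
        ((Ico (2 ^ j) (2 ^ (j + 1))).filter (fun N => E N ∧ ¬ F N)).card := by
    rw [← filter_filter, ← filter_filter]
    exact (card_filter_add_card_filter_not _).symm
  exact_mod_cast h1

open Classical in
theorem mu_markov {ι : Type*} (J₀ J₁ : ℕ) (S : Finset ι) (c : ι → ℝ) (hc : ∀ x ∈ S, 0 ≤ c x)
    (D : ι → ℕ → Prop) (E : ℕ → Prop) (t : ℝ) (ht : 0 < t) :
    mu J₀ J₁ (fun N => E N ∧ t ≤ ∑ x ∈ S with D x N, c x) ≤
      (∑ x ∈ S, c x * mu J₀ J₁ (fun N => E N ∧ D x N)) / t := by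
  have h00 : ∀ x ∈ S, c x * mu J₀ J₁ (fun N => E N ∧ D x N) = ∑ j ∈ Ico J₀ J₁, c x *
      (((((Ico (2 ^ j) (2 ^ (j + 1))).filter (fun N => E N ∧ D x N)).card : ℕ) : ℝ) / 2 ^ j) := by
    intro x _
    rw [Mu_eq J₀ J₁ (fun N => E N ∧ D x N)]
    exact mul_sum _ _ _
  rw [le_div_iff₀ ht, sum_congr rfl h00, sum_comm, Mu_eq J₀ J₁ (fun N => E N ∧ t ≤ ∑ x ∈ S with D x N, c x), sum_mul]
  refine sum_le_sum fun j _ => ?_
  obtain ⟨I, hI⟩ : ∃ I, I = Ico (2 ^ j) (2 ^ (j + 1)) := ⟨_, rfl⟩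
  rw [← hI]
  have h1 : ((((I.filter (fun N => E N ∧ t ≤ ∑ x ∈ S with D x N, c x)).card : ℕ) : ℝ)) * t ≤
      ∑ x ∈ S, c x * ((((I.filter (fun N => E N ∧ D x N)).card : ℕ) : ℝ)) := by
    have h2 : ∀ x ∈ S, c x * ((((I.filter (fun N => E N ∧ D x N)).card : ℕ) : ℝ)) =
        ∑ N ∈ I.filter (fun N => E N), (if D x N then c x else 0) := by
      intro x _
      rw [← filter_filter, ← sum_filter, sum_const, nsmul_eq_mul, mul_comm]
    rw [sum_congr rfl h2, sum_comm]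
    have h3 : ((((I.filter (fun N => E N ∧ t ≤ ∑ x ∈ S with D x N, c x)).card : ℕ) : ℝ)) * t =
        ∑ N ∈ I.filter (fun N => E N), (if t ≤ ∑ x ∈ S with D x N, c x then t else 0) := by
      rw [← filter_filter, ← sum_filter, sum_const, nsmul_eq_mul]
    rw [h3]
    refine sum_le_sum fun N _ => ?_
    rw [← sum_filter]
    split_ifs with h4
    · exact h4
    · exact sum_nonneg fun x hx => hc x (mem_of_mem_filter x hx)
  have h5 : (0 : ℝ) < 2 ^ j := by positivity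
  have h6 : ∑ x ∈ S, c x * (((((I.filter (fun N => E N ∧ D x N)).card : ℕ) : ℝ)) / 2 ^ j) =
      (∑ x ∈ S, c x * ((((I.filter (fun N => E N ∧ D x N)).card : ℕ) : ℝ))) / 2 ^ j := by
    rw [sum_div]
    exact sum_congr rfl fun x _ => (mul_div_assoc _ _ _).symm
  rw [h6, div_mul_eq_mul_div]
  exact div_le_div_of_nonneg_right h1 h5.le

theorem mu_union {ι : Type*} (J₀ J₁ : ℕ) (S : Finset ι) (D : ι → ℕ → Prop) (E : ℕ → Prop) :
    mu J₀ J₁ (fun N => E N ∧ ∃ x ∈ S, D x N) ≤ ∑ x ∈ S, mu J₀ J₁ (fun N => E N ∧ D x N) := by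
  classical
  have h1 := mu_markov J₀ J₁ S (fun _ => 1) (fun _ _ => zero_le_one) D E 1 one_pos
  simp only [one_mul, div_one] at h1
  refine (mu_mono J₀ J₁ _ _ ?_).trans h1
  rintro N - - ⟨hE, x, hx, hD⟩
  refine ⟨hE, ?_⟩
  rw [sum_const, nsmul_eq_mul, mul_one]
  have h2 : 0 < (S.filter (fun x => D x N)).card := card_pos.2 ⟨x, mem_filter.2 ⟨hx, hD⟩⟩
  have h3 : 1 ≤ (S.filter (fun x => D x N)).card := h2
  exact_mod_cast h3

theorem mu_types {τ : Type*} (J₀ J₁ : ℕ) (Θ : Finset τ) (f : ℕ → τ) (E : ℕ → Prop) :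
    ∑ θ ∈ Θ, mu J₀ J₁ (fun N => E N ∧ f N = θ) = mu J₀ J₁ (fun N => E N ∧ f N ∈ Θ) := by
  classical
  have h0 : ∀ θ ∈ Θ, mu J₀ J₁ (fun N => E N ∧ f N = θ) = ∑ j ∈ Ico J₀ J₁,
      ((((Ico (2 ^ j) (2 ^ (j + 1))).filter (fun N => E N ∧ f N = θ)).card : ℕ) : ℝ) / 2 ^ j :=
    fun θ _ => Mu_eq J₀ J₁ (fun N => E N ∧ f N = θ)
  rw [sum_congr rfl h0, sum_comm, Mu_eq J₀ J₁ (fun N => E N ∧ f N ∈ Θ)]
  refine sum_congr rfl fun j _ => ?_
  rw [← sum_div]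
  congr 1
  have h1 : ((Ico (2 ^ j) (2 ^ (j + 1))).filter (fun N => E N ∧ f N ∈ Θ)).card =
      ∑ θ ∈ Θ, ((Ico (2 ^ j) (2 ^ (j + 1))).filter (fun N => E N ∧ f N = θ)).card := by
    rw [card_eq_sum_card_fiberwise (f := f) (t := Θ)]
    · refine sum_congr rfl fun θ hθ => ?_
      congr 1
      ext N
      simp only [mem_filter]
      constructor
      · rintro ⟨⟨h2, h3, -⟩, h4⟩
        exact ⟨h2, h3, h4⟩
      · rintro ⟨h2, h3, h4⟩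
        exact ⟨⟨h2, h3, by rw [h4]; exact hθ⟩, h4⟩
    · intro N hN
      exact (mem_filter.1 hN).2.2
  rw [h1]
  push_cast
  rfl

end Pool.Agent.Helper9.RS
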