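import Pool.Agent.Helper9.RS.Thin
import Pool.Agent.Helper9.RS.CntBig
import Pool.Agent.Helper9.RS.CntSmall
import Pool.Agent.Helper9.RS.CntTriv

/-!
PROJECT RS, module RS-12. The measure of the thin `N` with `n ∣ N + i`.

`thin_gcd`: `g = gcd n Q` divides `n` and `Q`, `N ≡ c` modulo `Q`.
`mu_dvd`: let `b = Nat.clog 2 n` (`2^(b-1) < n ≤ 2^b`), `JW = 2^s (16(s+6)+20) + lq ≤ 64 (s+6) 2^s`. Split the `j ∈ [J₀, J₁)`:
(i) `j ≥ b + JW`: `cnt_big` (`n Q 2^(...) ≤ 2^b 2^lq 2^(...) ≤ 2^j`): `#/2^j ≤ 2 g V hh/(n Q)`, at most `J₁` values of `j`: total `≤ 2 J₁ V g hh/(n Q) = 8 mu0 g hh/n`.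
(ii) `b + 64(s+6) ≤ j < b + JW`: `t = (j - b)/(64(s+6))` (integer part), `1 ≤ t ≤ 2^s`, `v = j - b`: `cnt_small`: `#/2^j ≤ 6 hh y/(n t)`. Every `t` occurs for at most `64(s+6)` values of `j`, `∑_{t ≤ 2^s} 1/t ≤ s + 1`: total `≤ 384 (s+6)^2 y hh/n`.
(iii) `b - 2 ≤ j < b + 64(s+6)`: `cnt_four`: at most `64(s+6) + 2` values, total `≤ 4 (64(s+6)+2)/n ≤ 16 (s+6)^2 y hh/n` (`s ≥ 5`, `y ≥ 2`).
(iv) `j < b - 2`: `2^(j+2) ≤ 2^(b-1) < n`: the count is `0` (`cnt_zero`).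
Total `≤ 8 mu0 g hh/n + 400 (s+6)^2 y hh/n`, and `mu0 ≥ 1000 y (s+6)^2` (`mu0_ge`), `g ≥ 1`.
-/

set_option autoImplicit false

namespace Pool.Agent.Helper9.RS

open Finset

theorem thin_gcd (Q c y z n N : ℕ) (i : ℤ) (h : Thin Q c y z N) (hd : (n : ℤ) ∣ (N : ℤ) + i) :
    ((Nat.gcd n Q : ℕ) : ℤ) ∣ (c : ℤ) + i := by
  have h1 : ((Nat.gcd n Q : ℕ) : ℤ) ∣ (N : ℤ) + i :=
    (Int.natCast_dvd_natCast.2 (Nat.gcd_dvd_left n Q)).trans hd
  have h2 : ((Nat.gcd n Q : ℕ) : ℤ) ∣ (c : ℤ) - N := by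
    have h3 : (Q : ℤ) ∣ (c : ℤ) - N := (Nat.modEq_iff_dvd.1 h.1)
    exact (Int.natCast_dvd_natCast.2 (Nat.gcd_dvd_right n Q)).trans h3
  have h4 := dvd_add h1 h2
  have h5 : (N : ℤ) + i + ((c : ℤ) - N) = (c : ℤ) + i := by ring
  rwa [h5] at h4

private theorem md_sum_div (A T : ℕ) (hA : 0 < A) (hT : 1 ≤ T) :
    ∑ v ∈ Ico A (A * T), 1 / (((v / A : ℕ) : ℝ)) = A * ∑ t ∈ Ico 1 T, 1 / (t : ℝ) := by
  induction T, hT using Nat.le_induction with
  | base => simp
  | succ T hT ih =>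
    have h1 : A ≤ A * T := Nat.le_mul_of_pos_right A hT
    have h2 : A * T ≤ A * (T + 1) := Nat.mul_le_mul_left A (Nat.le_succ T)
    have h3 : ∀ v ∈ Ico (A * T) (A * (T + 1)), 1 / (((v / A : ℕ) : ℝ)) = 1 / (T : ℝ) := by
      intro v hv
      rw [mem_Ico] at hv
      have : v / A = T := by
        refine Nat.div_eq_of_lt_le ?_ ?_
        · rw [Nat.mul_comm]; exact hv.1
        · rw [Nat.mul_comm]; exact hv.2
      rw [this]
    have h4 : ∑ v ∈ Ico (A * T) (A * (T + 1)), 1 / (((v / A : ℕ) : ℝ)) = A * (1 / (T : ℝ)) := by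
      rw [Finset.sum_congr rfl h3, Finset.sum_const, Nat.card_Ico, nsmul_eq_mul]
      have h5 : A * (T + 1) - A * T = A := by
        rw [Nat.mul_add, Nat.mul_one]
        omega
      rw [h5]
    have h6 : ∑ t ∈ Ico 1 (T + 1), 1 / (t : ℝ) = ∑ t ∈ Ico 1 T, 1 / (t : ℝ) + 1 / (T : ℝ) :=
      Finset.sum_Ico_succ_top hT _
    rw [← Finset.sum_Ico_consecutive _ h1 h2, ih, h4, h6]
    ring

private theorem md_harm (s : ℕ) : ∑ t ∈ Ico (1 : ℕ) (2 ^ s), 1 / (t : ℝ) ≤ s := by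
  induction s with
  | zero => simp
  | succ s ih =>
    have h1 : 1 ≤ (2 : ℕ) ^ s := Nat.one_le_two_pow
    have h2 : (2 : ℕ) ^ s ≤ 2 ^ (s + 1) := Nat.pow_le_pow_right (by norm_num) (Nat.le_succ s)
    rw [← Finset.sum_Ico_consecutive _ h1 h2]
    have h3 : ∑ t ∈ Ico ((2 : ℕ) ^ s) (2 ^ (s + 1)), 1 / (t : ℝ) ≤ 1 := by
      calc ∑ t ∈ Ico ((2 : ℕ) ^ s) (2 ^ (s + 1)), 1 / (t : ℝ)
          ≤ ∑ t ∈ Ico ((2 : ℕ) ^ s) (2 ^ (s + 1)), 1 / ((2 : ℝ) ^ s) := by
            refine Finset.sum_le_sum fun t ht => ?_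
            rw [mem_Ico] at ht
            refine one_div_le_one_div_of_le (by positivity) ?_
            exact_mod_cast ht.1
        _ = 1 := by
            rw [Finset.sum_const, Nat.card_Ico, nsmul_eq_mul]
            have : 2 ^ (s + 1) - 2 ^ s = 2 ^ s := by rw [pow_succ]; omega
            rw [this]
            push_cast
            field_simp
    push_cast
    linarith

private theorem md_arith (y s η : ℝ) (hy2 : 2 ≤ y) (hs5 : 5 ≤ s) (hη1 : 1 ≤ η) :
    6 * η * y * (64 * (s + 6) * s) + 4 * (64 * (s + 6) + 2) ≤ 400 * y * (s + 6) ^ 2 * η := by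
  have h2 : 4 * (64 * (s + 6) + 2) ≤ 16 * y * (s + 6) ^ 2 * η := by
    have h3 : 4 * (64 * (s + 6) + 2) ≤ 16 * 2 * (s + 6) ^ 2 * 1 := by nlinarith
    refine h3.trans ?_
    have h4 : 16 * 2 * (s + 6) ^ 2 ≤ 16 * y * (s + 6) ^ 2 :=
      mul_le_mul_of_nonneg_right (by linarith) (by positivity)
    exact mul_le_mul h4 hη1 (by norm_num) (by positivity)
  have h5 : 6 * η * y * (64 * (s + 6) * s) ≤ 384 * y * (s + 6) ^ 2 * η := by
    have h6 : 0 ≤ η * y * (s + 6) := by positivity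
    nlinarith
  linarith

theorem mu_dvd {y s Q lq J₀ J₁ : ℕ} (h : SP y s Q lq J₀ J₁) (c n : ℕ) (hn : 0 < n) (i : ℤ)
    (hi : |i| < 2 ^ J₀) :
    mu J₀ J₁ (fun N => Thin Q c y (2 ^ 2 ^ s) N ∧ (n : ℤ) ∣ (N : ℤ) + i) ≤
      13 * mu0 y s Q J₁ * hh y (2 ^ 2 ^ s) n * (Nat.gcd n Q : ℝ) / n := by
  classical
  set b : ℕ := Nat.clog 2 n with hb
  set A : ℕ := 64 * (s + 6) with hAdef
  set JW : ℕ := 2 ^ s * (16 * (s + 6) + 20) + lq with hJW
  have hA0 : 0 < A := by positivity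
  have hnb : n ≤ 2 ^ b := Nat.le_pow_clog (by norm_num) n
  have hn' : (0 : ℝ) < n := by exact_mod_cast hn
  have hQ' : (0 : ℝ) < Q := by exact_mod_cast h.hQ0
  have hg1 : (1 : ℝ) ≤ (Nat.gcd n Q : ℝ) := by
    exact_mod_cast Nat.gcd_pos_of_pos_left Q hn
  have hh1 : 1 ≤ hh y (2 ^ 2 ^ s) n := one_le_hh _ _ _
  have hJWA : JW ≤ A * 2 ^ s := h.hlq
  set g : ℝ := (Nat.gcd n Q : ℝ) with hgdef
  set V : ℝ := VV y (2 ^ 2 ^ s) with hV
  set η : ℝ := hh y (2 ^ 2 ^ s) n with hη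
  have hV0 : 0 < V := lt_of_lt_of_le (by positivity) (VV_lower y s (by have := h.hy; omega))
  set X1 : ℝ := 2 * (1 / n) * (g / Q) * V * η with hX1
  have hX10 : 0 ≤ X1 := by positivity
  set E : ℕ → Prop := fun N => Thin Q c y (2 ^ 2 ^ s) N ∧ (n : ℤ) ∣ (N : ℤ) + i with hE
  set cj : ℕ → ℝ := fun j =>
    ((((Ico (2 ^ j) (2 ^ (j + 1))).filter (fun N => E N)).card : ℕ) : ℝ) / 2 ^ j with hcj
  have hmu : mu J₀ J₁ E = ∑ j ∈ Ico J₀ J₁, cj j := by
    unfold mu
    refine Finset.sum_congr rfl fun j _ => ?_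
    simp only [hcj]
    congr!
  rw [hmu]
  -- pointwise bound
  set F1 : ℕ → ℝ := fun j => X1
  set F2 : ℕ → ℝ := fun j => if j ∈ Ico (b + A) (b + A * 2 ^ s) then
    6 * (1 / n) * η * (y / (((j - b) / A : ℕ) : ℝ)) else 0 with hF2
  set F3 : ℕ → ℝ := fun j => if j ∈ Ico (b - 2) (b + A) then 4 / (n : ℝ) else 0 with hF3
  have hF20 : ∀ j, 0 ≤ F2 j := by
    intro j
    simp only [hF2]
    split_ifs
    · positivity
    · exact le_rfl
  have hF30 : ∀ j, 0 ≤ F3 j := by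
    intro j
    simp only [hF3]
    split_ifs
    · positivity
    · exact le_rfl
  have key : ∀ j ∈ Ico J₀ J₁, cj j ≤ X1 + F2 j + F3 j := by
    intro j hj
    rw [mem_Ico] at hj
    rcases lt_or_ge j (b - 2) with h1 | h1
    · -- (iv)
      have h0 : cj j = 0 := by
        simp only [hcj]
        rw [div_eq_zero_iff]
        left
        rw [Nat.cast_eq_zero, Finset.card_eq_zero, Finset.filter_eq_empty_iff]
        intro N hN hEN
        rw [mem_Ico] at hN
        have hn2 : 2 ^ (j + 2) ≤ n := by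
          have h2 : 2 ^ (b - 1) < n := by
            have hn1 : 1 < n := by
              by_contra hc
              have : n = 1 := by omega
              rw [hb, this] at h1
              simp at h1
            exact Nat.pow_pred_clog_lt_self (by norm_num) hn1
          have h3 : 2 ^ (j + 2) ≤ 2 ^ (b - 1) := Nat.pow_le_pow_right (by norm_num) (by omega)
          omega
        exact cnt_zero n j J₀ N i hi hj.1 hn2 hN.1 hN.2 hEN.2
      rw [h0]
      exact add_nonneg (add_nonneg hX10 (hF20 j)) (hF30 j)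
    rcases lt_or_ge j (b + A) with h2 | h2
    · -- (iii)
      have h3 : F3 j = 4 / (n : ℝ) := by
        simp only [hF3]
        rw [if_pos (mem_Ico.2 ⟨h1, h2⟩)]
      have h4 := cnt_four n j J₀ hn i hi hj.1
      have h5 : cj j ≤ 4 / (n : ℝ) := by
        refine le_trans ?_ h4
        simp only [hcj]
        refine div_le_div_of_nonneg_right ?_ (by positivity)
        refine Nat.cast_le.2 (Finset.card_le_card ?_)
        intro N hN
        rw [Finset.mem_filter] at hN ⊢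
        exact ⟨hN.1, hN.2.2⟩
      have h6 := hF20 j
      rw [h3]
      linarith only [h5, h6, hX10]
    rcases lt_or_ge j (b + JW) with h3 | h3
    · -- (ii)
      have hmem : j ∈ Ico (b + A) (b + A * 2 ^ s) := mem_Ico.2 ⟨h2, by omega⟩
      have ht1 : 1 ≤ (j - b) / A := by
        rw [Nat.le_div_iff_mul_le hA0, one_mul]
        exact Nat.le_sub_of_add_le (by rw [Nat.add_comm]; exact h2)
      have ht2 : (j - b) / A ≤ 2 ^ s := by
        have : (j - b) / A < 2 ^ s := by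
          rw [Nat.div_lt_iff_lt_mul hA0]
          have := mul_comm A (2 ^ s)
          omega
        omega
      have hv : 64 * (s + 6) * ((j - b) / A) ≤ j - b := Nat.mul_div_le (j - b) A
      have hjj : n * 2 ^ (j - b) ≤ 2 ^ j := by
        calc n * 2 ^ (j - b) ≤ 2 ^ b * 2 ^ (j - b) := Nat.mul_le_mul_right _ hnb
          _ = 2 ^ j := by rw [← pow_add]; congr 1; omega
      have h4 := cnt_small (s := s) h.hy n j ((j - b) / A) (j - b) hn i ht1 ht2 hv hjj
      obtain ⟨P, hP⟩ : ∃ P : ℕ → Prop, ∀ N, P N ↔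
          ((∀ l ∈ PP y (2 ^ 2 ^ s), ¬ l ∣ N) ∧ (n : ℤ) ∣ (N : ℤ) + i) := ⟨_, fun _ => Iff.rfl⟩
      have h4' : ((((Ico (2 ^ j) (2 ^ (j + 1))).filter (fun N => P N)).card : ℕ) : ℝ) ≤
          6 * ((2 : ℝ) ^ j / n) * hh y (2 ^ 2 ^ s) n * ((y : ℝ) / ((j - b) / A : ℕ)) := by
        convert h4 using 4
        exact hP _
      have h5 : F2 j = 6 * (1 / n) * η * (y / (((j - b) / A : ℕ) : ℝ)) := by
        simp only [hF2]
        rw [if_pos hmem]
      have h6 : cj j ≤ F2 j := by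
        rw [h5]
        simp only [hcj]
        rw [div_le_iff₀ (by positivity)]
        refine le_trans ?_ (h4'.trans (le_of_eq ?_))
        · refine Nat.cast_le.2 (Finset.card_le_card ?_)
          intro N hN
          rw [Finset.mem_filter] at hN ⊢
          exact ⟨hN.1, (hP N).2 ⟨hN.2.1.2, hN.2.2⟩⟩
        · simp only [hη]
          ring
      have h7 := hF30 j
      linarith only [h6, h7, hX10]
    · -- (i)
      have hjj : n * Q * 2 ^ (2 ^ s * (16 * (s + 6) + 20)) ≤ 2 ^ j := by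
        calc n * Q * 2 ^ (2 ^ s * (16 * (s + 6) + 20))
            ≤ 2 ^ b * 2 ^ lq * 2 ^ (2 ^ s * (16 * (s + 6) + 20)) :=
              Nat.mul_le_mul_right _ (Nat.mul_le_mul hnb h.hQ)
          _ = 2 ^ (b + JW) := by rw [hJW, ← pow_add, ← pow_add]; congr 1; omega
          _ ≤ 2 ^ j := Nat.pow_le_pow_right (by norm_num) h3
      have h4 := cnt_big h c n j hn i hjj
      have h6 : cj j ≤ X1 := by
        simp only [hcj]
        rw [div_le_iff₀ (by positivity)]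
        refine h4.trans (le_of_eq ?_)
        simp only [hX1, hgdef, hV, hη]
        ring
      have h7 := hF20 j
      have h8 := hF30 j
      linarith only [h6, h7, h8]
  have hsum := Finset.sum_le_sum key
  rw [Finset.sum_add_distrib, Finset.sum_add_distrib] at hsum
  -- sum 1
  have hS1 : ∑ _j ∈ Ico J₀ J₁, X1 ≤ J₁ * X1 := by
    rw [Finset.sum_const, Nat.card_Ico, nsmul_eq_mul]
    refine mul_le_mul_of_nonneg_right ?_ hX10
    exact_mod_cast Nat.sub_le J₁ J₀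
  -- sum 2
  have hS2 : ∑ j ∈ Ico J₀ J₁, F2 j ≤ 6 * (1 / n) * η * y * (A * s) := by
    calc ∑ j ∈ Ico J₀ J₁, F2 j
        ≤ ∑ j ∈ Ico (b + A) (b + A * 2 ^ s), 6 * (1 / n) * η * (y / (((j - b) / A : ℕ) : ℝ)) := by
          simp only [hF2]
          rw [← Finset.sum_filter]
          refine Finset.sum_le_sum_of_subset_of_nonneg ?_ ?_
          · intro j hj
            exact (Finset.mem_filter.1 hj).2
          · intro j _ _
            positivity
      _ = 6 * (1 / n) * η * y * ∑ v ∈ Ico A (A * 2 ^ s), 1 / (((v / A : ℕ) : ℝ)) := by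
          rw [Finset.mul_sum, Nat.add_comm b A, Nat.add_comm b (A * 2 ^ s),
            ← Finset.sum_Ico_add' _ A (A * 2 ^ s) b]
          refine Finset.sum_congr rfl fun v _ => ?_
          rw [Nat.add_sub_cancel]
          ring
      _ ≤ 6 * (1 / n) * η * y * (A * s) := by
          rw [md_sum_div A (2 ^ s) hA0 Nat.one_le_two_pow]
          refine mul_le_mul_of_nonneg_left ?_ (by positivity)
          exact mul_le_mul_of_nonneg_left (md_harm s) (by positivity)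
  -- sum 3
  have hS3 : ∑ j ∈ Ico J₀ J₁, F3 j ≤ (A + 2) * (4 / n) := by
    calc ∑ j ∈ Ico J₀ J₁, F3 j ≤ ∑ j ∈ Ico (b - 2) (b + A), 4 / (n : ℝ) := by
          simp only [hF3]
          rw [← Finset.sum_filter]
          refine Finset.sum_le_sum_of_subset_of_nonneg ?_ ?_
          · intro j hj
            exact (Finset.mem_filter.1 hj).2
          · intro j _ _
            positivity
      _ ≤ (A + 2) * (4 / n) := by
          rw [Finset.sum_const, Nat.card_Ico, nsmul_eq_mul]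
          refine mul_le_mul_of_nonneg_right ?_ (by positivity)
          have : b + A - (b - 2) ≤ A + 2 := by omega
          exact_mod_cast this
  have hmu0 := mu0_ge h
  have hmudef : mu0 y s Q J₁ = J₁ * V / (4 * Q) := rfl
  have hy2 : (2 : ℝ) ≤ y := by exact_mod_cast h.hy
  have hs5 : (5 : ℝ) ≤ s := by exact_mod_cast h.hs
  have hη1 : 1 ≤ η := hh1
  have e1 : (J₁ : ℝ) * X1 = 8 * mu0 y s Q J₁ * η * g / n := by
    rw [hmudef, hX1]
    field_simp
    ring
  have hAr : (A : ℝ) = 64 * ((s : ℝ) + 6) := by rw [hAdef]; push_cast; ring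
  have e2 : 6 * (1 / (n : ℝ)) * η * y * (A * s) + (A + 2) * (4 / n) ≤
      400 * (y : ℝ) * ((s : ℝ) + 6) ^ 2 * η / n := by
    have h1 : 6 * (1 / (n : ℝ)) * η * y * (A * s) + (A + 2) * (4 / n) =
        (6 * η * y * (A * s) + 4 * (A + 2)) / n := by
      field_simp
    rw [h1]
    refine div_le_div_of_nonneg_right ?_ hn'.le
    rw [hAr]
    exact md_arith (y : ℝ) (s : ℝ) η hy2 hs5 hη1
  have e3 : 400 * (y : ℝ) * ((s : ℝ) + 6) ^ 2 * η / n ≤ mu0 y s Q J₁ * η * g / n := by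
    refine div_le_div_of_nonneg_right ?_ hn'.le
    have h7 : 400 * (y : ℝ) * ((s : ℝ) + 6) ^ 2 ≤ mu0 y s Q J₁ := by
      have : 0 ≤ (y : ℝ) * ((s : ℝ) + 6) ^ 2 := by positivity
      linarith
    have h8 : 0 ≤ mu0 y s Q J₁ := by
      have : 0 ≤ (y : ℝ) * ((s : ℝ) + 6) ^ 2 := by positivity
      linarith
    calc 400 * (y : ℝ) * ((s : ℝ) + 6) ^ 2 * η ≤ mu0 y s Q J₁ * η :=
          mul_le_mul_of_nonneg_right h7 (by linarith)
      _ = mu0 y s Q J₁ * η * 1 := by ring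
      _ ≤ mu0 y s Q J₁ * η * g := mul_le_mul_of_nonneg_left hg1 (by positivity)
  have h9 : 0 ≤ mu0 y s Q J₁ * η * g / n := by
    have h8 : 0 ≤ mu0 y s Q J₁ := by
      have : 0 ≤ (y : ℝ) * ((s : ℝ) + 6) ^ 2 := by positivity
      linarith
    positivity
  have e4 : 13 * mu0 y s Q J₁ * η * g / n = 8 * mu0 y s Q J₁ * η * g / n +
      5 * (mu0 y s Q J₁ * η * g / n) := by ring
  have hfin : ∑ j ∈ Ico J₀ J₁, cj j ≤ 13 * mu0 y s Q J₁ * η * g / n := by
    rw [e4]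
    linarith
  exact hfin

end Pool.Agent.Helper9.RS
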