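import Pool.Agent.Helper9.RS.TypeCount
import Pool.Agent.Helper9.RS.Recip
import Pool.Agent.Helper9.RS.Mu

/-!
PROJECT RS, module RS-22. The two classes have the same distribution of types.

If `θ` contains `(l, i)`, `(l, i')`, `i ≠ i'`, both measures are `0` (`l > y ≥ 2H+1 > |i - i'|`). Otherwise `type_count` for `c₁` and `c₀` in the block `[2^j, 2^(j+1))`, with the same product `Π ∈ [0, 1]` (`2H+1 ≤ y < l`); `M = Q TT θ`, `|L_b - 2^j/M| ≤ 1`: the difference of the counts is `≤ |L₁ - L₀| Π + (L₁ + L₀) e + 2 E ≤ 2 + 2 (2^j/M + 1) e + 2 E`, where `E = err H s m ≥ 1`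
(`|PP y z| ≤ z = 2^(2^s)`) and the error `e ≤ eps H s m` (`recip'`) and also `e ≤ E` (`∑ 1/l ≤ |PP|`, `(2m)! ≥ 1`). So it is `≤ 2 (2^j/M) eps + 6 E`. Divide by `2^j` and sum over `J₀ ≤ j < J₁`: `≤ 2 J₁ eps/M + 12 E/2^J₀`.
-/

set_option autoImplicit false

namespace Pool.Agent.Helper9.RS

open Finset

private theorem nuDiff_mu (J₀ J₁ : ℕ) (E : ℕ → Prop) [DecidablePred E] : mu J₀ J₁ E =
    ∑ j ∈ Ico J₀ J₁, ((((Ico (2 ^ j) (2 ^ (j + 1))).filter (fun N => E N)).card : ℕ) : ℝ) / 2 ^ j := by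
  unfold mu
  refine sum_congr rfl fun j _ => ?_
  congr!

private theorem nuDiff_geom (J₀ J₁ : ℕ) : ∑ j ∈ Ico J₀ J₁, (1 : ℝ) / 2 ^ j ≤ 2 / 2 ^ J₀ := by
  rcases le_total J₀ J₁ with h | h
  · have key : ∑ j ∈ Ico J₀ J₁, (1 : ℝ) / 2 ^ j = 2 / 2 ^ J₀ - 2 / 2 ^ J₁ := by
      induction J₁, h using Nat.le_induction with
      | base => simp
      | succ n hn ih =>
        rw [sum_Ico_succ_top hn, ih, pow_succ]
        field_simp
        ring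
    rw [key]
    have : (0 : ℝ) < 2 / 2 ^ J₁ := by positivity
    linarith
  · rw [Ico_eq_empty_of_le h, sum_empty]
    positivity

private theorem nuDiff_zero (J₀ J₁ y z H Q c : ℕ) (hH : 2 * H + 1 ≤ y) (θ : Finset (ℕ × ℤ))
    (hθ : θ ⊆ PP y z ×ˢ IH H) (x x' : ℕ × ℤ) (hx : x ∈ θ) (hx' : x' ∈ θ) (h1 : x.1 = x'.1)
    (hne : x ≠ x') : nu J₀ J₁ Q c y z H θ = 0 := by
  classical
  unfold nu
  rw [nuDiff_mu]
  refine sum_eq_zero fun j _ => ?_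
  rw [filter_false_of_mem]
  · simp
  · rintro N _ ⟨_, hN, _⟩
    have h2 := hx
    have h3 := hx'
    rw [← hN] at h2 h3
    unfold theta at h2 h3
    rw [mem_filter] at h2 h3
    have h4 := mem_product.1 (hθ hx)
    have h5 := mem_product.1 (hθ hx')
    have h6 : (x.1 : ℤ) ∣ x.2 - x'.2 := by
      have e1 := h2.2
      have e2 := h3.2
      rw [← h1] at e2
      have e3 := dvd_sub e1 e2
      have e4 : (N : ℤ) + x.2 - ((N : ℤ) + x'.2) = x.2 - x'.2 := by ring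
      rwa [e4] at e3
    have h7 : x.2 ≠ x'.2 := fun h => hne (Prod.ext h1 h)
    have h8 : x.2 - x'.2 ≠ 0 := sub_ne_zero.2 h7
    have hi := h4.2
    have hi' := h5.2
    unfold IH at hi hi'
    rw [mem_erase, mem_Icc] at hi hi'
    have hl := h4.1
    unfold PP at hl
    rw [mem_filter, mem_Ioc] at hl
    have h9 := Int.le_of_dvd (abs_pos.2 h8) ((dvd_abs _ _).2 h6)
    have h10 : |x.2 - x'.2| ≤ 2 * H := by
      rw [abs_le]
      constructor <;> linarith [hi.2.1, hi.2.2, hi'.2.1, hi'.2.2]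
    have h11 : (2 * (H : ℤ) + 1) ≤ y := by exact_mod_cast hH
    have h12 : (y : ℤ) < x.1 := by exact_mod_cast hl.1.1
    linarith

theorem nu_diff (J₀ J₁ y s H Q c₁ c₀ m : ℕ) (hH : 2 * H + 1 ≤ y) (hQ : 0 < Q)
    (hQp : ∀ l : ℕ, l.Prime → l ∣ Q → l ≤ y) (θ : Finset (ℕ × ℤ))
    (hθ : θ ⊆ PP y (2 ^ 2 ^ s) ×ˢ IH H) :
    |nu J₀ J₁ Q c₁ y (2 ^ 2 ^ s) H θ - nu J₀ J₁ Q c₀ y (2 ^ 2 ^ s) H θ| ≤
      2 * J₁ * eps H s m / ((Q : ℝ) * TT θ) + 12 * err H s m / 2 ^ J₀ := by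
  classical
  have hTT : 0 < TT θ := by
    unfold TT
    refine prod_pos fun x hx => ?_
    have h4 := (mem_product.1 (hθ hx)).1
    unfold PP at h4
    rw [mem_filter] at h4
    exact h4.2.pos
  have hM : (0 : ℝ) < (Q : ℝ) * TT θ := by
    have h1 : (0 : ℝ) < Q := by exact_mod_cast hQ
    have h2 : (0 : ℝ) < TT θ := by exact_mod_cast hTT
    exact mul_pos h1 h2
  have heps0 : 0 ≤ eps H s m := by
    unfold eps
    positivity
  have herr0 : 0 ≤ err H s m := by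
    unfold err
    positivity
  by_cases hinj : ∀ x ∈ θ, ∀ x' ∈ θ, x.1 = x'.1 → x = x'
  swap
  · push Not at hinj
    obtain ⟨x, hx, x', hx', h1, hne⟩ := hinj
    rw [nuDiff_zero J₀ J₁ y _ H Q c₁ hH θ hθ x x' hx hx' h1 hne,
      nuDiff_zero J₀ J₁ y _ H Q c₀ hH θ hθ x x' hx hx' h1 hne, sub_zero, abs_zero]
    positivity
  -- the constants
  obtain ⟨S, hS⟩ : ∃ S : ℝ, S = ∑ l ∈ PP y (2 ^ 2 ^ s), 1 / (l : ℝ) := ⟨_, rfl⟩
  obtain ⟨e, he⟩ : ∃ e : ℝ, e = ((2 * (H : ℝ) + 1) * S) ^ (2 * m) /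
    ((Nat.factorial (2 * m) : ℕ) : ℝ) := ⟨_, rfl⟩
  obtain ⟨E', hE'⟩ : ∃ E' : ℝ, E' = ((2 * (H : ℝ) + 1) * (PP y (2 ^ 2 ^ s)).card + 1) ^ (2 * m) :=
    ⟨_, rfl⟩
  obtain ⟨Pi, hPi⟩ : ∃ Pi : ℝ, Pi = ∏ l ∈ PP y (2 ^ 2 ^ s),
    (1 - (if l ∈ θ.image Prod.fst then 1 else 2 * (H : ℝ) + 1) / l) := ⟨_, rfl⟩
  have hS0 : 0 ≤ S := by
    rw [hS]
    exact sum_nonneg fun l _ => by positivity
  have hSle : S ≤ s + 6 := by
    rw [hS]
    exact recip' y s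
  have hScard : S ≤ (PP y (2 ^ 2 ^ s)).card := by
    rw [hS]
    have h1 : ∀ l ∈ PP y (2 ^ 2 ^ s), 1 / (l : ℝ) ≤ 1 := by
      intro l hl
      unfold PP at hl
      rw [mem_filter] at hl
      have h2 : (1 : ℝ) ≤ l := by exact_mod_cast hl.2.one_lt.le
      exact (div_le_one (by linarith)).2 h2
    have h2 := sum_le_sum h1
    rwa [sum_const, nsmul_eq_mul, mul_one] at h2
  have hfac : (1 : ℝ) ≤ ((Nat.factorial (2 * m) : ℕ) : ℝ) := by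
    exact_mod_cast Nat.succ_le_of_lt (Nat.factorial_pos _)
  have hH0 : (0 : ℝ) ≤ 2 * (H : ℝ) + 1 := by positivity
  have he0 : 0 ≤ e := by
    rw [he]
    positivity
  have heeps : e ≤ eps H s m := by
    rw [he]
    unfold eps
    gcongr
  have hcardle : ((PP y (2 ^ 2 ^ s)).card : ℝ) ≤ 2 ^ 2 ^ s := by
    have h1 : (PP y (2 ^ 2 ^ s)).card ≤ 2 ^ 2 ^ s := by
      unfold PP
      refine (card_filter_le _ _).trans ?_
      rw [Nat.card_Ioc]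
      exact Nat.sub_le _ _
    exact_mod_cast h1
  have hE'err : E' ≤ err H s m := by
    rw [hE']
    unfold err
    gcongr
  have heE' : e ≤ E' := by
    rw [he, hE']
    refine (div_le_self (by positivity) hfac).trans ?_
    apply pow_le_pow_left₀ (by positivity)
    have := mul_le_mul_of_nonneg_left hScard hH0
    linarith
  have hE'1 : 1 ≤ E' := by
    rw [hE']
    apply one_le_pow₀
    have : (0 : ℝ) ≤ (2 * (H : ℝ) + 1) * (PP y (2 ^ 2 ^ s)).card := by positivity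
    linarith
  have hfacs : ∀ l ∈ PP y (2 ^ 2 ^ s),
      0 ≤ 1 - (if l ∈ θ.image Prod.fst then 1 else 2 * (H : ℝ) + 1) / l ∧
        1 - (if l ∈ θ.image Prod.fst then 1 else 2 * (H : ℝ) + 1) / l ≤ 1 := by
    intro l hl
    unfold PP at hl
    rw [mem_filter, mem_Ioc] at hl
    have h1 : (2 * (H : ℝ) + 1) ≤ y := by exact_mod_cast hH
    have h2 : (y : ℝ) < l := by exact_mod_cast hl.1.1
    have h3 : (0 : ℝ) ≤ H := Nat.cast_nonneg _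
    have hl0 : (0 : ℝ) < l := by linarith
    have h4 : (0 : ℝ) ≤ (if l ∈ θ.image Prod.fst then 1 else 2 * (H : ℝ) + 1) := by
      split_ifs <;> linarith
    have h5 : (if l ∈ θ.image Prod.fst then 1 else 2 * (H : ℝ) + 1) ≤ (l : ℝ) := by
      split_ifs <;> linarith
    have h6 := (div_le_one hl0).2 h5
    have h7 := div_nonneg h4 hl0.le
    constructor <;> linarith
  have hPi0 : 0 ≤ Pi := by
    rw [hPi]
    exact prod_nonneg fun l hl => (hfacs l hl).1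
  have hPi1 : Pi ≤ 1 := by
    rw [hPi]
    exact prod_le_one (fun l hl => (hfacs l hl).1) (fun l hl => (hfacs l hl).2)
  -- one block
  have hblock : ∀ (j : ℕ) (W₁ W₀ : ℝ) (L₁ L₀ : ℕ),
      |(L₁ : ℝ) - 2 ^ j / ((Q : ℝ) * TT θ)| ≤ 1 → |(L₀ : ℝ) - 2 ^ j / ((Q : ℝ) * TT θ)| ≤ 1 →
      |W₁ - L₁ * Pi| ≤ L₁ * e + E' → |W₀ - L₀ * Pi| ≤ L₀ * e + E' →
      |W₁ - W₀| ≤ 2 * (2 ^ j / ((Q : ℝ) * TT θ)) * eps H s m + 6 * err H s m := by
    intro j W₁ W₀ L₁ L₀ h1 h0 hW1 hW0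
    obtain ⟨r, hr⟩ : ∃ r : ℝ, r = 2 ^ j / ((Q : ℝ) * TT θ) := ⟨_, rfl⟩
    rw [← hr] at h1 h0 ⊢
    have hr0 : 0 ≤ r := by
      rw [hr]
      positivity
    rw [abs_le] at h1 h0 hW1 hW0
    have hd1 : ((L₁ : ℝ) - L₀) * Pi ≤ 2 := by
      have : ((L₁ : ℝ) - L₀) ≤ 2 := by linarith [h1.2, h0.1]
      nlinarith
    have hd2 : -2 ≤ ((L₁ : ℝ) - L₀) * Pi := by
      have : -2 ≤ ((L₁ : ℝ) - L₀) := by linarith [h1.1, h0.2]
      nlinarith
    have hL1 : (L₁ : ℝ) * e ≤ (r + 1) * e := mul_le_mul_of_nonneg_right (by linarith [h1.2]) he0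
    have hL0 : (L₀ : ℝ) * e ≤ (r + 1) * e := mul_le_mul_of_nonneg_right (by linarith [h0.2]) he0
    have hre : r * e ≤ r * eps H s m := mul_le_mul_of_nonneg_left heeps hr0
    rw [abs_le]
    constructor <;> nlinarith [hW1.1, hW1.2, hW0.1, hW0.2]
  unfold nu
  rw [nuDiff_mu, nuDiff_mu, ← sum_sub_distrib]
  refine (abs_sum_le_sum_abs _ _).trans ?_
  have hterm : ∀ j ∈ Ico J₀ J₁, |((((Ico (2 ^ j) (2 ^ (j + 1))).filter
        (fun N => Thin Q c₁ y (2 ^ 2 ^ s) N ∧ theta y (2 ^ 2 ^ s) H N = θ ∧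
          ∀ x ∈ θ, ¬ ((x.1 : ℤ) ^ 2 ∣ (N : ℤ) + x.2))).card : ℕ) : ℝ) / 2 ^ j -
      ((((Ico (2 ^ j) (2 ^ (j + 1))).filter
        (fun N => Thin Q c₀ y (2 ^ 2 ^ s) N ∧ theta y (2 ^ 2 ^ s) H N = θ ∧
          ∀ x ∈ θ, ¬ ((x.1 : ℤ) ^ 2 ∣ (N : ℤ) + x.2))).card : ℕ) : ℝ) / 2 ^ j| ≤
      2 * eps H s m / ((Q : ℝ) * TT θ) + 6 * err H s m * (1 / 2 ^ j) := by
    intro j _
    have hj : (0 : ℝ) < 2 ^ j := by positivity
    have hXY : 2 ^ j ≤ 2 ^ (j + 1) := Nat.pow_le_pow_right (by norm_num) (Nat.le_succ j)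
    obtain ⟨L₁, a1, b1⟩ := type_count y (2 ^ 2 ^ s) H Q c₁ m (2 ^ j) (2 ^ (j + 1)) hH hQ hQp hXY θ hθ
      hinj
    obtain ⟨L₀, a0, b0⟩ := type_count y (2 ^ 2 ^ s) H Q c₀ m (2 ^ j) (2 ^ (j + 1)) hH hQ hQp hXY θ hθ
      hinj
    have hsub : (((2 ^ (j + 1) : ℕ) : ℝ) - ((2 ^ j : ℕ) : ℝ)) = 2 ^ j := by
      push_cast
      ring
    rw [hsub] at a1 a0
    rw [← hS, ← he, ← hE', ← hPi] at b1 b0
    have hb := hblock j _ _ L₁ L₀ a1 a0 b1 b0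
    rw [← sub_div, abs_div, abs_of_pos hj, div_le_iff₀ hj]
    refine le_trans (le_of_eq ?_) (hb.trans (le_of_eq ?_))
    · congr!
    · field_simp
  refine (sum_le_sum hterm).trans ?_
  rw [sum_add_distrib, ← mul_sum, sum_const, nsmul_eq_mul, Nat.card_Ico]
  have hg := nuDiff_geom J₀ J₁
  have h1 : ((J₁ - J₀ : ℕ) : ℝ) ≤ J₁ := by exact_mod_cast Nat.sub_le _ _
  have h2 : ((J₁ - J₀ : ℕ) : ℝ) * (2 * eps H s m / ((Q : ℝ) * TT θ)) ≤
      2 * J₁ * eps H s m / ((Q : ℝ) * TT θ) := by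
    have h3 : (0 : ℝ) ≤ 2 * eps H s m / ((Q : ℝ) * TT θ) := by positivity
    refine (mul_le_mul_of_nonneg_right h1 h3).trans (le_of_eq ?_)
    ring
  have h4 : 6 * err H s m * ∑ j ∈ Ico J₀ J₁, (1 : ℝ) / 2 ^ j ≤ 12 * err H s m / 2 ^ J₀ := by
    refine (mul_le_mul_of_nonneg_left hg (by positivity)).trans (le_of_eq ?_)
    ring
  exact add_le_add h2 h4

end Pool.Agent.Helper9.RS
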