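import Mathlib

/-!
PROJECT RS, module RS-14. Integers with many prime factors.

`2^w ≤ 2^ω(n) ≤ d(n)` for the `n` of the sum (`Nat.card_divisors`, or the subsets of the prime factors give divisors), so the sum is `≤ 2^(-w) ∑_{n ≤ X} d(n)/n ≤ 2^(-w) ∑_{a b = n ≤ X} 1/(a b) ≤ 2^(-w) (∑_{a ≤ X} 1/a)^2`, `X = 2^J`, `∑_{a ≤ 2^J} 1/a ≤ 1 + J log 2 ≤ J + 2` (`harmonic_le_one_add_log`, or dyadic blocks).
-/

set_option autoImplicit false

namespace Pool.Agent.Helper9.RS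

open Finset

private theorem two_pow_le_divisors {n : ℕ} (hn : n ≠ 0) : 2 ^ n.primeFactors.card ≤ n.divisors.card := by
  rw [Nat.card_divisors hn, ← Finset.prod_const]
  apply Finset.prod_le_prod'
  intro p hp
  have : 0 < n.factorization p := Nat.Prime.factorization_pos_of_dvd (Nat.prime_of_mem_primeFactors hp) hn (Nat.dvd_of_mem_primeFactors hp)
  omega

private theorem div_sum {X n : ℕ} (hn : n ∈ Ioc 0 X) :
    (n.divisors.card : ℝ) * (1 / (n : ℝ)) ≤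
      ∑ p ∈ (Ioc 0 X ×ˢ Ioc 0 X : Finset (ℕ × ℕ)) with p.1 * p.2 = n, (1 / (p.1 : ℝ)) * (1 / (p.2 : ℝ)) := by
  rw [mem_Ioc] at hn
  have h1 : ∀ p ∈ (Ioc 0 X ×ˢ Ioc 0 X : Finset (ℕ × ℕ)).filter (fun p => p.1 * p.2 = n),
      (1 / (p.1 : ℝ)) * (1 / (p.2 : ℝ)) = 1 / (n : ℝ) := by
    intro p hp
    rw [mem_filter] at hp
    rw [← hp.2, Nat.cast_mul, one_div_mul_one_div]
  rw [Finset.sum_congr rfl h1, Finset.sum_const, nsmul_eq_mul]
  apply mul_le_mul_of_nonneg_right _ (by positivity)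
  have h2 : n.divisors.card ≤ ((Ioc 0 X ×ˢ Ioc 0 X : Finset (ℕ × ℕ)).filter (fun p => p.1 * p.2 = n)).card := by
    apply Finset.card_le_card_of_injOn (fun d => (d, n / d))
    · intro d hd
      simp only [Finset.coe_filter, Set.mem_setOf_eq, mem_product, mem_Ioc]
      have hd' := Nat.dvd_of_mem_divisors hd
      have hd0 : 0 < d := Nat.pos_of_mem_divisors hd
      have hle : d ≤ n := Nat.le_of_dvd hn.1 hd'
      have h3 : d * (n / d) = n := Nat.mul_div_cancel' hd'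
      have h4 : 0 < n / d := Nat.div_pos hle hd0
      refine ⟨⟨⟨hd0, hle.trans hn.2⟩, h4, (Nat.div_le_self _ _).trans hn.2⟩, h3⟩
    · intro a _ b _ hab
      exact (Prod.mk.inj hab).1
  exact_mod_cast h2

private theorem harm (J : ℕ) : ∑ a ∈ (Ioc 0 (2 ^ J) : Finset ℕ), 1 / (a : ℝ) ≤ (J : ℝ) + 2 := by
  have h0 : ∀ N : ℕ, ∑ a ∈ (Ioc 0 N : Finset ℕ), 1 / (a : ℝ) = ((harmonic N : ℚ) : ℝ) := by
    intro N
    induction N with
    | zero => simp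
    | succ m ih =>
      have h : (Ioc 0 (m + 1) : Finset ℕ) = insert (m + 1) (Ioc 0 m) := by
        ext x
        simp only [mem_Ioc, mem_insert]
        omega
      rw [h, Finset.sum_insert (by simp), ih, harmonic_succ]
      push_cast
      rw [one_div, add_comm]
  rw [h0]
  have h2 := harmonic_le_one_add_log (2 ^ J)
  have h3 : Real.log ((2 ^ J : ℕ) : ℝ) ≤ J := by
    push_cast
    rw [Real.log_pow]
    have : Real.log 2 ≤ 1 := by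
      have := Real.log_two_lt_d9
      linarith
    have hJ : (0 : ℝ) ≤ J := Nat.cast_nonneg J
    nlinarith
  linarith

theorem omega_sum (J w : ℕ) :
    ∑ n ∈ (Ioc 0 (2 ^ J) : Finset ℕ) with w < n.primeFactors.card, 1 / (n : ℝ) ≤ ((J : ℝ) + 2) ^ 2 / 2 ^ w := by
  have hw : (0 : ℝ) < 2 ^ w := by positivity
  rw [le_div_iff₀ hw, Finset.sum_mul]
  have h1 : ∑ n ∈ (Ioc 0 (2 ^ J) : Finset ℕ) with w < n.primeFactors.card, 1 / (n : ℝ) * 2 ^ w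
      ≤ ∑ n ∈ (Ioc 0 (2 ^ J) : Finset ℕ), (n.divisors.card : ℝ) * (1 / (n : ℝ)) := by
    refine le_trans (Finset.sum_le_sum (g := fun n : ℕ => (n.divisors.card : ℝ) * (1 / (n : ℝ))) ?_)
      (Finset.sum_le_sum_of_subset_of_nonneg (Finset.filter_subset _ _) (fun n _ _ => by positivity))
    intro n hn
    rw [mem_filter, mem_Ioc] at hn
    rw [mul_comm]
    apply mul_le_mul_of_nonneg_right _ (by positivity)
    have h2 : 2 ^ w ≤ n.divisors.card :=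
      (Nat.pow_le_pow_right (by norm_num) hn.2.le).trans (two_pow_le_divisors (by omega))
    exact_mod_cast h2
  have h2 : ∑ n ∈ (Ioc 0 (2 ^ J) : Finset ℕ), (n.divisors.card : ℝ) * (1 / (n : ℝ)) ≤
      ∑ n ∈ (Ioc 0 (2 ^ J) : Finset ℕ), ∑ p ∈ (Ioc 0 (2 ^ J) ×ˢ Ioc 0 (2 ^ J) : Finset (ℕ × ℕ)) with p.1 * p.2 = n,
        (1 / (p.1 : ℝ)) * (1 / (p.2 : ℝ)) :=
    Finset.sum_le_sum fun n hn => div_sum hn
  have h3 : ∑ n ∈ (Ioc 0 (2 ^ J) : Finset ℕ), ∑ p ∈ (Ioc 0 (2 ^ J) ×ˢ Ioc 0 (2 ^ J) : Finset (ℕ × ℕ)) with p.1 * p.2 = n,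
        (1 / (p.1 : ℝ)) * (1 / (p.2 : ℝ)) ≤
      ∑ p ∈ (Ioc 0 (2 ^ J) ×ˢ Ioc 0 (2 ^ J) : Finset (ℕ × ℕ)), (1 / (p.1 : ℝ)) * (1 / (p.2 : ℝ)) := by
    apply Finset.sum_fiberwise_le_sum_of_sum_fiber_nonneg
    intro n _
    apply Finset.sum_nonneg
    intro p _
    positivity
  have h4 : ∑ p ∈ (Ioc 0 (2 ^ J) ×ˢ Ioc 0 (2 ^ J) : Finset (ℕ × ℕ)), (1 / (p.1 : ℝ)) * (1 / (p.2 : ℝ))
      = (∑ a ∈ (Ioc 0 (2 ^ J) : Finset ℕ), 1 / (a : ℝ)) * (∑ a ∈ (Ioc 0 (2 ^ J) : Finset ℕ), 1 / (a : ℝ)) := by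
    rw [Finset.sum_mul_sum, Finset.sum_product]
  have h5 := harm J
  have h6 : (0 : ℝ) ≤ ∑ a ∈ (Ioc 0 (2 ^ J) : Finset ℕ), 1 / (a : ℝ) := Finset.sum_nonneg fun a _ => by positivity
  calc _ ≤ _ := h1
    _ ≤ _ := h2
    _ ≤ _ := h3
    _ = _ := h4
    _ ≤ ((J : ℝ) + 2) ^ 2 := by nlinarith

end Pool.Agent.Helper9.RS
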