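import Pool.Agent.Helper9.RS.Defs

/-!
PROJECT RS, module RS-32. Parameters: the conditions of the sieve.

With `y = q^2`, `lq = q^3`, `J₀ = 2^(s + q^4)`, `J₁ = 2^(s + 2 q^4)`, `q ≤ q^D ≤ s ≤ 2 q^D`. `hJ0`: `2^s (16(s+6)+20) + q^3 ≤ 2^s (16 (s+6) + 20 + q^3) ≤ 2^s 2^(q^4)` as `2^(q^4) ≥ 32 q^D + 116 + q^3` for large `q`. `hJ1`: `J₁ = J₀ 2^(q^4)`. `hlq`: `q^3 ≤ 2^q ≤ 2^s`. `hmu`: `J₁ = 2^s 2^(2 q^4)`, `4000000 q^2 (s+6)^2 2^(q^3) ≤ 2^(2 q^4)`.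
(Use that a polynomial in `q` is `≤ 2^q` for large `q`.) `four_J1`: `2 + s + 2 q^4 < 2^(s + q^4)`.
-/

set_option autoImplicit false

namespace Pool.Agent.Helper9.RS

open Finset

private theorem pow_le_two_pow (k : ℕ) : ∃ q₀ : ℕ, ∀ q : ℕ, q₀ ≤ q → q ^ k ≤ 2 ^ q := by
  have h := tendsto_pow_const_div_const_pow_of_one_lt k (r := (2 : ℝ)) (by norm_num)
  have h2 := h.eventually (gt_mem_nhds (show (0 : ℝ) < 1 by norm_num))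
  obtain ⟨q₀, hq₀⟩ := Filter.eventually_atTop.1 h2
  refine ⟨q₀, fun q hq => ?_⟩
  have h3 := hq₀ q hq
  rw [div_lt_one (by positivity)] at h3
  have h4 : ((q ^ k : ℕ) : ℝ) < ((2 ^ q : ℕ) : ℝ) := by
    push_cast
    exact h3
  exact (Nat.cast_lt.1 h4).le

theorem sp_of (D : ℕ) (hD : 10 ≤ D) : ∃ q₃ : ℕ, ∀ q s Q : ℕ, q₃ ≤ q → q ^ D ≤ s → s ≤ 2 * q ^ D →
    0 < Q → Q ≤ 2 ^ (q ^ 3) → (∀ l : ℕ, l.Prime → l ∣ Q → l ≤ q ^ 2) →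
    SP (q ^ 2) s Q (q ^ 3) (2 ^ (s + q ^ 4)) (2 ^ (s + 2 * q ^ 4)) := by
  obtain ⟨q₀, hq₀⟩ := pow_le_two_pow (2 * D + 2)
  refine ⟨max q₀ 28, fun q s Q hq hs1 hs2 hQ0 hQ hQp => ?_⟩
  have hqa : q₀ ≤ q := le_trans (le_max_left _ _) hq
  have hqb : 28 ≤ q := le_trans (le_max_right _ _) hq
  have hbig := hq₀ q hqa
  have hq1 : 1 ≤ q := by omega
  have hqD : q ≤ q ^ D := Nat.le_self_pow (by omega) q
  have h3D : q ^ 3 ≤ q ^ D := Nat.pow_le_pow_right hq1 (by omega)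
  have hDD : q ^ D ≤ 2 ^ q := le_trans (Nat.pow_le_pow_right hq1 (by omega)) hbig
  have hs5 : 28 ≤ s := by omega
  have hs6 : s + 6 ≤ 8 * q ^ D := by omega
  have h4 : q + 28 ≤ q ^ 4 := by
    have : q ^ 4 = q * q ^ 3 := by ring
    have h' : 2 ≤ q ^ 3 := le_trans (by omega : 2 ≤ q) (Nat.le_self_pow (by omega) q)
    nlinarith
  have h34 : q ^ 3 ≤ q ^ 4 := Nat.pow_le_pow_right hq1 (by omega)
  have hss : s < 2 ^ s := Nat.lt_two_pow_self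
  refine ⟨?_, by omega, hQ0, hQ, hQp, ?_, ?_, ?_, ?_⟩
  · calc 2 ≤ q := by omega
      _ ≤ q ^ 2 := Nat.le_self_pow (by omega) q
  · have h1 : 16 * (s + 6) + 20 + q ^ 3 ≤ 2 ^ (q ^ 4) := by
      calc 16 * (s + 6) + 20 + q ^ 3 ≤ 2 ^ 8 * q ^ D := by omega
        _ ≤ 2 ^ 8 * 2 ^ q := Nat.mul_le_mul_left _ hDD
        _ = 2 ^ (8 + q) := by rw [pow_add]
        _ ≤ 2 ^ (q ^ 4) := Nat.pow_le_pow_right (by norm_num) (by omega)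
    have h2 : q ^ 3 ≤ 2 ^ s * q ^ 3 := Nat.le_mul_of_pos_left _ (by positivity)
    calc 2 ^ s * (16 * (s + 6) + 20) + q ^ 3 ≤ 2 ^ s * (16 * (s + 6) + 20) + 2 ^ s * q ^ 3 := by omega
      _ = 2 ^ s * (16 * (s + 6) + 20 + q ^ 3) := by ring
      _ ≤ 2 ^ s * 2 ^ (q ^ 4) := Nat.mul_le_mul_left _ h1
      _ = 2 ^ (s + q ^ 4) := by rw [pow_add]
  · calc 2 * 2 ^ (s + q ^ 4) = 2 ^ (s + q ^ 4 + 1) := by rw [pow_succ]; ring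
      _ ≤ 2 ^ (s + 2 * q ^ 4) := Nat.pow_le_pow_right (by norm_num) (by omega)
  · have h1 : q ^ 3 ≤ 2 ^ s := by omega
    calc 2 ^ s * (16 * (s + 6) + 20) + q ^ 3 ≤ 2 ^ s * (16 * (s + 6) + 20) + 2 ^ s := by omega
      _ = 2 ^ s * (16 * (s + 6) + 20 + 1) := by ring
      _ ≤ 2 ^ s * (64 * (s + 6)) := Nat.mul_le_mul_left _ (by omega)
      _ = 64 * (s + 6) * 2 ^ s := by ring
  · calc 4000000 * q ^ 2 * (s + 6) ^ 2 * 2 ^ s * Q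
        ≤ 2 ^ 22 * q ^ 2 * (8 * q ^ D) ^ 2 * 2 ^ s * 2 ^ (q ^ 3) := by
          gcongr
          norm_num
      _ = 2 ^ 28 * q ^ (2 * D + 2) * 2 ^ s * 2 ^ (q ^ 3) := by ring
      _ ≤ 2 ^ 28 * 2 ^ q * 2 ^ s * 2 ^ (q ^ 3) := by gcongr
      _ = 2 ^ (28 + q + s + q ^ 3) := by rw [pow_add, pow_add, pow_add]
      _ ≤ 2 ^ (s + 2 * q ^ 4) := Nat.pow_le_pow_right (by norm_num) (by omega)

theorem four_J1 (s r : ℕ) (hs : 5 ≤ s) (hr : 1 ≤ r) :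
    4 * 2 ^ (s + 2 * r) < 2 ^ 2 ^ (s + r) := by
  have h1 : s + r - 1 < 2 ^ (s + r - 1) := Nat.lt_two_pow_self
  have h2 : 2 ^ (s + r) = 2 * 2 ^ (s + r - 1) := by
    rw [← pow_succ']
    congr 1
    omega
  calc 4 * 2 ^ (s + 2 * r) = 2 ^ (s + 2 * r + 2) := by rw [pow_add _ _ 2]; ring
    _ < 2 ^ 2 ^ (s + r) := Nat.pow_lt_pow_right (by norm_num) (by omega)

end Pool.Agent.Helper9.RS
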