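import Pool.Agent.Helper9.RS.MuDvd
import Pool.Agent.Helper9.RS.OmegaSum

/-!
PROJECT RS, module RS-15. The sum over the elements of `A`.

For `ω(n) ≤ w`: `mu_dvd`, `hh ≤ hb`, `gcd n Q ≤ G` if `gcd n Q ∣ c + i` and the measure is `0` otherwise (`thin_gcd`, then the event is empty): term `≤ 13 mu0 hb G / n`; the sum over `n ∈ A` is `≤ 13 mu0 hb G SS A X (2^(J₁+1))` (all terms are nonnegative; `mu0 ≥ 0`, `hb ≥ 1` by `one_le_hh`). For `ω(n) > w`: `mu_mono`, `mu_triv`: `≤ 4 J₁/n`, and `omega_sum` with `J = J₁ + 1`.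
-/

set_option autoImplicit false

namespace Pool.Agent.Helper9.RS

open Finset

open Classical in
theorem sum_dvd {y s Q lq J₀ J₁ : ℕ} (h : SP y s Q lq J₀ J₁) (A : Set ℕ) (c X w G : ℕ) (hb : ℝ)
    (i : ℤ) (hi : |i| < 2 ^ J₀) (hG : ∀ g : ℕ, g ∣ Q → (g : ℤ) ∣ (c : ℤ) + i → g ≤ G)
    (hhb : ∀ n : ℕ, 0 < n → n.primeFactors.card ≤ w → hh y (2 ^ 2 ^ s) n ≤ hb) :
    ∑ n ∈ Ioc X (2 ^ (J₁ + 1)) with n ∈ A,
      mu J₀ J₁ (fun N => Thin Q c y (2 ^ 2 ^ s) N ∧ (n : ℤ) ∣ (N : ℤ) + i) ≤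
      13 * mu0 y s Q J₁ * hb * G * SS A X (2 ^ (J₁ + 1)) + tau J₁ w := by
  have hQ0 : 0 < Q := h.hQ0
  have hb1 : 1 ≤ hb := (one_le_hh y (2 ^ 2 ^ s) 1).trans (hhb 1 one_pos (by simp))
  have hmu0 : 0 ≤ mu0 y s Q J₁ := by
    refine le_trans ?_ (mu0_ge h)
    positivity
  rw [← sum_filter_add_sum_filter_not ((Ioc X (2 ^ (J₁ + 1))).filter (fun n => n ∈ A))
    (fun n => n.primeFactors.card ≤ w)]
  refine add_le_add ?_ ?_
  · have h1 : ∀ n ∈ ((Ioc X (2 ^ (J₁ + 1))).filter (fun n => n ∈ A)).filter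
        (fun n => n.primeFactors.card ≤ w),
        mu J₀ J₁ (fun N => Thin Q c y (2 ^ 2 ^ s) N ∧ (n : ℤ) ∣ (N : ℤ) + i) ≤
          13 * mu0 y s Q J₁ * hb * G * (1 / (n : ℝ)) := by
      intro n hn
      rw [mem_filter, mem_filter, mem_Ioc] at hn
      have hn0 : 0 < n := by omega
      have hnR : (0 : ℝ) < n := by exact_mod_cast hn0
      by_cases hg : ((Nat.gcd n Q : ℕ) : ℤ) ∣ (c : ℤ) + i
      · have h2 : Nat.gcd n Q ≤ G := hG _ (Nat.gcd_dvd_right n Q) hg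
        have h2' : ((Nat.gcd n Q : ℕ) : ℝ) ≤ G := by exact_mod_cast h2
        have h3 := mu_dvd h c n hn0 i hi
        have h4 : hh y (2 ^ 2 ^ s) n ≤ hb := hhb n hn0 hn.2
        have h5 : 0 ≤ hh y (2 ^ 2 ^ s) n := zero_le_one.trans (one_le_hh _ _ _)
        refine h3.trans ?_
        rw [div_eq_mul_one_div]
        refine mul_le_mul_of_nonneg_right ?_ (by positivity)
        refine mul_le_mul ?_ h2' (Nat.cast_nonneg _) (by positivity)
        exact mul_le_mul_of_nonneg_left h4 (by positivity)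
      · have h2 : mu J₀ J₁ (fun N => Thin Q c y (2 ^ 2 ^ s) N ∧ (n : ℤ) ∣ (N : ℤ) + i) ≤ 0 := by
          refine (mu_mono J₀ J₁ _ (fun _ => False) ?_).trans (le_of_eq ?_)
          · rintro N - - ⟨h3, h4⟩
            exact hg (thin_gcd Q c y _ n N i h3 h4)
          · unfold mu
            simp
        refine h2.trans ?_
        positivity
    refine (sum_le_sum h1).trans ?_
    rw [← mul_sum]
    refine mul_le_mul_of_nonneg_left ?_ (by positivity)
    unfold SS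
    exact sum_le_sum_of_subset_of_nonneg (filter_subset _ _) fun n _ _ => by positivity
  · have h1 : ∀ n ∈ ((Ioc X (2 ^ (J₁ + 1))).filter (fun n => n ∈ A)).filter
        (fun n => ¬ n.primeFactors.card ≤ w),
        mu J₀ J₁ (fun N => Thin Q c y (2 ^ 2 ^ s) N ∧ (n : ℤ) ∣ (N : ℤ) + i) ≤
          4 * (J₁ : ℝ) * (1 / (n : ℝ)) := by
      intro n hn
      rw [mem_filter, mem_filter, mem_Ioc] at hn
      have hn0 : 0 < n := by omega
      refine (mu_mono J₀ J₁ _ (fun N => (n : ℤ) ∣ (N : ℤ) + i) ?_).trans ?_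
      · rintro N - - ⟨-, h4⟩
        exact h4
      · rw [← div_eq_mul_one_div]
        exact mu_triv J₀ J₁ n hn0 i hi
    refine (sum_le_sum h1).trans ?_
    rw [← mul_sum]
    unfold tau
    rw [mul_div_assoc]
    refine mul_le_mul_of_nonneg_left ?_ (by positivity)
    have h2 := omega_sum (J₁ + 1) w
    refine le_trans ?_ (h2.trans (le_of_eq ?_))
    · refine sum_le_sum_of_subset_of_nonneg ?_ fun n _ _ => by positivity
      intro n hn
      rw [mem_filter, mem_filter, mem_Ioc] at hn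
      rw [mem_filter, mem_Ioc]
      exact ⟨⟨by omega, hn.1.1.2⟩, by omega⟩
    · push_cast
      ring

end Pool.Agent.Helper9.RS
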