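import Pool.Agent.Helper9.RS.BrunAP
import Pool.Agent.Helper9.RS.Recip

/-!
PROJECT RS, module RS-07. The thin set.

`mu0_ge`: `mu0 = J₁ V / (4 Q)`, `V ≥ 1 / (1000 2^s)` (`VV_lower`), `h.hmu`.
`thin_lower`: `r = c % Q`; a prime `l ∈ PP y z` (`z = 2^(2^s)`) does not divide `Q` (`h.hQp`), so by `residue` (`i = 0`, `M = Q`) `l ∣ r + Q t ↔ t % l = u l`; `brun_ap` with `P = PP y z`, `Ω l = {u l}`, `κ = 1`, `m := 8 (s+6)`, `M = Q`, `X = 2^j`, `Y = 2^(j+1)`: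
count `≥ L V - L e - E`, `e = (∑ 1/l)^(16(s+6)) / (16(s+6))! ≤ 2^(-16(s+6)) ≤ V/8` (`recip'`, `eps_small`, `VV_lower`), `E = (|P| + 1)^(16(s+6)) ≤ z^(16(s+6)) = 2^(16(s+6) 2^s)` (`|P| + 1 ≤ z`), `L ≥ 2^j/Q - 1`. Put `W = 2^j / Q ≥ 2^(J₀ - lq) ≥ 2^(2^s (16(s+6) + 20))`. Then `1 ≤ W/16`, `E ≤ W 2^(-20 2^s) ≤ W V/8`
(`2^(20 2^s) ≥ 8000 2^s`), count `≥ (15/16) W (7/8) V - W V/8 ≥ W V/2`. `(N ≡ c [MOD Q]` is `N % Q = c % Q`, i.e. `N = r + Q t`.)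
`mu_thin`: sum over `J₀ ≤ j < J₁`: `(J₁ - J₀) V / (2Q) ≥ J₁ V / (4Q)` (`h.hJ1`).
-/

set_option autoImplicit false

namespace Pool.Agent.Helper9.RS

open Finset

private theorem h86_thin_V {y s Q lq J₀ J₁ : ℕ} (h : SP y s Q lq J₀ J₁) :
    1 / (2 : ℝ) ^ (13 + s) ≤ VV y (2 ^ 2 ^ s) / 8 ∧ 0 < VV y (2 ^ 2 ^ s) := by
  have h1 := VV_lower y s (by have := h.hy; omega)
  have h2 : (0 : ℝ) < 2 ^ s := by positivity
  have h3 : (0 : ℝ) < 1 / (1000 * 2 ^ s : ℝ) := by positivity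
  refine ⟨?_, lt_of_lt_of_le h3 h1⟩
  have h4 : 1 / (2 : ℝ) ^ (13 + s) ≤ 1 / (1000 * 2 ^ s : ℝ) / 8 := by
    rw [div_div, pow_add]
    apply one_div_le_one_div_of_le
    · positivity
    · have : (1000 * 2 ^ s : ℝ) * 8 = 8000 * 2 ^ s := by ring
      rw [this]
      apply mul_le_mul_of_nonneg_right _ h2.le
      norm_num
  linarith

private theorem h86_thin_card {y s : ℕ} (hy : 2 ≤ y) :
    ((PP y (2 ^ 2 ^ s)).card : ℝ) + 1 ≤ 2 ^ 2 ^ s := by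
  have h1 : (PP y (2 ^ 2 ^ s)).card ≤ 2 ^ 2 ^ s - y := by
    unfold PP
    refine (Finset.card_filter_le _ _).trans ?_
    rw [Nat.card_Ioc]
  have h2 : 1 ≤ 2 ^ 2 ^ s := Nat.one_le_two_pow
  have h3 : (PP y (2 ^ 2 ^ s)).card + 1 ≤ 2 ^ 2 ^ s := by omega
  exact_mod_cast h3

private theorem h86_thin_num {W V L e E N : ℝ} (hW : 16 ≤ W) (hV : 0 < V) (he : e ≤ V / 8) (he0 : 0 ≤ e)
    (hE : E ≤ W * (V / 8)) (hL : |L - W| ≤ 1) (hN : |N - L * V| ≤ L * e + E) : W * V / 2 ≤ N := by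
  rw [abs_le] at hL hN
  have h1 : W - 1 ≤ L := by linarith [hL.1]
  have hL0 : 0 ≤ L := by linarith
  have h2 : L * e ≤ L * (V / 8) := mul_le_mul_of_nonneg_left he hL0
  have h3 : L * V - L * (V / 8) = L * (7 / 8 * V) := by ring
  have h4 : (15 / 16 * W) * (7 / 8 * V) ≤ L * (7 / 8 * V) := by
    apply mul_le_mul_of_nonneg_right
    · linarith
    · positivity
  have h5 : 0 ≤ W * V := by positivity
  nlinarith [hN.1]

theorem mu0_ge {y s Q lq J₀ J₁ : ℕ} (h : SP y s Q lq J₀ J₁) :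
    1000 * (y : ℝ) * ((s : ℝ) + 6) ^ 2 ≤ mu0 y s Q J₁ := by
  have hV := VV_lower y s (by have := h.hy; omega)
  have hQ : (0 : ℝ) < Q := by exact_mod_cast h.hQ0
  have hmu : (4000000 * (y : ℝ) * ((s : ℝ) + 6) ^ 2 * 2 ^ s * Q) ≤ J₁ := by
    have := h.hmu
    have h2 : ((4000000 * y * (s + 6) ^ 2 * 2 ^ s * Q : ℕ) : ℝ) ≤ (J₁ : ℝ) := by exact_mod_cast this
    push_cast at h2
    exact h2
  have h2s : (0 : ℝ) < 2 ^ s := by positivity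
  unfold mu0
  rw [le_div_iff₀ (by positivity)]
  have h3 : (J₁ : ℝ) * (1 / (1000 * 2 ^ s : ℝ)) ≤ J₁ * VV y (2 ^ 2 ^ s) :=
    mul_le_mul_of_nonneg_left hV (Nat.cast_nonneg _)
  refine le_trans ?_ h3
  rw [mul_one_div, le_div_iff₀ (by positivity)]
  refine le_trans (le_of_eq ?_) hmu
  ring

open Classical in
theorem thin_lower {y s Q lq J₀ J₁ : ℕ} (h : SP y s Q lq J₀ J₁) (c j : ℕ) (hj : J₀ ≤ j) :
    (2 : ℝ) ^ j * VV y (2 ^ 2 ^ s) / (2 * (Q : ℝ)) ≤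
      ((((Ico (2 ^ j) (2 ^ (j + 1))).filter (fun N => Thin Q c y (2 ^ 2 ^ s) N)).card : ℕ) : ℝ) := by
  have hy := h.hy
  have hQ0 : 0 < Q := h.hQ0
  have hQ : (0 : ℝ) < Q := by exact_mod_cast h.hQ0
  have hr : c % Q < Q := Nat.mod_lt _ hQ0
  have hP : ∀ l ∈ PP y (2 ^ 2 ^ s), l.Prime := by
    intro l hl
    unfold PP at hl
    exact (Finset.mem_filter.1 hl).2
  have hPy : ∀ l ∈ PP y (2 ^ 2 ^ s), y < l := by
    intro l hl
    unfold PP at hl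
    exact (Finset.mem_Ioc.1 (Finset.mem_filter.1 hl).1).1
  have hres : ∀ l : ℕ, ∃ u : ℕ, l ∈ PP y (2 ^ 2 ^ s) → u < l ∧
      ∀ t : ℕ, ((l : ℤ) ∣ ((c % Q + Q * t : ℕ) : ℤ) + 0 ↔ t % l = u) := by
    intro l
    by_cases hl : l ∈ PP y (2 ^ 2 ^ s)
    · have hlQ : ¬ l ∣ Q := by
        intro hd
        have := h.hQp l (hP l hl) hd
        have := hPy l hl
        omega
      obtain ⟨u, hu, hu'⟩ := residue l (hP l hl) Q (c % Q) hlQ 0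
      exact ⟨u, fun _ => ⟨hu, hu'⟩⟩
    · exact ⟨0, fun h => absurd h hl⟩
  choose u hu using hres
  obtain ⟨L, hL, hN⟩ := brun_ap (PP y (2 ^ 2 ^ s)) hP (fun l => {u l})
    (by
      intro l hl t ht
      rw [Finset.mem_singleton] at ht
      rw [ht]
      exact (hu l hl).1) 1
    (by
      intro l _
      simp) (8 * (s + 6)) Q (c % Q) (2 ^ j) (2 ^ (j + 1)) hQ0 hr
    (Nat.pow_le_pow_right (by norm_num) (Nat.le_succ j))
  have hset : (Ico (2 ^ j) (2 ^ (j + 1))).filter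
      (fun N => ∃ t : ℕ, N = c % Q + Q * t ∧ ∀ l ∈ PP y (2 ^ 2 ^ s), t % l ∉ ({u l} : Finset ℕ)) =
      (Ico (2 ^ j) (2 ^ (j + 1))).filter (fun N => Thin Q c y (2 ^ 2 ^ s) N) := by
    apply Finset.filter_congr
    intro N _
    unfold Thin
    constructor
    · rintro ⟨t, rfl, ht⟩
      refine ⟨?_, ?_⟩
      · show (c % Q + Q * t) % Q = c % Q
        rw [Nat.add_mul_mod_self_left, Nat.mod_mod]
      · intro l hl hd
        have h1 := ((hu l hl).2 t).1 (by rw [add_zero]; exact_mod_cast hd)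
        exact ht l hl (by rw [Finset.mem_singleton]; exact h1)
    · rintro ⟨h1, h2⟩
      have h1' : N % Q = c % Q := h1
      refine ⟨N / Q, ?_, ?_⟩
      · rw [← h1']
        exact (Nat.mod_add_div N Q).symm
      · intro l hl hm
        rw [Finset.mem_singleton] at hm
        have h3 := ((hu l hl).2 (N / Q)).2 hm
        rw [add_zero, ← h1', Nat.mod_add_div] at h3
        exact h2 l hl (by exact_mod_cast h3)
  have hprod : ∏ l ∈ PP y (2 ^ 2 ^ s), (1 - ((({u l} : Finset ℕ).card : ℕ) : ℝ) / l) = VV y (2 ^ 2 ^ s) := by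
    unfold VV
    simp
  have hsum : ∑ l ∈ PP y (2 ^ 2 ^ s), ((({u l} : Finset ℕ).card : ℕ) : ℝ) / l =
      ∑ l ∈ PP y (2 ^ 2 ^ s), 1 / (l : ℝ) := by
    simp
  rw [hset, hprod, hsum] at hN
  obtain ⟨hV, hV0⟩ := h86_thin_V h
  obtain ⟨V, hVdef⟩ : ∃ V, V = VV y (2 ^ 2 ^ s) := ⟨_, rfl⟩
  rw [← hVdef] at hV hV0 hN ⊢
  obtain ⟨C, hC⟩ : ∃ C : ℝ, C = ((((Ico (2 ^ j) (2 ^ (j + 1))).filter
    (fun N => Thin Q c y (2 ^ 2 ^ s) N)).card : ℕ) : ℝ) := ⟨_, rfl⟩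
  rw [← hC] at hN ⊢
  obtain ⟨W, hW⟩ : ∃ W : ℝ, W = 2 ^ j / Q := ⟨_, rfl⟩
  have hLW : |(L : ℝ) - W| ≤ 1 := by
    have h1 : (((2 ^ (j + 1) : ℕ) : ℝ) - ((2 ^ j : ℕ) : ℝ)) / Q = W := by
      rw [hW]
      push_cast
      rw [pow_succ]
      ring
    rw [h1] at hL
    exact hL
  have hWbig : (2 : ℝ) ^ (2 ^ s * (16 * (s + 6)) + 20 * 2 ^ s) ≤ W := by
    rw [hW, le_div_iff₀ hQ]
    have h1 : (Q : ℝ) ≤ 2 ^ lq := by exact_mod_cast h.hQ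
    have h2 : (2 : ℝ) ^ (2 ^ s * (16 * (s + 6)) + 20 * 2 ^ s) * Q ≤
        2 ^ (2 ^ s * (16 * (s + 6)) + 20 * 2 ^ s) * 2 ^ lq :=
      mul_le_mul_of_nonneg_left h1 (by positivity)
    refine h2.trans ?_
    rw [← pow_add]
    apply pow_le_pow_right₀ (by norm_num)
    have h3 := h.hJ0
    have h4 : 2 ^ s * (16 * (s + 6) + 20) = 2 ^ s * (16 * (s + 6)) + 20 * 2 ^ s := by ring
    rw [h4] at h3
    omega
  have hs2 : s < 2 ^ s := Nat.lt_two_pow_self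
  have hW16 : 16 ≤ W := by
    refine le_trans ?_ hWbig
    have h1 : (16 : ℝ) = 2 ^ 4 := by norm_num
    rw [h1]
    apply pow_le_pow_right₀ (by norm_num)
    omega
  have hE : (((1 : ℕ) : ℝ) * (PP y (2 ^ 2 ^ s)).card + 1) ^ (2 * (8 * (s + 6))) ≤ W * (V / 8) := by
    have h1 : (((1 : ℕ) : ℝ) * (PP y (2 ^ 2 ^ s)).card + 1) ^ (2 * (8 * (s + 6))) ≤
        (2 : ℝ) ^ (2 ^ s * (16 * (s + 6))) := by
      rw [pow_mul (2 : ℝ) (2 ^ s)]
      have h2 : 2 * (8 * (s + 6)) = 16 * (s + 6) := by ring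
      rw [h2]
      apply pow_le_pow_left₀ (by positivity)
      have h3 := h86_thin_card (s := s) hy
      rw [Nat.cast_one, one_mul]
      exact h3
    have h4 : (2 : ℝ) ^ (2 ^ s * (16 * (s + 6))) * 2 ^ (20 * 2 ^ s) * (1 / 2 ^ (13 + s)) ≤ W * (V / 8) := by
      rw [← pow_add]
      exact mul_le_mul hWbig hV (by positivity) (by linarith)
    refine h1.trans (le_trans ?_ h4)
    rw [mul_assoc, mul_one_div]
    apply le_mul_of_one_le_right (by positivity)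
    rw [le_div_iff₀ (by positivity), one_mul]
    apply pow_le_pow_right₀ (by norm_num)
    omega
  have hS0 : 0 ≤ ∑ l ∈ PP y (2 ^ 2 ^ s), 1 / (l : ℝ) := Finset.sum_nonneg fun l _ => by positivity
  have he : (∑ l ∈ PP y (2 ^ 2 ^ s), 1 / (l : ℝ)) ^ (2 * (8 * (s + 6))) /
      (((2 * (8 * (s + 6))).factorial : ℕ) : ℝ) ≤ V / 8 := by
    have h2 : 2 * (8 * (s + 6)) = 16 * (s + 6) := by ring
    rw [h2]
    have h3 : (∑ l ∈ PP y (2 ^ 2 ^ s), 1 / (l : ℝ)) ^ (16 * (s + 6)) ≤ ((s : ℝ) + 6) ^ (16 * (s + 6)) :=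
      pow_le_pow_left₀ hS0 (recip' y s) _
    refine (div_le_div_of_nonneg_right h3 (by positivity)).trans ((eps_small s).trans ?_)
    refine le_trans ?_ hV
    apply one_div_le_one_div_of_le (by positivity)
    apply pow_le_pow_right₀ (by norm_num)
    omega
  have hfin := h86_thin_num hW16 hV0 he (by positivity) hE hLW hN
  refine le_trans (le_of_eq ?_) hfin
  rw [hW]
  field_simp

theorem mu_thin {y s Q lq J₀ J₁ : ℕ} (h : SP y s Q lq J₀ J₁) (c : ℕ) :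
    mu0 y s Q J₁ ≤ mu J₀ J₁ (fun N => Thin Q c y (2 ^ 2 ^ s) N) := by
  classical
  have hQ : (0 : ℝ) < Q := by exact_mod_cast h.hQ0
  obtain ⟨-, hV0⟩ := h86_thin_V h
  unfold mu0 mu
  have h1 : ∑ j ∈ Ico J₀ J₁, VV y (2 ^ 2 ^ s) / (2 * (Q : ℝ)) ≤
      ∑ j ∈ Ico J₀ J₁, ((((Ico (2 ^ j) (2 ^ (j + 1))).filter
        (fun N => Thin Q c y (2 ^ 2 ^ s) N)).card : ℕ) : ℝ) / 2 ^ j := by
    apply Finset.sum_le_sum
    intro j hj
    rw [Finset.mem_Ico] at hj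
    have h2 := thin_lower h c j hj.1
    rw [le_div_iff₀ (by positivity)]
    refine le_trans (le_of_eq ?_) h2
    ring
  refine le_trans ?_ h1
  rw [Finset.sum_const, Nat.card_Ico, nsmul_eq_mul, Nat.cast_sub (by have := h.hJ1; omega)]
  have h3 : (2 : ℝ) * J₀ ≤ J₁ := by exact_mod_cast h.hJ1
  have h4 : (J₁ : ℝ) * VV y (2 ^ 2 ^ s) / (4 * Q) = (J₁ / 2) * (VV y (2 ^ 2 ^ s) / (2 * Q)) := by
    field_simp
    ring
  rw [h4]
  apply mul_le_mul_of_nonneg_right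
  · linarith
  · positivity

end Pool.Agent.Helper9.RS
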