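import Pool.Agent.Helper9.RS.BrunAP
import Pool.Agent.Helper9.RS.Defs

/-!
PROJECT RS, module RS-21. Counting the integers of a given type.

Let `M = Q TT θ`. The primes of `θ` are distinct (`hinj`), `> y`, so prime to `Q` (`hQp`), `TT θ` is squarefree. By the Chinese remainder theorem there is `r < M` with: `N ≡ c [MOD Q]` and `l ∣ N + i` for all `(l, i) ∈ θ` iff `N = r + M t` (induction on `θ`; or `Nat.chineseRemainderOfFinset`). For a prime `l > y ≥ 2H+1` at most one `i` with `|i| ≤ H` satisfies `l ∣ N + i`.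
So for `N = r + M t`: [`Thin`, `theta N = θ`, no squares] iff for all `l ∈ PP y z`: if `(l, i) ∈ θ`: `¬ l^2 ∣ N + i`, i.e. `t % l ≠ u` (`residue2`: `l ∣ M`, `¬ l^2 ∣ M`, `l ∣ r + i`); if `l` is not in `θ`: `¬ l ∣ N + i` for all `|i| ≤ H` (including `0`), i.e. `t % l ∉ {u_i}`, `2H+1` different residues (`residue`; `u_i = u_i'` would give `l ∣ i - i'`).
`brun_ap` with `κ = 2H+1` and `∑ |Ω l|/l ≤ (2H+1) ∑ 1/l`.
-/

set_option autoImplicit false

namespace Pool.Agent.Helper9.RS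

open Finset

private theorem tc_ndvd {y Q l : ℕ} (hl : l.Prime) (hly : y < l)
    (hQp : ∀ l : ℕ, l.Prime → l ∣ Q → l ≤ y) (θ : Finset (ℕ × ℤ)) (hp : ∀ x ∈ θ, x.1.Prime)
    (hn : ∀ x ∈ θ, x.1 ≠ l) : ¬ l ∣ Q * TT θ := by
  intro h
  rcases hl.dvd_mul.1 h with h1 | h1
  · have := hQp l hl h1
    omega
  · obtain ⟨x, hx, hlx⟩ := (hl.prime.dvd_finsetProd_iff _).1 h1
    exact hn x hx ((Nat.prime_dvd_prime_iff_eq hl (hp x hx)).1 hlx).symm

private theorem tc_crt (y Q c : ℕ) (hQ : 0 < Q) (hQp : ∀ l : ℕ, l.Prime → l ∣ Q → l ≤ y)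
    (θ : Finset (ℕ × ℤ)) :
    (∀ x ∈ θ, x.1.Prime ∧ y < x.1) → (∀ x ∈ θ, ∀ x' ∈ θ, x.1 = x'.1 → x = x') →
    ∃ r, r < Q * TT θ ∧ ∀ N : ℕ, (N ≡ c [MOD Q] ∧ ∀ x ∈ θ, (x.1 : ℤ) ∣ (N : ℤ) + x.2) ↔
      N % (Q * TT θ) = r := by
  classical
  induction θ using Finset.induction_on with
  | empty =>
    intro _ _
    have h1 : Q * TT ∅ = Q := by
      unfold TT
      rw [prod_empty, mul_one]
    rw [h1]
    refine ⟨c % Q, Nat.mod_lt _ hQ, fun N => ?_⟩
    constructor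
    · exact fun h => h.1
    · exact fun h => ⟨h, fun x hx => absurd hx (notMem_empty x)⟩
  | insert a s ha ih =>
    intro hp hinj
    obtain ⟨r', hr', hN'⟩ := ih (fun x hx => hp x (mem_insert_of_mem hx))
      (fun x hx x' hx' => hinj x (mem_insert_of_mem hx) x' (mem_insert_of_mem hx'))
    have hpa := hp a (mem_insert_self a s)
    have hnd : ¬ a.1 ∣ Q * TT s := by
      refine tc_ndvd hpa.1 hpa.2 hQp s (fun x hx => (hp x (mem_insert_of_mem hx)).1) ?_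
      intro x hx hxa
      have h1 := hinj x (mem_insert_of_mem hx) a (mem_insert_self a s) hxa
      rw [h1] at hx
      exact ha hx
    have hco : Nat.Coprime (Q * TT s) a.1 := ((Nat.Prime.coprime_iff_not_dvd hpa.1).2 hnd).symm
    obtain ⟨u, hu, hus⟩ := residue a.1 hpa.1 1 0 (by
      intro h
      exact hpa.1.one_lt.ne' (Nat.dvd_one.1 h)) a.2
    have hT : Q * TT (insert a s) = Q * TT s * a.1 := by
      unfold TT
      rw [prod_insert ha]
      ring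
    rw [hT]
    have hM0 : 0 < Q * TT s := lt_of_le_of_lt (Nat.zero_le _) hr'
    have hk := (Nat.chineseRemainder hco r' u).2
    have hklt := Nat.chineseRemainder_lt_mul hco r' u hM0.ne' hpa.1.pos.ne'
    refine ⟨(Nat.chineseRemainder hco r' u : ℕ), hklt, fun N => ?_⟩
    have e1 : (N ≡ c [MOD Q] ∧ ∀ x ∈ insert a s, (x.1 : ℤ) ∣ (N : ℤ) + x.2) ↔
        (N % (Q * TT s) = r' ∧ N % a.1 = u) := by
      rw [← hN' N, ← hus N, zero_add, one_mul]
      constructor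
      · rintro ⟨h1, h2⟩
        exact ⟨⟨h1, fun x hx => h2 x (mem_insert_of_mem hx)⟩, h2 a (mem_insert_self a s)⟩
      · rintro ⟨⟨h1, h2⟩, h3⟩
        refine ⟨h1, fun x hx => ?_⟩
        rcases mem_insert.1 hx with rfl | hx
        · exact h3
        · exact h2 x hx
    rw [e1]
    have h1 : r' % (Q * TT s) = r' := Nat.mod_eq_of_lt hr'
    have h2 : u % a.1 = u := Nat.mod_eq_of_lt hu
    have h3 : (Nat.chineseRemainder hco r' u : ℕ) % (Q * TT s) = r' := by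
      have := hk.1
      unfold Nat.ModEq at this
      rw [this, h1]
    have h4 : (Nat.chineseRemainder hco r' u : ℕ) % a.1 = u := by
      have := hk.2
      unfold Nat.ModEq at this
      rw [this, h2]
    have h5 := Nat.modEq_and_modEq_iff_modEq_mul (a := N)
      (b := (Nat.chineseRemainder hco r' u : ℕ)) hco
    unfold Nat.ModEq at h5
    rw [h3, h4, Nat.mod_eq_of_lt hklt] at h5
    exact h5

/-- the condition at the prime `l` -/
private def TcCond (θ : Finset (ℕ × ℤ)) (H M r l s : ℕ) : Prop :=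
  (∀ x ∈ θ, x.1 = l → ¬ (l : ℤ) ^ 2 ∣ ((r + M * s : ℕ) : ℤ) + x.2) ∧
    ((∀ x ∈ θ, x.1 ≠ l) → ∀ i : ℤ, |i| ≤ H → ¬ (l : ℤ) ∣ ((r + M * s : ℕ) : ℤ) + i)

private theorem tc_eq {H l : ℕ} (hl : 2 * H < l) {i j a : ℤ} (hi : |i| ≤ H) (hj : |j| ≤ H)
    (h1 : (l : ℤ) ∣ a + i) (h2 : (l : ℤ) ∣ a + j) : i = j := by
  have h3 : (l : ℤ) ∣ i - j := by
    have := dvd_sub h1 h2
    rwa [add_sub_add_left_eq_sub] at this
  have h4 : |i - j| < l := by
    calc |i - j| ≤ |i| + |j| := abs_sub _ _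
      _ < l := by omega
  have := Int.eq_zero_of_abs_lt_dvd h3 h4
  omega

private theorem tc_mem_PP {y z l : ℕ} (h : l ∈ PP y z) : l.Prime ∧ y < l := by
  unfold PP at h
  rw [mem_filter, mem_Ioc] at h
  exact ⟨h.2, h.1.1⟩

private theorem tc_abs {H : ℕ} {i : ℤ} (h : i ∈ IH H) : |i| ≤ H ∧ i ≠ 0 := by
  unfold IH at h
  rw [mem_erase, mem_Icc] at h
  exact ⟨abs_le.2 h.2, h.1⟩

open Classical in
private theorem tc_omega (y z H Q : ℕ) (hH : 2 * H + 1 ≤ y) (hQp : ∀ l : ℕ, l.Prime → l ∣ Q → l ≤ y)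
    (θ : Finset (ℕ × ℤ)) (hθ : θ ⊆ PP y z ×ˢ IH H) (hinj : ∀ x ∈ θ, ∀ x' ∈ θ, x.1 = x'.1 → x = x')
    (r : ℕ) (hr : ∀ x ∈ θ, (x.1 : ℤ) ∣ (r : ℤ) + x.2) (l : ℕ) (hl : l ∈ PP y z) :
    ∃ W : Finset ℕ, (∀ t ∈ W, t < l) ∧ W.card = (if l ∈ θ.image Prod.fst then 1 else 2 * H + 1) ∧
      ∀ s, s % l ∉ W ↔ TcCond θ H (Q * TT θ) r l s := by
  have hlp := tc_mem_PP hl
  have hp : ∀ x ∈ θ, x.1.Prime := fun x hx => (tc_mem_PP (mem_product.1 (hθ hx)).1).1
  by_cases hm : l ∈ θ.image Prod.fst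
  · rw [if_pos hm]
    obtain ⟨x, hx, hxl⟩ := mem_image.1 hm
    have hu0 : ∀ x' ∈ θ, x'.1 = l → x' = x := fun x' hx' h => hinj x' hx' x hx (h.trans hxl.symm)
    have hT : Q * TT θ = l * (Q * TT (θ.erase x)) := by
      unfold TT
      rw [← mul_prod_erase θ Prod.fst hx, hxl]
      ring
    have hnd : ¬ l ∣ Q * TT (θ.erase x) := by
      refine tc_ndvd hlp.1 hlp.2 hQp _ (fun x' hx' => hp x' (mem_of_mem_erase hx')) ?_
      intro x' hx' h
      exact (ne_of_mem_erase hx') (hu0 x' (mem_of_mem_erase hx') h)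
    obtain ⟨u, hu, hus⟩ := residue2 l hlp.1 (Q * TT θ) r (by rw [hT]; exact Dvd.intro _ rfl)
      (by
        rw [hT, sq]
        intro h
        exact hnd (Nat.dvd_of_mul_dvd_mul_left hlp.1.pos h)) x.2 (by
        have := hr x hx
        rwa [hxl] at this)
    refine ⟨{u}, fun t ht => by rw [mem_singleton.1 ht]; exact hu, card_singleton u, fun s => ?_⟩
    rw [mem_singleton, ← hus s]
    constructor
    · intro h
      refine ⟨fun x' hx' h' => ?_, fun h' => absurd hxl (h' x hx)⟩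
      rw [hu0 x' hx' h']
      exact h
    · intro h
      exact h.1 x hx hxl
  · rw [if_neg hm]
    have hn : ∀ x ∈ θ, x.1 ≠ l := fun x hx h => hm (mem_image.2 ⟨x, hx, h⟩)
    have hnd : ¬ l ∣ Q * TT θ := tc_ndvd hlp.1 hlp.2 hQp θ hp hn
    choose u hu hus using residue l hlp.1 (Q * TT θ) r hnd
    refine ⟨(Icc (-(H : ℤ)) H).image u, ?_, ?_, ?_⟩
    · intro t ht
      obtain ⟨i, -, rfl⟩ := mem_image.1 ht
      exact hu i
    · rw [card_image_of_injOn, Int.card_Icc]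
      · omega
      · intro i hi j hj hij
        rw [mem_coe, mem_Icc] at hi hj
        have h1 := (hus i (u i)).2 (Nat.mod_eq_of_lt (hu i))
        have h2 := (hus j (u i)).2 (by rw [Nat.mod_eq_of_lt (hu i)]; exact hij)
        exact tc_eq (by omega) (abs_le.2 hi) (abs_le.2 hj) h1 h2
    · intro s
      unfold TcCond
      constructor
      · intro h
        refine ⟨fun x hx h' => absurd h' (hn x hx), fun _ i hi hd => h ?_⟩
        exact mem_image.2 ⟨i, mem_Icc.2 (abs_le.1 hi), ((hus i s).1 hd).symm⟩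
      · rintro ⟨-, h⟩ hmem
        obtain ⟨i, hi, hui⟩ := mem_image.1 hmem
        exact h hn i (abs_le.2 (mem_Icc.1 hi)) ((hus i s).2 hui.symm)

open Classical in
private theorem tc_iff (y z H Q c : ℕ) (hH : 2 * H + 1 ≤ y) (θ : Finset (ℕ × ℤ))
    (hθ : θ ⊆ PP y z ×ˢ IH H) (r : ℕ) (hr : r < Q * TT θ)
    (hN : ∀ N : ℕ, (N ≡ c [MOD Q] ∧ ∀ x ∈ θ, (x.1 : ℤ) ∣ (N : ℤ) + x.2) ↔ N % (Q * TT θ) = r)
    (N : ℕ) :
    (Thin Q c y z N ∧ theta y z H N = θ ∧ ∀ x ∈ θ, ¬ ((x.1 : ℤ) ^ 2 ∣ (N : ℤ) + x.2)) ↔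
      ∃ s : ℕ, N = r + Q * TT θ * s ∧ ∀ l ∈ PP y z, TcCond θ H (Q * TT θ) r l s := by
  constructor
  · rintro ⟨⟨h1, h2⟩, h3, h4⟩
    have h5 : N % (Q * TT θ) = r := by
      rw [← hN N]
      refine ⟨h1, fun x hx => ?_⟩
      rw [← h3] at hx
      unfold theta at hx
      exact (mem_filter.1 hx).2
    have h6 : N = r + Q * TT θ * (N / (Q * TT θ)) := by
      rw [← h5]
      exact (Nat.mod_add_div N (Q * TT θ)).symm
    refine ⟨N / (Q * TT θ), h6, fun l hl => ?_⟩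
    unfold TcCond
    rw [← h6]
    refine ⟨fun x hx hxl => ?_, fun hn i hi hd => ?_⟩
    · rw [← hxl]
      exact h4 x hx
    · by_cases hi0 : i = 0
      · rw [hi0, add_zero] at hd
        exact h2 l hl (Int.natCast_dvd_natCast.1 hd)
      · have h7 : (l, i) ∈ theta y z H N := by
          unfold theta
          refine mem_filter.2 ⟨mem_product.2 ⟨hl, ?_⟩, hd⟩
          unfold IH
          exact mem_erase.2 ⟨hi0, mem_Icc.2 (abs_le.1 hi)⟩
        rw [h3] at h7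
        exact hn _ h7 rfl
  · rintro ⟨s, hs, hc⟩
    have h5 : N % (Q * TT θ) = r := by
      rw [hs, Nat.add_mul_mod_self_left, Nat.mod_eq_of_lt hr]
    obtain ⟨h1, h2⟩ := (hN N).2 h5
    have hc' : ∀ l ∈ PP y z, (∀ x ∈ θ, x.1 = l → ¬ (l : ℤ) ^ 2 ∣ (N : ℤ) + x.2) ∧
        ((∀ x ∈ θ, x.1 ≠ l) → ∀ i : ℤ, |i| ≤ H → ¬ (l : ℤ) ∣ (N : ℤ) + i) := by
      intro l hl
      have := hc l hl
      unfold TcCond at this
      rw [← hs] at this
      exact this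
    refine ⟨⟨h1, fun l hl hd => ?_⟩, ?_, fun x hx => ?_⟩
    · have hlp := tc_mem_PP hl
      by_cases hm : ∀ x ∈ θ, x.1 ≠ l
      · refine (hc' l hl).2 hm 0 (by simp) ?_
        rw [add_zero]
        exact Int.natCast_dvd_natCast.2 hd
      · push Not at hm
        obtain ⟨x, hx, hxl⟩ := hm
        have h6 := h2 x hx
        rw [hxl] at h6
        have h7 := tc_abs (mem_product.1 (hθ hx)).2
        refine h7.2 (tc_eq (l := l) (H := H) (a := N) (by omega) h7.1 (by simp) h6 ?_)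
        rw [add_zero]
        exact Int.natCast_dvd_natCast.2 hd
    · ext ⟨l, i⟩
      unfold theta
      rw [mem_filter, mem_product]
      constructor
      · rintro ⟨⟨hl, hi⟩, hd⟩
        have hlp := tc_mem_PP hl
        have hia := tc_abs hi
        by_cases hm : ∀ x ∈ θ, x.1 ≠ l
        · exact absurd hd ((hc' l hl).2 hm i hia.1)
        · push Not at hm
          obtain ⟨x, hx, hxl⟩ := hm
          have h6 := h2 x hx
          rw [hxl] at h6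
          have h7 := tc_abs (mem_product.1 (hθ hx)).2
          have h8 : x.2 = i := tc_eq (by omega) h7.1 hia.1 h6 hd
          have h9 : x = (l, i) := Prod.ext hxl h8
          rwa [← h9]
      · intro hx
        exact ⟨mem_product.1 (hθ hx), h2 _ hx⟩
    · exact (hc' x.1 (mem_product.1 (hθ hx)).1).1 x hx rfl

open Classical in
theorem type_count (y z H Q c m X Y : ℕ) (hH : 2 * H + 1 ≤ y) (hQ : 0 < Q)
    (hQp : ∀ l : ℕ, l.Prime → l ∣ Q → l ≤ y) (hXY : X ≤ Y) (θ : Finset (ℕ × ℤ))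
    (hθ : θ ⊆ PP y z ×ˢ IH H) (hinj : ∀ x ∈ θ, ∀ x' ∈ θ, x.1 = x'.1 → x = x') :
    ∃ L : ℕ, |(L : ℝ) - ((Y : ℝ) - X) / ((Q : ℝ) * TT θ)| ≤ 1 ∧
      |((((Ico X Y).filter (fun N => Thin Q c y z N ∧ theta y z H N = θ ∧
        ∀ x ∈ θ, ¬ ((x.1 : ℤ) ^ 2 ∣ (N : ℤ) + x.2))).card : ℕ) : ℝ) -
        L * ∏ l ∈ PP y z, (1 - (if l ∈ θ.image Prod.fst then 1 else 2 * (H : ℝ) + 1) / l)| ≤
        L * (((2 * (H : ℝ) + 1) * ∑ l ∈ PP y z, 1 / (l : ℝ)) ^ (2 * m) /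
          ((Nat.factorial (2 * m) : ℕ) : ℝ)) +
          ((2 * (H : ℝ) + 1) * (PP y z).card + 1) ^ (2 * m) := by
  have hp : ∀ x ∈ θ, x.1.Prime ∧ y < x.1 := fun x hx => tc_mem_PP (mem_product.1 (hθ hx)).1
  obtain ⟨r, hr, hN⟩ := tc_crt y Q c hQ hQp θ hp hinj
  have hrd : ∀ x ∈ θ, (x.1 : ℤ) ∣ (r : ℤ) + x.2 := ((hN r).2 (Nat.mod_eq_of_lt hr)).2
  have hex := tc_omega y z H Q hH hQp θ hθ hinj r hrd
  choose! Ω hΩ1 hΩ2 hΩ3 using hex
  have hM : 0 < Q * TT θ := lt_of_le_of_lt (Nat.zero_le _) hr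
  obtain ⟨L, hL1, hL2⟩ := brun_ap (PP y z) (fun l hl => (tc_mem_PP hl).1) Ω hΩ1 (2 * H + 1)
    (fun l hl => by
      rw [hΩ2 l hl]
      split_ifs <;> omega) m (Q * TT θ) r X Y hM hr hXY
  refine ⟨L, by rw [← Nat.cast_mul]; exact hL1, ?_⟩
  have hcardR : ∀ l ∈ PP y z, ((Ω l).card : ℝ) =
      (if l ∈ θ.image Prod.fst then (1 : ℝ) else 2 * (H : ℝ) + 1) := by
    intro l hl
    rw [hΩ2 l hl]
    split_ifs
    · exact Nat.cast_one
    · push_cast
      ring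
  have e1 : (Ico X Y).filter (fun N => Thin Q c y z N ∧ theta y z H N = θ ∧
      ∀ x ∈ θ, ¬ ((x.1 : ℤ) ^ 2 ∣ (N : ℤ) + x.2)) =
      (Ico X Y).filter (fun N => ∃ s : ℕ, N = r + Q * TT θ * s ∧ ∀ l ∈ PP y z, s % l ∉ Ω l) := by
    apply filter_congr
    intro N _
    rw [tc_iff y z H Q c hH θ hθ r hr hN N]
    constructor
    · rintro ⟨s, h1, h2⟩
      exact ⟨s, h1, fun l hl => (hΩ3 l hl s).2 (h2 l hl)⟩
    · rintro ⟨s, h1, h2⟩
      exact ⟨s, h1, fun l hl => (hΩ3 l hl s).1 (h2 l hl)⟩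
  have e2 : ∏ l ∈ PP y z, (1 - ((Ω l).card : ℝ) / l) =
      ∏ l ∈ PP y z, (1 - (if l ∈ θ.image Prod.fst then 1 else 2 * (H : ℝ) + 1) / l) :=
    prod_congr rfl fun l hl => by rw [hcardR l hl]
  rw [e1, ← e2]
  refine hL2.trans ?_
  have h0 : 0 ≤ ∑ l ∈ PP y z, ((Ω l).card : ℝ) / l := sum_nonneg fun l _ => by positivity
  have h1 : ∑ l ∈ PP y z, ((Ω l).card : ℝ) / l ≤ (2 * (H : ℝ) + 1) * ∑ l ∈ PP y z, 1 / (l : ℝ) := by
    rw [mul_sum]
    refine sum_le_sum fun l hl => ?_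
    rw [mul_one_div]
    apply div_le_div_of_nonneg_right _ (Nat.cast_nonneg l)
    rw [hcardR l hl]
    split_ifs
    · have : (0 : ℝ) ≤ H := Nat.cast_nonneg H
      linarith
    · exact le_rfl
  apply add_le_add
  · apply mul_le_mul_of_nonneg_left _ (Nat.cast_nonneg L)
    apply div_le_div_of_nonneg_right _ (Nat.cast_nonneg _)
    exact pow_le_pow_left₀ h0 h1 _
  · push_cast
    exact le_rfl

end Pool.Agent.Helper9.RS
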